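import Pool.Agent.helper59.LD.RealF

/-!
# The real family
-/

open PowerSeries Filter

set_option linter.unusedSectionVars false

namespace Pool.Agent.helper59.LD

open LC

noncomputable section

section data
variable {p : Fin 2 → MvPolynomial (Fin 2) ℂ} {g : Fin 2 → Polynomial ℂ}
  {lam : MvPolynomial (Fin 2) ℂ}

/-- the perturbation with constant Melnikov function -/
def Hc (p : Fin 2 → MvPolynomial (Fin 2) ℂ) (lam : MvPolynomial (Fin 2) ℂ) :
    MvPolynomial (Fin 2) ℂ := hF p lam 0 (PP p 0) 0 + hF p lam 1 (PP p 1) 0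

theorem Hc_pr (hpr : ∀ i, csw (p i) = p (i + 1)) (hlr : csw lam = lam) :
    pr (Hc p lam) = fun j => hF p lam 0 (PP p 0) j + hF p lam 1 (PP p 1) j := by
  have e0 : (0 : Fin 2) + 1 = 1 := rfl
  have e1 : (1 : Fin 2) + 1 = 0 := rfl
  funext j
  fin_cases j
  · rfl
  · change csw (Hc p lam) = hF p lam 0 (PP p 0) 1 + hF p lam 1 (PP p 1) 1
    rw [Hc, hF, hF, hF, hF]
    simp only [if_true, e0, e1]
    rw [if_neg (by decide), if_neg (by decide)]
    simp only [map_add, map_mul, map_neg, csw_pderiv, csw_PP hpr, hlr, e0, e1]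
    ring

theorem MM_hF_P (hp : ∀ i, Low (p i)) (hl : MvPolynomial.constantCoeff lam = 1) (i : Fin 2)
    (μ : ℕ) : MM p g lam (hF p lam i (PP p i)) μ = if μ = 0 then 1 else 0 := by
  rw [MM_hF hp g hl]
  have h1 : ev2 (xy p g) (PP p i) = emb (eI i) (psi (g i)) := by
    have := (isSol_xy hp g).2 i
    rw [PP, ev2_add, ev2_X]
    exact this
  have h2 := tc_emb_mul (eI_ne i) μ (rec' (psi (g i)) * psi (g i)) 1
  rw [map_one, mul_one, map_mul] at h2
  rw [h1, h2, coeff_one]
  split_ifs with h
  · rw [h, mul_one]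
    have h3 := (isPsi_psi (g i)).mul_rec
    have h4 := (isPsi_psi (g i)).2.1
    have h0 : coeff 0 (psi (g i)) = 0 := by
      have := (isPsi_psi (g i)).1
      rwa [X_dvd_iff, ← coeff_zero_eq_constantCoeff_apply] at this
    have h5 : coeff 0 (rec' (psi (g i))) = 1 := by
      have h6 := congrArg (coeff 0) h3
      simpa [coeff_mul, coeff_derivative, h4] using h6
    rw [coeff_mul, Finset.Nat.sum_antidiagonal_eq_sum_range_succ_mk]
    simp [Finset.sum_range_succ, h0, h4, h5]
  · rw [mul_zero]

theorem MM_Hc (hp : ∀ i, Low (p i)) (hpr : ∀ i, csw (p i) = p (i + 1))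
    (hl : MvPolynomial.constantCoeff lam = 1)
    (hlr : csw lam = lam) (μ : ℕ) :
    MM p g lam (pr (Hc p lam)) μ = if μ = 0 then 2 else 0 := by
  rw [Hc_pr hpr hlr, MM_add, MM_hF_P hp hl, MM_hF_P hp hl]
  split_ifs <;> norm_num

/-- the two real parts -/
def Hb (h : Fin 2 → MvPolynomial (Fin 2) ℂ) (b : Bool) : MvPolynomial (Fin 2) ℂ :=
  if b then h 0 + csw (h 1) else MvPolynomial.C Complex.I * (h 0 - csw (h 1))

theorem td_Hb {h : Fin 2 → MvPolynomial (Fin 2) ℂ} {n : ℕ} (hh : ∀ j, TD (h j) n) (b : Bool) :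
    TD (Hb h b) n := by
  rw [Hb]
  split_ifs
  · exact (hh 0).add (hh 1).csw
  · exact ((td_C _ 0).mul ((hh 0).sub (hh 1).csw)).mono (by omega)

theorem MM_Hb (h : Fin 2 → MvPolynomial (Fin 2) ℂ) (μ : ℕ) :
    MM p g lam h μ = 1 / 2 * MM p g lam (pr (Hb h true)) μ +
      1 / (2 * Complex.I) * MM p g lam (pr (Hb h false)) μ := by
  rw [← MM_smul, ← MM_smul, ← MM_add]
  congr 1
  have h2 : (MvPolynomial.C (1 / 2) : MvPolynomial (Fin 2) ℂ) * 2 = 1 := by
    have : (2 : MvPolynomial (Fin 2) ℂ) = MvPolynomial.C 2 := by rw [map_ofNat]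
    rw [this, ← map_mul]
    norm_num
  have h3 : (MvPolynomial.C (1 / (2 * Complex.I)) : MvPolynomial (Fin 2) ℂ) *
      MvPolynomial.C Complex.I = MvPolynomial.C (1 / 2) := by
    rw [← map_mul]
    congr 1
    have := Complex.I_ne_zero
    field_simp
  funext j
  fin_cases j
  · change h 0 = MvPolynomial.C (1 / 2) * (h 0 + csw (h 1)) +
      MvPolynomial.C (1 / (2 * Complex.I)) * (MvPolynomial.C Complex.I * (h 0 - csw (h 1)))
    linear_combination (-(h 0)) * h2 - (h 0 - csw (h 1)) * h3
  · change h 1 = MvPolynomial.C (1 / 2) * csw (h 0 + csw (h 1)) +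
      MvPolynomial.C (1 / (2 * Complex.I)) * csw (MvPolynomial.C Complex.I * (h 0 - csw (h 1)))
    rw [map_add, map_mul, map_sub, csw_csw, csw_C, Complex.conj_I, map_neg]
    linear_combination (-(h 1)) * h2 - (h 1 - csw (h 0)) * h3

end data

/-- **the real family** -/
theorem real_family {n K : ℕ} (R : RPt n K) :
    ∃ H : Fin (K + 1) → MvPolynomial (Fin 2) ℂ, (∀ i, TD (H i) n) ∧ H 0 = Hc R.p R.lam ∧
      LinearIndependent ℝ (fun i μ => (MMp R.p R.g R.lam (pr (H i)) 0 μ).re) := by
  classical
  set Hf : Option (Fin K × Bool) → MvPolynomial (Fin 2) ℂ := fun o => match o with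
    | none => Hc R.p R.lam
    | some x => Hb (R.h x.1) x.2 with hHf
  set ρ : Option (Fin K × Bool) → ℕ → ℝ := fun o μ =>
    (MMp R.p R.g R.lam (pr (Hf o)) 0 μ).re with hρ
  have hMM : ∀ o μ, MM R.p R.g R.lam (pr (Hf o)) μ = 2 * ((ρ o μ : ℝ) : ℂ) := by
    intro o μ
    rw [(conj_MM_pr R.low R.preal R.greal R.lconst R.lreal (Hf o) μ).2]
    push_cast
    rfl
  have hnone : ρ none ≠ 0 := by
    intro h
    have h1 := hMM none 0
    rw [h] at h1
    have h2 := MM_Hc (g := R.g) R.low R.preal R.lconst R.lreal 0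
    rw [if_pos rfl] at h2
    have h3 : Hf none = Hc R.p R.lam := rfl
    rw [h3, h2] at h1
    simp at h1
  have hs : LinearIndepOn ℝ ρ {none} := by
    rw [linearIndepOn_singleton_iff]
    exact hnone
  obtain ⟨b, -, hb1, hb2, hb3⟩ := exists_linearIndepOn_extension hs (Set.subset_univ _)
  -- the complex family
  set u : Option (Fin K) → ℕ → ℂ := fun o => match o with
    | none => fun μ => if μ = 0 then 2 else 0
    | some i => fun μ => MM R.p R.g R.lam (R.h i) μ with hu
  have hui : LinearIndependent ℂ u := by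
    rw [Fintype.linearIndependent_iff]
    intro c hc
    have h1 : ∀ i, c (some i) = 0 := by
      have h2 := Fintype.linearIndependent_iff.1 R.ind (fun i => c (some i)) (by
        funext μ
        have h3 := congrFun hc (μ + 1)
        rw [Fintype.sum_option] at h3
        simpa [hu] using h3)
      exact h2
    intro o
    rcases o with _ | i
    · have h3 := congrFun hc 0
      rw [Fintype.sum_option] at h3
      simp only [h1, zero_smul, Finset.sum_const_zero, add_zero] at h3
      simpa [hu] using h3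
    · exact h1 i
  -- embedding of the real sequences
  set J : (ℕ → ℝ) →ₗ[ℝ] (ℕ → ℂ) :=
    { toFun := fun f μ => ((f μ : ℝ) : ℂ)
      map_add' := fun f f' => by funext μ; simp
      map_smul' := fun c f => by funext μ; simp } with hJ
  have hspanR : ∀ o, J (ρ o) ∈ Submodule.span ℂ (J '' (ρ '' b)) := by
    intro o
    have h1 : ρ o ∈ Submodule.span ℝ (ρ '' b) := hb2 ⟨o, Set.mem_univ _, rfl⟩
    have h2 : J (ρ o) ∈ (Submodule.span ℝ (ρ '' b)).map J := Submodule.mem_map_of_mem h1
    rw [Submodule.map_span] at h2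
    exact Submodule.span_le_restrictScalars ℝ ℂ _ h2
  have hMMJ : ∀ o, (fun μ => MM R.p R.g R.lam (pr (Hf o)) μ) = (2 : ℂ) • J (ρ o) := by
    intro o
    funext μ
    rw [hMM]
    rfl
  have huspan : ∀ o, u o ∈ Submodule.span ℂ (J '' (ρ '' b)) := by
    intro o
    rcases o with _ | i
    · have h1 : u none = fun μ => MM R.p R.g R.lam (pr (Hf none)) μ := by
        funext μ
        exact (MM_Hc (g := R.g) R.low R.preal R.lconst R.lreal μ).symm
      rw [h1, hMMJ none]
      exact Submodule.smul_mem _ _ (hspanR none)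
    · have h1 : u (some i) = (1 / 2 : ℂ) • (fun μ => MM R.p R.g R.lam (pr (Hf (some (i, true)))) μ) +
          (1 / (2 * Complex.I) : ℂ) •
            (fun μ => MM R.p R.g R.lam (pr (Hf (some (i, false)))) μ) := by
        funext μ
        exact MM_Hb (R.h i) μ
      rw [h1, hMMJ (some (i, true)), hMMJ (some (i, false))]
      exact Submodule.add_mem _
        (Submodule.smul_mem _ _ (Submodule.smul_mem _ _ (hspanR (some (i, true)))))
        (Submodule.smul_mem _ _ (Submodule.smul_mem _ _ (hspanR (some (i, false)))))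
  have hfin : b.Finite := Set.toFinite b
  have hSfin : (J '' (ρ '' b)).Finite := (hfin.image ρ).image J
  have hcard : K + 1 ≤ b.ncard := by
    have : Module.Finite ℂ (Submodule.span ℂ (J '' (ρ '' b))) :=
      FiniteDimensional.span_of_finite ℂ hSfin
    set u' : Option (Fin K) → Submodule.span ℂ (J '' (ρ '' b)) := fun o => ⟨u o, huspan o⟩
      with hu'
    have hu'i : LinearIndependent ℂ u' :=
      LinearIndependent.of_comp (Submodule.subtype _) hui
    have h1 := hu'i.fintype_card_le_finrank
    rw [Fintype.card_option, Fintype.card_fin] at h1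
    refine h1.trans ?_
    have h2 : Module.finrank ℂ (Submodule.span ℂ (J '' (ρ '' b))) ≤
        (J '' (ρ '' b)).ncard := by
      have := hSfin.fintype
      have h3 := finrank_span_le_card (R := ℂ) (J '' (ρ '' b))
      rwa [Set.ncard_eq_toFinset_card']
    exact h2.trans ((Set.ncard_image_le (hfin.image ρ)).trans (Set.ncard_image_le hfin))
  -- selection
  have hb1' : none ∈ b := hb1 rfl
  set B : Finset (Option (Fin K × Bool)) := hfin.toFinset with hB
  have hBc : B.card = b.ncard := (Set.ncard_eq_toFinset_card b hfin).symm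
  have hBn : none ∈ B := hfin.mem_toFinset.2 hb1'
  have hEc : K ≤ (B.erase none).card := by
    rw [Finset.card_erase_of_mem hBn]
    omega
  obtain ⟨t, ht, htc⟩ := Finset.exists_subset_card_eq hEc
  set et := (Finset.equivFinOfCardEq htc).symm with het
  set f : Fin (K + 1) → Option (Fin K × Bool) := Fin.cons none (fun i => (et i : Option _)) with hf
  have hfb : ∀ i, f i ∈ b := by
    intro i
    refine Fin.cases ?_ (fun i => ?_) i
    · exact hb1'
    · have h1 : (et i : Option (Fin K × Bool)) ∈ B.erase none := ht (et i).2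
      exact hfin.mem_toFinset.1 (Finset.mem_of_mem_erase h1)
  have hfinj : Function.Injective f := by
    rw [hf, Fin.cons_injective_iff]
    refine ⟨?_, ?_⟩
    · rintro ⟨i, hi⟩
      have h1 : (et i : Option (Fin K × Bool)) ∈ B.erase none := ht (et i).2
      simp only at hi
      rw [hi] at h1
      exact (Finset.notMem_erase none B) h1
    · intro i j hij
      exact et.injective (Subtype.ext hij)
  refine ⟨fun i => Hf (f i), fun i => ?_, rfl, ?_⟩
  · have : ∀ o, TD (Hf o) n := by
      intro o
      rcases o with _ | x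
      · exact (R.cdeg 0 0).add (R.cdeg 1 0)
      · exact td_Hb (R.hdeg x.1) x.2
    exact this _
  · have h1 : LinearIndependent ℝ (fun x : b => ρ x) := hb3
    exact h1.comp (fun i => (⟨f i, hfb i⟩ : b)) fun i j hij => hfinj (congrArg Subtype.val hij)

end

end Pool.Agent.helper59.LD
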