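import Pool.Agent.helper59.LD.Form2
import Pool.Agent.helper59.LC.Trans

/-!
# Asymptotic expansions
-/

open Set Filter Topology PowerSeries Asymptotics

set_option linter.unusedSectionVars false

namespace Pool.Agent.helper59.LD

open LC

noncomputable section

/-- `r → 0+`, uniformly in `θ` -/
def lF : Filter (ℝ × ℝ) := 𝓝[>] (0 : ℝ) ×ˢ (⊤ : Filter ℝ)

/-- the unit `exp(iθ)` -/
def uT (θ : ℝ) : ℂˣ := Units.mk0 (Complex.exp (θ * Complex.I)) (Complex.exp_ne_zero _)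

/-- evaluation of Laurent polynomials on the unit circle -/
def evT (θ : ℝ) : LaurentPolynomial ℂ →+* ℂ := LaurentPolynomial.eval₂ (RingHom.id ℂ) (uT θ)

theorem evT_CT (θ : ℝ) (a : ℂ) (n : ℤ) :
    evT θ (LaurentPolynomial.C a * LaurentPolynomial.T n) =
      a * Complex.exp (n * (θ * Complex.I)) := by
  rw [evT, map_mul, LaurentPolynomial.eval₂_C, LaurentPolynomial.eval₂_T, RingHom.id_apply,
    Units.val_zpow_eq_zpow_val, uT, Units.val_mk0, ← Complex.exp_int_mul]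

theorem evT_bdd (f : LaurentPolynomial ℂ) : ∃ C : ℝ, ∀ θ, ‖evT θ f‖ ≤ C := by
  induction f using LaurentPolynomial.induction_on' with
  | add p q hp hq =>
    obtain ⟨C, hC⟩ := hp
    obtain ⟨D, hD⟩ := hq
    refine ⟨C + D, fun θ => ?_⟩
    rw [map_add]
    exact (norm_add_le _ _).trans (add_le_add (hC θ) (hD θ))
  | C_mul_T n a =>
    refine ⟨‖a‖, fun θ => ?_⟩
    rw [evT_CT, norm_mul]
    have : ((n : ℂ) * (θ * Complex.I)) = ((n * θ : ℝ) : ℂ) * Complex.I := by push_cast; ring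
    rw [this, Complex.norm_exp_ofReal_mul_I, mul_one]

/-- evaluation of polynomials with Laurent coefficients -/
def EV (p : ℝ × ℝ) : Polynomial (LaurentPolynomial ℂ) →+* ℂ :=
  Polynomial.eval₂RingHom (evT p.2) (p.1 : ℂ)

theorem EV_X (p : ℝ × ℝ) : EV p Polynomial.X = (p.1 : ℂ) := Polynomial.eval₂_X _ _

theorem EV_C (p : ℝ × ℝ) (f : LaurentPolynomial ℂ) : EV p (Polynomial.C f) = evT p.2 f :=
  Polynomial.eval₂_C _ _

/-- the function `r` -/
def rF (p : ℝ × ℝ) : ℝ := p.1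

theorem ev_pos : ∀ᶠ p in lF, 0 < rF p := by
  have : ∀ᶠ r in 𝓝[>] (0 : ℝ), 0 < r := self_mem_nhdsWithin
  exact this.prod_inl _

theorem ev_small {ρ : ℝ} (hρ : 0 < ρ) : ∀ᶠ p in lF, rF p < ρ := by
  have : ∀ᶠ r in 𝓝[>] (0 : ℝ), r < ρ := mem_nhdsWithin_of_mem_nhds (Iio_mem_nhds hρ)
  exact this.prod_inl _

theorem rF_bdd : (fun p => ((rF p : ℝ) : ℂ)) =O[lF] (fun _ => (1 : ℝ)) := by
  refine IsBigO.of_bound 1 ?_
  filter_upwards [ev_pos, ev_small one_pos] with p h1 h2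
  rw [Complex.norm_real, Real.norm_eq_abs, abs_of_pos h1]
  simp
  exact h2.le

theorem EV_bdd (Q : Polynomial (LaurentPolynomial ℂ)) :
    (fun p => EV p Q) =O[lF] (fun _ => (1 : ℝ)) := by
  induction Q using Polynomial.induction_on' with
  | add p q hp hq =>
    have := hp.add hq
    simpa only [map_add] using this
  | monomial n a =>
    have h1 : (fun p : ℝ × ℝ => EV p (Polynomial.monomial n a)) =
        fun p => evT p.2 a * ((rF p : ℝ) : ℂ) ^ n := by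
      funext p
      rw [← Polynomial.C_mul_X_pow_eq_monomial, map_mul, map_pow, EV_X, EV_C]
      rfl
    rw [h1]
    obtain ⟨C, hC⟩ := evT_bdd a
    have h2 : (fun p : ℝ × ℝ => evT p.2 a) =O[lF] (fun _ => (1 : ℝ)) :=
      IsBigO.of_bound C (Eventually.of_forall fun p => by simpa using hC p.2)
    have h3 := h2.mul (rF_bdd.pow n)
    simpa using h3

theorem EV_dvd {Q : Polynomial (LaurentPolynomial ℂ)} {K : ℕ} (h : Polynomial.X ^ K ∣ Q) :
    (fun p => EV p Q) =O[lF] (fun p => rF p ^ K) := by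
  obtain ⟨Q', rfl⟩ := h
  have h1 : (fun p : ℝ × ℝ => EV p (Polynomial.X ^ K * Q')) =
      fun p => ((rF p : ℝ) : ℂ) ^ K * EV p Q' := by
    funext p
    rw [map_mul, map_pow, EV_X]
    rfl
  rw [h1]
  have h2 : (fun p : ℝ × ℝ => ((rF p : ℝ) : ℂ) ^ K) =O[lF] (fun p => rF p ^ K) :=
    IsBigO.of_bound 1 (Eventually.of_forall fun p => by
      rw [norm_pow, Complex.norm_real, norm_pow, one_mul])
  have h3 := h2.mul (EV_bdd Q')
  simpa using h3

/-- `f` is approximated by `Φ` to order `K` -/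
def Ex (K : ℕ) (f : ℝ × ℝ → ℂ) (Φ : (LaurentPolynomial ℂ)⟦X⟧) : Prop :=
  ∃ Q : Polynomial (LaurentPolynomial ℂ),
    (X : (LaurentPolynomial ℂ)⟦X⟧) ^ K ∣ Φ - (Q : (LaurentPolynomial ℂ)⟦X⟧) ∧
      (fun p => f p - EV p Q) =O[lF] (fun p => rF p ^ K)

theorem rpow_le {K : ℕ} : (fun p => rF p ^ K) =O[lF] (fun _ => (1 : ℝ)) := by
  refine IsBigO.of_bound 1 ?_
  filter_upwards [ev_pos, ev_small one_pos] with p h1 h2
  rw [Real.norm_eq_abs, abs_of_pos (pow_pos h1 K)]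
  simp
  exact pow_le_one₀ h1.le h2.le

theorem rpow_mono {K L : ℕ} (h : L ≤ K) : (fun p => rF p ^ K) =O[lF] (fun p => rF p ^ L) := by
  refine IsBigO.of_bound 1 ?_
  filter_upwards [ev_pos, ev_small one_pos] with p h1 h2
  rw [Real.norm_eq_abs, abs_of_pos (pow_pos h1 K), Real.norm_eq_abs, abs_of_pos (pow_pos h1 L),
    one_mul]
  exact pow_le_pow_of_le_one h1.le h2.le h

theorem X_pow_dvd_coe {K : ℕ} {Q : Polynomial (LaurentPolynomial ℂ)}
    (h : (X : (LaurentPolynomial ℂ)⟦X⟧) ^ K ∣ (Q : (LaurentPolynomial ℂ)⟦X⟧)) :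
    Polynomial.X ^ K ∣ Q := by
  rw [Polynomial.X_pow_dvd_iff]
  rw [X_pow_dvd_iff] at h
  intro m hm
  have := h m hm
  rwa [Polynomial.coeff_coe] at this

/-- the approximation holds for every polynomial with the right residue -/
theorem Ex.of {K : ℕ} {f : ℝ × ℝ → ℂ} {Φ : (LaurentPolynomial ℂ)⟦X⟧} (h : Ex K f Φ)
    {Q : Polynomial (LaurentPolynomial ℂ)}
    (hQ : (X : (LaurentPolynomial ℂ)⟦X⟧) ^ K ∣ Φ - (Q : (LaurentPolynomial ℂ)⟦X⟧)) :
    (fun p => f p - EV p Q) =O[lF] (fun p => rF p ^ K) := by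
  obtain ⟨Q', h1, h2⟩ := h
  have h3 : (X : (LaurentPolynomial ℂ)⟦X⟧) ^ K ∣ ((Q' - Q : Polynomial (LaurentPolynomial ℂ)) :
      (LaurentPolynomial ℂ)⟦X⟧) := by
    have e : ((Q' - Q : Polynomial (LaurentPolynomial ℂ)) : (LaurentPolynomial ℂ)⟦X⟧) =
        (Φ - Q) - (Φ - Q') := by
      rw [Polynomial.coe_sub]; ring
    rw [e]
    exact dvd_sub hQ h1
  have h4 := h2.add (EV_dvd (X_pow_dvd_coe h3))
  refine h4.congr_left fun p => ?_
  rw [map_sub]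
  ring

theorem exists_trunc (K : ℕ) (Φ : (LaurentPolynomial ℂ)⟦X⟧) :
    ∃ Q : Polynomial (LaurentPolynomial ℂ),
      (X : (LaurentPolynomial ℂ)⟦X⟧) ^ K ∣ Φ - (Q : (LaurentPolynomial ℂ)⟦X⟧) := by
  refine ⟨trunc K Φ, ?_⟩
  rw [X_pow_dvd_iff]
  intro m hm
  rw [map_sub, Polynomial.coeff_coe, coeff_trunc, if_pos hm, sub_self]

theorem Ex.bdd {K : ℕ} {f : ℝ × ℝ → ℂ} {Φ : (LaurentPolynomial ℂ)⟦X⟧} (h : Ex K f Φ) :
    f =O[lF] (fun _ => (1 : ℝ)) := by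
  obtain ⟨Q, -, h2⟩ := h
  have h3 := (h2.trans rpow_le).add (EV_bdd Q)
  refine h3.congr_left fun p => ?_
  ring

theorem Ex.mono {K L : ℕ} {f : ℝ × ℝ → ℂ} {Φ : (LaurentPolynomial ℂ)⟦X⟧} (h : Ex K f Φ)
    (hL : L ≤ K) : Ex L f Φ := by
  obtain ⟨Q, h1, h2⟩ := h
  exact ⟨Q, (pow_dvd_pow _ hL).trans h1, h2.trans (rpow_mono hL)⟩

theorem Ex.congr {K : ℕ} {f f' : ℝ × ℝ → ℂ} {Φ : (LaurentPolynomial ℂ)⟦X⟧} (h : Ex K f Φ)
    (hf : f =ᶠ[lF] f') : Ex K f' Φ := by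
  obtain ⟨Q, h1, h2⟩ := h
  refine ⟨Q, h1, h2.congr' ?_ EventuallyEq.rfl⟩
  filter_upwards [hf] with p hp
  rw [hp]

theorem Ex.add {K : ℕ} {f h : ℝ × ℝ → ℂ} {Φ Ψ : (LaurentPolynomial ℂ)⟦X⟧} (hf : Ex K f Φ)
    (hh : Ex K h Ψ) : Ex K (fun p => f p + h p) (Φ + Ψ) := by
  obtain ⟨Q, h1, h2⟩ := hf
  obtain ⟨Q', h1', h2'⟩ := hh
  refine ⟨Q + Q', ?_, ?_⟩
  · have e : Φ + Ψ - ((Q + Q' : Polynomial (LaurentPolynomial ℂ)) : (LaurentPolynomial ℂ)⟦X⟧) =
        (Φ - Q) + (Ψ - Q') := by rw [Polynomial.coe_add]; ring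
    rw [e]
    exact dvd_add h1 h1'
  · refine (h2.add h2').congr_left fun p => ?_
    rw [map_add]
    ring

theorem Ex.sub {K : ℕ} {f h : ℝ × ℝ → ℂ} {Φ Ψ : (LaurentPolynomial ℂ)⟦X⟧} (hf : Ex K f Φ)
    (hh : Ex K h Ψ) : Ex K (fun p => f p - h p) (Φ - Ψ) := by
  obtain ⟨Q, h1, h2⟩ := hf
  obtain ⟨Q', h1', h2'⟩ := hh
  refine ⟨Q - Q', ?_, ?_⟩
  · have e : Φ - Ψ - ((Q - Q' : Polynomial (LaurentPolynomial ℂ)) : (LaurentPolynomial ℂ)⟦X⟧) =
        (Φ - Q) - (Ψ - Q') := by rw [Polynomial.coe_sub]; ring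
    rw [e]
    exact dvd_sub h1 h1'
  · refine (h2.sub h2').congr_left fun p => ?_
    rw [map_sub]
    ring

theorem Ex.mul {K : ℕ} {f h : ℝ × ℝ → ℂ} {Φ Ψ : (LaurentPolynomial ℂ)⟦X⟧} (hf : Ex K f Φ)
    (hh : Ex K h Ψ) : Ex K (fun p => f p * h p) (Φ * Ψ) := by
  have hfb := hf.bdd
  obtain ⟨Q, h1, h2⟩ := hf
  obtain ⟨Q', h1', h2'⟩ := hh
  refine ⟨Q * Q', ?_, ?_⟩
  · have e : Φ * Ψ - ((Q * Q' : Polynomial (LaurentPolynomial ℂ)) : (LaurentPolynomial ℂ)⟦X⟧) =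
        (Φ - Q) * Q' + Φ * (Ψ - Q') := by rw [Polynomial.coe_mul]; ring
    rw [e]
    exact dvd_add (dvd_mul_of_dvd_left h1 _) (dvd_mul_of_dvd_right h1' _)
  · have h4 : (fun p => (f p - EV p Q) * EV p Q' + f p * (h p - EV p Q')) =O[lF]
        (fun p => rF p ^ K) := by
      have h5 := (h2.mul (EV_bdd Q'))
      have h6 := (hfb.mul h2')
      simp only [mul_one, one_mul] at h5 h6
      exact h5.add h6
    refine h4.congr_left fun p => ?_
    rw [map_mul]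
    ring

/-- one more order for a factor without constant term -/
theorem Ex.mul_low {K : ℕ} {f h : ℝ × ℝ → ℂ} {Φ Ψ : (LaurentPolynomial ℂ)⟦X⟧} (hf : Ex K f Φ)
    (hh : Ex (K + 1) h Ψ) (hΨ : (X : (LaurentPolynomial ℂ)⟦X⟧) ∣ Ψ) :
    Ex (K + 1) (fun p => f p * h p) (Φ * Ψ) := by
  have hfb := hf.bdd
  obtain ⟨Q, h1, h2⟩ := hf
  obtain ⟨Q', h1', h2'⟩ := hh
  have hXQ : (X : (LaurentPolynomial ℂ)⟦X⟧) ∣ (Q' : (LaurentPolynomial ℂ)⟦X⟧) := by
    have h3 : (X : (LaurentPolynomial ℂ)⟦X⟧) ∣ Ψ - Q' :=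
      (dvd_pow_self X (Nat.succ_ne_zero K)).trans h1'
    have := dvd_sub hΨ h3
    rwa [sub_sub_cancel] at this
  refine ⟨Q * Q', ?_, ?_⟩
  · have e : Φ * Ψ - ((Q * Q' : Polynomial (LaurentPolynomial ℂ)) : (LaurentPolynomial ℂ)⟦X⟧) =
        (Φ - Q) * Q' + Φ * (Ψ - Q') := by rw [Polynomial.coe_mul]; ring
    rw [e]
    refine dvd_add ?_ (dvd_mul_of_dvd_right h1' _)
    rw [pow_succ]
    exact mul_dvd_mul h1 hXQ
  · have h7 : (fun p => EV p Q') =O[lF] (fun p => rF p ^ 1) :=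
      EV_dvd (X_pow_dvd_coe (by rwa [pow_one]))
    have h4 : (fun p => (f p - EV p Q) * EV p Q' + f p * (h p - EV p Q')) =O[lF]
        (fun p => rF p ^ (K + 1)) := by
      have h5 := (h2.mul h7)
      have h6 := (hfb.mul h2')
      simp only [one_mul, ← pow_add] at h5 h6
      exact h5.add h6
    refine h4.congr_left fun p => ?_
    rw [map_mul]
    ring

/-- two factors without constant term -/
theorem Ex.mul_low2 {K : ℕ} (hK : 1 ≤ K) {f h : ℝ × ℝ → ℂ} {Φ Ψ : (LaurentPolynomial ℂ)⟦X⟧}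
    (hf : Ex K f Φ) (hh : Ex K h Ψ) (hΦ : (X : (LaurentPolynomial ℂ)⟦X⟧) ∣ Φ)
    (hΨ : (X : (LaurentPolynomial ℂ)⟦X⟧) ∣ Ψ) :
    Ex (K + 1) (fun p => f p * h p) (Φ * Ψ) := by
  obtain ⟨Q, h1, h2⟩ := hf
  obtain ⟨Q', h1', h2'⟩ := hh
  have hXQ : (X : (LaurentPolynomial ℂ)⟦X⟧) ∣ (Q' : (LaurentPolynomial ℂ)⟦X⟧) := by
    have h3 : (X : (LaurentPolynomial ℂ)⟦X⟧) ∣ Ψ - Q' :=
      (dvd_pow_self X (by omega : K ≠ 0)).trans h1'
    have := dvd_sub hΨ h3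
    rwa [sub_sub_cancel] at this
  have hXQ2 : (X : (LaurentPolynomial ℂ)⟦X⟧) ∣ (Q : (LaurentPolynomial ℂ)⟦X⟧) := by
    have h3 : (X : (LaurentPolynomial ℂ)⟦X⟧) ∣ Φ - Q :=
      (dvd_pow_self X (by omega : K ≠ 0)).trans h1
    have := dvd_sub hΦ h3
    rwa [sub_sub_cancel] at this
  have h7 : (fun p => EV p Q') =O[lF] (fun p => rF p ^ 1) :=
    EV_dvd (X_pow_dvd_coe (by rwa [pow_one]))
  have h8 : (fun p => EV p Q) =O[lF] (fun p => rF p ^ 1) :=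
    EV_dvd (X_pow_dvd_coe (by rwa [pow_one]))
  have hf1 : f =O[lF] (fun p => rF p ^ 1) := by
    have := (h2.trans (rpow_mono hK)).add h8
    refine this.congr_left fun p => by ring
  refine ⟨Q * Q', ?_, ?_⟩
  · have e : Φ * Ψ - ((Q * Q' : Polynomial (LaurentPolynomial ℂ)) : (LaurentPolynomial ℂ)⟦X⟧) =
        (Φ - Q) * Q' + (Ψ - Q') * Φ := by rw [Polynomial.coe_mul]; ring
    rw [e, pow_succ]
    exact dvd_add (mul_dvd_mul h1 hXQ) (mul_dvd_mul h1' hΦ)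
  · have h4 : (fun p => (f p - EV p Q) * EV p Q' + (h p - EV p Q') * f p) =O[lF]
        (fun p => rF p ^ (K + 1)) := by
      have h5 := (h2.mul h7)
      have h6 := (h2'.mul hf1)
      simp only [← pow_add] at h5 h6
      exact h5.add h6
    refine h4.congr_left fun p => ?_
    rw [map_mul]
    ring

theorem ex_cc (K : ℕ) (a : ℂ) : Ex K (fun _ => a) (cc a) := by
  refine ⟨Polynomial.C (LaurentPolynomial.C a), ?_, ?_⟩
  · rw [Polynomial.coe_C, cc, sub_self]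
    exact dvd_zero _
  · have : (fun p : ℝ × ℝ => a - EV p (Polynomial.C (LaurentPolynomial.C a))) = fun _ => 0 := by
      funext p
      rw [EV_C, evT, LaurentPolynomial.eval₂_C, RingHom.id_apply, sub_self]
    rw [this]
    exact isBigO_zero _ _

theorem ex_zero_order {f : ℝ × ℝ → ℂ} (hf : f =O[lF] (fun p => rF p ^ 1))
    {Φ : (LaurentPolynomial ℂ)⟦X⟧} (hΦ : (X : (LaurentPolynomial ℂ)⟦X⟧) ∣ Φ) : Ex 1 f Φ := by
  refine ⟨0, ?_, ?_⟩
  · rw [Polynomial.coe_zero, sub_zero, pow_one]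
    exact hΦ
  · simpa using hf

/-- polynomials -/
theorem ex_ev2 {K : ℕ} {z : Fin 2 → ℝ × ℝ → ℂ} {x : Fin 2 → (LaurentPolynomial ℂ)⟦X⟧}
    (h : ∀ i, Ex K (z i) (x i)) (P : MvPolynomial (Fin 2) ℂ) :
    Ex K (fun p => MvPolynomial.eval (fun i => z i p) P) (ev2 x P) := by
  induction P using MvPolynomial.induction_on with
  | C a =>
    rw [ev2_C]
    have := ex_cc K a
    simpa using this
  | add p q hp hq =>
    rw [ev2_add]
    have := hp.add hq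
    simpa using this
  | mul_X p i hp =>
    rw [ev2_mul, ev2_X]
    have := hp.mul (h i)
    simpa using this

/-- low polynomials gain one order -/
theorem ex_low {K : ℕ} (hK : 1 ≤ K) {z : Fin 2 → ℝ × ℝ → ℂ}
    {x : Fin 2 → (LaurentPolynomial ℂ)⟦X⟧} (h : ∀ i, Ex K (z i) (x i))
    (hx : ∀ i, (X : (LaurentPolynomial ℂ)⟦X⟧) ∣ x i) {P : MvPolynomial (Fin 2) ℂ} (hP : Low P) :
    Ex (K + 1) (fun p => MvPolynomial.eval (fun i => z i p) P) (ev2 x P) := by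
  obtain ⟨a, rfl⟩ := hP
  have hsum : ∀ (s : Finset (Fin 2)) (F : Fin 2 → MvPolynomial (Fin 2) ℂ),
      (∀ j, Ex (K + 1) (fun p => MvPolynomial.eval (fun i => z i p) (F j)) (ev2 x (F j))) →
      Ex (K + 1) (fun p => MvPolynomial.eval (fun i => z i p) (∑ j ∈ s, F j))
        (ev2 x (∑ j ∈ s, F j)) := by
    intro s F hF
    classical
    induction s using Finset.induction_on with
    | empty =>
      have := ex_cc (K + 1) 0
      simp only [Finset.sum_empty, ev2_zero]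
      have h0 : (cc (0 : ℂ)) = 0 := by rw [cc, map_zero, map_zero]
      rw [h0] at this
      simpa using this
    | insert b s hb ih =>
      rw [Finset.sum_insert hb, ev2_add]
      have := (hF b).add ih
      simpa using this
  refine hsum _ _ fun j => hsum _ _ fun k => ?_
  rw [ev2_mul, ev2_mul, ev2_X, ev2_X]
  have h1 := (ex_ev2 h (a j k)).mul_low ((h j).mul_low2 hK (h k) (hx j) (hx k))
    (dvd_mul_of_dvd_left (hx j) _)
  simpa using h1

/-- the solution -/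
theorem ex_sol {p : Fin 2 → MvPolynomial (Fin 2) ℂ} {g : Fin 2 → Polynomial ℂ}
    (hp : ∀ i, Low (p i)) {z w : Fin 2 → ℝ × ℝ → ℂ}
    (hz : ∀ i, z i =O[lF] (fun p => rF p ^ 1))
    (hw : ∀ K i, Ex K (w i) (rhs g i))
    (heq : ∀ i, ∀ᶠ q in lF, z i q + MvPolynomial.eval (fun j => z j q) (p i) = w i q) (K : ℕ) :
    ∀ i, Ex K (z i) (xy p g i) := by
  have hsol := isSol_xy hp g
  have key : ∀ K, ∀ i, Ex (K + 1) (z i) (xy p g i) := by
    intro K
    induction K with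
    | zero => intro i; exact ex_zero_order (hz i) (hsol.1 i)
    | succ K ih =>
      intro i
      have h1 := ex_low (by omega) ih hsol.1 (hp i)
      have h2 := (hw (K + 1 + 1) i).sub h1
      have h3 : rhs g i - ev2 (xy p g) (p i) = xy p g i := by
        have := hsol.2 i
        rw [← this]
        change xy p g i + ev2 (xy p g) (p i) - ev2 (xy p g) (p i) = xy p g i
        ring
      rw [h3] at h2
      refine h2.congr ?_
      filter_upwards [heq i] with q hq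
      rw [← hq]
      ring
  rcases K with _ | K
  · exact fun i => (key 0 i).mono (by omega)
  · exact key K

/-- inverses -/
theorem ex_inv {K : ℕ} {f h : ℝ × ℝ → ℂ} {Φ : (LaurentPolynomial ℂ)⟦X⟧} (hf : Ex K f Φ)
    (hΦ : coeff 0 Φ = 1) (hh : h =O[lF] (fun _ => (1 : ℝ)))
    (hfh : ∀ᶠ p in lF, f p * h p = 1) : Ex K h (inv1 Φ) := by
  obtain ⟨Q, hQ⟩ := exists_trunc K (inv1 Φ)
  have hQe : Ex K (fun p => EV p Q) (inv1 Φ) := ⟨Q, hQ, by simpa using isBigO_zero _ _⟩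
  have h1 := hf.mul hQe
  rw [inv1_mul hΦ] at h1
  have h2 := h1.of (Q := 1) (by rw [Polynomial.coe_one, sub_self]; exact dvd_zero _)
  refine ⟨Q, hQ, ?_⟩
  have h3 := (hh.mul h2).neg_left
  simp only [one_mul, map_one] at h3
  refine h3.congr' ?_ EventuallyEq.rfl
  filter_upwards [hfh] with p hp
  linear_combination (-(EV p Q)) * hp

/-! ### convergent series -/

/-- the point `r exp(iθ)` -/
def wF (p : ℝ × ℝ) : ℂ := (p.1 : ℂ) * Complex.exp (p.2 * Complex.I)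

theorem norm_wF {p : ℝ × ℝ} (hp : 0 < rF p) : ‖wF p‖ = rF p := norm_polar hp p.2

/-- truncation -/
def tr (K : ℕ) (Φ : (LaurentPolynomial ℂ)⟦X⟧) : Polynomial (LaurentPolynomial ℂ) :=
  ∑ m ∈ Finset.range K, Polynomial.C (coeff m Φ) * Polynomial.X ^ m

theorem tr_coeff (K : ℕ) (Φ : (LaurentPolynomial ℂ)⟦X⟧) (m : ℕ) :
    (tr K Φ).coeff m = if m < K then coeff m Φ else 0 := by
  rw [tr, Polynomial.finsetSum_coeff]
  simp only [Polynomial.coeff_C_mul, Polynomial.coeff_X_pow, mul_ite, mul_one, mul_zero]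
  rw [Finset.sum_ite_eq]
  simp only [Finset.mem_range]

theorem EV_emb_trunc (K : ℕ) (s : ℂ⟦X⟧) (p : ℝ × ℝ) :
    EV p (tr K (emb 1 s)) = ∑ m ∈ Finset.range K, coeff m s * wF p ^ m := by
  rw [tr, map_sum]
  refine Finset.sum_congr rfl fun m _ => ?_
  rw [map_mul, map_pow, EV_X, EV_C, coeff_emb, evT_CT, wF,
    mul_pow, ← Complex.exp_nat_mul]
  push_cast
  ring_nf

/-- tail estimate -/
theorem ev_tail {R : ℝ} (hR : 0 < R) {s : ℂ⟦X⟧} (hs : Conv R s) (K : ℕ) :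
    ∃ C : ℝ, ∀ w : ℂ, ‖w‖ ≤ R →
      ‖ev w s - ∑ m ∈ Finset.range K, coeff m s * w ^ m‖ ≤ C * ‖w‖ ^ K := by
  have hsum : Summable (fun m => ‖coeff (m + K) s‖ * R ^ m) := by
    have h1 : Summable (fun m => ‖coeff (m + K) s‖ * R ^ (m + K)) :=
      (summable_nat_add_iff K).2 hs
    have h2 := h1.mul_left ((R ^ K)⁻¹)
    refine h2.congr fun m => ?_
    rw [pow_add]
    have : R ^ K ≠ 0 := (pow_pos hR K).ne'
    field_simp
  refine ⟨∑' m, ‖coeff (m + K) s‖ * R ^ m, fun w hw => ?_⟩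
  have h3 := hs.summable hw
  have h4 := h3.sum_add_tsum_nat_add K
  have h5 : ev w s - ∑ m ∈ Finset.range K, coeff m s * w ^ m =
      ∑' m, coeff (m + K) s * w ^ (m + K) := by
    rw [ev, ← h4]; ring
  rw [h5]
  have h6 : ∀ m, ‖coeff (m + K) s * w ^ (m + K)‖ ≤ ‖coeff (m + K) s‖ * R ^ m * ‖w‖ ^ K := by
    intro m
    rw [norm_mul, norm_pow, pow_add, ← mul_assoc]
    gcongr
  have h7 : Summable (fun m => ‖coeff (m + K) s‖ * R ^ m * ‖w‖ ^ K) := hsum.mul_right _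
  rw [← tsum_mul_right]
  exact tsum_of_norm_bounded h7.hasSum h6

theorem ex_emb {R : ℝ} (hR : 0 < R) {s : ℂ⟦X⟧} (hs : Conv R s) (K : ℕ) :
    Ex K (fun p => ev (wF p) s) (emb 1 s) := by
  refine ⟨tr K (emb 1 s), ?_, ?_⟩
  · rw [X_pow_dvd_iff]
    intro m hm
    rw [map_sub, Polynomial.coeff_coe, tr_coeff, if_pos hm, sub_self]
  · obtain ⟨C, hC⟩ := ev_tail hR hs K
    refine IsBigO.of_bound C ?_
    filter_upwards [ev_pos, ev_small hR] with p h1 h2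
    have h3 := hC (wF p) (by rw [norm_wF h1]; exact h2.le)
    rw [norm_wF h1] at h3
    rw [EV_emb_trunc, Real.norm_eq_abs, abs_of_pos (pow_pos h1 K)]
    exact h3

end

end Pool.Agent.helper59.LD
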