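import Pool.Agent.helper59.LD.AE
import Pool.Agent.helper59.LD.RealG

/-!
# Extraction of coefficients
-/

open Set Filter Topology PowerSeries Asymptotics

set_option linter.unusedSectionVars false

namespace Pool.Agent.helper59.LD

open LC

noncomputable section

theorem evT_inl (θ : ℝ) (f : LaurentPolynomial ℂ) : evT θ (inl f) = starRingEnd ℂ (evT θ f) := by
  induction f using LaurentPolynomial.induction_on' with
  | add p q hp hq => rw [map_add, map_add, hp, hq, map_add, map_add]
  | C_mul_T n a =>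
    rw [map_mul, inl_C, inl_T, evT_CT, evT_CT, map_mul, ← Complex.exp_conj]
    congr 2
    simp only [map_mul, Complex.conj_I, Complex.conj_ofReal, map_intCast]
    push_cast
    ring

theorem EV_inl (p : ℝ × ℝ) (Q : Polynomial (LaurentPolynomial ℂ)) :
    EV p (Q.map inl) = starRingEnd ℂ (EV p Q) := by
  induction Q using Polynomial.induction_on' with
  | add p q hp hq => rw [Polynomial.map_add, map_add, hp, hq, map_add, map_add]
  | monomial n a =>
    rw [Polynomial.map_monomial, ← Polynomial.C_mul_X_pow_eq_monomial,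
      ← Polynomial.C_mul_X_pow_eq_monomial, map_mul, map_pow, EV_X, EV_C, evT_inl, map_mul,
      map_pow, EV_X, EV_C, map_mul, map_pow, Complex.conj_ofReal]

theorem Ex.conj {K : ℕ} {f : ℝ × ℝ → ℂ} {Φ : (LaurentPolynomial ℂ)⟦X⟧} (h : Ex K f Φ) :
    Ex K (fun p => starRingEnd ℂ (f p)) (PowerSeries.map inl Φ) := by
  obtain ⟨Q, h1, h2⟩ := h
  refine ⟨Q.map inl, ?_, ?_⟩
  · rw [Polynomial.polynomial_map_coe, ← map_sub]
    obtain ⟨c, hc⟩ := h1
    exact ⟨PowerSeries.map inl c, by rw [hc, map_mul, map_pow, PowerSeries.map_X]⟩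
  · have h3 : (fun p => starRingEnd ℂ (f p) - EV p (Q.map inl)) =
        fun p => starRingEnd ℂ (f p - EV p Q) := by
      funext p
      rw [EV_inl, map_sub]
    rw [h3]
    refine IsBigO.trans (IsBigO.of_bound 1 (Eventually.of_forall fun p => ?_)) h2
    rw [RCLike.norm_conj, one_mul]

theorem evT_cont (f : LaurentPolynomial ℂ) : Continuous fun θ => evT θ f := by
  induction f using LaurentPolynomial.induction_on' with
  | add p q hp hq =>
    simp only [map_add]
    exact hp.add hq
  | C_mul_T n a =>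
    simp only [evT_CT]
    fun_prop

theorem EV_cont (Q : Polynomial (LaurentPolynomial ℂ)) (r : ℝ) :
    Continuous fun θ => EV (r, θ) Q := by
  induction Q using Polynomial.induction_on' with
  | add p q hp hq =>
    simp only [map_add]
    exact hp.add hq
  | monomial n a =>
    simp only [← Polynomial.C_mul_X_pow_eq_monomial, map_mul, map_pow, EV_X, EV_C]
    exact (evT_cont a).mul continuous_const

theorem int_exp_int (n : ℤ) : ∫ θ in (0 : ℝ)..(2 * Real.pi), Complex.exp (n * (θ * Complex.I)) =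
    if n = 0 then 2 * Real.pi else 0 := by
  split_ifs with h
  · rw [h]
    simp
  · have hn : (n : ℂ) * Complex.I ≠ 0 := mul_ne_zero (by exact_mod_cast h) Complex.I_ne_zero
    have h1 : ∀ θ : ℝ, Complex.exp (n * (θ * Complex.I)) = Complex.exp (((n : ℂ) * Complex.I) * θ) :=
      fun θ => by ring_nf
    simp_rw [h1]
    rw [integral_exp_mul_complex hn]
    have h2 : Complex.exp ((n : ℂ) * Complex.I * ((2 * Real.pi : ℝ) : ℂ)) = 1 := by
      rw [Complex.exp_eq_one_iff]
      refine ⟨n, ?_⟩
      push_cast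
      ring
    rw [h2]
    simp

theorem int_evT (f : LaurentPolynomial ℂ) : ∫ θ in (0 : ℝ)..(2 * Real.pi),
    Complex.exp (-(θ * Complex.I)) * evT θ f = 2 * Real.pi * f.coeff 1 := by
  have hc : Continuous fun θ : ℝ => Complex.exp (-(θ * Complex.I)) := by fun_prop
  induction f using LaurentPolynomial.induction_on' with
  | add p q hp hq =>
    simp only [map_add, mul_add]
    have c1 : Continuous fun θ : ℝ => Complex.exp (-(θ * Complex.I)) * evT θ p :=
      hc.mul (evT_cont p)
    have c2 : Continuous fun θ : ℝ => Complex.exp (-(θ * Complex.I)) * evT θ q :=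
      hc.mul (evT_cont q)
    rw [intervalIntegral.integral_add (c1.intervalIntegrable _ _)
      (c2.intervalIntegrable _ _), hp, hq]
    have : (p + q).coeff 1 = p.coeff 1 + q.coeff 1 := rfl
    rw [this]
    ring
  | C_mul_T n a =>
    have h1 : ∀ θ : ℝ, Complex.exp (-(θ * Complex.I)) *
        evT θ (LaurentPolynomial.C a * LaurentPolynomial.T n) =
        a * Complex.exp (((n - 1 : ℤ) : ℂ) * (θ * Complex.I)) := by
      intro θ
      rw [evT_CT, mul_left_comm, ← Complex.exp_add]
      congr 2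
      push_cast
      ring
    simp_rw [h1]
    rw [intervalIntegral.integral_const_mul, int_exp_int, coeff_C_mul', LaurentPolynomial.T_apply]
    by_cases h : n = 1
    · rw [if_pos (by omega), if_pos h]
      push_cast
      ring
    · rw [if_neg (by omega), if_neg h]
      push_cast
      ring

theorem int_EV (Q : Polynomial (LaurentPolynomial ℂ)) (r : ℝ) :
    ∫ θ in (0 : ℝ)..(2 * Real.pi), Complex.exp (-(θ * Complex.I)) * EV (r, θ) Q =
      2 * Real.pi * ∑ j ∈ Finset.range (Q.natDegree + 1), (Q.coeff j).coeff 1 * (r : ℂ) ^ j := by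
  have hc : Continuous fun θ : ℝ => Complex.exp (-(θ * Complex.I)) := by fun_prop
  have h1 : ∀ θ : ℝ, EV (r, θ) Q = ∑ j ∈ Finset.range (Q.natDegree + 1),
      evT θ (Q.coeff j) * (r : ℂ) ^ j := by
    intro θ
    conv_lhs => rw [Q.as_sum_range_C_mul_X_pow, map_sum]
    refine Finset.sum_congr rfl fun j _ => ?_
    rw [map_mul, map_pow, EV_X, EV_C]
  simp_rw [h1, Finset.mul_sum]
  rw [intervalIntegral.integral_finsetSum]
  · refine Finset.sum_congr rfl fun j _ => ?_
    have h2 : ∀ θ : ℝ, Complex.exp (-(θ * Complex.I)) * (evT θ (Q.coeff j) * (r : ℂ) ^ j) =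
        (r : ℂ) ^ j * (Complex.exp (-(θ * Complex.I)) * evT θ (Q.coeff j)) := fun θ => by ring
    simp_rw [h2]
    rw [intervalIntegral.integral_const_mul, int_evT]
    ring
  · intro j _
    exact (hc.mul ((evT_cont _).mul continuous_const)).intervalIntegrable _ _

/-- a polynomial which is small near zero has no low coefficients -/
theorem poly_small (n : ℕ) : ∀ (q : Polynomial ℝ),
    (fun r => q.eval r) =O[𝓝[>] (0 : ℝ)] (fun r => r ^ (n + 1)) → ∀ j, j ≤ n → q.coeff j = 0 := by
  induction n with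
  | zero =>
    intro q hq j hj
    have h0 : q.coeff 0 = 0 := by
      have h1 : Tendsto (fun r : ℝ => q.eval r) (𝓝[>] 0) (𝓝 0) := by
        refine hq.trans_tendsto ?_
        have : Tendsto (fun r : ℝ => r ^ (0 + 1)) (𝓝[>] 0) (𝓝 (0 ^ (0 + 1))) :=
          ((continuous_pow _).tendsto 0).mono_left nhdsWithin_le_nhds
        simpa using this
      have h2 : Tendsto (fun r : ℝ => q.eval r) (𝓝[>] 0) (𝓝 (q.eval 0)) :=
        (q.continuous.tendsto 0).mono_left nhdsWithin_le_nhds
      rw [Polynomial.coeff_zero_eq_eval_zero]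
      exact tendsto_nhds_unique h2 h1
    have : j = 0 := by omega
    rw [this]; exact h0
  | succ n ih =>
    intro q hq j hj
    have h0 : q.coeff 0 = 0 := by
      have h1 : Tendsto (fun r : ℝ => q.eval r) (𝓝[>] 0) (𝓝 0) := by
        refine hq.trans_tendsto ?_
        have : Tendsto (fun r : ℝ => r ^ (n + 1 + 1)) (𝓝[>] 0) (𝓝 (0 ^ (n + 1 + 1))) :=
          ((continuous_pow _).tendsto 0).mono_left nhdsWithin_le_nhds
        simpa using this
      have h2 : Tendsto (fun r : ℝ => q.eval r) (𝓝[>] 0) (𝓝 (q.eval 0)) :=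
        (q.continuous.tendsto 0).mono_left nhdsWithin_le_nhds
      rw [Polynomial.coeff_zero_eq_eval_zero]
      exact tendsto_nhds_unique h2 h1
    rcases j with _ | j
    · exact h0
    · have hdiv : q = q.divX * Polynomial.X := by
        conv_lhs => rw [← q.divX_mul_X_add, h0, map_zero, add_zero]
      have h3 : (fun r => q.divX.eval r) =O[𝓝[>] (0 : ℝ)] (fun r => r ^ (n + 1)) := by
        obtain ⟨C, hC⟩ := hq.bound
        refine IsBigO.of_bound C ?_
        filter_upwards [hC, self_mem_nhdsWithin] with r hr hr0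
        rw [mem_Ioi] at hr0
        rw [hdiv, Polynomial.eval_mul, Polynomial.eval_X, norm_mul, pow_succ r (n + 1), norm_mul,
          ← mul_assoc] at hr
        exact le_of_mul_le_mul_right hr (norm_pos_iff.2 hr0.ne')
      have h4 := ih q.divX h3 j (by omega)
      rwa [Polynomial.coeff_divX] at h4

theorem lF_bound {f : ℝ × ℝ → ℂ} {K : ℕ} (h : f =O[lF] (fun p => rF p ^ K)) :
    ∃ C : ℝ, ∀ᶠ r in 𝓝[>] (0 : ℝ), ∀ θ, ‖f (r, θ)‖ ≤ C * r ^ K := by
  obtain ⟨C, hC⟩ := h.bound
  rw [lF, prod_top, eventually_comap] at hC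
  refine ⟨C, ?_⟩
  filter_upwards [hC, self_mem_nhdsWithin] with r hr hr0 θ
  rw [mem_Ioi] at hr0
  have := hr (r, θ) rfl
  rwa [Real.norm_eq_abs, abs_of_pos (pow_pos (show 0 < rF (r, θ) from hr0) K)] at this

/-- **extraction** -/
theorem extract {f : ℝ × ℝ → ℂ} {Φ : (LaurentPolynomial ℂ)⟦X⟧} (h : ∀ K, Ex K f Φ)
    (hcont : ∀ᶠ r in 𝓝[>] (0 : ℝ), Continuous fun θ => f (r, θ))
    (hint : ∀ᶠ r in 𝓝[>] (0 : ℝ), (∫ θ in (0 : ℝ)..(2 * Real.pi),
      Complex.exp (-(θ * Complex.I)) * f (r, θ)).re = 0) (n : ℕ) :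
    ((coeff n Φ).coeff 1).re = 0 := by
  obtain ⟨Q, hQ1, hQ2⟩ := h (n + 1)
  have hcoef : coeff n Φ = Q.coeff n := by
    rw [X_pow_dvd_iff] at hQ1
    have := hQ1 n (by omega)
    rw [map_sub, Polynomial.coeff_coe, sub_eq_zero] at this
    exact this
  obtain ⟨C, hC⟩ := lF_bound hQ2
  set q : Polynomial ℝ := ∑ j ∈ Finset.range (Q.natDegree + 1),
    Polynomial.C (((Q.coeff j).coeff 1).re) * Polynomial.X ^ j with hq
  have hqc : q.coeff n = ((Q.coeff n).coeff 1).re := by
    rw [hq, Polynomial.finsetSum_coeff]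
    simp only [Polynomial.coeff_C_mul, Polynomial.coeff_X_pow, mul_ite, mul_one, mul_zero]
    rw [Finset.sum_ite_eq]
    split_ifs with h1
    · rfl
    · rw [Finset.mem_range, not_lt] at h1
      rw [Polynomial.coeff_eq_zero_of_natDegree_lt (by omega)]
      rfl
  have hc : Continuous fun θ : ℝ => Complex.exp (-(θ * Complex.I)) := by fun_prop
  have hpi := Real.pi_pos
  have hbig : (fun r => q.eval r) =O[𝓝[>] (0 : ℝ)] (fun r => r ^ (n + 1)) := by
    refine IsBigO.of_bound C ?_
    filter_upwards [hC, hcont, hint, self_mem_nhdsWithin] with r h1 h2 h3 h4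
    rw [mem_Ioi] at h4
    have e1 : ((∫ θ in (0 : ℝ)..(2 * Real.pi), Complex.exp (-(θ * Complex.I)) *
        EV (r, θ) Q).re) = 2 * Real.pi * q.eval r := by
      rw [int_EV]
      have : (2 * (Real.pi : ℂ)) = ((2 * Real.pi : ℝ) : ℂ) := by push_cast; ring
      rw [this, Complex.re_ofReal_mul, Complex.re_sum, hq, Polynomial.eval_finsetSum]
      congr 1
      refine Finset.sum_congr rfl fun j _ => ?_
      rw [Polynomial.eval_mul, Polynomial.eval_C, Polynomial.eval_pow, Polynomial.eval_X,
        ← Complex.ofReal_pow, Complex.re_mul_ofReal]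
    have e2 : (∫ θ in (0 : ℝ)..(2 * Real.pi), Complex.exp (-(θ * Complex.I)) *
        (f (r, θ) - EV (r, θ) Q)) = (∫ θ in (0 : ℝ)..(2 * Real.pi),
        Complex.exp (-(θ * Complex.I)) * f (r, θ)) - ∫ θ in (0 : ℝ)..(2 * Real.pi),
        Complex.exp (-(θ * Complex.I)) * EV (r, θ) Q := by
      have c1 : Continuous fun θ : ℝ => Complex.exp (-(θ * Complex.I)) * f (r, θ) := hc.mul h2
      have c2 : Continuous fun θ : ℝ => Complex.exp (-(θ * Complex.I)) * EV (r, θ) Q :=
        hc.mul (EV_cont Q r)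
      rw [← intervalIntegral.integral_sub (c1.intervalIntegrable _ _)
        (c2.intervalIntegrable _ _)]
      refine intervalIntegral.integral_congr fun θ _ => ?_
      ring
    have e3 : ‖∫ θ in (0 : ℝ)..(2 * Real.pi), Complex.exp (-(θ * Complex.I)) *
        (f (r, θ) - EV (r, θ) Q)‖ ≤ (C * r ^ (n + 1)) * |2 * Real.pi - 0| := by
      refine intervalIntegral.norm_integral_le_of_norm_le_const fun θ _ => ?_
      rw [norm_mul]
      have : -((θ : ℂ) * Complex.I) = ((-θ : ℝ) : ℂ) * Complex.I := by push_cast; ring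
      rw [this, Complex.norm_exp_ofReal_mul_I, one_mul]
      exact h1 θ
    have e4 : 2 * Real.pi * |q.eval r| ≤ (C * r ^ (n + 1)) * (2 * Real.pi) := by
      have h5 := (Complex.abs_re_le_norm _).trans e3
      rw [e2, Complex.sub_re, h3, zero_sub, abs_neg, e1, abs_mul, sub_zero,
        abs_of_pos (by positivity : (0 : ℝ) < 2 * Real.pi)] at h5
      exact h5
    rw [Real.norm_eq_abs, Real.norm_eq_abs, abs_of_pos (pow_pos h4 (n + 1))]
    nlinarith
  have := poly_small n q hbig n le_rfl
  rw [hcoef, ← hqc, this]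

end

end Pool.Agent.helper59.LD
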