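import Mathlib

/-!
# The algebraic part of the level step
-/

open Polynomial

namespace Pool.Agent.helper59.LD

noncomputable section

variable {K : Type*} [Field K]

/-- `1 - 4 a X` -/
def tP (a : K) : K[X] := 1 - C (4 * a) * X

/-- first operator -/
def N1 (a : K) (p F U : K[X]) : K[X] :=
  tP a * (derivative U * p * F - U * derivative p * F - U * p * derivative F) +
    C (2 * a) * U * p * F + tP a * U * p ^ 2

/-- second operator -/
def N2 (a : K) (p F V : K[X]) : K[X] :=
  tP a * (derivative V * p * F - 3 * V * derivative p * F - V * p * derivative F) +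
    C (6 * a) * V * p * F + tP a * V * p ^ 2

/-- third operator -/
def M1 (a : K) (p F B : K[X]) : K[X] :=
  tP a * F * (derivative B * p - B * derivative p) + C (2 * a) * F * B * p + tP a * B * p ^ 2

/-- the numerator -/
def RP (a : K) (p F U B Cc : K[X]) : K[X] :=
  N2 a p F (N1 a p F U) + tP a * M1 a p F B * p ^ 2 * F + tP a ^ 2 * Cc * p ^ 4 * F

theorem dvd_of_mul_unit {p q : K[X]} {c : K} (hc : c ≠ 0) (h : q ∣ C c * p) : q ∣ p := by
  have h1 := Dvd.dvd.mul_left h (C c⁻¹)
  rwa [← mul_assoc, ← C_mul, inv_mul_cancel₀ hc, C_1, one_mul] at h1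

theorem t_dvd [CharZero K] {a : K} (ha : a ≠ 0) {p F U B Cc : K[X]} (h1 : IsCoprime (tP a) p)
    (h2 : IsCoprime (tP a) F) (h : RP a p F U B Cc = 0) : tP a ∣ U := by
  have h3 : tP a ∣ C (12 * a ^ 2) * (p ^ 2 * (F ^ 2 * U)) := by
    have e : C (12 * a ^ 2) * (p ^ 2 * (F ^ 2 * U)) = RP a p F U B Cc - tP a * (
        (derivative (N1 a p F U) * p * F - 3 * N1 a p F U * derivative p * F -
          N1 a p F U * p * derivative F) + N1 a p F U * p ^ 2 + M1 a p F B * p ^ 2 * F +
          tP a * Cc * p ^ 4 * F + C (6 * a) * p * F *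
          ((derivative U * p * F - U * derivative p * F - U * p * derivative F) +
            U * p ^ 2)) := by
      rw [RP, N2]
      have e1 : C (12 * a ^ 2) = C (6 * a) * C (2 * a) := by rw [← C_mul]; congr 1; ring
      rw [e1]
      have e2 : N1 a p F U = tP a * (derivative U * p * F - U * derivative p * F -
        U * p * derivative F) + C (2 * a) * U * p * F + tP a * U * p ^ 2 := rfl
      linear_combination (-(C (6 * a) * p * F)) * e2
    rw [e, h, zero_sub]
    exact (dvd_neg).2 (dvd_mul_right _ _)
  have hc : (12 * a ^ 2 : K) ≠ 0 := mul_ne_zero (by norm_num) (pow_ne_zero _ ha)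
  have h4 := dvd_of_mul_unit hc h3
  exact (h2.pow_right (n := 2)).dvd_of_dvd_mul_left ((h1.pow_right (n := 2)).dvd_of_dvd_mul_left h4)

theorem p_dvd [CharZero K] {a : K} {p F U B Cc : K[X]} (h1 : IsCoprime p (tP a))
    (h2 : IsCoprime p F) (h3 : IsCoprime p (derivative p)) (h : RP a p F U B Cc = 0) : p ∣ U := by
  have h4 : p ∣ C 3 * (tP a ^ 2 * (derivative p ^ 2 * (F ^ 2 * U))) := by
    have e : C 3 * (tP a ^ 2 * (derivative p ^ 2 * (F ^ 2 * U))) = RP a p F U B Cc - p * (
        tP a * (derivative (N1 a p F U) * F - N1 a p F U * derivative F) +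
        C (6 * a) * N1 a p F U * F + tP a * N1 a p F U * p + tP a * M1 a p F B * p * F +
          tP a ^ 2 * Cc * p ^ 3 * F - 3 * tP a * derivative p * F * (
          tP a * (derivative U * F - U * derivative F) + C (2 * a) * U * F + tP a * U * p)) := by
      rw [RP, N2]
      have e1 : (C 3 : K[X]) = 3 := map_ofNat (C : K →+* K[X]) 3
      rw [e1]
      have e2 : N1 a p F U = tP a * (derivative U * p * F - U * derivative p * F -
        U * p * derivative F) + C (2 * a) * U * p * F + tP a * U * p ^ 2 := rfl
      linear_combination (3 * tP a * derivative p * F) * e2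
    rw [e, h, zero_sub]
    exact (dvd_neg).2 (dvd_mul_right _ _)
  have h5 := dvd_of_mul_unit (by norm_num : (3 : K) ≠ 0) h4
  exact (h2.pow_right (n := 2)).dvd_of_dvd_mul_left ((h3.pow_right (n := 2)).dvd_of_dvd_mul_left
    ((h1.pow_right (n := 2)).dvd_of_dvd_mul_left h5))

theorem E_dvd [CharZero K] {a : K} {N : ℕ} {v U B Cc : K[X]}
    (h1 : IsCoprime (1 - v ^ N) (tP a)) (h2 : IsCoprime (1 - v ^ N) (derivative v))
    (h : RP a (derivative v) (v * (1 - v ^ N)) U B Cc = 0) : (1 - v ^ N) ∣ U := by
  set E := 1 - v ^ N with hE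
  set p := derivative v with hp
  have hF' : derivative (v * E) = C (-(N : K)) * p + E * (C ((N : K) + 1) * p) := by
    rw [hE, derivative_mul, derivative_sub, derivative_one, derivative_pow, ← hp]
    rcases N with _ | N
    · simp
    · simp only [Nat.add_sub_cancel, map_neg, map_add, map_one, map_natCast]
      push_cast
      ring
  have e1 : (C (-(N : K)) : K[X]) = -(N : K[X]) := by simp
  have e2 : (C ((N : K) + 1) : K[X]) = (N : K[X]) + 1 := by simp
  rw [e1, e2] at hF'
  have h3 : E ∣ C (((N : K) + 1) ^ 2) * (tP a ^ 2 * (p ^ 4 * U)) := by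
    have e : C (((N : K) + 1) ^ 2) * (tP a ^ 2 * (p ^ 4 * U)) = RP a p (v * E) U B Cc - E * (
        tP a * (derivative (N1 a p (v * E) U) * p * v - 3 * N1 a p (v * E) U * derivative p * v -
          N1 a p (v * E) U * p * (((N : K[X]) + 1) * p)) +
        C (6 * a) * N1 a p (v * E) U * p * v + tP a * M1 a p (v * E) B * p ^ 2 * v +
          tP a ^ 2 * Cc * p ^ 4 * v + ((N : K[X]) + 1) * tP a * p ^ 2 * (
          tP a * (derivative U * p * v - U * derivative p * v - U * p * (((N : K[X]) + 1) * p)) +
            C (2 * a) * U * p * v)) := by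
      rw [RP, N2]
      have e3 : (C (((N : K) + 1) ^ 2) : K[X]) = ((N : K[X]) + 1) ^ 2 := by simp
      rw [e3]
      have e4 : N1 a p (v * E) U = tP a * (derivative U * p * (v * E) - U * derivative p * (v * E) -
        U * p * derivative (v * E)) + C (2 * a) * U * p * (v * E) + tP a * U * p ^ 2 := rfl
      rw [hF'] at e4 ⊢
      linear_combination (-(((N : K[X]) + 1) * tP a * p ^ 2)) * e4
    rw [e, h, zero_sub]
    exact (dvd_neg).2 (dvd_mul_right _ _)
  have hN : (((N : K) + 1) ^ 2) ≠ 0 := pow_ne_zero _ (by exact_mod_cast Nat.succ_ne_zero N)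
  have h5 := dvd_of_mul_unit hN h3
  exact (h2.pow_right (n := 4)).dvd_of_dvd_mul_left ((h1.pow_right (n := 2)).dvd_of_dvd_mul_left h5)

theorem natDegree_lt_of {q : K[X]} {n : ℕ} (hn : 0 < n) (h : ∀ t, n ≤ t → q.coeff t = 0) :
    q.natDegree < n := by
  by_contra hc
  push Not at hc
  have h1 := h _ hc
  have h0 : q = 0 := leadingCoeff_eq_zero.1 h1
  rw [h0, natDegree_zero] at hc
  omega

theorem tP_coeff_one (a : K) : (tP a).coeff 1 = -(4 * a) := by
  rw [tP, coeff_sub, coeff_one, if_neg (by norm_num), coeff_C_mul, coeff_X_one]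
  ring

theorem tP_natDegree [CharZero K] {a : K} (ha : a ≠ 0) : (tP a).natDegree = 1 := by
  refine natDegree_eq_of_le_of_coeff_ne_zero ?_ ?_
  · rw [tP]
    refine (natDegree_sub_le _ _).trans (max_le (by simp) ?_)
    exact (natDegree_C_mul_le _ _).trans natDegree_X_le
  · rw [tP_coeff_one]
    exact neg_ne_zero.2 (mul_ne_zero (by norm_num) ha)

theorem alg_main [CharZero K] {a : K} (ha : a ≠ 0) {N m : ℕ} (hN : 1 ≤ N) (hm : 1 ≤ m)
    {v A H B Cc : K[X]} (hv : v.natDegree = m)
    (c1 : IsCoprime (derivative v) (v * (1 - v ^ N)))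
    (c2 : IsCoprime (derivative v) (derivative (derivative v)))
    (c3 : IsCoprime (tP a) (derivative v)) (c4 : IsCoprime (tP a) (v * (1 - v ^ N)))
    (hA : ∀ t, m * N ≤ t → A.coeff t = 0) (hH : ∀ t, m ≤ t → H.coeff t = 0)
    (hB : ∀ t, m * N + m ≤ t → B.coeff t = 0) (hC : ∀ t, m * N ≤ t → Cc.coeff t = 0)
    (h : RP a (derivative v) (v * (1 - v ^ N)) (tP a * A * derivative v + H) B Cc = 0) :
    A = 0 ∧ H = 0 ∧ B = 0 ∧ Cc = 0 := by
  set p := derivative v with hp
  set E := 1 - v ^ N with hE
  set U := tP a * A * p + H with hU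
  have hmN : 0 < m * N := Nat.mul_pos hm hN
  have hpdeg : p.natDegree = m - 1 := by rw [hp, natDegree_derivative, hv]
  have hv0 : v ≠ 0 := by
    intro h0
    rw [h0, natDegree_zero] at hv
    omega
  have hlead : p.coeff (m - 1) ≠ 0 := by
    rw [hp, coeff_derivative, Nat.sub_add_cancel hm]
    refine mul_ne_zero ?_ ?_
    · rw [← hv]
      exact leadingCoeff_ne_zero.2 hv0
    · exact_mod_cast Nat.succ_ne_zero (m - 1)
  have hp0 : p ≠ 0 := fun h0 => hlead (by rw [h0, coeff_zero])
  have hvN : (v ^ N).natDegree = m * N := by rw [natDegree_pow, hv, mul_comm]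
  have hEdeg : E.natDegree = m * N := by
    rw [hE, natDegree_sub_eq_right_of_natDegree_lt, hvN]
    rw [hvN, natDegree_one]
    exact hmN
  have hE0 : E ≠ 0 := by
    intro h0
    rw [h0, natDegree_zero] at hEdeg
    omega
  have ht0 : tP a ≠ 0 := by
    intro h0
    have := tP_natDegree ha
    rw [h0, natDegree_zero] at this
    omega
  -- divisibility
  have d1 : tP a ∣ U := t_dvd ha c3 c4 h
  have d2 : p ∣ U := p_dvd c3.symm c1 c2 h
  have cE : IsCoprime E (tP a) := (IsCoprime.of_mul_right_right c4).symm
  have cEp : IsCoprime E p := (IsCoprime.of_mul_right_right c1).symm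
  have d3 : E ∣ U := E_dvd cE cEp h
  have d4 : tP a * p * E ∣ U := by
    refine IsCoprime.mul_dvd ?_ (IsCoprime.mul_dvd c3 d1 d2) d3
    exact IsCoprime.mul_left cE.symm cEp.symm
  have hU0 : U = 0 := by
    by_contra hne
    have h5 := natDegree_le_of_dvd d4 hne
    rw [natDegree_mul (mul_ne_zero ht0 hp0) hE0, natDegree_mul ht0 hp0, tP_natDegree ha, hpdeg,
      hEdeg] at h5
    have h6 : U.natDegree ≤ m * N + m - 1 := by
      rw [hU]
      refine (natDegree_add_le _ _).trans (max_le ?_ ?_)
      · have h7 := natDegree_lt_of hmN hA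
        refine natDegree_mul_le.trans ?_
        have h8 : (tP a * A).natDegree ≤ 1 + A.natDegree := by
          refine natDegree_mul_le.trans ?_
          rw [tP_natDegree ha]
        omega
      · have h7 := natDegree_lt_of (by omega) hH
        omega
    omega
  have hA0 : A = 0 := by
    by_contra hne
    have h7 : tP a * A * p = -H := by
      rw [hU] at hU0
      linear_combination hU0
    have h8 := congrArg natDegree h7
    rw [natDegree_neg, natDegree_mul (mul_ne_zero ht0 hne) hp0, natDegree_mul ht0 hne,
      tP_natDegree ha, hpdeg] at h8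
    have := natDegree_lt_of (by omega) hH
    omega
  have hH0 : H = 0 := by
    rw [hU, hA0, mul_zero, zero_mul, zero_add] at hU0
    exact hU0
  refine ⟨hA0, hH0, ?_⟩
  -- the remaining relation
  have hred : M1 a p (v * E) B + tP a * Cc * p ^ 2 = 0 := by
    rw [RP, hU0] at h
    have e1 : N1 a p (v * E) 0 = 0 := by simp [N1]
    have e2 : N2 a p (v * E) 0 = 0 := by simp [N2]
    rw [e1, e2, zero_add] at h
    have h9 : (tP a * p ^ 2 * (v * E)) * (M1 a p (v * E) B + tP a * Cc * p ^ 2) = 0 := by
      linear_combination h
    exact (mul_eq_zero.1 h9).resolve_left (mul_ne_zero (mul_ne_zero ht0 (pow_ne_zero _ hp0))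
      (mul_ne_zero hv0 hE0))
  have hCdeg := natDegree_lt_of hmN hC
  have hB0 : B = 0 := by
    by_contra hne
    set b := B.natDegree with hb
    have hbc : B.coeff b ≠ 0 := leadingCoeff_ne_zero.2 hne
    have hFdeg : (v * E).natDegree = m * N + m := by
      rw [natDegree_mul hv0 hE0, hv, hEdeg]; ring
    have hFl : (v * E).coeff (m * N + m) ≠ 0 := by
      rw [← hFdeg]
      exact leadingCoeff_ne_zero.2 (mul_ne_zero hv0 hE0)
    -- the coefficient at the top
    set D := m * N + m + (b + (m - 1)) with hD
    have hA1 : (derivative B * p - B * derivative p).natDegree ≤ b + (m - 1) - 1 := by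
      refine (natDegree_sub_le _ _).trans (max_le ?_ ?_)
      · rcases Nat.eq_zero_or_pos b with h0 | h0
        · rw [natDegree_eq_zero.1 (hb.symm.trans h0) |>.choose_spec.symm, derivative_C, zero_mul,
            natDegree_zero]
          exact Nat.zero_le _
        · refine natDegree_mul_le.trans ?_
          rw [natDegree_derivative, hpdeg]
          omega
      · rcases Nat.eq_zero_or_pos (m - 1) with h0 | h0
        · have : derivative p = 0 := by
            rw [h0] at hpdeg
            obtain ⟨c, hc⟩ := natDegree_eq_zero.1 hpdeg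
            rw [← hc, derivative_C]
          rw [this, mul_zero, natDegree_zero]
          exact Nat.zero_le _
        · refine natDegree_mul_le.trans ?_
          rw [natDegree_derivative, hpdeg]
          omega
    have key : (tP a * (derivative B * p - B * derivative p) + C (2 * a) * B * p).coeff
        (b + (m - 1)) = B.coeff b * p.coeff (m - 1) * (a * (2 - 4 * ((b : K) - (m - 1 : ℕ)))) := by
      rw [coeff_add]
      have e1 : (C (2 * a) * B * p).coeff (b + (m - 1)) = 2 * a * (B.coeff b * p.coeff (m - 1)) := by
        rw [mul_assoc, coeff_C_mul, coeff_mul_add_eq_of_natDegree_le hb.ge hpdeg.le]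
      have e2 : (tP a * (derivative B * p - B * derivative p)).coeff (b + (m - 1)) =
          -(4 * a) * (((b : K) - (m - 1 : ℕ)) * (B.coeff b * p.coeff (m - 1))) := by
        have e3 : ∀ q : K[X], q.natDegree ≤ b + (m - 1) - 1 → (tP a * q).coeff (b + (m - 1)) =
            if b + (m - 1) = 0 then q.coeff 0 else -(4 * a) * q.coeff (b + (m - 1) - 1) := by
          intro q hq
          split_ifs with h0
          · rw [h0, mul_coeff_zero, tP]
            simp
          · have e4 : b + (m - 1) = 1 + (b + (m - 1) - 1) := by omega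
            rw [e4, coeff_mul_add_eq_of_natDegree_le (tP_natDegree ha).le (by omega),
              tP_coeff_one]
            congr 2
            omega
        rw [e3 _ hA1]
        split_ifs with h0
        · have hb0 : b = 0 := by omega
          have hm0 : m - 1 = 0 := by omega
          have e5 : derivative B = 0 := by
            obtain ⟨c, hc⟩ := natDegree_eq_zero.1 (hb.symm.trans hb0)
            rw [← hc, derivative_C]
          have e6 : derivative p = 0 := by
            rw [hm0] at hpdeg
            obtain ⟨c, hc⟩ := natDegree_eq_zero.1 hpdeg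
            rw [← hc, derivative_C]
          rw [e5, e6, hb0, hm0]
          simp
        · congr 1
          rw [coeff_sub, sub_mul]
          have e7 : (derivative B * p).coeff (b + (m - 1) - 1) = (b : K) * (B.coeff b *
              p.coeff (m - 1)) := by
            rcases Nat.eq_zero_or_pos b with hb0 | hb0
            · have e5 : derivative B = 0 := by
                obtain ⟨c, hc⟩ := natDegree_eq_zero.1 (hb.symm.trans hb0)
                rw [← hc, derivative_C]
              rw [e5, hb0]
              simp
            · have e8 : b + (m - 1) - 1 = (b - 1) + (m - 1) := by omega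
              rw [e8, coeff_mul_add_eq_of_natDegree_le (by rw [natDegree_derivative]) hpdeg.le,
                coeff_derivative, Nat.sub_add_cancel hb0]
              have : (((b - 1 : ℕ) : K) + 1) = b := by
                rw [Nat.cast_sub hb0]; push_cast; ring
              rw [this]
              ring
          have e9 : (B * derivative p).coeff (b + (m - 1) - 1) = ((m - 1 : ℕ) : K) * (B.coeff b *
              p.coeff (m - 1)) := by
            rcases Nat.eq_zero_or_pos (m - 1) with hm0 | hm0
            · have e6 : derivative p = 0 := by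
                rw [hm0] at hpdeg
                obtain ⟨c, hc⟩ := natDegree_eq_zero.1 hpdeg
                rw [← hc, derivative_C]
              rw [e6, hm0]
              simp
            · have e8 : b + (m - 1) - 1 = b + (m - 1 - 1) := by omega
              rw [e8, coeff_mul_add_eq_of_natDegree_le hb.ge
                (by rw [natDegree_derivative, hpdeg]), coeff_derivative, Nat.sub_add_cancel hm0]
              have : (((m - 1 - 1 : ℕ) : K) + 1) = ((m - 1 : ℕ) : K) := by
                rw [Nat.cast_sub hm0]; push_cast; ring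
              rw [this]
              ring
          rw [e7, e9]
      rw [e1, e2]
      ring
    have hkey0 : B.coeff b * p.coeff (m - 1) * (a * (2 - 4 * ((b : K) - (m - 1 : ℕ)))) ≠ 0 := by
      refine mul_ne_zero (mul_ne_zero hbc hlead) (mul_ne_zero ha ?_)
      intro h0
      have h1 : (2 : K) + 4 * (m - 1 : ℕ) = 4 * b := by linear_combination h0
      have h2 : 2 + 4 * (m - 1) = 4 * b := by exact_mod_cast h1
      omega
    have htop := congrArg (fun q => coeff q D) hred
    simp only [coeff_zero, coeff_add] at htop
    have g1 : (M1 a p (v * E) B).coeff D = (v * E).coeff (m * N + m) *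
        (B.coeff b * p.coeff (m - 1) * (a * (2 - 4 * ((b : K) - (m - 1 : ℕ))))) := by
      have e1 : M1 a p (v * E) B = (v * E) * (tP a * (derivative B * p - B * derivative p) +
          C (2 * a) * B * p) + tP a * B * p ^ 2 := by
        rw [M1]; ring
      rw [e1, coeff_add, hD, coeff_mul_add_eq_of_natDegree_le hFdeg.le, key]
      · have e2 : (tP a * B * p ^ 2).coeff (m * N + m + (b + (m - 1))) = 0 := by
          refine coeff_eq_zero_of_natDegree_lt ?_
          refine lt_of_le_of_lt natDegree_mul_le ?_
          have e3 : (tP a * B).natDegree ≤ 1 + b := by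
            refine natDegree_mul_le.trans ?_
            rw [tP_natDegree ha]
          have e4 : (p ^ 2).natDegree ≤ 2 * (m - 1) := by
            refine natDegree_pow_le.trans ?_
            rw [hpdeg]
          have e5 : m ≤ m * N := Nat.le_mul_of_pos_right m hN
          omega
        rw [e2, add_zero]
      · refine (natDegree_add_le _ _).trans (max_le ?_ ?_)
        · rcases Nat.eq_zero_or_pos (b + (m - 1)) with h0 | h0
          · have hb0 : b = 0 := by omega
            have hm0 : m - 1 = 0 := by omega
            have e5 : derivative B = 0 := by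
              obtain ⟨c, hc⟩ := natDegree_eq_zero.1 (hb.symm.trans hb0)
              rw [← hc, derivative_C]
            have e6 : derivative p = 0 := by
              rw [hm0] at hpdeg
              obtain ⟨c, hc⟩ := natDegree_eq_zero.1 hpdeg
              rw [← hc, derivative_C]
            rw [e5, e6]
            simp
          · refine natDegree_mul_le.trans ?_
            rw [tP_natDegree ha]
            omega
        · refine natDegree_mul_le.trans ?_
          have e3 : (C (2 * a) * B).natDegree ≤ b := natDegree_C_mul_le _ _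
          omega
    have g2 : (tP a * Cc * p ^ 2).coeff D = 0 := by
      refine coeff_eq_zero_of_natDegree_lt ?_
      refine lt_of_le_of_lt natDegree_mul_le ?_
      have e3 : (tP a * Cc).natDegree ≤ 1 + Cc.natDegree := by
        refine natDegree_mul_le.trans ?_
        rw [tP_natDegree ha]
      have e4 : (p ^ 2).natDegree ≤ 2 * (m - 1) := by
        refine natDegree_pow_le.trans ?_
        rw [hpdeg]
      omega
    rw [g1, g2, add_zero] at htop
    exact mul_ne_zero hFl hkey0 htop
  refine ⟨hB0, ?_⟩
  rw [hB0] at hred
  have e1 : M1 a p (v * E) 0 = 0 := by simp [M1]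
  rw [e1, zero_add] at hred
  by_contra hne
  exact mul_ne_zero (mul_ne_zero ht0 hne) (pow_ne_zero 2 hp0) hred

end

end Pool.Agent.helper59.LD
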