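import Pool.Agent.helper59.LD.Level3

/-!
# The tower, over the complex numbers
-/

open PowerSeries Filter

set_option linter.unusedSectionVars false

namespace Pool.Agent.helper59.LD

open LC Cardinal

noncomputable section

section next
variable {k K : Type*} [Field k] [CharZero k] [Field K] [CharZero K] [Algebra k K]
  [Algebra (Polynomial k) K] [IsScalarTower k (Polynomial k) K]

theorem tP_comp (a : K) : (tP a).comp (sP a) = (1 - Polynomial.C (2 * a) * Polynomial.X) ^ 2 := by
  rw [tP, sP]
  simp only [Polynomial.sub_comp, Polynomial.one_comp, Polynomial.mul_comp, Polynomial.C_comp,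
    Polynomial.X_comp, map_mul, map_ofNat, Polynomial.ofNat_comp]
  ring

theorem Good.level [IsFractionRing (Polynomial k) K] {N m : ℕ} (hN : 1 ≤ N) {v : Polynomial k}
    {z : k⟦X⟧} (h : Good N m v z) {x : K⟦X⟧}
    (hx : x - C (aK k K) * x ^ 2 = PowerSeries.map (algebraMap k K) z) (hx0 : coeff 0 x = 0) :
    Good N (2 * m) (nextP (aK k K) (v.map (algebraMap k K))) x := by
  have ha0 : aK k K ≠ 0 := ne_zero_aK
  have h' : Good N m (v.map (algebraMap k K)) (PowerSeries.map (algebraMap k K) z) := h.map
  have hcop1 : IsCoprime (tP (aK k K)) (Polynomial.derivative (v.map (algebraMap k K))) := by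
    rw [Polynomial.derivative_map]
    exact coprime_tP h.p_ne
  have hcop2 : IsCoprime (tP (aK k K)) (v.map (algebraMap k K) *
      (1 - v.map (algebraMap k K) ^ N)) := by
    have := coprime_tP (K := K) (h.F_ne hN)
    simpa using this
  set a := aK k K with ha
  set v' := v.map (algebraMap k K) with hv'
  have hm := h.hm
  have hcomp : ∀ P Q : Polynomial K, IsCoprime P Q → IsCoprime (P.comp (sP a)) (Q.comp (sP a)) := by
    intro P Q hPQ
    have := hPQ.map (Polynomial.compRingHom (sP a))
    exact this
  have hder : Polynomial.derivative (nextP a v') =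
      (1 - Polynomial.C (2 * a) * Polynomial.X) * (Polynomial.derivative v').comp (sP a) := by
    rw [nextP, Polynomial.derivative_comp, sP_deriv]
  set l := (1 - Polynomial.C (2 * a) * Polynomial.X : Polynomial K) with hl
  have hlc : ∀ Q : Polynomial K, IsCoprime (tP a) Q → IsCoprime l (Q.comp (sP a)) := by
    intro Q hQ
    have h1 := hcomp _ _ hQ
    rw [tP_comp, ← hl, pow_two] at h1
    exact IsCoprime.of_mul_left_left h1
  have hs2 : (sP a).natDegree = 2 :=
    Polynomial.natDegree_eq_of_le_of_coeff_ne_zero (sP_deg a) (by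
      rw [sP_coeff_two]; exact neg_ne_zero.2 ha0)
  have hs0 : (sP a).eval 0 = 0 := by simp [sP]
  have hv0 : v'.eval 0 = 0 := by rw [← Polynomial.coeff_zero_eq_eval_zero]; exact h'.v0
  refine ⟨by omega, ?_, ?_, ?_, ?_, ?_, hx0, ?_, ?_⟩
  · rw [nextP, Polynomial.natDegree_comp, h'.deg, hs2, mul_comm]
  · rw [nextP, Polynomial.coeff_zero_eq_eval_zero, Polynomial.eval_comp, hs0, hv0]
  · have h2 : (Polynomial.derivative (nextP a v')).coeff 0 = 1 := by
      rw [hder, Polynomial.coeff_zero_eq_eval_zero, Polynomial.eval_mul, Polynomial.eval_comp, hs0,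
        ← Polynomial.coeff_zero_eq_eval_zero, ← Polynomial.coeff_zero_eq_eval_zero,
        Polynomial.coeff_derivative, hl]
      simp [h'.v1]
    rw [Polynomial.coeff_derivative] at h2
    simpa using h2
  · rw [hder]
    have e1 : nextP a v' * (1 - nextP a v' ^ N) = (v' * (1 - v' ^ N)).comp (sP a) := by
      rw [nextP]; simp
    rw [e1]
    exact IsCoprime.mul_left (hlc _ hcop2) (hcomp _ _ h'.c1)
  · rw [hder]
    set A := (Polynomial.derivative v').comp (sP a) with hA
    have hdA : Polynomial.derivative A = l * (Polynomial.derivative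
        (Polynomial.derivative v')).comp (sP a) := by
      rw [hA, Polynomial.derivative_comp, sP_deriv]
    have hdl : Polynomial.derivative l = -Polynomial.C (2 * a) := by
      rw [hl, Polynomial.derivative_sub, Polynomial.derivative_one, Polynomial.derivative_C_mul,
        Polynomial.derivative_X, mul_one, zero_sub]
    rw [Polynomial.derivative_mul, hdl, hdA]
    have c1 : IsCoprime A ((Polynomial.derivative (Polynomial.derivative v')).comp (sP a)) :=
      hcomp _ _ h'.c2
    have c2 : IsCoprime l A := hlc _ hcop1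
    have hunit : IsUnit (-Polynomial.C (2 * a)) := by
      rw [← Polynomial.C_neg, Polynomial.isUnit_C]
      exact isUnit_iff_ne_zero.2 (neg_ne_zero.2 (mul_ne_zero (by norm_num) ha0))
    refine IsCoprime.mul_left ?_ ?_
    · have h3 : IsCoprime l (-Polynomial.C (2 * a) * A) :=
        IsCoprime.mul_right (isCoprime_one_right.of_isCoprime_of_dvd_right hunit.dvd) c2
      have h4 := h3.add_mul_left_right (l * (Polynomial.derivative
        (Polynomial.derivative v')).comp (sP a))
      exact h4
    · have h3 : IsCoprime A (l * (l * (Polynomial.derivative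
          (Polynomial.derivative v')).comp (sP a))) :=
        IsCoprime.mul_right c2.symm (IsCoprime.mul_right c2.symm c1)
      have h4 := h3.add_mul_left_right (-Polynomial.C (2 * a))
      have e : l * (l * (Polynomial.derivative (Polynomial.derivative v')).comp (sP a)) +
          A * -Polynomial.C (2 * a) = -Polynomial.C (2 * a) * A + l * (l * (Polynomial.derivative
          (Polynomial.derivative v')).comp (sP a)) := by ring
      rwa [e] at h4
  · have h1 := congrArg (coeff 1) hx
    rw [map_sub, coeff_C_mul, coeff_map, h.z1, map_one] at h1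
    have h2 : coeff 1 (x ^ 2) = 0 := by
      have h3 : (X : K⟦X⟧) ^ 2 ∣ x ^ 2 := by
        refine pow_dvd_pow_of_dvd ?_ 2
        rw [X_dvd_iff, ← coeff_zero_eq_constantCoeff_apply]
        exact hx0
      rw [X_pow_dvd_iff] at h3
      exact h3 1 (by norm_num)
    rw [h2, mul_zero, sub_zero] at h1
    exact h1
  · have e1 : nextP a v' * (1 - nextP a v' ^ N) = (v' * (1 - v' ^ N)).comp (sP a) := by
      rw [nextP]; simp
    rw [e1, aeval_comp_sP hx, nextP, aeval_comp_sP hx]
    exact h'.hφ

theorem exists_x [IsFractionRing (Polynomial k) K] {z : k⟦X⟧} (hz : coeff 0 z = 0) :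
    ∃ x : K⟦X⟧, x - C (aK k K) * x ^ 2 = PowerSeries.map (algebraMap k K) z ∧ coeff 0 x = 0 := by
  have ha0 : aK k K ≠ 0 := ne_zero_aK
  obtain ⟨y, hy0, hy⟩ := exists_quad (s := C (aK k K) * PowerSeries.map (algebraMap k K) z) (by
    refine dvd_mul_of_dvd_right ?_ _
    rw [X_dvd_iff, ← coeff_zero_eq_constantCoeff_apply, coeff_map, hz, map_zero])
  have e : C (aK k K)⁻¹ * C (aK k K) = 1 := by rw [← map_mul, inv_mul_cancel₀ ha0, map_one]
  refine ⟨C (aK k K)⁻¹ * y, ?_, ?_⟩
  · linear_combination (C (aK k K)⁻¹) * hy + (PowerSeries.map (algebraMap k K) z -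
      C (aK k K)⁻¹ * y ^ 2) * e
  · rw [coeff_C_mul, hy0, mul_zero]

end next

/-- a stage of the tower, over a countable field embedded in `ℂ` -/
structure Stage (N q : ℕ) where
  /-- the field -/
  K : Type
  [fld : Field K]
  [chz : CharZero K]
  [cnt : Countable K]
  /-- the embedding -/
  emb : K →+* ℂ
  /-- the polynomial -/
  v : Polynomial K
  /-- the series -/
  z : K⟦X⟧
  good : Good N (2 ^ q) v z
  tt : TT N (2 ^ q) v z

theorem exists_trans {k : Type} [Field k] [Countable k] (i : k →+* ℂ) :
    ∃ t : ℂ, Function.Injective (Polynomial.eval₂RingHom i t) := by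
  let _ := i.toAlgebra
  by_contra hc
  push Not at hc
  have halg : Algebra.IsAlgebraic k ℂ := by
    refine ⟨fun t => ?_⟩
    have h1 := hc t
    rw [injective_iff_map_eq_zero] at h1
    push Not at h1
    obtain ⟨P, hP, hP0⟩ := h1
    exact ⟨P, hP0, hP⟩
  have h1 := Algebra.IsAlgebraic.cardinalMk_le_max k ℂ
  rw [Cardinal.mk_complex] at h1
  have h2 : max #k ℵ₀ ≤ ℵ₀ := max_le (Cardinal.mk_le_aleph0) le_rfl
  exact absurd (h1.trans h2) (not_le.2 Cardinal.aleph0_lt_continuum)

theorem stage_succ {N q : ℕ} (hN : 1 ≤ N) (S : Stage N q) : Nonempty (Stage N (q + 1)) := by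
  obtain ⟨k, emb, v, z, good, tt⟩ := S
  rename_i f1 f2 f3
  set K := FractionRing (Polynomial k) with hK
  have hcK : CharZero K := by
    have : CharZero (Polynomial k) := inferInstance
    exact (charZero_of_injective_algebraMap (IsFractionRing.injective (Polynomial k) K))
  obtain ⟨x, hx, hx0⟩ := exists_x (k := k) (K := K) good.z0
  obtain ⟨t, ht⟩ := exists_trans emb
  have hcnt : Countable K := by
    rw [← Cardinal.mk_le_aleph0_iff, Cardinal.mk_fractionRing]
    exact (Polynomial.cardinalMk_le_max).trans (max_le Cardinal.mk_le_aleph0 le_rfl)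
  have e2 : 2 ^ (q + 1) = 2 * 2 ^ q := by ring
  exact ⟨{ K := K
           emb := IsFractionRing.lift ht
           v := nextP (aK k K) (v.map (algebraMap k K))
           z := x
           good := by rw [e2]; exact good.level hN hx hx0
           tt := by rw [e2]; exact tt.level hN good hx hx0 }⟩

theorem good_zero {k : ℕ} : Good (k + 1) 1 (Polynomial.X : Polynomial ℚ) (vQ k) := by
  have h := isPsi_vQ k
  refine ⟨le_rfl, Polynomial.natDegree_X, Polynomial.coeff_X_zero, Polynomial.coeff_X_one, ?_, ?_,
    ?_, h.2.1, ?_⟩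
  · rw [Polynomial.derivative_X]; exact isCoprime_one_left
  · rw [Polynomial.derivative_X]; exact isCoprime_one_left
  · have := h.1
    rwa [X_dvd_iff, ← coeff_zero_eq_constantCoeff_apply] at this
  · rw [Polynomial.aeval_X, h.2.2]
    congr 1
    rw [FF]
    ring

theorem exists_stage {N : ℕ} (hN : 3 ≤ N) (q : ℕ) : Nonempty (Stage N q) := by
  induction q with
  | zero =>
    obtain ⟨k, rfl⟩ : ∃ k, N = k + 1 := ⟨N - 1, by omega⟩
    exact ⟨{ K := ℚ
             emb := algebraMap ℚ ℂ
             v := Polynomial.X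
             z := vQ k
             good := good_zero
             tt := TT_zero (by omega) }⟩
  | succ q ih =>
    obtain ⟨S⟩ := ih
    exact stage_succ (by omega) S

/-- **the tower over `ℂ`** -/
theorem exists_tower {N : ℕ} (hN : 3 ≤ N) (q : ℕ) : ∃ (v : Polynomial ℂ) (x : ℂ⟦X⟧),
    Good N (2 ^ q) v x ∧ TT N (2 ^ q) v x := by
  obtain ⟨S⟩ := exists_stage hN q
  obtain ⟨k, emb, v, z, good, tt⟩ := S
  rename_i f1 f2 f3
  let _ := emb.toAlgebra
  exact ⟨v.map (algebraMap k ℂ), PowerSeries.map (algebraMap k ℂ) z, good.map,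
    tt.base good.p0 good.φ1 good.v1⟩

end

end Pool.Agent.helper59.LD
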