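import Pool.Agent.helper59.LD.YS2
import Pool.Agent.helper59.LD.Tower

/-!
# The base family and its independence
-/

open PowerSeries Filter

set_option linter.unusedSectionVars false

namespace Pool.Agent.helper59.LD

open LC

noncomputable section

/-- the first index set -/
def DS (N m n : ℕ) : Finset (ℕ × ℕ) :=
  ((Finset.range (m * N)) ×ˢ (Finset.range (m * N - m))).filter
    fun p => p.2 ≠ m - 1 ∧ p.1 + p.2 ≤ n

/-- the second index set -/
def ES (N m n : ℕ) : Finset (ℕ × ℕ) :=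
  ((Finset.range (m * N + m - 1)) ×ˢ (Finset.range (m * N - m + 1))).filter
    fun p => 1 ≤ p.1 ∧ p.1 + p.2 ≤ n ∧ (p.2 = m → p.1 < m * N)

/-- the third index set -/
def FS (N m : ℕ) : Finset (ℕ × ℕ) :=
  ((Finset.range m) ×ˢ (Finset.range (N + 2))).filter fun p => 1 ≤ p.1 ∧ 1 ≤ p.2

theorem mem_DS {N m n : ℕ} {p : ℕ × ℕ} : p ∈ DS N m n ↔
    p.1 < m * N ∧ p.2 < m * N - m ∧ p.2 ≠ m - 1 ∧ p.1 + p.2 ≤ n := by
  rw [DS, Finset.mem_filter, Finset.mem_product, Finset.mem_range, Finset.mem_range]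
  tauto

theorem mem_ES {N m n : ℕ} {p : ℕ × ℕ} : p ∈ ES N m n ↔
    p.1 < m * N + m - 1 ∧ p.2 < m * N - m + 1 ∧ 1 ≤ p.1 ∧ p.1 + p.2 ≤ n ∧
      (p.2 = m → p.1 < m * N) := by
  rw [ES, Finset.mem_filter, Finset.mem_product, Finset.mem_range, Finset.mem_range]
  tauto

theorem mem_FS {N m : ℕ} {p : ℕ × ℕ} : p ∈ FS N m ↔
    p.1 < m ∧ p.2 < N + 2 ∧ 1 ≤ p.1 ∧ 1 ≤ p.2 := by
  rw [FS, Finset.mem_filter, Finset.mem_product, Finset.mem_range, Finset.mem_range]
  tauto

/-- the index type -/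
abbrev IX (N m n : ℕ) : Type := (DS N m n ⊕ ES N m n) ⊕ (FS N m ⊕ FS N m)

/-! ### linearity of `Rel` -/

section rel
variable {N : ℕ} {P : Polynomial ℂ} {x : ℂ⟦X⟧}

/-- quintuples -/
structure Tup where
  /-- first -/
  a : Polynomial ℂ
  /-- second -/
  h : Polynomial ℂ
  /-- third -/
  b : Polynomial ℂ
  /-- fourth -/
  c : Polynomial ℂ
  /-- fifth -/
  d : ℂ

/-- the value of `Rel` -/
def relT (N : ℕ) (P : Polynomial ℂ) (x : ℂ⟦X⟧) (T : Tup) (μ : ℕ) : ℂ :=
  Rel N P x T.a T.h T.b T.c T.d μ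

/-- linear combination -/
def combT {ι : Type*} (s : Finset ι) (c : ι → ℂ) (T : ι → Tup) : Tup where
  a := ∑ e ∈ s, Polynomial.C (c e) * (T e).a
  h := ∑ e ∈ s, Polynomial.C (c e) * (T e).h
  b := ∑ e ∈ s, Polynomial.C (c e) * (T e).b
  c := ∑ e ∈ s, Polynomial.C (c e) * (T e).c
  d := ∑ e ∈ s, c e * (T e).d

/-- zero -/
def zT : Tup := ⟨0, 0, 0, 0, 0⟩

theorem relT_zero (μ : ℕ) : relT N P x zT μ = 0 := by
  rw [relT, zT, Rel]
  simp

theorem rel_step {A H B C A' H' B' C' : Polynomial ℂ} {d d' : ℂ} (c : ℂ) (μ : ℕ) :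
    Rel N P x (Polynomial.C c * A + A') (Polynomial.C c * H + H') (Polynomial.C c * B + B')
      (Polynomial.C c * C + C') (c * d + d') μ =
      c * Rel N P x A H B C d μ + Rel N P x A' H' B' C' d' μ := by
  have hC : ∀ (Q Q' : Polynomial ℂ), Polynomial.aeval x (Polynomial.C c * Q + Q') =
      PowerSeries.C c * Polynomial.aeval x Q + Polynomial.aeval x Q' := by
    intro Q Q'
    rw [map_add, map_mul, Polynomial.aeval_C, PowerSeries.algebraMap_apply,
      Algebra.algebraMap_self, RingHom.id_apply]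
  rw [Rel, Rel, Rel]
  simp only [hC]
  have e1 : ∀ (a a' h h' i r : ℂ⟦X⟧), (PowerSeries.C c * a + a' + (PowerSeries.C c * h + h') * i) *
      r = PowerSeries.C c * ((a + h * i) * r) + (a' + h' * i) * r := by
    intros; ring
  have e2 : ∀ (a a' r : ℂ⟦X⟧), (PowerSeries.C c * a + a') * r =
      PowerSeries.C c * (a * r) + a' * r := by
    intros; ring
  rw [e1, e2, e2, map_add, map_add, map_add, coeff_C_mul, coeff_C_mul, coeff_C_mul]
  ring

theorem relT_comb {ι : Type*} (s : Finset ι) (c : ι → ℂ) (T : ι → Tup) (μ : ℕ) :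
    relT N P x (combT s c T) μ = ∑ e ∈ s, c e * relT N P x (T e) μ := by
  classical
  induction s using Finset.induction_on with
  | empty =>
    have := relT_zero (N := N) (P := P) (x := x) μ
    rw [relT, zT] at this
    rw [relT, combT]
    simpa using this
  | insert a s ha ih =>
    rw [Finset.sum_insert ha, ← ih, relT, relT, relT, combT, combT]
    simp only
    rw [Finset.sum_insert ha, Finset.sum_insert ha, Finset.sum_insert ha, Finset.sum_insert ha,
      Finset.sum_insert ha, rel_step]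

end rel

/-- the class parameter -/
def kap (N m : ℕ) (u : ℕ) : ℚ := ((u : ℚ) - (2 * m - 1 : ℕ)) / ((m * N : ℕ) : ℚ)

/-- the admissible classes -/
abbrev CL (N m : ℕ) : Type := {u : Fin (m * N) // (u : ℕ) ≠ 2 * m - 1}

theorem kap_int {N m : ℕ} (hm : 1 ≤ m) (hN : 2 ≤ N) (u : CL N m) (z : ℤ) : kap N m u.1 ≠ z := by
  intro h
  have h1 := u.1.2
  have h2 := u.2
  have hM : (0 : ℚ) < ((m * N : ℕ) : ℚ) := by
    have : 0 < m * N := Nat.mul_pos (by omega) (by omega)
    exact_mod_cast this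
  rw [kap, div_eq_iff hM.ne'] at h
  have h3 : ((u.1 : ℕ) : ℤ) - ((2 * m - 1 : ℕ) : ℤ) = z * ((m * N : ℕ) : ℤ) := by exact_mod_cast h
  have h4 : 2 * m ≤ m * N := by nlinarith
  have h5 : (z * ((m * N : ℕ) : ℤ)) < ((m * N : ℕ) : ℤ) := by omega
  have h6 : -((m * N : ℕ) : ℤ) < z * ((m * N : ℕ) : ℤ) := by omega
  have h7 : z < 1 := by
    by_contra h8
    push Not at h8
    nlinarith
  have h8 : -1 < z := by
    by_contra h9
    push Not at h9
    nlinarith
  have h9 : z = 0 := by omega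
  rw [h9, zero_mul] at h3
  omega

theorem kap_diff {N m : ℕ} (u u' : CL N m) (hne : u ≠ u') (z : ℤ) :
    kap N m u.1 - kap N m u'.1 ≠ z := by
  intro h
  have h1 := u.1.2
  have h2 := u'.1.2
  have hM : (0 : ℚ) < ((m * N : ℕ) : ℚ) := by
    have : 0 < m * N := by omega
    exact_mod_cast this
  rw [kap, kap, ← sub_div, div_eq_iff hM.ne'] at h
  have h3 : ((u.1 : ℕ) : ℤ) - ((u'.1 : ℕ) : ℤ) = z * ((m * N : ℕ) : ℤ) := by
    have : ((u.1 : ℕ) : ℚ) - ((u'.1 : ℕ) : ℚ) = z * ((m * N : ℕ) : ℚ) := by linarith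
    exact_mod_cast this
  have h5 : (z * ((m * N : ℕ) : ℤ)) < ((m * N : ℕ) : ℤ) := by omega
  have h6 : -((m * N : ℕ) : ℤ) < z * ((m * N : ℕ) : ℤ) := by omega
  have h7 : z < 1 := by
    by_contra h8
    push Not at h8
    nlinarith
  have h8 : -1 < z := by
    by_contra h9
    push Not at h9
    nlinarith
  have h9 : z = 0 := by omega
  rw [h9, zero_mul] at h3
  apply hne
  apply Subtype.ext
  apply Fin.ext
  omega

/-- the abstract independence -/
theorem indep_of_TT {N m : ℕ} (hm : 1 ≤ m) (hN : 2 ≤ N) {P : Polynomial ℂ} {x : ℂ⟦X⟧}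
    (tt : TT N m P x) {ι : Type*} [Fintype ι] (T : ι → CL N m → Tup) (c : ι → ℂ)
    (hA : ∀ e u t, m * N ≤ t → (T e u).a.coeff t = 0)
    (hH : ∀ e u t, m ≤ t + 1 → (T e u).h.coeff t = 0)
    (hB : ∀ e u t, m * N + m ≤ t + 1 → (T e u).b.coeff t = 0)
    (hC : ∀ e u t, m * N ≤ t → (T e u).c.coeff t = 0)
    (M0 : ℕ) (h : ∀ μ, M0 ≤ μ → ∑ e, c e * ∑ u : CL N m,
      ((hyp (kap N m u.1) μ : ℚ) : ℂ) * relT N P x (T e u) μ = 0) (u : CL N m) :
    (∃ z, (∑ e, Polynomial.C (c e) * (T e u).a) = Polynomial.C z * P) ∧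
      (∑ e, Polynomial.C (c e) * (T e u).h) = 0 ∧
      (∃ z, (∑ e, Polynomial.C (c e) * (T e u).b) = Polynomial.C z * Polynomial.derivative P) ∧
      (∃ z, (∑ e, Polynomial.C (c e) * (T e u).c) = Polynomial.C z * Polynomial.derivative P) ∧
      (∑ e, c e * (T e u).d) = 0 := by
  have key := tt (CL N m) (fun u => kap N m u.1) (fun u z => kap_int hm hN u z)
    (fun u u' hne z => kap_diff u u' hne z)
    (fun u => (combT Finset.univ c (fun e => T e u)).a)
    (fun u => (combT Finset.univ c (fun e => T e u)).h)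
    (fun u => (combT Finset.univ c (fun e => T e u)).b)
    (fun u => (combT Finset.univ c (fun e => T e u)).c)
    (fun u => (combT Finset.univ c (fun e => T e u)).d)
    (fun u t ht => by
      rw [combT]
      simp only [Polynomial.finsetSum_coeff, Polynomial.coeff_C_mul]
      exact Finset.sum_eq_zero fun e _ => by rw [hA e u t ht, mul_zero])
    (fun u t ht => by
      rw [combT]
      simp only [Polynomial.finsetSum_coeff, Polynomial.coeff_C_mul]
      exact Finset.sum_eq_zero fun e _ => by rw [hH e u t ht, mul_zero])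
    (fun u t ht => by
      rw [combT]
      simp only [Polynomial.finsetSum_coeff, Polynomial.coeff_C_mul]
      exact Finset.sum_eq_zero fun e _ => by rw [hB e u t ht, mul_zero])
    (fun u t ht => by
      rw [combT]
      simp only [Polynomial.finsetSum_coeff, Polynomial.coeff_C_mul]
      exact Finset.sum_eq_zero fun e _ => by rw [hC e u t ht, mul_zero])
    (by
      refine eventually_atTop.2 ⟨M0, fun μ hμ => ?_⟩
      rw [← h μ hμ]
      simp only [Finset.mul_sum]
      rw [Finset.sum_comm]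
      refine Finset.sum_congr rfl fun u _ => ?_
      have := relT_comb (N := N) (P := P) (x := x) Finset.univ c (fun e => T e u) μ
      rw [relT] at this
      rw [this, Finset.mul_sum]
      refine Finset.sum_congr rfl fun e _ => ?_
      ring)
  exact key u

end

end Pool.Agent.helper59.LD
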