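import Pool.Agent.helper59.LD.BaseI

/-!
# The base vectors
-/

open PowerSeries Filter

set_option linter.unusedSectionVars false

namespace Pool.Agent.helper59.LD

open LC

noncomputable section

section rel
variable {N : ℕ} {P : Polynomial ℂ} {x : ℂ⟦X⟧} {g : Polynomial ℂ}

theorem relA (hx : Polynomial.aeval x P = psi g) (A : Polynomial ℂ) (μ : ℕ) :
    relT N P x ⟨A, 0, 0, 0, 0⟩ μ = V1 g x A μ := by
  rw [relT, Rel, V1, hx]
  simp

theorem relH (hx : Polynomial.aeval x P = psi g) {r : Polynomial ℂ} (hr : FF r = P)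
    (H : Polynomial ℂ) (μ : ℕ) :
    relT N P x ⟨0, H, 0, 0, 0⟩ μ = V3 r g x H μ := by
  rw [relT, Rel, V3, hx, hr]
  simp

theorem relB {r : Polynomial ℂ} (hr : FF r = P) (B : Polynomial ℂ) (μ : ℕ) :
    relT N P x ⟨0, 0, B, 0, 0⟩ μ = V2 r x B μ / ((μ : ℂ) + 1) := by
  rw [relT, Rel, V2, hr]
  simp

theorem relC {r : Polynomial ℂ} (hr : FF r = P) (C : Polynomial ℂ) (μ : ℕ) :
    relT N P x ⟨0, 0, 0, C, 0⟩ μ = V2 r x C μ / ((μ : ℂ) + 1) ^ 2 := by
  rw [relT, Rel, V2, hr]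
  simp

theorem relD (hx : Polynomial.aeval x P = psi g) (d : ℂ) (μ : ℕ) :
    relT N P x ⟨0, 0, 0, 0, d⟩ μ = d * (V1 g x (P ^ 2) μ / ((μ : ℂ) - N)) := by
  rw [relT, Rel, V1, map_pow, hx]
  simp

theorem aeval_C_mul' (x : ℂ⟦X⟧) (c : ℂ) (Q : Polynomial ℂ) :
    Polynomial.aeval x (Polynomial.C c * Q) = PowerSeries.C c * Polynomial.aeval x Q := by
  rw [map_mul (Polynomial.aeval x), Polynomial.aeval_C, PowerSeries.algebraMap_apply,
    Algebra.algebraMap_self, RingHom.id_apply]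

theorem V1_smul (c : ℂ) (A : Polynomial ℂ) (μ : ℕ) :
    V1 g x (Polynomial.C c * A) μ = c * V1 g x A μ := by
  rw [V1, aeval_C_mul', mul_assoc, coeff_C_mul, V1]

theorem V2_smul {r : Polynomial ℂ} (c : ℂ) (A : Polynomial ℂ) (μ : ℕ) :
    V2 r x (Polynomial.C c * A) μ = c * V2 r x A μ := by
  rw [V2, aeval_C_mul', mul_assoc, coeff_C_mul, V2]

theorem V3_smul {r : Polynomial ℂ} (c : ℂ) (A : Polynomial ℂ) (μ : ℕ) :
    V3 r g x (Polynomial.C c * A) μ = c * V3 r g x A μ := by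
  rw [V3, aeval_C_mul', mul_assoc, mul_assoc, coeff_C_mul, V3, mul_assoc]

end rel

/-- the first nonlinearity -/
def g1 {A : Type*} [CommRing A] (N : ℕ) (e : A) : Polynomial A :=
  Polynomial.C e - Polynomial.X ^ (N - 1)

variable (N m n : ℕ) (v : Polynomial ℂ) (x : ℂ⟦X⟧)

/-- the base vectors -/
def bv : IX N m n → ℕ → ℂ
  | .inl (.inl p), μ => (if p.1.1 = 1 then ((N : ℂ) - 1) / ((μ : ℂ) - N) * V1 (g1 N 0) x (v ^ 2) μ
      else V1 (g1 N 0) x (Polynomial.X ^ p.1.1) μ) *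
        V2 (r1 ℂ m) (y0 N m) ((1 + Polynomial.X) ^ p.1.2) μ
  | .inl (.inr p), μ => (if p.1.2 = m then ((N : ℂ) - 1) / ((μ : ℂ) + 1) *
      V1 (g2 N m 0) (y0 N m) ((1 + Polynomial.X) ^ (2 * m)) μ
      else V1 (g2 N m 0) (y0 N m) ((1 + Polynomial.X) ^ p.1.2) μ) *
        V2 (poly2 v) x (Polynomial.X ^ p.1.1) μ
  | .inr (.inl p), μ => -(((p.1.2.factorial : ℂ)⁻¹) *
      (V3 (poly2 v) (g1 N 0) x (Polynomial.derivative (Polynomial.X ^ p.1.1)) μ *
        V4 (y0 N m) (2 * p.1.2) μ))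
  | .inr (.inr p), μ => -(((p.1.2.factorial : ℂ)⁻¹) *
      (V3 (r1 ℂ m) (g2 N m 0) (y0 N m) (Polynomial.derivative ((1 + Polynomial.X) ^ p.1.1)) μ *
        V4 x (2 * p.1.2) μ))

/-- the tuples -/
def tup : IX N m n → ℕ → Tup
  | .inl (.inl p), u => if u = p.1.2 + m then
      (if p.1.1 = 1 then ⟨0, 0, 0, 0, (N : ℂ) - 1⟩ else ⟨Polynomial.X ^ p.1.1, 0, 0, 0, 0⟩)
      else zT
  | .inl (.inr p), u => if p.1.2 = m then (if u = 3 * m - 1 then
      ⟨0, 0, 0, Polynomial.C (((N : ℂ) - 1) * (((m * N : ℕ) : ℂ) *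
        ((kap N m u : ℂ) - 1))) * Polynomial.X ^ p.1.1, 0⟩ else zT)
      else (if u + 1 = p.1.2 + m then ⟨0, 0, Polynomial.C (((m * N : ℕ) : ℂ) *
        ((kap N m u : ℂ) - 1)) * Polynomial.X ^ p.1.1, 0, 0⟩ else zT)
  | .inr (.inl p), u => if 2 * m ≤ u then
      ⟨0, Polynomial.C (-((p.1.2.factorial : ℂ)⁻¹) * p.1.1 *
        ((-1) ^ (2 * p.1.2 - (u - (2 * m - 1))) * ((2 * p.1.2).choose (u - (2 * m - 1)) : ℂ))) *
          Polynomial.X ^ (p.1.1 - 1), 0, 0, 0⟩ else zT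
  | .inr (.inr p), u => if u + 1 = p.1.1 then
      ⟨0, 0, Polynomial.C (-((p.1.2.factorial : ℂ)⁻¹) * p.1.1 * (((m * N : ℕ) : ℂ) *
        ((kap N m u : ℂ) - 1))) *
          (Polynomial.X ^ (2 * p.1.2) * Polynomial.derivative v), 0, 0⟩ else zT

variable {N m n v x}

theorem sum_single {f : CL N m → ℂ} {u0 : ℕ} (h1 : u0 < m * N) (h2 : u0 ≠ 2 * m - 1)
    (h : ∀ u : CL N m, (u.1 : ℕ) ≠ u0 → f u = 0) : ∑ u, f u = f ⟨⟨u0, h1⟩, h2⟩ := by
  classical
  apply Finset.sum_eq_single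
  · intro b _ hb
    apply h
    intro h3
    apply hb
    apply Subtype.ext
    apply Fin.ext
    exact h3
  · intro h3
    exact absurd (Finset.mem_univ _) h3

theorem bv_D (hm : 1 ≤ m) (hN : 2 ≤ N) (hx : Polynomial.aeval x v = psi (g1 N 0))
    (p : DS N m n) (μ : ℕ) : bv N m n v x (.inl (.inl p)) μ =
    ((m * N : ℕ) : ℂ) ^ μ * ∑ u : CL N m, ((hyp (kap N m u.1) μ : ℚ) : ℂ) *
      relT N v x (tup N m n v (.inl (.inl p)) u.1) μ := by
  have hp := mem_DS.1 p.2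
  have hu1 : p.1.2 + m < m * N := by omega
  have hu2 : p.1.2 + m ≠ 2 * m - 1 := by omega
  rw [sum_single hu1 hu2]
  · simp only [tup, if_true]
    have hk : kap N m (p.1.2 + m) = ((p.1.2 : ℚ) - (m - 1 : ℕ)) / ((m * N : ℕ) : ℚ) := by
      rw [kap]
      congr 1
      push_cast [Nat.cast_sub (show 1 ≤ 2 * m by omega), Nat.cast_sub hm]
      ring
    rw [hk, bv, V2_y0 (by omega) (by omega)]
    split_ifs with h
    · rw [relD hx]
      ring
    · rw [relA hx]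
      ring
  · intro u hu
    rw [tup, if_neg hu, relT_zero, mul_zero]

theorem bv_E (hm : 1 ≤ m) (hN : 3 ≤ N) (hr : FF (poly2 v) = v)
    (p : ES N m n) (μ : ℕ) : bv N m n v x (.inl (.inr p)) μ =
    ((m * N : ℕ) : ℂ) ^ μ * ∑ u : CL N m, ((hyp (kap N m u.1) μ : ℚ) : ℂ) *
      relT N v x (tup N m n v (.inl (.inr p)) u.1) μ := by
  have hp := mem_ES.1 p.2
  by_cases hpm : p.1.2 = m
  · have hmN : m * 3 ≤ m * N := Nat.mul_le_mul_left m hN
    have hu1 : 3 * m - 1 < m * N := by omega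
    have hu2 : 3 * m - 1 ≠ 2 * m - 1 := by omega
    rw [sum_single hu1 hu2]
    · simp only [tup, if_true, hpm]
      have hk : kap N m (3 * m - 1) = (((2 * m : ℕ) : ℚ) - m) / ((m * N : ℕ) : ℚ) := by
        rw [kap]
        congr 1
        push_cast [Nat.cast_sub (show 1 ≤ 2 * m by omega), Nat.cast_sub (show 1 ≤ 3 * m by omega)]
        ring
      rw [hk, bv, if_pos hpm, V1_y0 (by omega) (by omega), relC hr, V2_smul]
      have h1 : ((μ : ℂ) + 1) ≠ 0 := by exact_mod_cast Nat.succ_ne_zero μ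
      push_cast
      rw [pow_succ]
      field_simp
    · intro u hu
      rw [tup, if_pos hpm, if_neg hu, relT_zero, mul_zero]
  · have hu1 : p.1.2 + m - 1 < m * N := by
      have : m ≤ m * N := by nlinarith
      omega
    have hu2 : p.1.2 + m - 1 ≠ 2 * m - 1 := by omega
    rw [sum_single hu1 hu2]
    · have hu3 : p.1.2 + m - 1 + 1 = p.1.2 + m := by omega
      simp only [tup, if_true, if_neg hpm, hu3]
      have hk : kap N m (p.1.2 + m - 1) = ((p.1.2 : ℚ) - m) / ((m * N : ℕ) : ℚ) := by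
        rw [kap]
        congr 1
        push_cast [Nat.cast_sub (show 1 ≤ 2 * m by omega), Nat.cast_sub (show 1 ≤ p.1.2 + m by omega)]
        ring
      rw [hk, bv, if_neg hpm, V1_y0 (by omega) (by omega), relB hr, V2_smul]
      push_cast
      rw [pow_succ]
      ring
    · intro u hu
      have hu3 : ¬ ((u.1 : ℕ) + 1 = p.1.2 + m) := by omega
      rw [tup, if_neg hpm, if_neg hu3, relT_zero, mul_zero]

theorem bv_G (hm : 1 ≤ m) (hN : 3 ≤ N) (hr : FF (poly2 v) = v) (hx0 : coeff 0 x = 0)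
    (hv1 : v.coeff 1 = 1)
    (p : FS N m) (μ : ℕ) : bv N m n v x (.inr (.inr p)) μ =
    ((m * N : ℕ) : ℂ) ^ μ * ∑ u : CL N m, ((hyp (kap N m u.1) μ : ℚ) : ℂ) *
      relT N v x (tup N m n v (.inr (.inr p)) u.1) μ := by
  have hp := mem_FS.1 p.2
  have hmN : m * 3 ≤ m * N := Nat.mul_le_mul_left m hN
  have hu1 : p.1.1 - 1 < m * N := by omega
  have hu2 : p.1.1 - 1 ≠ 2 * m - 1 := by omega
  rw [sum_single hu1 hu2]
  · have hu3 : p.1.1 - 1 + 1 = p.1.1 := by omega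
    simp only [tup, if_true, hu3]
    have hk : kap N m (p.1.1 - 1) = (((p.1.1 - 1 : ℕ) : ℚ) - (m - 1 + m : ℕ)) /
        ((m * N : ℕ) : ℚ) := by
      rw [kap]
      congr 3
      omega
    have hd : Polynomial.derivative ((1 + Polynomial.X : Polynomial ℂ) ^ p.1.1) =
        Polynomial.C (p.1.1 : ℂ) * (1 + Polynomial.X) ^ (p.1.1 - 1) := by
      rw [Polynomial.derivative_pow]
      simp
    have h4 : V2 (poly2 v) x (Polynomial.X ^ (2 * p.1.2) * Polynomial.derivative v) μ =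
        V4 x (2 * p.1.2) μ := by
      rw [V2, V4, hr, map_mul (Polynomial.aeval x), map_pow (Polynomial.aeval x),
        Polynomial.aeval_X, mul_assoc, inv1_mul, mul_one]
      rw [coeff_zero_aeval hx0, Polynomial.coeff_derivative, hv1]
      simp
    rw [hk, bv, hd, V3_smul, V3_y0 (by omega) (by omega), relB hr, V2_smul, h4]
    push_cast
    rw [pow_succ]
    ring
  · intro u hu
    have hu3 : ¬ ((u.1 : ℕ) + 1 = p.1.1) := by omega
    rw [tup, if_neg hu3, relT_zero, mul_zero]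

theorem bv_F (hm : 1 ≤ m) (hN : 3 ≤ N) (hmN : 2 * (N + 1) + (2 * m - 1) < m * N)
    (hx : Polynomial.aeval x v = psi (g1 N 0)) (hr : FF (poly2 v) = v)
    (p : FS N m) {μ : ℕ} (hμ : 1 ≤ μ) : bv N m n v x (.inr (.inl p)) μ =
    ((m * N : ℕ) : ℂ) ^ μ * ∑ u : CL N m, ((hyp (kap N m u.1) μ : ℚ) : ℂ) *
      relT N v x (tup N m n v (.inr (.inl p)) u.1) μ := by
  classical
  have hp := mem_FS.1 p.2
  rw [bv, V4_y0 (by omega) (by omega)]
  have hd : Polynomial.derivative ((Polynomial.X : Polynomial ℂ) ^ p.1.1) =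
      Polynomial.C (p.1.1 : ℂ) * Polynomial.X ^ (p.1.1 - 1) := by
    rw [Polynomial.derivative_X_pow]
  rw [hd, V3_smul]
  set V := V3 (poly2 v) (g1 N 0) x (Polynomial.X ^ (p.1.1 - 1)) μ with hV
  set c0 : ℂ := -((p.1.2.factorial : ℂ)⁻¹) * p.1.1 * V with hc0
  have h1 : -((p.1.2.factorial : ℂ)⁻¹ * ((p.1.1 : ℂ) * V * (((m * N : ℕ) : ℂ) ^ μ *
      ∑ l ∈ Finset.range (2 * p.1.2 + 1), ((-1) ^ (2 * p.1.2 - l) * ((2 * p.1.2).choose l : ℂ)) *
        ((hyp ((l : ℚ) / ((m * N : ℕ) : ℚ)) μ : ℚ) : ℂ)))) = ((m * N : ℕ) : ℂ) ^ μ *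
      ∑ l ∈ Finset.range (2 * p.1.2 + 1), c0 * (((-1) ^ (2 * p.1.2 - l) *
        ((2 * p.1.2).choose l : ℂ)) * ((hyp ((l : ℚ) / ((m * N : ℕ) : ℚ)) μ : ℚ) : ℂ)) := by
    rw [← Finset.mul_sum, hc0]
    ring
  rw [h1]
  congr 1
  -- the terms
  have h2 : ∀ u : CL N m, ((hyp (kap N m u.1) μ : ℚ) : ℂ) *
      relT N v x (tup N m n v (.inr (.inl p)) u.1) μ = if 2 * m ≤ (u.1 : ℕ) then
        c0 * (((-1) ^ (2 * p.1.2 - ((u.1 : ℕ) - (2 * m - 1))) *
        ((2 * p.1.2).choose ((u.1 : ℕ) - (2 * m - 1)) : ℂ)) *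
          ((hyp ((((u.1 : ℕ) - (2 * m - 1) : ℕ) : ℚ) / ((m * N : ℕ) : ℚ)) μ : ℚ) : ℂ)) else 0 := by
    intro u
    by_cases hu : 2 * m ≤ (u.1 : ℕ)
    · have hk : kap N m u.1 = ((((u.1 : ℕ) - (2 * m - 1) : ℕ) : ℚ) / ((m * N : ℕ) : ℚ)) := by
        rw [kap]
        congr 1
        exact (Nat.cast_sub (by omega)).symm
      rw [tup, if_pos hu, if_pos hu, relH hx hr, V3_smul, hk, hc0]
      ring
    · rw [tup, if_neg hu, if_neg hu, relT_zero, mul_zero]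
  rw [Finset.sum_congr rfl fun u _ => h2 u, ← Finset.sum_filter]
  have hz : ∀ l ∈ Finset.range (2 * p.1.2 + 1), l ≠ 0 ∨ l = 0 := fun l _ => by omega
  rw [← Finset.sum_filter_add_sum_filter_not (Finset.range (2 * p.1.2 + 1)) (fun l => l ≠ 0)]
  have h3 : ∑ l ∈ (Finset.range (2 * p.1.2 + 1)).filter (fun l => ¬ l ≠ 0), c0 *
      (((-1) ^ (2 * p.1.2 - l) * ((2 * p.1.2).choose l : ℂ)) *
        ((hyp ((l : ℚ) / ((m * N : ℕ) : ℚ)) μ : ℚ) : ℂ)) = 0 := by
    refine Finset.sum_eq_zero fun l hl => ?_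
    rw [Finset.mem_filter, not_not] at hl
    have h0 : hyp 0 μ = 0 := by
      rw [hyp]
      refine Finset.prod_eq_zero (i := 0) (Finset.mem_range.2 (by omega)) ?_
      simp
    rw [hl.2, Nat.cast_zero, zero_div, h0]
    simp
  rw [h3, add_zero]
  symm
  rw [← Finset.sum_subset (s₁ := (Finset.univ.filter fun u : CL N m => 2 * m ≤ (u.1 : ℕ) ∧
    (u.1 : ℕ) ≤ 2 * p.1.2 + (2 * m - 1)))]
  · refine Finset.sum_bij (fun u _ => (u.1 : ℕ) - (2 * m - 1)) ?_ ?_ ?_ ?_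
    · intro u hu
      rw [Finset.mem_filter] at hu
      rw [Finset.mem_filter, Finset.mem_range]
      omega
    · intro a ha b hb hab
      rw [Finset.mem_filter] at ha hb
      apply Subtype.ext
      apply Fin.ext
      omega
    · intro l hl
      rw [Finset.mem_filter, Finset.mem_range] at hl
      refine ⟨⟨⟨l + (2 * m - 1), by omega⟩, by simp only; omega⟩, ?_, ?_⟩
      · rw [Finset.mem_filter]
        refine ⟨Finset.mem_univ _, ?_, ?_⟩ <;> simp only <;> omega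
      · simp only
        omega
    · intro u hu
      rfl
  · intro u hu
    rw [Finset.mem_filter] at hu ⊢
    exact ⟨Finset.mem_univ _, hu.2.1⟩
  · intro u hu hu2
    rw [Finset.mem_filter] at hu hu2
    have h5 : 2 * p.1.2 < (u.1 : ℕ) - (2 * m - 1) := by
      by_contra h6
      exact hu2 ⟨Finset.mem_univ _, hu.2, by omega⟩
    rw [Nat.choose_eq_zero_of_lt h5]
    simp

end

end Pool.Agent.helper59.LD
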