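import Pool.Agent.helper59.LD.BaseV

/-!
# Independence of the base vectors
-/

open PowerSeries Filter

set_option linter.unusedSectionVars false

namespace Pool.Agent.helper59.LD

open LC

noncomputable section

variable {N m n : ℕ} {v : Polynomial ℂ} {x : ℂ⟦X⟧}

theorem zT_a : zT.a = 0 := rfl
theorem zT_h : zT.h = 0 := rfl
theorem zT_b : zT.b = 0 := rfl
theorem zT_c : zT.c = 0 := rfl
theorem zT_d : zT.d = 0 := rfl

theorem CX_coeff (c : ℂ) (i t : ℕ) :
    (Polynomial.C c * Polynomial.X ^ i).coeff t = if t = i then c else 0 := by
  rw [Polynomial.coeff_C_mul, Polynomial.coeff_X_pow]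
  split_ifs <;> simp

theorem tup_a_deg (e : IX N m n) (u t : ℕ) (ht : m * N ≤ t) :
    (tup N m n v e u).a.coeff t = 0 := by
  rcases e with (p | p) | (p | p)
  · have hp := mem_DS.1 p.2
    rw [tup]
    split_ifs
    · rw [Polynomial.coeff_zero]
    · rw [Polynomial.coeff_X_pow, if_neg (by omega)]
    · rw [zT_a, Polynomial.coeff_zero]
  · rw [tup]
    split_ifs <;> simp [zT_a]
  · rw [tup]
    split_ifs <;> simp [zT_a]
  · rw [tup]
    split_ifs <;> simp [zT_a]

theorem tup_h_deg (e : IX N m n) (u t : ℕ) (ht : m ≤ t + 1) :
    (tup N m n v e u).h.coeff t = 0 := by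
  rcases e with (p | p) | (p | p)
  · rw [tup]
    split_ifs <;> simp [zT_h]
  · rw [tup]
    split_ifs <;> simp [zT_h]
  · have hp := mem_FS.1 p.2
    rw [tup]
    split_ifs
    · simp only
      rw [CX_coeff, if_neg (by omega)]
    · rw [zT_h, Polynomial.coeff_zero]
  · rw [tup]
    split_ifs <;> simp [zT_h]

theorem tup_b_deg (hv : v.natDegree = m) (hmN : 2 * (N + 1) + (2 * m - 1) < m * N)
    (e : IX N m n) (u t : ℕ) (ht : m * N + m ≤ t + 1) :
    (tup N m n v e u).b.coeff t = 0 := by
  rcases e with (p | p) | (p | p)
  · rw [tup]
    split_ifs <;> simp [zT_b]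
  · have hp := mem_ES.1 p.2
    rw [tup]
    split_ifs
    · simp
    · simp [zT_b]
    · simp only
      rw [CX_coeff, if_neg (by omega)]
    · simp [zT_b]
  · rw [tup]
    split_ifs <;> simp [zT_b]
  · have hp := mem_FS.1 p.2
    rw [tup]
    split_ifs
    · simp only
      rw [Polynomial.coeff_C_mul, Polynomial.coeff_X_pow_mul', if_pos (by omega),
        Polynomial.coeff_derivative, Polynomial.coeff_eq_zero_of_natDegree_lt (by omega)]
      simp
    · rw [zT_b, Polynomial.coeff_zero]

theorem tup_c_deg (e : IX N m n) (u t : ℕ) (ht : m * N ≤ t) :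
    (tup N m n v e u).c.coeff t = 0 := by
  rcases e with (p | p) | (p | p)
  · rw [tup]
    split_ifs <;> simp [zT_c]
  · have hp := mem_ES.1 p.2
    rw [tup]
    split_ifs with h1 h2 h3
    · simp only
      rw [CX_coeff, if_neg]
      have := hp.2.2.2.2 h1
      omega
    · simp [zT_c]
    · simp
    · simp [zT_c]
  · rw [tup]
    split_ifs <;> simp [zT_c]
  · rw [tup]
    split_ifs <;> simp [zT_c]

theorem bv_eq (hm : 1 ≤ m) (hN : 3 ≤ N) (hmN : 2 * (N + 1) + (2 * m - 1) < m * N)
    (hx : Polynomial.aeval x v = psi (g1 N 0)) (hr : FF (poly2 v) = v) (hx0 : coeff 0 x = 0)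
    (hv1 : v.coeff 1 = 1) (e : IX N m n) {μ : ℕ} (hμ : 1 ≤ μ) : bv N m n v x e μ =
    ((m * N : ℕ) : ℂ) ^ μ * ∑ u : CL N m, ((hyp (kap N m u.1) μ : ℚ) : ℂ) *
      relT N v x (tup N m n v e u.1) μ := by
  rcases e with (p | p) | (p | p)
  · exact bv_D hm (by omega) hx p μ
  · exact bv_E hm hN hr p μ
  · exact bv_F hm hN hmN hx hr p hμ
  · exact bv_G hm hN hr hx0 hv1 p μ

theorem kap_sub_ne (hm : 1 ≤ m) (hN : 2 ≤ N) (u : CL N m) :
    ((m * N : ℕ) : ℂ) * ((kap N m u.1 : ℂ) - 1) ≠ 0 := by
  have hM : ((m * N : ℕ) : ℂ) ≠ 0 := by
    have : m * N ≠ 0 := Nat.mul_ne_zero (by omega) (by omega)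
    exact_mod_cast this
  refine mul_ne_zero hM (fun h => kap_int hm hN u 1 ?_)
  have h2 : (kap N m u.1 : ℂ) = 1 := by linear_combination h
  exact_mod_cast h2

/-- coefficient extraction -/
theorem coeff_comb {ι : Type*} [Fintype ι] (c : ι → ℂ) (Q : ι → Polynomial ℂ) (t : ℕ) :
    (∑ e, Polynomial.C (c e) * Q e).coeff t = ∑ e, c e * (Q e).coeff t := by
  rw [Polynomial.finsetSum_coeff]
  simp only [Polynomial.coeff_C_mul]

theorem bv_indep (hm : 1 ≤ m) (hN : 3 ≤ N) (hmN : 2 * (N + 1) + (2 * m - 1) < m * N)
    (hx : Polynomial.aeval x v = psi (g1 N 0)) (hr : FF (poly2 v) = v) (hx0 : coeff 0 x = 0)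
    (hv1 : v.coeff 1 = 1) (hv : v.natDegree = m) (tt : TT N m v x) {M0 : ℕ} (hM0 : 1 ≤ M0) :
    LinearIndependent ℂ (fun (e : IX N m n) μ => bv N m n v x e (μ + M0)) := by
  classical
  rw [Fintype.linearIndependent_iff]
  intro c hc
  have hM : ((m * N : ℕ) : ℂ) ≠ 0 := by
    have : m * N ≠ 0 := Nat.mul_ne_zero (by omega) (by omega)
    exact_mod_cast this
  have h1 : ∀ μ, M0 ≤ μ → ∑ e, c e * ∑ u : CL N m,
      ((hyp (kap N m u.1) μ : ℚ) : ℂ) * relT N v x (tup N m n v e u.1) μ = 0 := by
    intro μ hμ
    have h2 := congrFun hc (μ - M0)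
    simp only [Finset.sum_apply, Pi.smul_apply, smul_eq_mul, Pi.zero_apply,
      Nat.sub_add_cancel hμ] at h2
    have h3 : ((m * N : ℕ) : ℂ) ^ μ * ∑ e, c e * ∑ u : CL N m,
      ((hyp (kap N m u.1) μ : ℚ) : ℂ) * relT N v x (tup N m n v e u.1) μ = 0 := by
      rw [← h2, Finset.mul_sum]
      refine Finset.sum_congr rfl fun e _ => ?_
      rw [bv_eq hm hN hmN hx hr hx0 hv1 e (by omega : 1 ≤ μ)]
      ring
    exact (mul_eq_zero.1 h3).resolve_left (pow_ne_zero _ hM)
  have key := indep_of_TT hm (by omega : 2 ≤ N) tt (fun e u => tup N m n v e u.1) c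
    (fun e u t ht => tup_a_deg e _ t ht) (fun e u t ht => tup_h_deg e _ t ht)
    (fun e u t ht => tup_b_deg hv hmN e _ t ht) (fun e u t ht => tup_c_deg e _ t ht) M0 h1
  have hvd : Polynomial.derivative v ≠ 0 := fun h => by
    have h2 := congrArg (fun q => Polynomial.coeff q 0) h
    simp only [Polynomial.coeff_derivative, Polynomial.coeff_zero] at h2
    rw [hv1] at h2
    simp at h2
  have hvd0 : (Polynomial.derivative v).coeff 0 = 1 := by
    rw [Polynomial.coeff_derivative, hv1]; simp
  have hmN3 : m * 3 ≤ m * N := Nat.mul_le_mul_left m hN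
  -- the first family
  have hD : ∀ p : DS N m n, c (.inl (.inl p)) = 0 := by
    intro p
    have hp := mem_DS.1 p.2
    obtain ⟨⟨z, hz⟩, -, -, -, hd⟩ := key ⟨⟨p.1.2 + m, by omega⟩, by simp only; omega⟩
    simp only at hz hd
    by_cases hp1 : p.1.1 = 1
    · rw [Finset.sum_eq_single (.inl (.inl p))] at hd
      · simp only [tup, if_true, if_pos hp1] at hd
        have hN1 : (N : ℂ) - 1 ≠ 0 := by
          intro h
          have : (N : ℂ) = 1 := by linear_combination h
          have : N = 1 := by exact_mod_cast this
          omega
        exact (mul_eq_zero.1 hd).resolve_right hN1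
      · intro e _ he
        rcases e with (q | q) | (q | q)
        · rw [tup]
          split_ifs with h1 h2
          · exfalso
            apply he
            congr 2
            apply Subtype.ext
            apply Prod.ext
            · rw [h2, hp1]
            · omega
          · simp
          · simp [zT_d]
        · rw [tup]
          split_ifs <;> simp [zT_d]
        · rw [tup]
          split_ifs <;> simp [zT_d]
        · rw [tup]
          split_ifs <;> simp [zT_d]
      · intro h
        exact absurd (Finset.mem_univ _) h
    · have hz0 : z = 0 := by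
        have h2 := congrArg (fun q => Polynomial.coeff q 1) hz
        simp only [coeff_comb, Polynomial.coeff_C_mul, hv1, mul_one] at h2
        rw [← h2]
        refine Finset.sum_eq_zero fun e _ => ?_
        rcases e with (q | q) | (q | q)
        · rw [tup]
          split_ifs with h1 h2
          · simp
          · simp only
            rw [Polynomial.coeff_X_pow, if_neg (by omega), mul_zero]
          · simp [zT_a]
        · rw [tup]
          split_ifs <;> simp [zT_a]
        · rw [tup]
          split_ifs <;> simp [zT_a]
        · rw [tup]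
          split_ifs <;> simp [zT_a]
      have h2 := congrArg (fun q => Polynomial.coeff q p.1.1) hz
      simp only [coeff_comb, Polynomial.coeff_C_mul, hz0, zero_mul] at h2
      rw [Finset.sum_eq_single (.inl (.inl p))] at h2
      · simp only [tup, if_true, if_neg hp1, Polynomial.coeff_X_pow, mul_one] at h2
        exact h2
      · intro e _ he
        rcases e with (q | q) | (q | q)
        · rw [tup]
          split_ifs with h1 h2
          · simp
          · simp only
            rw [Polynomial.coeff_X_pow, if_neg, mul_zero]
            intro h3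
            apply he
            congr 2
            apply Subtype.ext
            apply Prod.ext
            · exact h3.symm
            · omega
          · simp [zT_a]
        · rw [tup]
          split_ifs <;> simp [zT_a]
        · rw [tup]
          split_ifs <;> simp [zT_a]
        · rw [tup]
          split_ifs <;> simp [zT_a]
      · intro h
        exact absurd (Finset.mem_univ _) h
  -- the second family
  have hE : ∀ p : ES N m n, c (.inl (.inr p)) = 0 := by
    intro p
    have hp := mem_ES.1 p.2
    by_cases hpm : p.1.2 = m
    · set u : CL N m := ⟨⟨3 * m - 1, by omega⟩, by simp only; omega⟩ with hu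
      obtain ⟨-, -, -, ⟨z, hz⟩, -⟩ := key u
      have hz0 : z = 0 := by
        have h2 := congrArg (fun q => Polynomial.coeff q 0) hz
        simp only [coeff_comb, Polynomial.coeff_C_mul, hvd0, mul_one] at h2
        rw [← h2]
        refine Finset.sum_eq_zero fun e _ => ?_
        rcases e with (q | q) | (q | q)
        · rw [tup]
          split_ifs <;> simp [zT_c]
        · have hq := mem_ES.1 q.2
          rw [tup]
          split_ifs
          · simp only
            rw [CX_coeff, if_neg (by omega), mul_zero]
          · simp [zT_c]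
          · simp
          · simp [zT_c]
        · rw [tup]
          split_ifs <;> simp [zT_c]
        · rw [tup]
          split_ifs <;> simp [zT_c]
      have h2 := congrArg (fun q => Polynomial.coeff q p.1.1) hz
      simp only [coeff_comb, Polynomial.coeff_C_mul, hz0, zero_mul] at h2
      rw [Finset.sum_eq_single (.inl (.inr p))] at h2
      · rw [tup, if_pos hpm, if_pos rfl] at h2
        simp only at h2
        rw [CX_coeff, if_pos rfl] at h2
        have hN1 : (N : ℂ) - 1 ≠ 0 := by
          intro h
          have : (N : ℂ) = 1 := by linear_combination h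
          have : N = 1 := by exact_mod_cast this
          omega
        exact (mul_eq_zero.1 h2).resolve_right (mul_ne_zero hN1 (kap_sub_ne hm (by omega) u))
      · intro e _ he
        rcases e with (q | q) | (q | q)
        · rw [tup]
          split_ifs <;> simp [zT_c]
        · have hq := mem_ES.1 q.2
          rw [tup]
          split_ifs with h3 h4
          · simp only
            rw [CX_coeff, if_neg, mul_zero]
            intro h5
            apply he
            congr 2
            apply Subtype.ext
            apply Prod.ext
            · exact h5.symm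
            · rw [h3, hpm]
          · simp [zT_c]
          · simp
          · simp [zT_c]
        · rw [tup]
          split_ifs <;> simp [zT_c]
        · rw [tup]
          split_ifs <;> simp [zT_c]
      · intro h
        exact absurd (Finset.mem_univ _) h
    · set u : CL N m := ⟨⟨p.1.2 + m - 1, by omega⟩, by simp only; omega⟩ with hu
      have hu1 : ((u.1 : ℕ)) + 1 = p.1.2 + m := by rw [hu]; simp only; omega
      obtain ⟨-, -, ⟨z, hz⟩, -, -⟩ := key u
      have hz0 : z = 0 := by
        have h2 := congrArg (fun q => Polynomial.coeff q 0) hz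
        simp only [coeff_comb, Polynomial.coeff_C_mul, hvd0, mul_one] at h2
        rw [← h2]
        refine Finset.sum_eq_zero fun e _ => ?_
        rcases e with (q | q) | (q | q)
        · rw [tup]
          split_ifs <;> simp [zT_b]
        · have hq := mem_ES.1 q.2
          rw [tup]
          split_ifs
          · simp
          · simp [zT_b]
          · simp only
            rw [CX_coeff, if_neg (by omega), mul_zero]
          · simp [zT_b]
        · rw [tup]
          split_ifs <;> simp [zT_b]
        · have hq := mem_FS.1 q.2
          rw [tup, if_neg (by omega)]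
          simp [zT_b]
      have h2 := congrArg (fun q => Polynomial.coeff q p.1.1) hz
      simp only [coeff_comb, Polynomial.coeff_C_mul, hz0, zero_mul] at h2
      rw [Finset.sum_eq_single (.inl (.inr p))] at h2
      · rw [tup, if_neg hpm, if_pos hu1] at h2
        simp only at h2
        rw [CX_coeff, if_pos rfl] at h2
        exact (mul_eq_zero.1 h2).resolve_right (kap_sub_ne hm (by omega) u)
      · intro e _ he
        rcases e with (q | q) | (q | q)
        · rw [tup]
          split_ifs <;> simp [zT_b]
        · have hq := mem_ES.1 q.2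
          rw [tup]
          split_ifs with h3 h4 h5
          · simp
          · simp [zT_b]
          · simp only
            rw [CX_coeff, if_neg, mul_zero]
            intro h6
            apply he
            congr 2
            apply Subtype.ext
            apply Prod.ext
            · exact h6.symm
            · omega
          · simp [zT_b]
        · rw [tup]
          split_ifs <;> simp [zT_b]
        · have hq := mem_FS.1 q.2
          rw [tup, if_neg (by omega)]
          simp [zT_b]
      · intro h
        exact absurd (Finset.mem_univ _) h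
  -- the third family
  have hF : ∀ (d : ℕ) (p : FS N m), p.1.2 + d = N + 1 → c (.inr (.inl p)) = 0 := by
    intro d
    induction d using Nat.strong_induction_on with
    | _ d ih =>
    intro p hpd
    have hp := mem_FS.1 p.2
    set u : CL N m := ⟨⟨2 * p.1.2 + (2 * m - 1), by omega⟩, by simp only; omega⟩ with hu
    have hu1 : ((u.1 : ℕ)) - (2 * m - 1) = 2 * p.1.2 := by rw [hu]; simp only; omega
    have hu2 : 2 * m ≤ (u.1 : ℕ) := by rw [hu]; simp only; omega
    obtain ⟨-, hz, -, -, -⟩ := key u
    have h2 := congrArg (fun q => Polynomial.coeff q (p.1.1 - 1)) hz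
    simp only [coeff_comb, Polynomial.coeff_zero] at h2
    rw [Finset.sum_eq_single (.inr (.inl p))] at h2
    · rw [tup, if_pos hu2] at h2
      simp only at h2
      rw [CX_coeff, if_pos rfl, hu1, Nat.sub_self, Nat.choose_self] at h2
      refine (mul_eq_zero.1 h2).resolve_right ?_
      have h3 : (p.1.2.factorial : ℂ) ≠ 0 := by exact_mod_cast Nat.factorial_ne_zero _
      have h4 : (p.1.1 : ℂ) ≠ 0 := by
        have : p.1.1 ≠ 0 := by omega
        exact_mod_cast this
      rw [pow_zero, Nat.cast_one, mul_one, mul_one]
      exact mul_ne_zero (neg_ne_zero.2 (inv_ne_zero h3)) h4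
    · intro e _ he
      rcases e with (q | q) | (q | q)
      · rw [tup]
        split_ifs <;> simp [zT_h]
      · rw [tup]
        split_ifs <;> simp [zT_h]
      · have hq := mem_FS.1 q.2
        rcases lt_trichotomy q.1.2 p.1.2 with h3 | h3 | h3
        · rw [tup, if_pos hu2, hu1, Nat.choose_eq_zero_of_lt (by omega : 2 * q.1.2 < 2 * p.1.2)]
          simp
        · rw [tup, if_pos hu2]
          simp only
          rw [CX_coeff, if_neg, mul_zero]
          intro h4
          apply he
          congr 2
          apply Subtype.ext
          apply Prod.ext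
          · omega
          · exact h3
        · rw [ih (N + 1 - q.1.2) (by omega) q (by omega), zero_mul]
      · rw [tup]
        split_ifs <;> simp [zT_h]
    · intro h
      exact absurd (Finset.mem_univ _) h
  -- the fourth family
  have hG : ∀ p : FS N m, c (.inr (.inr p)) = 0 := by
    intro p
    have hp := mem_FS.1 p.2
    set u : CL N m := ⟨⟨p.1.1 - 1, by omega⟩, by simp only; omega⟩ with hu
    have hu1 : ((u.1 : ℕ)) + 1 = p.1.1 := by rw [hu]; simp only; omega
    obtain ⟨-, -, ⟨z, hz⟩, -, -⟩ := key u
    set R : IX N m n → Polynomial ℂ := fun e => match e with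
      | .inl _ => 0
      | .inr (.inl _) => 0
      | .inr (.inr q) => if (u.1 : ℕ) + 1 = q.1.1 then
          Polynomial.C (-((q.1.2.factorial : ℂ)⁻¹) * q.1.1 * (((m * N : ℕ) : ℂ) *
            ((kap N m u.1 : ℂ) - 1))) * Polynomial.X ^ (2 * q.1.2) else 0 with hR
    have hRe : ∀ e, (tup N m n v e u.1).b = R e * Polynomial.derivative v := by
      intro e
      rcases e with (q | q) | (q | q)
      · rw [tup]
        split_ifs <;> simp [zT_b, hR]
      · have hq := mem_ES.1 q.2
        have h3 : ¬ ((u.1 : ℕ) + 1 = q.1.2 + m) := by omega
        have h4 : ¬ ((u.1 : ℕ) = 3 * m - 1) := by omega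
        rw [tup, if_neg h3, if_neg h4]
        split_ifs <;> simp [zT_b, hR]
      · rw [tup]
        split_ifs <;> simp [zT_b, hR]
      · rw [tup, hR]
        simp only
        split_ifs
        · simp only
          ring
        · simp [zT_b]
    have h5 : (∑ e, Polynomial.C (c e) * R e) = Polynomial.C z := by
      apply mul_right_cancel₀ hvd
      rw [← hz, Finset.sum_mul]
      refine Finset.sum_congr rfl fun e _ => ?_
      rw [hRe e]
      ring
    have h2 := congrArg (fun q => Polynomial.coeff q (2 * p.1.2)) h5
    simp only [coeff_comb] at h2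
    rw [Polynomial.coeff_C, if_neg (by omega : 2 * p.1.2 ≠ 0),
      Finset.sum_eq_single (.inr (.inr p))] at h2
    · simp only [hR] at h2
      rw [if_pos hu1, CX_coeff, if_pos rfl] at h2
      refine (mul_eq_zero.1 h2).resolve_right ?_
      have h3 : (p.1.2.factorial : ℂ) ≠ 0 := by exact_mod_cast Nat.factorial_ne_zero _
      have h4 : (p.1.1 : ℂ) ≠ 0 := by
        have : p.1.1 ≠ 0 := by omega
        exact_mod_cast this
      exact mul_ne_zero (mul_ne_zero (neg_ne_zero.2 (inv_ne_zero h3)) h4)
        (kap_sub_ne hm (by omega) u)
    · intro e _ he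
      rcases e with (q | q) | (q | q)
      · simp [hR]
      · simp [hR]
      · simp [hR]
      · have hq := mem_FS.1 q.2
        simp only [hR]
        split_ifs with h3
        · rw [CX_coeff, if_neg, mul_zero]
          intro h4
          apply he
          congr 2
          apply Subtype.ext
          apply Prod.ext
          · omega
          · omega
        · simp
    · intro h
      exact absurd (Finset.mem_univ _) h
  intro e
  rcases e with (p | p) | (p | p)
  · exact hD p
  · exact hE p
  · have hp := mem_FS.1 p.2
    exact hF (N + 1 - p.1.2) p (by omega)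
  · exact hG p

end

end Pool.Agent.helper59.LD
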