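import Pool.Agent.helper59.LD.BaseI

/-!
# The number of perturbations
-/

namespace Pool.Agent.helper59.LD

/-- the triangle -/
def Tri (n : ℕ) : Finset (ℕ × ℕ) :=
  ((Finset.range (n + 1)) ×ˢ (Finset.range (n + 1))).filter fun p => p.1 + p.2 ≤ n

theorem mem_Tri {n : ℕ} {p : ℕ × ℕ} : p ∈ Tri n ↔ p.1 + p.2 ≤ n := by
  rw [Tri, Finset.mem_filter, Finset.mem_product, Finset.mem_range, Finset.mem_range]
  omega

theorem sum_succ (n : ℕ) : 2 * ∑ j ∈ Finset.range (n + 1), (j + 1) = (n + 1) * (n + 2) := by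
  induction n with
  | zero => simp
  | succ n ih =>
    rw [Finset.sum_range_succ, mul_add, ih]
    ring

theorem card_Tri (n : ℕ) : 2 * (Tri n).card = (n + 1) * (n + 2) := by
  have h1 : (Tri n).card = ∑ j ∈ Finset.range (n + 1), (j + 1) := by
    rw [Tri, Finset.card_filter, Finset.sum_product_right]
    have h2 : ∀ j ∈ Finset.range (n + 1), ∑ i ∈ Finset.range (n + 1),
        (if i + j ≤ n then 1 else 0) = n + 1 - j := by
      intro j hj
      rw [Finset.mem_range] at hj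
      rw [← Finset.card_filter]
      have : (Finset.range (n + 1)).filter (fun i => i + j ≤ n) = Finset.range (n + 1 - j) := by
        ext i
        simp only [Finset.mem_filter, Finset.mem_range]
        omega
      rw [this, Finset.card_range]
    rw [Finset.sum_congr rfl h2, ← Finset.sum_range_reflect]
    refine Finset.sum_congr rfl fun j hj => ?_
    rw [Finset.mem_range] at hj
    omega
  rw [h1, sum_succ]

theorem card_FS {N m : ℕ} : (FS N m).card = (m - 1) * (N + 1) := by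
  have h : FS N m = (Finset.Ico 1 m) ×ˢ (Finset.Ico 1 (N + 2)) := by
    ext p
    rw [mem_FS, Finset.mem_product, Finset.mem_Ico, Finset.mem_Ico]
    omega
  rw [h, Finset.card_product, Nat.card_Ico, Nat.card_Ico]
  rfl

section cover
variable {N m n r : ℕ}

/-- large first index -/
def TA (a n : ℕ) : Finset (ℕ × ℕ) := (Tri n).filter fun p => a ≤ p.1

/-- large second index -/
def TB (a n : ℕ) : Finset (ℕ × ℕ) := (Tri n).filter fun p => a ≤ p.2

theorem mem_TA {a n : ℕ} {p : ℕ × ℕ} : p ∈ TA a n ↔ p.1 + p.2 ≤ n ∧ a ≤ p.1 := by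
  rw [TA, Finset.mem_filter, mem_Tri]

theorem mem_TB {a n : ℕ} {p : ℕ × ℕ} : p ∈ TB a n ↔ p.1 + p.2 ≤ n ∧ a ≤ p.2 := by
  rw [TB, Finset.mem_filter, mem_Tri]

theorem card_TA {a n k : ℕ} (h : n = a + k) : 2 * (TA a n).card ≤ (k + 1) * (k + 2) := by
  rw [← card_Tri]
  refine Nat.mul_le_mul_left 2 ?_
  refine Finset.card_le_card_of_injOn (fun p => (p.1 - a, p.2)) (fun p hp => ?_) ?_
  · rw [Finset.mem_coe, mem_TA] at hp
    rw [Finset.mem_coe, mem_Tri]
    simp only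
    omega
  · intro p hp p' hp' heq
    rw [Finset.mem_coe, mem_TA] at hp hp'
    simp only [Prod.mk.injEq] at heq
    ext <;> omega

theorem card_TB {a n k : ℕ} (h : n = a + k) : 2 * (TB a n).card ≤ (k + 1) * (k + 2) := by
  rw [← card_Tri]
  refine Nat.mul_le_mul_left 2 ?_
  refine Finset.card_le_card_of_injOn (fun p => (p.1, p.2 - a)) (fun p hp => ?_) ?_
  · rw [Finset.mem_coe, mem_TB] at hp
    rw [Finset.mem_coe, mem_Tri]
    simp only
    omega
  · intro p hp p' hp' heq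
    rw [Finset.mem_coe, mem_TB] at hp hp'
    simp only [Prod.mk.injEq] at heq
    ext <;> omega

theorem card_DS_ge (hm : 1 ≤ m) (hN : 1 ≤ N) (hn : n + 1 = m * N + 2 * m + r) :
    2 * (Tri n).card ≤ 2 * (DS N m n).card + (2 * m + r) * (2 * m + r + 1) +
      (3 * m + r) * (3 * m + r + 1) + 2 * (m * N + m + r + 1) := by
  have hmN : m ≤ m * N := Nat.le_mul_of_pos_right m hN
  have hsub : Tri n ⊆ DS N m n ∪ (TA (m * N) n ∪ (TB (m * N - m) n ∪
      ((Finset.range (n + 1 - (m - 1))) ×ˢ {m - 1}))) := by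
    intro p hp
    rw [mem_Tri] at hp
    simp only [Finset.mem_union, mem_DS, mem_TA, mem_TB, Finset.mem_product, Finset.mem_range,
      Finset.mem_singleton]
    by_cases h1 : m * N ≤ p.1
    · right; left; omega
    by_cases h2 : m * N - m ≤ p.2
    · right; right; left; omega
    by_cases h3 : p.2 = m - 1
    · right; right; right; omega
    · left; omega
  have h1 := Finset.card_le_card hsub
  have h2 := (h1.trans (Finset.card_union_le _ _))
  have h3 := Finset.card_union_le (TA (m * N) n) (TB (m * N - m) n ∪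
      ((Finset.range (n + 1 - (m - 1))) ×ˢ {m - 1}))
  have h4 := Finset.card_union_le (TB (m * N - m) n)
        ((Finset.range (n + 1 - (m - 1))) ×ˢ {m - 1})
  have h5 := card_TA (a := m * N) (n := n) (k := 2 * m + r - 1) (by omega)
  have h6 := card_TB (a := m * N - m) (n := n) (k := 3 * m + r - 1) (by omega)
  have e5 : 2 * m + r - 1 + 1 = 2 * m + r := by omega
  have e5' : 2 * m + r - 1 + 2 = 2 * m + r + 1 := by omega
  have e6 : 3 * m + r - 1 + 1 = 3 * m + r := by omega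
  have e6' : 3 * m + r - 1 + 2 = 3 * m + r + 1 := by omega
  rw [e5, e5'] at h5
  rw [e6, e6'] at h6
  have h7 : ((Finset.range (n + 1 - (m - 1))) ×ˢ ({m - 1} : Finset ℕ)).card =
      m * N + m + r + 1 := by
    rw [Finset.card_product, Finset.card_range, Finset.card_singleton, mul_one]
    omega
  omega

theorem card_ES_ge (hm : 1 ≤ m) (hN : 1 ≤ N) (hn : n + 1 = m * N + 2 * m + r) :
    2 * (Tri n).card ≤ 2 * (ES N m n).card + (m + r + 1) * (m + r + 2) +
      (3 * m + r - 1) * (3 * m + r) + 2 * (m + r) + 2 * (n + 1) := by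
  have hmN : m ≤ m * N := Nat.le_mul_of_pos_right m hN
  have hsub : Tri n ⊆ ES N m n ∪ (TA (m * N + m - 1) n ∪ (TB (m * N - m + 1) n ∪
      (((Finset.Ico (m * N) (n + 1 - m)) ×ˢ {m}) ∪ ({0} ×ˢ (Finset.range (n + 1)))))) := by
    intro p hp
    rw [mem_Tri] at hp
    simp only [Finset.mem_union, mem_ES, mem_TA, mem_TB, Finset.mem_product, Finset.mem_range,
      Finset.mem_singleton, Finset.mem_Ico]
    by_cases h1 : m * N + m - 1 ≤ p.1
    · right; left; omega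
    by_cases h2 : m * N - m + 1 ≤ p.2
    · right; right; left; omega
    by_cases h3 : p.1 = 0
    · right; right; right; right; omega
    by_cases h4 : p.2 = m ∧ m * N ≤ p.1
    · right; right; right; left; omega
    · left; omega
  have h1 := Finset.card_le_card hsub
  have h2 := (h1.trans (Finset.card_union_le _ _))
  have h3 := Finset.card_union_le (TA (m * N + m - 1) n) (TB (m * N - m + 1) n ∪
      (((Finset.Ico (m * N) (n + 1 - m)) ×ˢ {m}) ∪ ({0} ×ˢ (Finset.range (n + 1)))))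
  have h4 := Finset.card_union_le (TB (m * N - m + 1) n)
        (((Finset.Ico (m * N) (n + 1 - m)) ×ˢ {m}) ∪ ({0} ×ˢ (Finset.range (n + 1))))
  have h4' := Finset.card_union_le ((Finset.Ico (m * N) (n + 1 - m)) ×ˢ {m})
        (({0} : Finset ℕ) ×ˢ (Finset.range (n + 1)))
  have h5 := card_TA (a := m * N + m - 1) (n := n) (k := m + r) (by omega)
  have h6 := card_TB (a := m * N - m + 1) (n := n) (k := 3 * m + r - 2) (by omega)
  have e6 : 3 * m + r - 2 + 1 = 3 * m + r - 1 := by omega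
  have e6' : 3 * m + r - 2 + 2 = 3 * m + r := by omega
  rw [e6, e6'] at h6
  have h7 : (({0} : Finset ℕ) ×ˢ (Finset.range (n + 1))).card = n + 1 := by
    rw [Finset.card_product, Finset.card_range, Finset.card_singleton, one_mul]
  have h8 : ((Finset.Ico (m * N) (n + 1 - m)) ×ˢ ({m} : Finset ℕ)).card = m + r := by
    rw [Finset.card_product, Nat.card_Ico, Finset.card_singleton, mul_one]
    omega
  omega

theorem card_IX (hm : 1 ≤ m) (hN : 1 ≤ N) (hr : r < m) (hn : n + 1 = m * (N + 2) + r) :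
    (n + 1) * (n + 2) ≤ Fintype.card (IX N m n) + 2 * N + 23 * m ^ 2 := by
  have hn' : n + 1 = m * N + 2 * m + r := by rw [hn]; ring
  have h1 := card_DS_ge hm hN hn'
  have h2 := card_ES_ge hm hN hn'
  have h3 := card_Tri n
  have h4 : Fintype.card (IX N m n) = (DS N m n).card + (ES N m n).card +
      ((FS N m).card + (FS N m).card) := by
    rw [Fintype.card_sum, Fintype.card_sum, Fintype.card_sum, Fintype.card_coe, Fintype.card_coe,
      Fintype.card_coe]
  rw [card_FS] at h4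
  obtain ⟨a, rfl⟩ : ∃ a, m = a + 1 := ⟨m - 1, by omega⟩
  rw [Nat.add_sub_cancel] at h4
  have e1 : (2 * (a + 1) + r) * (2 * (a + 1) + r + 1) ≤ (3 * a + 2) * (3 * a + 3) :=
    Nat.mul_le_mul (by omega) (by omega)
  have e2 : (3 * (a + 1) + r) * (3 * (a + 1) + r + 1) ≤ (4 * a + 3) * (4 * a + 4) :=
    Nat.mul_le_mul (by omega) (by omega)
  have e3 : ((a + 1) + r + 1) * ((a + 1) + r + 2) ≤ (2 * a + 2) * (2 * a + 3) :=
    Nat.mul_le_mul (by omega) (by omega)
  have e4 : (3 * (a + 1) + r - 1) * (3 * (a + 1) + r) ≤ (4 * a + 2) * (4 * a + 3) :=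
    Nat.mul_le_mul (by omega) (by omega)
  have e5 : (Tri n).card + (Tri n).card = (n + 1) * (n + 2) := by omega
  nlinarith

end cover

/-! ### choice of the parameters -/

theorem choose_q {n : ℕ} (hn : 511 ≤ n) : ∃ q N r : ℕ, 2 ≤ q ∧ 3 ≤ N ∧
    2 * (N + 1) + (2 * 2 ^ q - 1) < 2 ^ q * N ∧ r < 2 ^ q ∧ n + 1 = 2 ^ q * (N + 2) + r ∧
    8 * (2 ^ q) ^ 3 ≤ n + 1 ∧ n + 1 < 64 * (2 ^ q) ^ 3 := by
  set L := Nat.log 2 (n + 1) with hL
  have h1 : 2 ^ L ≤ n + 1 := Nat.pow_log_le_self 2 (by omega)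
  have h2 : n + 1 < 2 ^ (L + 1) := Nat.lt_pow_succ_log_self (by norm_num) _
  have h3 : 9 ≤ L := by
    rw [hL]
    exact Nat.le_log_of_pow_le (by norm_num) (by norm_num; omega)
  obtain ⟨q, hq1, hq2, hq3⟩ : ∃ q, 2 ≤ q ∧ 3 * q + 3 ≤ L ∧ L + 1 ≤ 3 * q + 6 :=
    ⟨L / 3 - 1, by omega, by omega, by omega⟩
  have h4 : 8 * (2 ^ q) ^ 3 ≤ n + 1 := by
    have : 8 * (2 ^ q) ^ 3 = 2 ^ (3 * q + 3) := by
      rw [← pow_mul, pow_add, mul_comm q 3]; norm_num [mul_comm]
    rw [this]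
    exact (Nat.pow_le_pow_right (by norm_num) hq2).trans h1
  have h5 : n + 1 < 64 * (2 ^ q) ^ 3 := by
    have : 64 * (2 ^ q) ^ 3 = 2 ^ (3 * q + 6) := by
      rw [← pow_mul, pow_add, mul_comm q 3]; norm_num [mul_comm]
    rw [this]
    exact h2.trans_le (Nat.pow_le_pow_right (by norm_num) hq3)
  set m := 2 ^ q with hm
  have hm4 : 4 ≤ m := by
    rw [hm]
    calc 4 = 2 ^ 2 := by norm_num
      _ ≤ 2 ^ q := Nat.pow_le_pow_right (by norm_num) hq1
  have h6 := Nat.div_add_mod (n + 1) m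
  have h7 : (n + 1) % m < m := Nat.mod_lt _ (by omega)
  have h8 : 8 * m ^ 2 ≤ (n + 1) / m := by
    rw [Nat.le_div_iff_mul_le (by omega)]
    calc 8 * m ^ 2 * m = 8 * m ^ 3 := by ring
      _ ≤ n + 1 := h4
  have h9 : 16 ≤ m ^ 2 := by nlinarith
  refine ⟨q, (n + 1) / m - 2, (n + 1) % m, hq1, by omega, ?_, h7, ?_, h4, h5⟩
  · obtain ⟨N, hN⟩ : ∃ N, (n + 1) / m = N + 2 := ⟨(n + 1) / m - 2, by omega⟩
    rw [hN] at h8 ⊢
    rw [Nat.add_sub_cancel]
    have h10 : 2 * m + 1 < 2 * N := by nlinarith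
    have h11 : 2 * (N + 1) + (2 * m - 1) < 4 * N := by omega
    exact h11.trans_le (Nat.mul_le_mul_right N hm4)
  · obtain ⟨N, hN⟩ : ∃ N, (n + 1) / m = N + 2 := ⟨(n + 1) / m - 2, by omega⟩
    rw [hN] at h6 ⊢
    rw [Nat.add_sub_cancel]
    exact h6.symm

theorem loss_bound {n m N : ℕ} (hm : 1 ≤ m) (h1 : 8 * m ^ 3 ≤ n + 1) (h2 : n + 1 < 64 * m ^ 3)
    (hN : m * (N + 2) ≤ n + 1) :
    (2 * N + 23 * m ^ 2 : ℝ) ≤ 10 * ((n : ℝ) + 1) ^ ((2 : ℝ) / 3) := by
  set t : ℝ := ((n : ℝ) + 1) ^ ((1 : ℝ) / 3) with ht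
  have hn0 : (0 : ℝ) ≤ (n : ℝ) + 1 := by positivity
  have ht0 : 0 ≤ t := Real.rpow_nonneg hn0 _
  have ht3 : t ^ 3 = (n : ℝ) + 1 := by
    rw [ht, ← Real.rpow_natCast, ← Real.rpow_mul hn0]
    norm_num
  have ht2 : ((n : ℝ) + 1) ^ ((2 : ℝ) / 3) = t ^ 2 := by
    rw [ht, ← Real.rpow_natCast, ← Real.rpow_mul hn0]
    norm_num
  rw [ht2]
  have hm' : (1 : ℝ) ≤ m := by exact_mod_cast hm
  have h1' : (2 * (m : ℝ)) ^ 3 ≤ t ^ 3 := by
    rw [ht3]
    have : ((8 * m ^ 3 : ℕ) : ℝ) ≤ ((n + 1 : ℕ) : ℝ) := by exact_mod_cast h1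
    push_cast at this
    linarith
  have h2' : t ^ 3 ≤ (4 * (m : ℝ)) ^ 3 := by
    rw [ht3]
    have : ((n + 1 : ℕ) : ℝ) < ((64 * m ^ 3 : ℕ) : ℝ) := by exact_mod_cast h2
    push_cast at this
    linarith
  have a1 : 2 * (m : ℝ) ≤ t := le_of_pow_le_pow_left₀ (by norm_num) ht0 h1'
  have a2 : t ≤ 4 * (m : ℝ) := le_of_pow_le_pow_left₀ (by norm_num) (by positivity) h2'
  have a3 : (m : ℝ) * (N + 2) ≤ t ^ 3 := by
    rw [ht3]
    exact_mod_cast hN
  have hm0 : (0 : ℝ) < m := by linarith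
  have key : 2 * t ^ 3 + 23 * (m : ℝ) ^ 3 ≤ 10 * t ^ 2 * m := by
    have b1 : t ^ 2 - 3 * t * m - 6 * (m : ℝ) ^ 2 ≤ 0 := by nlinarith
    have b2 := mul_nonneg (sub_nonneg.2 a1) (neg_nonneg.2 b1)
    have b3 : 0 ≤ (m : ℝ) ^ 3 := by positivity
    nlinarith
  have : (2 * (N : ℝ) + 23 * (m : ℝ) ^ 2) * m ≤ (10 * t ^ 2) * m := by nlinarith
  exact le_of_mul_le_mul_right this hm0

end Pool.Agent.helper59.LD
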