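import Pool.Agent.helper59.LD.Eps

/-!
# Degree bounds
-/

open PowerSeries Filter

set_option linter.unusedSectionVars false

namespace Pool.Agent.helper59.LD

open LC

noncomputable section

section gen
variable {A : Type*} [CommRing A]

/-- total degree at most `d` -/
def TD (p : MvPolynomial (Fin 2) A) (d : ℕ) : Prop := p.totalDegree ≤ d

theorem TD.mono {p : MvPolynomial (Fin 2) A} {d e : ℕ} (h : TD p d) (hde : d ≤ e) : TD p e :=
  le_trans h hde

theorem TD.add {p q : MvPolynomial (Fin 2) A} {d : ℕ} (h : TD p d) (h' : TD q d) :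
    TD (p + q) d := (MvPolynomial.totalDegree_add p q).trans (max_le h h')

theorem TD.neg {p : MvPolynomial (Fin 2) A} {d : ℕ} (h : TD p d) : TD (-p) d := by
  rw [TD, MvPolynomial.totalDegree_neg]; exact h

theorem TD.sub {p q : MvPolynomial (Fin 2) A} {d : ℕ} (h : TD p d) (h' : TD q d) :
    TD (p - q) d := by rw [sub_eq_add_neg]; exact h.add h'.neg

theorem TD.mul {p q : MvPolynomial (Fin 2) A} {d e : ℕ} (h : TD p d) (h' : TD q e) :
    TD (p * q) (d + e) := (MvPolynomial.totalDegree_mul p q).trans (Nat.add_le_add h h')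

theorem TD.pow {p : MvPolynomial (Fin 2) A} {d : ℕ} (h : TD p d) (n : ℕ) :
    TD (p ^ n) (n * d) := (MvPolynomial.totalDegree_pow p n).trans (Nat.mul_le_mul_left n h)

theorem td_C (a : A) (d : ℕ) : TD (MvPolynomial.C a : MvPolynomial (Fin 2) A) d := by
  rw [TD, MvPolynomial.totalDegree_C]; exact Nat.zero_le _

theorem td_one (d : ℕ) : TD (1 : MvPolynomial (Fin 2) A) d := by
  rw [TD, MvPolynomial.totalDegree_one]; exact Nat.zero_le _

theorem td_zero (d : ℕ) : TD (0 : MvPolynomial (Fin 2) A) d := by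
  rw [TD, MvPolynomial.totalDegree_zero]; exact Nat.zero_le _

theorem td_monomial (s : Fin 2 →₀ ℕ) (c : A) {d : ℕ} (h : s 0 + s 1 ≤ d) :
    TD (MvPolynomial.monomial s c) d := by
  refine (MvPolynomial.totalDegree_monomial_le s c).trans ?_
  rw [Finsupp.sum_fintype _ _ (fun _ => rfl), Fin.sum_univ_two]
  exact h

theorem td_X (i : Fin 2) {d : ℕ} (hd : 1 ≤ d) : TD (MvPolynomial.X i : MvPolynomial (Fin 2) A) d := by
  refine (td_monomial (Finsupp.single i 1) 1 ?_)
  fin_cases i <;> simpa using hd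

theorem TD.sum {ι : Type*} {s : Finset ι} {f : ι → MvPolynomial (Fin 2) A} {d : ℕ}
    (h : ∀ i ∈ s, TD (f i) d) : TD (∑ i ∈ s, f i) d := by
  classical
  induction s using Finset.induction_on with
  | empty => rw [Finset.sum_empty]; exact td_zero d
  | insert a s ha ih =>
    rw [Finset.sum_insert ha]
    exact (h a (Finset.mem_insert_self _ _)).add (ih fun i hi => h i (Finset.mem_insert_of_mem hi))

theorem td_coeff {p : MvPolynomial (Fin 2) A} {d : ℕ} (h : TD p d) {s : Fin 2 →₀ ℕ}
    (hs : s ∈ p.support) : s 0 + s 1 ≤ d := by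
  have h1 := MvPolynomial.le_totalDegree hs
  rw [Finsupp.sum_fintype _ _ (fun _ => rfl), Fin.sum_univ_two] at h1
  exact h1.trans h

theorem TD.pderiv {p : MvPolynomial (Fin 2) A} {d : ℕ} (h : TD p (d + 1)) (i : Fin 2) :
    TD (MvPolynomial.pderiv i p) d := by
  rw [MvPolynomial.as_sum p, map_sum]
  refine TD.sum fun s hs => ?_
  have h1 := td_coeff h hs
  rw [MvPolynomial.pderiv_monomial]
  by_cases h0 : s i = 0
  · rw [h0, Nat.cast_zero, mul_zero, MvPolynomial.monomial_zero]
    exact td_zero d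
  · refine td_monomial _ _ ?_
    fin_cases i
    · simp only [Fin.zero_eta, Finsupp.coe_tsub, Pi.sub_apply, Finsupp.single_eq_same]
      change s 0 ≠ 0 at h0
      have : (Finsupp.single (0 : Fin 2) 1 : Fin 2 →₀ ℕ) 1 = 0 :=
        Finsupp.single_eq_of_ne (by decide)
      rw [this]
      omega
    · simp only [Fin.mk_one, Finsupp.coe_tsub, Pi.sub_apply, Finsupp.single_eq_same]
      change s 1 ≠ 0 at h0
      have : (Finsupp.single (1 : Fin 2) 1 : Fin 2 →₀ ℕ) 0 = 0 :=
        Finsupp.single_eq_of_ne (by decide)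
      rw [this]
      omega

theorem td_poly (i : Fin 2) (Q : Polynomial A) {d : ℕ} (h : Q.natDegree ≤ d) :
    TD (Polynomial.aeval (MvPolynomial.X i : MvPolynomial (Fin 2) A) Q) d := by
  rw [Polynomial.aeval_eq_sum_range]
  refine TD.sum fun j hj => ?_
  rw [Finset.mem_range] at hj
  rw [MvPolynomial.smul_eq_C_mul]
  have := (td_C (Q.coeff j) 0).mul ((td_X (A := A) i le_rfl).pow j)
  exact this.mono (by omega)

theorem TD.map {B : Type*} [CommRing B] (f : A →+* B) {p : MvPolynomial (Fin 2) A} {d : ℕ}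
    (h : TD p d) : TD (MvPolynomial.map f p) d := by
  rw [MvPolynomial.as_sum p, map_sum]
  refine TD.sum fun s hs => ?_
  rw [MvPolynomial.map_monomial]
  exact td_monomial _ _ (td_coeff h hs)

end gen

theorem Fs_deg {k : Type*} [CommRing k] [Algebra ℚ k] {R' F0 : Polynomial k} {a b : ℕ}
    (hR : R'.natDegree ≤ a) (hF : F0.natDegree ≤ b) (j : ℕ) :
    (Fs R' F0 j).natDegree ≤ b + j * (a + 1) := by
  induction j with
  | zero => rw [Fs]; omega
  | succ j ih =>
    rw [Fs]
    refine (antid_deg _).trans ?_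
    have := Polynomial.natDegree_mul_le (p := Fs R' F0 j) (q := R')
    nlinarith

theorem td_wS {k : Type*} [CommRing k] [Algebra ℚ k] {r : Fin 2 → Polynomial k} {i : Fin 2}
    {F0 : Polynomial k} {a b : ℕ} (ha : 1 ≤ a)
    (hR : (Polynomial.derivative (FF (r i))).natDegree ≤ a) (hF : F0.natDegree ≤ b) (n : ℕ) :
    TD (wS r i F0 n) (b + n * (a + 1)) := by
  rw [wS]
  refine TD.sum fun t ht => ?_
  rw [Finset.mem_range] at ht
  have h1 := Fs_deg hR hF (n - t)
  have h2 := (td_poly i _ h1).map (Polynomial.C (R := k))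
  have h3 := ((td_C (Polynomial.C (algebraMap ℚ k ((t.factorial : ℚ)⁻¹))) 0).mul
    (((td_C (Polynomial.X : Polynomial k) 0).mul ((td_X (A := Polynomial k) (i + 1) le_rfl).pow
      2)).pow t)).mul h2
  refine h3.mono ?_
  obtain ⟨c, hc⟩ : ∃ c, n = t + c := ⟨n - t, by omega⟩
  subst hc
  rw [Nat.add_sub_cancel_left]
  nlinarith

end

end Pool.Agent.helper59.LD
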