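import Pool.Agent.helper59.LD.Der

/-!
# First order of vanishing in the deformation `P_i + δ X_{i+1}²`
-/

open PowerSeries

set_option linter.unusedSectionVars false

namespace Pool.Agent.helper59.LD

open LC

noncomputable section

variable {k : Type*} [CommRing k] [Algebra ℚ k]

/-- the deformed data -/
def pD (r : Fin 2 → Polynomial k) (i : Fin 2) : MvPolynomial (Fin 2) (Polynomial k) :=
  MvPolynomial.map Polynomial.C (pR r i) +
    MvPolynomial.C Polynomial.X * MvPolynomial.X (i + 1) ^ 2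

/-- constant family -/
def gD (g : Fin 2 → Polynomial k) (i : Fin 2) : Polynomial (Polynomial k) :=
  (g i).map Polynomial.C

theorem low_pD (r : Fin 2 → Polynomial k) (i : Fin 2) : Low (pD r i) :=
  ((low_pR r i).map _).add (low_mul_sq _ _)

theorem pD_ev (r : Fin 2 → Polynomial k) (i : Fin 2) (s : k) :
    MvPolynomial.map (Polynomial.evalRingHom s) (pD r i) =
      pR r i + MvPolynomial.C s * MvPolynomial.X (i + 1) ^ 2 := by
  rw [pD, map_add, MvPolynomial.map_map, map_mul, map_pow, MvPolynomial.map_X, MvPolynomial.map_C]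
  have : (Polynomial.evalRingHom s).comp (Polynomial.C) = RingHom.id k := by
    ext a; simp
  rw [this, MvPolynomial.map_id]
  simp

theorem gD_ev (g : Fin 2 → Polynomial k) (i : Fin 2) (s : k) :
    (gD g i).map (Polynomial.evalRingHom s) = g i := by
  rw [gD, Polynomial.map_map]
  have : (Polynomial.evalRingHom s).comp (Polynomial.C) = RingHom.id k := by
    ext a; simp
  rw [this, Polynomial.map_id]

/-- antiderivative -/
def antid (P : Polynomial k) : Polynomial k :=
  P.sum fun n a => Polynomial.monomial (n + 1) ((((n : ℚ) + 1)⁻¹) • a)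

theorem antid_deriv (P : Polynomial k) : Polynomial.derivative (antid P) = P := by
  rw [antid, Polynomial.sum, map_sum]
  conv_rhs => rw [P.as_sum_support]
  refine Finset.sum_congr rfl fun n _ => ?_
  rw [Polynomial.derivative_monomial, Nat.add_sub_cancel]
  congr 1
  have h : ((n : ℚ) + 1) ≠ 0 := by positivity
  have h2 : (((n + 1 : ℕ) : k)) = algebraMap ℚ k ((n : ℚ) + 1) := by simp
  rw [h2, Algebra.smul_def, mul_comm, ← mul_assoc, ← map_mul, mul_inv_cancel₀ h, map_one, one_mul]

theorem antid_deg (P : Polynomial k) : (antid P).natDegree ≤ P.natDegree + 1 := by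
  rw [antid, Polynomial.sum]
  refine Polynomial.natDegree_sum_le_of_forall_le _ _ fun n hn => ?_
  refine (Polynomial.natDegree_monomial_le _).trans ?_
  have := Polynomial.le_natDegree_of_mem_supp n hn
  omega

/-- iterated antiderivatives -/
def Fs (R' F0 : Polynomial k) : ℕ → Polynomial k
  | 0 => F0
  | j + 1 => antid (Fs R' F0 j * R')

/-- the multiplier -/
def wS (r : Fin 2 → Polynomial k) (i : Fin 2) (F0 : Polynomial k) (n : ℕ) :
    MvPolynomial (Fin 2) (Polynomial k) :=
  ∑ t ∈ Finset.range (n + 1), MvPolynomial.C (Polynomial.C (algebraMap ℚ k ((t.factorial : ℚ)⁻¹))) *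
    (MvPolynomial.C Polynomial.X * MvPolynomial.X (i + 1) ^ 2) ^ t *
    MvPolynomial.map Polynomial.C (Polynomial.aeval (MvPolynomial.X i)
      (Fs (Polynomial.derivative (FF (r i))) F0 (n - t)))

theorem ev2_mapC {A : Type*} [CommRing A] [Algebra ℚ A] (f : k →+* A)
    (x : Fin 2 → (LaurentPolynomial A)⟦X⟧) (i : Fin 2) (Q : Polynomial k) :
    ev2 x (MvPolynomial.map f (Polynomial.aeval (MvPolynomial.X i) Q)) =
      Polynomial.eval₂ (io f) (x i) Q := by
  induction Q using Polynomial.induction_on' with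
  | add p q hp hq => rw [map_add, map_add, ev2_add, hp, hq, Polynomial.eval₂_add]
  | monomial n a =>
    rw [Polynomial.aeval_monomial, map_mul, map_pow, MvPolynomial.map_X, ev2_mul, ev2_pow, ev2_X,
      MvPolynomial.algebraMap_eq, MvPolynomial.map_C, ev2_C, Polynomial.eval₂_monomial]
    rfl

variable (r g : Fin 2 → Polynomial k)

/-- the solution of the deformed system -/
def xD (i : Fin 2) : (LaurentPolynomial (Polynomial k))⟦X⟧ := xy (pD r) (gD g) i

theorem xD_eq (i : Fin 2) : Polynomial.eval₂ (io Polynomial.C) (xD r g i) (FF (r i)) +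
    cc Polynomial.X * xD r g (i + 1) ^ 2 = emb (eI i) (PowerSeries.map Polynomial.C
      (psi (g i))) := by
  have h := (isSol_xy (low_pD r) (gD g)).2 i
  have h1 : ev2 (xy (pD r) (gD g)) (MvPolynomial.X i + pD r i) = rhs (gD g) i := by
    rw [ev2_add, ev2_X]
    exact h
  have h2 : MvPolynomial.X i + pD r i = MvPolynomial.map Polynomial.C
      (Polynomial.aeval (MvPolynomial.X i) (FF (r i))) +
        MvPolynomial.C Polynomial.X * MvPolynomial.X (i + 1) ^ 2 := by
    rw [← PP_pR, PP, pD, map_add, MvPolynomial.map_X]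
    ring
  rw [h2, ev2_add, ev2_mapC, ev2_mul, ev2_C, ev2_pow, ev2_X, rhs, gD, ← psi_map] at h1
  exact h1

/-- derivation of `k[δ]` -/
def dd : Dr (Polynomial k) where
  f := fun P => Polynomial.derivative P
  add := fun _ _ => Polynomial.derivative_add
  mul := fun a b => by rw [Polynomial.derivative_mul]; ring

theorem dd_apply (P : Polynomial k) : dd.f P = Polynomial.derivative P := rfl

/-- derivation of the series ring -/
abbrev DD : Dr (LaurentPolynomial (Polynomial k))⟦X⟧ := dS dd

theorem DD_emb (e : ℤ) (s : k⟦X⟧) : DD.f (emb e (PowerSeries.map Polynomial.C s)) = 0 :=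
  dS_emb _ e fun n => by rw [coeff_map, dd_apply, Polynomial.derivative_C]

theorem DD_eval (x : (LaurentPolynomial (Polynomial k))⟦X⟧) (Q : Polynomial k) :
    DD.f (Polynomial.eval₂ (io Polynomial.C) x Q) =
      Polynomial.eval₂ (io Polynomial.C) x (Polynomial.derivative Q) * DD.f x :=
  dS_eval dd Polynomial.C (fun a => by rw [dd_apply, Polynomial.derivative_C]) x Q

theorem DY_eq (i : Fin 2) : DD.f (cc Polynomial.X * xD r g (i + 1) ^ 2) =
    -(Polynomial.eval₂ (io Polynomial.C) (xD r g i) (Polynomial.derivative (FF (r i))) *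
      DD.f (xD r g i)) := by
  have h := congrArg DD.f (xD_eq r g i)
  rw [DD.add, DD_emb, DD_eval] at h
  linear_combination h

/-- value of the multiplier -/
theorem ev2_wS (i : Fin 2) (F0 : Polynomial k) (n : ℕ) :
    ev2 (xy (pD r) (gD g)) (wS r i F0 n) = ∑ t ∈ Finset.range (n + 1),
      cc (Polynomial.C (algebraMap ℚ k ((t.factorial : ℚ)⁻¹))) *
        (cc Polynomial.X * xD r g (i + 1) ^ 2) ^ t *
          Polynomial.eval₂ (io Polynomial.C) (xD r g i)
            (Fs (Polynomial.derivative (FF (r i))) F0 (n - t)) := by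
  rw [wS, ev2_sum]
  refine Finset.sum_congr rfl fun t _ => ?_
  rw [ev2_mul, ev2_mul, ev2_C, ev2_pow, ev2_mul, ev2_C, ev2_pow, ev2_X, ev2_mapC]
  rfl

theorem D_wS (i : Fin 2) (F0 : Polynomial k) (n : ℕ) :
    DD.f (ev2 (xy (pD r) (gD g)) (wS r i F0 n)) =
      cc (Polynomial.C (algebraMap ℚ k ((n.factorial : ℚ)⁻¹))) *
        (cc Polynomial.X * xD r g (i + 1) ^ 2) ^ n *
          (Polynomial.eval₂ (io Polynomial.C) (xD r g i) (Polynomial.derivative F0) *
            DD.f (xD r g i)) := by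
  rw [ev2_wS]
  have h := telescope DD (cc Polynomial.X * xD r g (i + 1) ^ 2) (fun j =>
    Polynomial.eval₂ (io Polynomial.C) (xD r g i)
            (Fs (Polynomial.derivative (FF (r i))) F0 j))
    (fun t => cc (Polynomial.C (algebraMap ℚ k ((t.factorial : ℚ)⁻¹)))) (fun t => ?_) (fun t => ?_)
    (fun j => ?_) n
  · rw [h, DD_eval]
    rfl
  · rw [dS_cc, dd_apply, Polynomial.derivative_C, cc, map_zero, map_zero]
  · have e1 : ((t : (LaurentPolynomial (Polynomial k))⟦X⟧) + 1) =
        cc (Polynomial.C (algebraMap ℚ k ((t : ℚ) + 1))) := by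
      simp [cc]
    rw [e1, ← cc_mul, ← Polynomial.C_mul, ← map_mul]
    congr 3
    rw [Nat.factorial_succ]
    have : (t.factorial : ℚ) ≠ 0 := by positivity
    have : (t : ℚ) + 1 ≠ 0 := by positivity
    push_cast
    field_simp
  · rw [DD_eval, Fs, antid_deriv, Polynomial.eval₂_mul, DY_eq]
    ring

/-- evaluation at `δ = 0` -/
abbrev ev0 : Polynomial k →+* k := Polynomial.evalRingHom 0

theorem xD_zero {x : Fin 2 → k⟦X⟧} (hx : IsX1 r g x) (i : Fin 2) :
    PowerSeries.map (lpm ev0) (xD r g i) = emb (eI i) (x i) := by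
  rw [xD, xy_map ev0 (low_pD r) (gD g)]
  have e1 : (fun i => MvPolynomial.map ev0 (pD r i)) = pR r := by
    funext i
    rw [pD_ev]
    simp
  have e2 : (fun i => (gD g i).map ev0) = g := by
    funext i
    rw [gD_ev]
  rw [e1, e2, xy_pR hx]

theorem map_ev0_C (s : k⟦X⟧) : PowerSeries.map ev0 (PowerSeries.map Polynomial.C s) = s := by
  ext n
  simp

theorem map_eval₂ {e : ℤ} {s : k⟦X⟧} {x : (LaurentPolynomial (Polynomial k))⟦X⟧}
    (hx : PowerSeries.map (lpm ev0) x = emb e s) (Q : Polynomial k) :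
    PowerSeries.map (lpm ev0) (Polynomial.eval₂ (io Polynomial.C) x Q) =
      emb e (Polynomial.aeval s Q) := by
  rw [Polynomial.hom_eval₂, hx, Polynomial.aeval_def, Polynomial.hom_eval₂]
  congr 1
  refine RingHom.ext fun a => ?_
  rw [RingHom.comp_apply, RingHom.comp_apply, PowerSeries.algebraMap_apply,
    Algebra.algebraMap_self, RingHom.id_apply, emb_C]
  change PowerSeries.map (lpm ev0) (cc (Polynomial.C a)) = _
  rw [cc_map]
  simp

theorem DD_zero {x : Fin 2 → k⟦X⟧} (hx : IsX1 r g x) (i : Fin 2) :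
    PowerSeries.map (lpm ev0) (DD.f (xD r g i)) =
      -(emb (-eI i) (x (i + 1) ^ 2) *
        emb (eI i) (inv1 (Polynomial.aeval (x i) (Polynomial.derivative (FF (r i)))))) := by
  have h := congrArg (PowerSeries.map (lpm ev0)) (DY_eq r g i)
  rw [map_neg, map_mul (PowerSeries.map (lpm ev0)), map_eval₂ (xD_zero r g hx i),
    DD.mul, dS_cc, dd_apply, Polynomial.derivative_X] at h
  rw [map_add, map_mul (PowerSeries.map (lpm ev0)), map_mul (PowerSeries.map (lpm ev0)), cc_map,
    cc_map, map_pow, xD_zero r g hx (i + 1), eI_add] at h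
  have e0 : (ev0 Polynomial.X : k) = 0 := by simp
  have e1 : (ev0 1 : k) = 1 := map_one _
  have e2 : (cc (0 : k)) = 0 := by rw [cc, map_zero, map_zero]
  have e3 : (cc (1 : k)) = 1 := by rw [cc, map_one, map_one]
  rw [e0, e1, e2, e3, zero_mul, zero_add, mul_one, ← map_pow] at h
  have h4 : emb (eI i) (Polynomial.aeval (x i) (Polynomial.derivative (FF (r i)))) *
      emb (eI i) (inv1 (Polynomial.aeval (x i) (Polynomial.derivative (FF (r i))))) = 1 := by
    rw [← map_mul, inv1_mul (coeff_zero_R hx i), map_one]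
  linear_combination (-PowerSeries.map (lpm ev0) (DD.f (xD r g i))) * h4 +
    emb (eI i) (inv1 (Polynomial.aeval (x i) (Polynomial.derivative (FF (r i))))) * h

/-- the Melnikov coefficient of the multiplier field -/
def cS (i : Fin 2) (F0 : Polynomial k) (n μ : ℕ) : Polynomial k :=
  MM (pD r) (gD g) 1 (hF (pD r) 1 i (wS r i F0 n)) μ

theorem cS_eq (i : Fin 2) (F0 : Polynomial k) (n μ : ℕ) : cS r g i F0 n μ =
    tc (eI i) μ (emb (eI i) (PowerSeries.map Polynomial.C (rec' (psi (g i)))) *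
      ev2 (xy (pD r) (gD g)) (wS r i F0 n)) := by
  rw [cS, MM_hF (low_pD r) (gD g) (map_one _)]
  congr 3
  rw [rec_map]
  rfl

/-- the cofactor -/
def FW (i : Fin 2) (F0 : Polynomial k) (n : ℕ) : (LaurentPolynomial (Polynomial k))⟦X⟧ :=
  cc (Polynomial.C (algebraMap ℚ k ((n.factorial : ℚ)⁻¹))) * (xD r g (i + 1) ^ 2) ^ n *
      (Polynomial.eval₂ (io Polynomial.C) (xD r g i) (Polynomial.derivative F0) *
            DD.f (xD r g i))

theorem D_wS' (i : Fin 2) (F0 : Polynomial k) (n : ℕ) :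
    DD.f (ev2 (xy (pD r) (gD g)) (wS r i F0 n)) = cc (Polynomial.X ^ n) * FW r g i F0 n := by
  rw [D_wS, cc_pow, FW]
  ring

/-- the cofactor coefficient -/
def cW (i : Fin 2) (F0 : Polynomial k) (n μ : ℕ) : Polynomial k :=
  tc (eI i) μ (emb (eI i) (PowerSeries.map Polynomial.C (rec' (psi (g i)))) * FW r g i F0 n)

theorem cS_deriv (i : Fin 2) (F0 : Polynomial k) (n μ : ℕ) :
    Polynomial.derivative (cS r g i F0 n μ) = Polynomial.X ^ n * cW r g i F0 n μ := by
  rw [cS_eq]
  exact tc_der dd _ _ (DD_emb _ _) (D_wS' r g i F0 n)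

theorem delta_low {x : Fin 2 → k⟦X⟧} (hx : IsX1 r g x) (i : Fin 2) (F0 : Polynomial k) (n : ℕ)
    {μ : ℕ} (hμ : 1 ≤ μ) :
    (∀ j, j < n + 1 → (cS r g i F0 n μ).coeff j = 0) ∧
      (cS r g i F0 n μ).coeff (n + 1) = -(algebraMap ℚ k (((n + 1).factorial : ℚ)⁻¹) *
        (coeff (μ + 1) (Polynomial.aeval (x i) (Polynomial.derivative F0) *
          inv1 (Polynomial.aeval (x i) (Polynomial.derivative (FF (r i)))) * rec' (psi (g i))) *
            coeff μ (x (i + 1) ^ (2 * (n + 1))))) := by
  have hder := cS_deriv r g i F0 n μ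
  have hcoeff : ∀ j : ℕ, ((j : k) + 1) * (cS r g i F0 n μ).coeff (j + 1) =
      (Polynomial.X ^ n * cW r g i F0 n μ).coeff j := by
    intro j
    rw [← hder, Polynomial.coeff_derivative]
    ring
  have hunit : ∀ (j : ℕ) (a : k), ((j : k) + 1) * a = 0 → a = 0 := by
    intro j a h
    have h1 : ((j : k) + 1) = algebraMap ℚ k ((j : ℚ) + 1) := by simp
    have h2 : ((j : ℚ) + 1) ≠ 0 := by positivity
    have h3 := congrArg (fun y => algebraMap ℚ k ((j : ℚ) + 1)⁻¹ * y) h
    simp only [mul_zero] at h3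
    rwa [h1, ← mul_assoc, ← map_mul, inv_mul_cancel₀ h2, map_one, one_mul] at h3
  have hρ0 : PowerSeries.map (lpm ev0) (emb (eI i) (PowerSeries.map Polynomial.C
      (rec' (psi (g i))))) = emb (eI i) (rec' (psi (g i))) := by
    rw [emb_map, map_ev0_C]
  have ev0X : (ev0 Polynomial.X : k) = 0 := by simp
  have cc0 : (cc (0 : k)) = 0 := by rw [cc, map_zero, map_zero]
  have cc1 : (cc (1 : k)) = 1 := by rw [cc, map_one, map_one]
  -- the value at zero
  have hzero : (cS r g i F0 n μ).coeff 0 = 0 := by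
    rw [Polynomial.coeff_zero_eq_eval_zero]
    change ev0 (cS r g i F0 n μ) = 0
    rw [cS_eq, ← tc_map, map_mul (PowerSeries.map (lpm ev0)), hρ0, ev2_wS, map_sum,
      Finset.sum_eq_single 0]
    · rw [map_mul (PowerSeries.map (lpm ev0)), map_mul (PowerSeries.map (lpm ev0)),
        map_eval₂ (xD_zero r g hx i), pow_zero, map_one, mul_one, cc_map]
      have e1 : (ev0 (Polynomial.C (algebraMap ℚ k (((0 : ℕ).factorial : ℚ)⁻¹))) : k) = 1 := by
        simp
      rw [e1, cc1, one_mul, ← map_mul]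
      have e2 := tc_emb_mul (eI_ne i) μ (rec' (psi (g i)) * Polynomial.aeval (x i)
        (Fs (Polynomial.derivative (FF (r i))) F0 (n - 0))) 1
      rw [map_one, mul_one] at e2
      rw [e2, coeff_one, if_neg (by omega), mul_zero]
    · intro t _ ht
      rw [map_mul (PowerSeries.map (lpm ev0)), map_mul (PowerSeries.map (lpm ev0)), map_pow,
        map_mul (PowerSeries.map (lpm ev0)), cc_map (f := ev0) (a := Polynomial.X), ev0X, cc0,
        zero_mul, zero_pow ht, mul_zero, zero_mul]
    · intro h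
      exact absurd (Finset.mem_range.2 (Nat.succ_pos n)) h
  refine ⟨fun j hj => ?_, ?_⟩
  · rcases j with _ | j
    · exact hzero
    · refine hunit j _ ?_
      rw [hcoeff, Polynomial.coeff_X_pow_mul', if_neg (by omega)]
  · have h1 := hcoeff n
    rw [Polynomial.coeff_X_pow_mul', if_pos le_rfl, Nat.sub_self] at h1
    have h2 : (cW r g i F0 n μ).coeff 0 = -(algebraMap ℚ k ((n.factorial : ℚ)⁻¹) *
        (coeff (μ + 1) (Polynomial.aeval (x i) (Polynomial.derivative F0) *
          inv1 (Polynomial.aeval (x i) (Polynomial.derivative (FF (r i)))) * rec' (psi (g i))) *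
            coeff μ (x (i + 1) ^ (2 * (n + 1))))) := by
      rw [Polynomial.coeff_zero_eq_eval_zero]
      change ev0 (cW r g i F0 n μ) = _
      rw [cW, FW, ← tc_map, map_mul (PowerSeries.map (lpm ev0)), hρ0,
        map_mul (PowerSeries.map (lpm ev0)), map_mul (PowerSeries.map (lpm ev0)),
        map_mul (PowerSeries.map (lpm ev0)), map_eval₂ (xD_zero r g hx i), cc_map, map_pow,
        map_pow, xD_zero r g hx (i + 1), eI_add, DD_zero r g hx]
      have e1 : (ev0 (Polynomial.C (algebraMap ℚ k ((n.factorial : ℚ)⁻¹))) : k) =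
          algebraMap ℚ k ((n.factorial : ℚ)⁻¹) := Polynomial.eval_C
      rw [e1, ← tc_emb_mul (eI_ne i), ← tc_cc_mul]
      have e2 : ∀ φ : (LaurentPolynomial k)⟦X⟧, -tc (eI i) μ φ = tc (eI i) μ (-φ) := by
        intro φ
        rw [neg_eq_iff_add_eq_zero, ← tc_add, add_neg_cancel, tc_zero]
      rw [e2]
      congr 1
      simp only [map_mul, map_pow]
      ring
    rw [h2] at h1
    have h3 : ((n : k) + 1) = algebraMap ℚ k ((n : ℚ) + 1) := by simp
    have h4 : ((n : ℚ) + 1) ≠ 0 := by positivity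
    have h5 : algebraMap ℚ k ((n : ℚ) + 1)⁻¹ * (((n : k) + 1) * (cS r g i F0 n μ).coeff (n + 1)) =
        (cS r g i F0 n μ).coeff (n + 1) := by
      rw [h3, ← mul_assoc, ← map_mul, inv_mul_cancel₀ h4, map_one, one_mul]
    have h6 : (((n + 1).factorial : ℚ)⁻¹) = ((n : ℚ) + 1)⁻¹ * (n.factorial : ℚ)⁻¹ := by
      rw [Nat.factorial_succ]
      push_cast
      rw [mul_inv]
    rw [← h5, h1, h6, (algebraMap ℚ k).map_mul ((n : ℚ) + 1)⁻¹, mul_neg,
      mul_assoc (algebraMap ℚ k ((n : ℚ) + 1)⁻¹)]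

end

end Pool.Agent.helper59.LD
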