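import Pool.Agent.helper59.LD.Form2

/-!
# Derivation with respect to a parameter
-/

open PowerSeries

set_option linter.unusedSectionVars false

namespace Pool.Agent.helper59.LD

open LC

noncomputable section

/-- derivations, without module structure -/
structure Dr (S : Type*) [CommRing S] where
  /-- the function -/
  f : S → S
  add : ∀ a b, f (a + b) = f a + f b
  mul : ∀ a b, f (a * b) = a * f b + b * f a

section dr
variable {S : Type*} [CommRing S] (D : Dr S)

theorem Dr.zero : D.f 0 = 0 := by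
  have := D.add 0 0
  rw [add_zero] at this
  linear_combination -this

theorem Dr.one : D.f 1 = 0 := by
  have := D.mul 1 1
  rw [mul_one, one_mul] at this
  linear_combination -this

theorem Dr.natCast (n : ℕ) : D.f (n : S) = 0 := by
  induction n with
  | zero => rw [Nat.cast_zero, D.zero]
  | succ n ih => rw [Nat.cast_succ, D.add, ih, D.one, add_zero]

theorem Dr.sum {ι : Type*} (s : Finset ι) (f : ι → S) :
    D.f (∑ i ∈ s, f i) = ∑ i ∈ s, D.f (f i) := by
  classical
  induction s using Finset.induction_on with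
  | empty => rw [Finset.sum_empty, Finset.sum_empty, D.zero]
  | insert a s ha ih => rw [Finset.sum_insert ha, Finset.sum_insert ha, D.add, ih]

theorem Dr.pow (a : S) (n : ℕ) : D.f (a ^ n) = n * a ^ (n - 1) * D.f a := by
  induction n with
  | zero => rw [pow_zero, D.one, Nat.cast_zero, zero_mul, zero_mul]
  | succ n ih =>
    rw [pow_succ, D.mul, ih, Nat.add_sub_cancel, Nat.cast_succ]
    rcases n with _ | n
    · simp
    · rw [Nat.add_sub_cancel, pow_succ]
      ring

end dr

section gen
variable {A : Type*} [CommRing A] (d : Dr A)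

/-- the additive map -/
def Dr.hom : A →+ A where
  toFun := d.f
  map_zero' := d.zero
  map_add' := d.add

/-- coefficientwise -/
def dL (f : LaurentPolynomial A) : LaurentPolynomial A :=
  AddMonoidAlgebra.map d.hom f

theorem dL_coeff (f : LaurentPolynomial A) (n : ℤ) : (dL d f).coeff n = d.f (f.coeff n) := by
  rw [dL, AddMonoidAlgebra.coeff_map]
  rfl

theorem dL_add (f g : LaurentPolynomial A) : dL d (f + g) = dL d f + dL d g :=
  AddMonoidAlgebra.map_add _ _ _

theorem dL_CT (a : A) (n : ℤ) : dL d (LaurentPolynomial.C a * LaurentPolynomial.T n) =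
    LaurentPolynomial.C (d.f a) * LaurentPolynomial.T n := by
  ext m
  rw [dL_coeff, coeff_C_mul', coeff_C_mul', LaurentPolynomial.T_apply]
  split_ifs
  · rw [mul_one, mul_one]
  · rw [mul_zero, mul_zero, d.zero]

theorem dL_mul (f g : LaurentPolynomial A) : dL d (f * g) = f * dL d g + g * dL d f := by
  induction f using LaurentPolynomial.induction_on' with
  | add p q hp hq => rw [add_mul, dL_add, hp, hq, dL_add]; ring
  | C_mul_T n a =>
    induction g using LaurentPolynomial.induction_on' with
    | add p q hp hq => rw [mul_add, dL_add, hp, hq, dL_add]; ring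
    | C_mul_T m b =>
      have e : LaurentPolynomial.C a * LaurentPolynomial.T n *
          (LaurentPolynomial.C b * LaurentPolynomial.T m) =
          LaurentPolynomial.C (a * b) * LaurentPolynomial.T (n + m) := by
        rw [map_mul, LaurentPolynomial.T_add]; ring
      rw [e, dL_CT, dL_CT, dL_CT, d.mul, LaurentPolynomial.T_add]
      simp only [map_add, map_mul]
      ring

theorem dL_zero : dL d 0 = 0 := by
  ext m
  rw [dL_coeff]
  exact d.zero

/-- on series -/
def dS0 (φ : (LaurentPolynomial A)⟦X⟧) : (LaurentPolynomial A)⟦X⟧ :=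
  PowerSeries.mk fun n => dL d (coeff n φ)

theorem dL_sum {ι : Type*} (s : Finset ι) (f : ι → LaurentPolynomial A) :
    dL d (∑ i ∈ s, f i) = ∑ i ∈ s, dL d (f i) := by
  classical
  induction s using Finset.induction_on with
  | empty => rw [Finset.sum_empty, Finset.sum_empty, dL_zero]
  | insert a s ha ih => rw [Finset.sum_insert ha, Finset.sum_insert ha, dL_add, ih]

/-- the derivation of the series ring -/
def dS : Dr (LaurentPolynomial A)⟦X⟧ where
  f := dS0 d
  add := fun x y => by
    ext1 n
    rw [map_add, dS0, coeff_mk, dS0, coeff_mk, dS0, coeff_mk, map_add, dL_add]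
  mul := fun a b => by
    ext1 n
    rw [map_add, dS0, coeff_mk, coeff_mul, dL_sum, coeff_mul, mul_comm b, coeff_mul,
      ← Finset.sum_add_distrib]
    refine Finset.sum_congr rfl fun x _ => ?_
    rw [dL_mul, dS0, coeff_mk, dS0, coeff_mk]
    ring

theorem coeff_dS (φ : (LaurentPolynomial A)⟦X⟧) (n : ℕ) :
    coeff n ((dS d).f φ) = dL d (coeff n φ) := by
  change coeff n (dS0 d φ) = _
  rw [dS0, coeff_mk]

theorem tc_dS (e : ℤ) (μ : ℕ) (φ : (LaurentPolynomial A)⟦X⟧) :
    tc e μ ((dS d).f φ) = d.f (tc e μ φ) := by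
  rw [tc, coeff_dS, dL_coeff, tc]

theorem dS_cc (a : A) : (dS d).f (cc a) = cc (d.f a) := by
  ext1 n
  rw [coeff_dS, cc, cc, coeff_C, coeff_C]
  split_ifs
  · have := dL_CT d a 0
    rwa [LaurentPolynomial.T_zero, mul_one, mul_one] at this
  · exact dL_zero d

theorem dS_emb (e : ℤ) {s : A⟦X⟧} (hs : ∀ n, d.f (coeff n s) = 0) : (dS d).f (emb e s) = 0 := by
  ext1 n
  rw [coeff_dS, coeff_emb, dL_CT, hs, map_zero, zero_mul, map_zero]

theorem cc_pow (a : A) (n : ℕ) : cc (a ^ n) = cc a ^ n := by
  rw [cc, map_pow, map_pow]; rfl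

theorem tc_der (e : ℤ) (μ : ℕ) {ρ E F : (LaurentPolynomial A)⟦X⟧} {a : A}
    (hρ : (dS d).f ρ = 0) (hE : (dS d).f E = cc a * F) :
    d.f (tc e μ (ρ * E)) = a * tc e μ (ρ * F) := by
  rw [← tc_dS, (dS d).mul, hρ, hE, mul_zero, add_zero, ← tc_cc_mul]
  congr 1
  ring

end gen

/-- the telescoping derivative -/
theorem telescope {S : Type*} [CommRing S] (D : Dr S) (Y : S) (f : ℕ → S)
    (c : ℕ → S) (hc : ∀ t, D.f (c t) = 0) (hc2 : ∀ t : ℕ, ((t : S) + 1) * c (t + 1) = c t)
    (hf : ∀ j, D.f (f (j + 1)) = -(f j * D.f Y)) (n : ℕ) :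
    D.f (∑ t ∈ Finset.range (n + 1), c t * Y ^ t * f (n - t)) = c n * Y ^ n * D.f (f 0) := by
  have h1 : ∀ t, D.f (c t * Y ^ t * f (n - t)) = c t * (t * Y ^ (t - 1) * D.f Y) * f (n - t) +
      c t * Y ^ t * D.f (f (n - t)) := by
    intro t
    rw [D.mul, D.mul, hc, D.pow]
    ring
  rw [D.sum]
  simp only [h1]
  rw [Finset.sum_add_distrib, Finset.sum_range_succ', Finset.sum_range_succ (f := fun t =>
    c t * Y ^ t * D.f (f (n - t)))]
  have h2 : ∀ t ∈ Finset.range n, c (t + 1) * (((t + 1 : ℕ) : S) * Y ^ (t + 1 - 1) * D.f Y) *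
      f (n - (t + 1)) = -(c t * Y ^ t * D.f (f (n - t))) := by
    intro t ht
    rw [Finset.mem_range] at ht
    obtain ⟨j, hj⟩ : ∃ j, n - t = j + 1 := ⟨n - t - 1, by omega⟩
    have hj2 : n - (t + 1) = j := by omega
    rw [hj, hj2, hf, Nat.add_sub_cancel, ← hc2 t]
    push_cast
    ring
  rw [Finset.sum_congr rfl h2, Finset.sum_neg_distrib]
  simp

/-- constants -/
def io {k A : Type*} [CommRing k] [CommRing A] (f : k →+* A) : k →+* (LaurentPolynomial A)⟦X⟧ :=
  ((C (R := LaurentPolynomial A)).comp (LaurentPolynomial.C (R := A))).comp f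

theorem dS_eval {k : Type*} [CommRing k] {A : Type*} [CommRing A] (d : Dr A)
    (i : k →+* A) (hi : ∀ a, d.f (i a) = 0) (x : (LaurentPolynomial A)⟦X⟧) (Q : Polynomial k) :
    (dS d).f (Polynomial.eval₂ (io i) x Q) =
      Polynomial.eval₂ (io i) x (Polynomial.derivative Q) * (dS d).f x := by
  have hFa : ∀ a, (dS d).f (io i a) = 0 := by
    intro a
    have : io i a = cc (i a) := rfl
    rw [this, dS_cc, hi, cc, map_zero, map_zero]
  induction Q using Polynomial.induction_on' with
  | add p q hp hq => rw [Polynomial.eval₂_add, (dS d).add, hp, hq, Polynomial.derivative_add,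
      Polynomial.eval₂_add, add_mul]
  | monomial n a =>
    rw [Polynomial.eval₂_monomial, (dS d).mul, hFa, (dS d).pow,
      Polynomial.derivative_monomial, Polynomial.eval₂_monomial, map_mul, map_natCast]
    ring

end

end Pool.Agent.helper59.LD
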