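import Pool.Agent.helper59.LD.Deg

/-!
# The second deformation
-/

open PowerSeries Filter

set_option linter.unusedSectionVars false

namespace Pool.Agent.helper59.LD

open LC

noncomputable section

variable (N m n : ℕ) (v : Polynomial ℂ)

/-- the perturbations over `ℂ[δ]` -/
def hD : IX N m n → Fin 2 → MvPolynomial (Fin 2) (Polynomial ℂ)
  | .inl (.inl p) => fun j => MvPolynomial.map Polynomial.C
      (hP 0 (if p.1.1 = 1 then v else Polynomial.X ^ p.1.1) ((1 + Polynomial.X) ^ p.1.2) j)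
  | .inl (.inr p) => fun j => MvPolynomial.map Polynomial.C
      (hP 1 ((1 + Polynomial.X) ^ p.1.2) (Polynomial.X ^ p.1.1) j)
  | .inr (.inl p) => hF (pD (rr m v)) 1 0 (wS (rr m v) 0 (Polynomial.X ^ p.1.1) (p.1.2 - 1))
  | .inr (.inr p) => hF (pD (rr m v)) 1 1 (wS (rr m v) 1 ((1 + Polynomial.X) ^ p.1.1) (p.1.2 - 1))

/-- the deformed data at a number -/
def pS (s : ℂ) (i : Fin 2) : MvPolynomial (Fin 2) ℂ :=
  pR (rr m v) i + MvPolynomial.C s * MvPolynomial.X (i + 1) ^ 2

/-- the perturbations at a number -/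
def hS (s : ℂ) (i : IX N m n) (j : Fin 2) : MvPolynomial (Fin 2) ℂ :=
  MvPolynomial.map (Polynomial.evalRingHom s) (hD N m n v i j)

variable {N m n v}

theorem low_pS (s : ℂ) (i : Fin 2) : Low (pS m v s i) := (low_pR _ i).add (low_mul_sq _ _)

/-- the Melnikov coefficients over `ℂ[δ]` -/
def cD (N m n : ℕ) (v : Polynomial ℂ) (e : ℂ) (i : IX N m n) (μ : ℕ) : Polynomial ℂ :=
  MM (pD (rr m v)) (gD (gg N m e)) 1 (hD N m n v i) μ

theorem cD_ev (e s : ℂ) (i : IX N m n) (μ : ℕ) :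
    (cD N m n v e i μ).eval s = MM (pS m v s) (gg N m e) 1 (hS N m n v s i) μ := by
  have h := MM_map (Polynomial.evalRingHom s) (low_pD (rr m v)) (gD (gg N m e))
    (lam := 1) (map_one _) (hD N m n v i) μ
  have e1 : (fun j => MvPolynomial.map (Polynomial.evalRingHom s) (pD (rr m v) j)) = pS m v s := by
    funext j
    rw [pD_ev]; rfl
  have e2 : (fun j => (gD (gg N m e) j).map (Polynomial.evalRingHom s)) = gg N m e := by
    funext j
    rw [gD_ev]
  rw [e1, e2, map_one] at h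
  exact h

/-- the orders -/
def ordI (N m n : ℕ) : IX N m n → ℕ
  | .inl _ => 0
  | .inr (.inl p) => p.1.2
  | .inr (.inr p) => p.1.2

theorem pS_zero : pS m v 0 = pR (rr m v) := by
  funext i
  rw [pS]; simp

theorem hS_inl_inl (s : ℂ) (p : DS N m n) : hS N m n v s (.inl (.inl p)) =
    hP 0 (if p.1.1 = 1 then v else Polynomial.X ^ p.1.1) ((1 + Polynomial.X) ^ p.1.2) := by
  funext j
  rw [hS, hD, MvPolynomial.map_map]
  have : (Polynomial.evalRingHom s).comp (Polynomial.C) = RingHom.id ℂ := by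
    ext a; simp
  rw [this, MvPolynomial.map_id]

theorem hS_inl_inr (s : ℂ) (p : ES N m n) : hS N m n v s (.inl (.inr p)) =
    hP 1 ((1 + Polynomial.X) ^ p.1.2) (Polynomial.X ^ p.1.1) := by
  funext j
  rw [hS, hD, MvPolynomial.map_map]
  have : (Polynomial.evalRingHom s).comp (Polynomial.C) = RingHom.id ℂ := by
    ext a; simp
  rw [this, MvPolynomial.map_id]

theorem cD_low {e : ℂ} {x : Fin 2 → ℂ⟦X⟧} (hx : IsX1 (rr m v) (gg N m e) x) (i : IX N m n)
    {μ : ℕ} (hμ : 1 ≤ μ) :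
    (∀ j, j < ordI N m n i → (cD N m n v e i μ).coeff j = 0) ∧
      (cD N m n v e i μ).coeff (ordI N m n i) = WW N m n v e x i μ := by
  rcases i with (p | p) | (p | p)
  · refine ⟨fun j hj => by simp only [ordI] at hj; omega, ?_⟩
    simp only [ordI]
    rw [Polynomial.coeff_zero_eq_eval_zero, cD_ev, pS_zero, hS_inl_inl, MM_hP' hx, WW]
    rfl
  · refine ⟨fun j hj => by simp only [ordI] at hj; omega, ?_⟩
    simp only [ordI]
    rw [Polynomial.coeff_zero_eq_eval_zero, cD_ev, pS_zero, hS_inl_inr, MM_hP' hx, WW]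
    rfl
  · have hp := mem_FS.1 p.2
    have h := delta_low' hx 0 (Polynomial.X ^ p.1.1) (p.1.2 - 1) hμ
    rw [Nat.sub_add_cancel hp.2.2.2] at h
    exact h
  · have hp := mem_FS.1 p.2
    have h := delta_low' hx 1 ((1 + Polynomial.X) ^ p.1.1) (p.1.2 - 1) hμ
    rw [Nat.sub_add_cancel hp.2.2.2] at h
    exact h

/-- **the second stage** -/
theorem delta_stage (hm : 1 ≤ m) (hN : 3 ≤ N) (hmN : 2 * (N + 1) + (2 * m - 1) < m * N)
    {x : ℂ⟦X⟧} (hx : Polynomial.aeval x v = psi (g1 N 0)) (hr : FF (poly2 v) = v)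
    (hx0 : coeff 0 x = 0)
    (hv1 : v.coeff 1 = 1) (hv : v.natDegree = m) (tt : TT N m v x) :
    ∃ e s : ℂ, LinearIndependent ℂ
      (fun (i : IX N m n) μ => MM (pS m v s) (gg N m e) 1 (hS N m n v s i) (μ + (N + 1))) := by
  obtain ⟨e, he⟩ := eps_stage (n := n) hm hN hmN hx hr hx0 hv1 hv tt
  have hlow := fun (i : IX N m n) (μ : ℕ) => cD_low (isX1_XEs N m v e)
    i (by omega : 1 ≤ μ + (N + 1))
  obtain ⟨D, hD0, hD⟩ := low_indep (w := fun (i : IX N m n) μ => cD N m n v e i (μ + (N + 1)))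
    (n := ordI N m n) (fun i μ j hj => (hlow i μ).1 j hj) (by
      have : (fun (i : IX N m n) (μ : ℕ) => (cD N m n v e i (μ + (N + 1))).coeff
          (ordI N m n i)) = fun i μ => WW N m n v e (XEs N m v e) i (μ + (N + 1)) := by
        funext i μ
        exact (hlow i μ).2
      rw [this]
      exact he)
  obtain ⟨s, hs⟩ := Polynomial.exists_eval_ne_zero_of_natDegree_lt_card D hD0 (by
    rw [Cardinal.mk_complex]
    exact (Cardinal.nat_lt_continuum _))
  refine ⟨e, s, ?_⟩
  have h1 := hD s hs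
  simpa only [cD_ev] using h1

/-! ### degrees -/

theorem FF_rr_zero (hr : FF (poly2 v) = v) : FF (rr m v 0) = v := hr

theorem FF_rr_one (hm : m ≠ 0) : FF (rr m v 1) = R1 ℂ m := FF_r1 hm

theorem R1_deg (hm : m ≠ 0) : (R1 ℂ m).natDegree ≤ m := by
  rw [R1]
  refine (Polynomial.natDegree_C_mul_le _ _).trans ?_
  refine (Polynomial.natDegree_sub_le _ _).trans ?_
  rw [Polynomial.natDegree_one]
  refine max_le ?_ (Nat.zero_le _)
  refine (Polynomial.natDegree_pow_le).trans ?_
  have : (1 + Polynomial.X : Polynomial ℂ).natDegree ≤ 1 :=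
    (Polynomial.natDegree_add_le _ _).trans (by simp)
  nlinarith

theorem FF_rr_deg (hm : m ≠ 0) (hr : FF (poly2 v) = v) (hv : v.natDegree = m) (i : Fin 2) :
    (FF (rr m v i)).natDegree ≤ m := by
  fin_cases i
  · change (FF (rr m v 0)).natDegree ≤ m
    rw [FF_rr_zero hr, hv]
  · change (FF (rr m v 1)).natDegree ≤ m
    rw [FF_rr_one hm]
    exact R1_deg hm

theorem td_PP_pD (hm : 2 ≤ m) (hr : FF (poly2 v) = v) (hv : v.natDegree = m) (i : Fin 2) :
    TD (PP (pD (rr m v)) i) m := by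
  have h : PP (pD (rr m v)) i = MvPolynomial.map Polynomial.C (PP (pR (rr m v)) i) +
      MvPolynomial.C Polynomial.X * MvPolynomial.X (i + 1) ^ 2 := by
    rw [PP, PP, pD, map_add, MvPolynomial.map_X]
    ring
  rw [h, PP_pR]
  refine TD.add ((td_poly i _ (FF_rr_deg (by omega) hr hv i)).map _) ?_
  exact ((td_C _ 0).mul ((td_X (i + 1) le_rfl).pow 2)).mono (by omega)

theorem td_hF {A : Type*} [CommRing A] {p : Fin 2 → MvPolynomial (Fin 2) A}
    {lam w : MvPolynomial (Fin 2) A} {r a b : ℕ} (hp : ∀ i, TD (PP p i) (a + 1))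
    (hl : TD lam r) (hw : TD w b) (i j : Fin 2) : TD (hF p lam i w j) (b + (r + a)) := by
  rw [hF]
  split_ifs
  · exact hw.mul (hl.mul ((hp _).pderiv _))
  · exact (hw.mul (hl.mul ((hp _).pderiv _))).neg

theorem td_hD (hm : 2 ≤ m) (hr : FF (poly2 v) = v) (hv : v.natDegree = m)
    (hn : m * (N + 1) + (m - 1) ≤ n) (i : IX N m n) (j : Fin 2) :
    TD (hD N m n v i j) n := by
  have h1X : ∀ c : ℕ, ((1 + Polynomial.X : Polynomial ℂ) ^ c).natDegree ≤ c := by
    intro c
    refine (Polynomial.natDegree_pow_le).trans ?_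
    have : (1 + Polynomial.X : Polynomial ℂ).natDegree ≤ 1 :=
      (Polynomial.natDegree_add_le _ _).trans (by simp)
    nlinarith
  have hd : ∀ i : Fin 2, (Polynomial.derivative (FF (rr m v i))).natDegree ≤ m - 1 := fun i =>
    (Polynomial.natDegree_derivative_le _).trans
      (Nat.sub_le_sub_right (FF_rr_deg (by omega) hr hv i) 1)
  have hPP : ∀ i, TD (PP (pD (rr m v)) i) ((m - 1) + 1) := fun i => by
    rw [Nat.sub_add_cancel (by omega)]; exact td_PP_pD hm hr hv i
  rcases i with (p | p) | (p | p)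
  · have hp := mem_DS.1 p.2
    rw [hD]
    refine TD.map _ ?_
    rw [hP]
    split_ifs with h1 h2
    · refine ((td_poly 0 _ (le_of_eq hv)).mul (td_poly (0 + 1) _ (h1X _))).mono ?_
      have : m * N ≤ m * (N + 1) := Nat.mul_le_mul_left m (by omega)
      omega
    · refine ((td_poly 0 _ (Polynomial.natDegree_X_pow_le _)).mul
        (td_poly (0 + 1) _ (h1X _))).mono hp.2.2.2
    · exact td_zero n
  · have hp := mem_ES.1 p.2
    rw [hD]
    refine TD.map _ ?_
    rw [hP]
    split_ifs with h1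
    · refine ((td_poly 1 _ (h1X _)).mul (td_poly (1 + 1) _
        (Polynomial.natDegree_X_pow_le _))).mono ?_
      omega
    · exact td_zero n
  · have hp := mem_FS.1 p.2
    rw [hD]
    have hw := td_wS (r := rr m v) (i := 0) (F0 := Polynomial.X ^ p.1.1) (a := m - 1)
      (b := p.1.1) (by omega) (hd 0) (Polynomial.natDegree_X_pow_le _) (p.1.2 - 1)
    refine (td_hF hPP (td_one 0) hw 0 j).mono ?_
    have h5 : (p.1.2 - 1) * (m - 1 + 1) ≤ N * m := by
      rw [Nat.sub_add_cancel (by omega : 1 ≤ m)]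
      exact Nat.mul_le_mul_right m (by omega)
    have h6 : m * (N + 1) = N * m + m := by ring
    omega
  · have hp := mem_FS.1 p.2
    rw [hD]
    have hw := td_wS (r := rr m v) (i := 1) (F0 := (1 + Polynomial.X) ^ p.1.1) (a := m - 1)
      (b := p.1.1) (by omega) (hd 1) (h1X _) (p.1.2 - 1)
    refine (td_hF hPP (td_one 0) hw 1 j).mono ?_
    have h5 : (p.1.2 - 1) * (m - 1 + 1) ≤ N * m := by
      rw [Nat.sub_add_cancel (by omega : 1 ≤ m)]
      exact Nat.mul_le_mul_right m (by omega)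
    have h6 : m * (N + 1) = N * m + m := by ring
    omega

theorem td_hS (hm : 2 ≤ m) (hr : FF (poly2 v) = v) (hv : v.natDegree = m)
    (hn : m * (N + 1) + (m - 1) ≤ n) (s : ℂ) (i : IX N m n) (j : Fin 2) :
    TD (hS N m n v s i j) n := (td_hD hm hr hv hn i j).map _

end

end Pool.Agent.helper59.LD
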