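import Pool.Agent.helper59.LC.Minor

/-!
# Independence from lowest coefficients
-/

namespace Pool.Agent.helper59.LD

open LC

noncomputable section

variable {ι : Type*} [Fintype ι]

theorem low_indep {w : ι → ℕ → Polynomial ℂ} {n : ι → ℕ}
    (hlow : ∀ i μ j, j < n i → (w i μ).coeff j = 0)
    (hind : LinearIndependent ℂ (fun i μ => (w i μ).coeff (n i))) :
    ∃ D : Polynomial ℂ, D ≠ 0 ∧ ∀ s, D.eval s ≠ 0 →
      LinearIndependent ℂ (fun i μ => (w i μ).eval s) := by
  classical
  have h1 : ∀ i μ, ∃ u : Polynomial ℂ, w i μ = Polynomial.X ^ (n i) * u := by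
    intro i μ
    exact Polynomial.X_pow_dvd_iff.2 (fun j hj => hlow i μ j hj)
  choose u hu using h1
  have h2 : ∀ i μ, (u i μ).eval 0 = (w i μ).coeff (n i) := by
    intro i μ
    rw [← Polynomial.coeff_zero_eq_eval_zero, hu i μ, Polynomial.coeff_X_pow_mul', if_pos le_rfl,
      Nat.sub_self]
  have h3 : LinearIndependent ℂ (fun i μ => (u i μ).eval 0) := by
    have : (fun i μ => (u i μ).eval 0) = (fun i μ => (w i μ).coeff (n i)) := by
      funext i μ; exact h2 i μ
    rw [this]; exact hind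
  obtain ⟨D, hD0, hD⟩ := exists_disc h3
  refine ⟨Polynomial.X * D, mul_ne_zero Polynomial.X_ne_zero (fun h => hD0 (by rw [h]; simp)),
    fun s hs => ?_⟩
  rw [Polynomial.eval_mul, Polynomial.eval_X] at hs
  have h4 := hD s (right_ne_zero_of_mul hs)
  have hs0 : s ≠ 0 := left_ne_zero_of_mul hs
  have h5 := h4.units_smul (fun i => (Units.mk0 s hs0) ^ (n i))
  convert h5 using 1
  funext i μ
  rw [hu i μ, Polynomial.eval_mul, Polynomial.eval_pow, Polynomial.eval_X]
  rfl

theorem at_indep {w : ι → ℕ → Polynomial ℂ} {s0 : ℂ}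
    (hind : LinearIndependent ℂ (fun i μ => (w i μ).eval s0)) :
    ∃ D : Polynomial ℂ, D ≠ 0 ∧ ∀ s, D.eval s ≠ 0 →
      LinearIndependent ℂ (fun i μ => (w i μ).eval s) := by
  classical
  obtain ⟨D, hD0, hD⟩ := exists_disc hind
  exact ⟨D, fun h => hD0 (by rw [h]; simp), hD⟩

end

end Pool.Agent.helper59.LD
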