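import Pool.Agent.helper59.LD.BaseW
import Pool.Agent.helper59.LD.LowD

/-!
# The first deformation
-/

open PowerSeries Filter

set_option linter.unusedSectionVars false

namespace Pool.Agent.helper59.LD

open LC

noncomputable section

section gen
variable {A : Type*} [CommRing A] [Algebra ℚ A]

/-- the solution -/
def x1s (r g : Fin 2 → Polynomial A) : Fin 2 → A⟦X⟧ := (exists_x1 r g).choose

theorem isX1_x1s (r g : Fin 2 → Polynomial A) : IsX1 r g (x1s r g) := (exists_x1 r g).choose_spec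

/-- the first data -/
def rr (m : ℕ) (v : Polynomial A) : Fin 2 → Polynomial A := fun i =>
  if i = 0 then poly2 v else r1 A m

/-- the second data -/
def gg (N m : ℕ) (e : A) : Fin 2 → Polynomial A := fun i => if i = 0 then g1 N e else g2 N m e

theorem rr_zero (m : ℕ) (v : Polynomial A) : rr m v 0 = poly2 v := rfl
theorem rr_one (m : ℕ) (v : Polynomial A) : rr m v 1 = r1 A m := rfl
theorem gg_zero (N m : ℕ) (e : A) : gg N m e 0 = g1 N e := rfl
theorem gg_one (N m : ℕ) (e : A) : gg N m e 1 = g2 N m e := rfl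

/-- the family -/
def WW (N m n : ℕ) (v : Polynomial A) (e : A) (x : Fin 2 → A⟦X⟧) : IX N m n → ℕ → A
  | .inl (.inl p), μ => V1 (gg N m e 0) (x 0) (if p.1.1 = 1 then v else Polynomial.X ^ p.1.1) μ *
        V2 (rr m v 1) (x 1) ((1 + Polynomial.X) ^ p.1.2) μ
  | .inl (.inr p), μ => V1 (gg N m e 1) (x 1) ((1 + Polynomial.X) ^ p.1.2) μ *
        V2 (rr m v 0) (x 0) (Polynomial.X ^ p.1.1) μ
  | .inr (.inl p), μ => -(qc A ((p.1.2.factorial : ℚ)⁻¹) *
      (V3 (rr m v 0) (gg N m e 0) (x 0) (Polynomial.derivative (Polynomial.X ^ p.1.1)) μ *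
        V4 (x 1) (2 * p.1.2) μ))
  | .inr (.inr p), μ => -(qc A ((p.1.2.factorial : ℚ)⁻¹) *
      (V3 (rr m v 1) (gg N m e 1) (x 1) (Polynomial.derivative ((1 + Polynomial.X) ^ p.1.1)) μ *
        V4 (x 0) (2 * p.1.2) μ))

theorem g1_map {A' : Type*} [CommRing A'] (f : A →+* A') (N : ℕ) (e : A) :
    (g1 N e).map f = g1 N (f e) := by
  rw [g1, g1]; simp

theorem rr_map {A' : Type*} [CommRing A'] [Algebra ℚ A'] (f : A →+* A') (m : ℕ)
    (v : Polynomial A) (i : Fin 2) : (rr m v i).map f = rr m (v.map f) i := by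
  rw [rr, rr]
  split_ifs
  · exact poly2_map f v
  · exact r1_map f m

theorem gg_map {A' : Type*} [CommRing A'] [Algebra ℚ A'] (f : A →+* A') (N m : ℕ)
    (e : A) (i : Fin 2) : (gg N m e i).map f = gg N m (f e) i := by
  rw [gg, gg]
  split_ifs
  · exact g1_map f N e
  · exact g2_map f N m e

theorem WW_map {A' : Type*} [CommRing A'] [Algebra ℚ A'] (f : A →+* A') (N m n : ℕ)
    {v : Polynomial A} {e : A} {x : Fin 2 → A⟦X⟧} (hx : IsX1 (rr m v) (gg N m e) x)
    (i : IX N m n) (μ : ℕ) : f (WW N m n v e x i μ) =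
      WW N m n (v.map f) (f e) (fun j => PowerSeries.map f (x j)) i μ := by
  rcases i with (p | p) | (p | p)
  · simp only [WW]
    rw [map_mul f, V1_map, V2_map f hx 1, gg_map, rr_map]
    congr 2
    · split_ifs <;> simp
    · simp
  · simp only [WW]
    rw [map_mul f, V1_map, V2_map f hx 0, gg_map, rr_map]
    congr 2
    · simp
    · simp
  · simp only [WW]
    rw [map_neg f, map_mul f, map_mul f, map_qc f, V3_map f hx 0, V4_map, gg_map, rr_map,
      ← Polynomial.derivative_map]
    congr 4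
    simp
  · simp only [WW]
    rw [map_neg f, map_mul f, map_mul f, map_qc f, V3_map f hx 1, V4_map, gg_map, rr_map,
      ← Polynomial.derivative_map]
    congr 4
    simp

theorem V1_X {N : ℕ} (hN : 1 ≤ N) (e : A) {v : Polynomial A} {x : A⟦X⟧}
    (hx : Polynomial.aeval x v = psi (g1 N e)) {μ : ℕ} (hμ : 1 ≤ μ) :
    ((μ : A) - N) * V1 (g1 N e) x v μ = e * ((N : A) - 1) * V1 (g1 N e) x (v ^ 2) μ := by
  have h1 := SS_gh (N - 1) e μ hμ
  rw [SS, SS, Polynomial.aeval_X, map_pow, Polynomial.aeval_X, Nat.cast_sub hN] at h1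
  rw [V1, V1, map_pow, hx]
  rw [Nat.cast_one] at h1
  change _ * coeff (μ + 1) (psi (Polynomial.C e - Polynomial.X ^ (N - 1)) *
    rec' (psi (Polynomial.C e - Polynomial.X ^ (N - 1)))) = _ * coeff (μ + 1)
    (psi (Polynomial.C e - Polynomial.X ^ (N - 1)) ^ 2 *
    rec' (psi (Polynomial.C e - Polynomial.X ^ (N - 1))))
  linear_combination h1

end gen

theorem coef_of_rel {s u : Polynomial ℂ} {a b c : ℂ} (ha : a ≠ 0)
    (h : (Polynomial.C a + Polynomial.C b * Polynomial.X) * s =
      Polynomial.C c * Polynomial.X * u) : s.coeff 0 = 0 ∧ s.coeff 1 = c / a * u.coeff 0 := by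
  have h0 : a * s.coeff 0 = 0 := by
    have h1 := congrArg (fun q => Polynomial.coeff q 0) h
    simp only [Polynomial.mul_coeff_zero, Polynomial.coeff_add, Polynomial.coeff_C_zero,
      Polynomial.coeff_X_zero, mul_zero, add_zero, zero_mul] at h1
    exact h1
  have h0' := (mul_eq_zero.1 h0).resolve_left ha
  have h2 : a * s.coeff 1 + b * s.coeff 0 = c * u.coeff 0 := by
    have h1 := congrArg (fun q => Polynomial.coeff q 1) h
    have e1 : (Polynomial.C a + Polynomial.C b * Polynomial.X) * s =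
        Polynomial.C a * s + Polynomial.C b * (Polynomial.X * s) := by ring
    have e2 : Polynomial.C c * Polynomial.X * u = Polynomial.C c * (Polynomial.X * u) := by ring
    rw [e1, e2] at h1
    simp only [Polynomial.coeff_add, Polynomial.coeff_C_mul, Polynomial.coeff_X_mul] at h1
    exact h1
  refine ⟨h0', ?_⟩
  rw [h0', mul_zero, add_zero] at h2
  field_simp
  linear_combination h2

theorem coef_mul {s w : Polynomial ℂ} (h : s.coeff 0 = 0) :
    (s * w).coeff 0 = 0 ∧ (s * w).coeff 1 = s.coeff 1 * w.coeff 0 := by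
  refine ⟨by rw [Polynomial.mul_coeff_zero, h, zero_mul], ?_⟩
  rw [Polynomial.mul_coeff_one, h]
  ring

/-- evaluation -/
abbrev evz : Polynomial ℂ →+* ℂ := Polynomial.evalRingHom 0

theorem coeff0_eq (q : Polynomial ℂ) : q.coeff 0 = evz q := Polynomial.coeff_zero_eq_eval_zero q

/-- the orders -/
def lowI (N m n : ℕ) : IX N m n → ℕ
  | .inl (.inl p) => if p.1.1 = 1 then 1 else 0
  | .inl (.inr p) => if p.1.2 = m then 1 else 0
  | .inr _ => 0

section stage
variable {N m n : ℕ} {v : Polynomial ℂ} {x : ℂ⟦X⟧}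

/-- the pair -/
def xy0 (N m : ℕ) (x : ℂ⟦X⟧) : Fin 2 → ℂ⟦X⟧ := fun i => if i = 0 then x else y0 N m

theorem isX1_base (hN : N ≠ 0) (hm : m ≠ 0) (hx : Polynomial.aeval x v = psi (g1 N 0))
    (hr : FF (poly2 v) = v) (hx0 : coeff 0 x = 0) :
    IsX1 (rr m v) (gg N m 0) (xy0 N m x) := by
  intro i
  fin_cases i
  · refine ⟨?_, ?_⟩
    · rw [X_dvd_iff, ← coeff_zero_eq_constantCoeff_apply]
      exact hx0
    · change Polynomial.aeval x (FF (poly2 v)) = psi (g1 N 0)
      rw [hr, hx]
  · refine ⟨?_, ?_⟩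
    · rw [X_dvd_iff, ← coeff_zero_eq_constantCoeff_apply]
      change coeff 0 (yb (m * N) - 1) = 0
      rw [map_sub, yb_zero]
      simp
    · change Polynomial.aeval (y0 N m) (FF (r1 ℂ m)) = psi (g2 N m 0)
      rw [FF_r1 hm, psi_y0 hN hm]

theorem map_C_ev (v : Polynomial ℂ) (s : ℂ) : (v.map (Polynomial.C)).map
    (Polynomial.evalRingHom s) = v := by
  rw [Polynomial.map_map]
  have : (Polynomial.evalRingHom s).comp (Polynomial.C) = RingHom.id ℂ := by
    ext a; simp
  rw [this, Polynomial.map_id]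

/-- solutions over `ℂ[ε]` -/
def XE (N m : ℕ) (v : Polynomial ℂ) : Fin 2 → (Polynomial ℂ)⟦X⟧ :=
  x1s (rr m (v.map Polynomial.C)) (gg N m (Polynomial.X : Polynomial ℂ))

theorem isX1_XE (N m : ℕ) (v : Polynomial ℂ) :
    IsX1 (rr m (v.map Polynomial.C)) (gg N m (Polynomial.X : Polynomial ℂ)) (XE N m v) :=
  isX1_x1s _ _

/-- the specialised solutions -/
def XEs (N m : ℕ) (v : Polynomial ℂ) (s : ℂ) : Fin 2 → ℂ⟦X⟧ :=
  fun i => PowerSeries.map (Polynomial.evalRingHom s) (XE N m v i)

theorem isX1_XEs (N m : ℕ) (v : Polynomial ℂ) (s : ℂ) :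
    IsX1 (rr m v) (gg N m s) (XEs N m v s) := by
  have h := (isX1_XE N m v).map (Polynomial.evalRingHom s)
  have e1 : (fun i => (rr m (v.map Polynomial.C) i).map (Polynomial.evalRingHom s)) = rr m v := by
    funext i
    rw [rr_map, map_C_ev]
  have e2 : (fun i => (gg N m (Polynomial.X : Polynomial ℂ) i).map (Polynomial.evalRingHom s)) =
      gg N m s := by
    funext i
    rw [gg_map]
    simp
  rw [e1, e2] at h
  exact h

theorem WW_ev (N m n : ℕ) (v : Polynomial ℂ) (s : ℂ) (i : IX N m n) (μ : ℕ) :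
    (WW N m n (v.map Polynomial.C) (Polynomial.X : Polynomial ℂ) (XE N m v) i μ).eval s =
      WW N m n v s (XEs N m v s) i μ := by
  have h := WW_map (Polynomial.evalRingHom s) N m n (isX1_XE N m v) i μ
  rw [map_C_ev] at h
  simp only [Polynomial.coe_evalRingHom, Polynomial.eval_X] at h
  exact h

theorem XEs_zero (hN : N ≠ 0) (hm : m ≠ 0) (hx : Polynomial.aeval x v = psi (g1 N 0))
    (hr : FF (poly2 v) = v) (hx0 : coeff 0 x = 0) : XEs N m v 0 = xy0 N m x :=
  (isX1_XEs N m v 0).unique (isX1_base hN hm hx hr hx0)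

theorem eps_low (hN : 1 ≤ N) (hm : m ≠ 0) (hx : Polynomial.aeval x v = psi (g1 N 0))
    (hr : FF (poly2 v) = v) (hx0 : coeff 0 x = 0) (i : IX N m n) {μ : ℕ} (hμ : N < μ) :
    (∀ j, j < lowI N m n i →
      (WW N m n (v.map Polynomial.C) (Polynomial.X : Polynomial ℂ) (XE N m v) i μ).coeff j = 0) ∧
    (WW N m n (v.map Polynomial.C) (Polynomial.X : Polynomial ℂ) (XE N m v) i μ).coeff
      (lowI N m n i) = bv N m n v x i μ := by
  have hN0 : N ≠ 0 := by omega
  have hXz := XEs_zero hN0 hm hx hr hx0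
  have hX0 : PowerSeries.map evz (XE N m v 0) = x := congrFun hXz 0
  have hX1 : PowerSeries.map evz (XE N m v 1) = y0 N m := congrFun hXz 1
  have hg0 : (gg N m (Polynomial.X : Polynomial ℂ) 0).map evz = g1 N 0 := by
    rw [gg_map, gg_zero]; simp
  have hg1 : (gg N m (Polynomial.X : Polynomial ℂ) 1).map evz = g2 N m 0 := by
    rw [gg_map, gg_one]; simp
  have hr0 : (rr m (v.map Polynomial.C) 0).map evz = poly2 v := by
    rw [rr_map, rr_zero, map_C_ev]
  have hr1 : (rr m (v.map Polynomial.C) 1).map evz = r1 ℂ m := by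
    rw [rr_map, rr_one]
  have hzero : (WW N m n (v.map Polynomial.C) (Polynomial.X : Polynomial ℂ) (XE N m v) i μ).coeff
      0 = WW N m n v 0 (xy0 N m x) i μ := by
    rw [Polynomial.coeff_zero_eq_eval_zero, WW_ev, hXz]
  rcases i with (p | p) | (p | p)
  · by_cases hp : p.1.1 = 1
    · simp only [lowI, if_pos hp]
      simp only [WW, if_pos hp]
      set s := V1 (gg N m (Polynomial.X : Polynomial ℂ) 0) (XE N m v 0) (v.map Polynomial.C) μ
        with hs
      set w := V2 (rr m (v.map Polynomial.C) 1) (XE N m v 1) ((1 + Polynomial.X) ^ p.1.2) μ with hw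
      set u := V1 (gg N m (Polynomial.X : Polynomial ℂ) 0) (XE N m v 0)
        ((v.map Polynomial.C) ^ 2) μ with hu
      have hw0 : w.coeff 0 = V2 (r1 ℂ m) (y0 N m) ((1 + Polynomial.X) ^ p.1.2) μ := by
        rw [coeff0_eq, hw, V2_map evz (isX1_XE N m v) 1, hX1, hr1]
        simp
      have hu0 : u.coeff 0 = V1 (g1 N 0) x (v ^ 2) μ := by
        rw [coeff0_eq, hu, V1_map, hX0, hg0, Polynomial.map_pow, map_C_ev]
      have hrel := V1_X hN (Polynomial.X : Polynomial ℂ) (v := v.map Polynomial.C)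
        (x := XE N m v 0) (by
          have := (isX1_XE N m v 0).2
          rw [rr_zero, ← poly2_map, ← FF_map, hr] at this
          exact this) (μ := μ) (by omega)
      have h1 := coef_of_rel (s := s) (u := u) (a := (μ : ℂ) - N) (b := 0) (c := (N : ℂ) - 1)
        (by
          intro h
          have : (μ : ℂ) = N := by linear_combination h
          have : μ = N := by exact_mod_cast this
          omega) (by
          simp only [map_sub, map_natCast, map_one, map_zero, zero_mul, add_zero]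
          rw [hs, hu, gg_zero]
          linear_combination hrel)
      have h2 := coef_mul (w := w) h1.1
      refine ⟨fun j hj => ?_, ?_⟩
      · rw [Nat.lt_one_iff.1 hj]; exact h2.1
      · rw [h2.2, h1.2, hw0, hu0, bv, if_pos hp]
    · simp only [lowI, if_neg hp]
      refine ⟨fun j hj => by omega, ?_⟩
      rw [hzero, WW, bv, if_neg hp, if_neg hp]
      rfl
  · by_cases hp : p.1.2 = m
    · simp only [lowI, if_pos hp]
      simp only [WW]
      set s := V1 (gg N m (Polynomial.X : Polynomial ℂ) 1) (XE N m v 1)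
        ((1 + Polynomial.X) ^ p.1.2) μ with hs
      set w := V2 (rr m (v.map Polynomial.C) 0) (XE N m v 0) (Polynomial.X ^ p.1.1) μ with hw
      set u := V1 (gg N m (Polynomial.X : Polynomial ℂ) 1) (XE N m v 1)
        ((1 + Polynomial.X) ^ (2 * m)) μ with hu
      have hw0 : w.coeff 0 = V2 (poly2 v) x (Polynomial.X ^ p.1.1) μ := by
        rw [coeff0_eq, hw, V2_map evz (isX1_XE N m v) 0, hX0, hr0]
        simp
      have hu0 : u.coeff 0 = V1 (g2 N m 0) (y0 N m) ((1 + Polynomial.X) ^ (2 * m)) μ := by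
        rw [coeff0_eq, hu, V1_map, hX1, hg1]
        simp
      have hrel := V1_Tm hN0 hm (Polynomial.X : Polynomial ℂ) (y := XE N m v 1) (by
          have := (isX1_XE N m v 1).2
          rw [rr_one, FF_r1 hm] at this
          exact this) (μ := μ) (by omega)
      have h1 := coef_of_rel (s := s) (u := u) (a := (μ : ℂ) + 1) (b := (N : ℂ) - 1)
        (c := (N : ℂ) - 1)
        (by exact_mod_cast Nat.succ_ne_zero μ) (by
          simp only [map_sub, map_add, map_natCast, map_one]
          rw [hs, hu, gg_one, hp]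
          linear_combination hrel)
      have h2 := coef_mul (w := w) h1.1
      refine ⟨fun j hj => ?_, ?_⟩
      · rw [Nat.lt_one_iff.1 hj]; exact h2.1
      · rw [h2.2, h1.2, hw0, hu0, bv, if_pos hp]
    · simp only [lowI, if_neg hp]
      refine ⟨fun j hj => by omega, ?_⟩
      rw [hzero, WW, bv, if_neg hp]
      rfl
  · simp only [lowI]
    refine ⟨fun j hj => by omega, ?_⟩
    rw [hzero, WW, bv]
    simp only [qc, map_inv₀, map_natCast]
    rfl
  · simp only [lowI]
    refine ⟨fun j hj => by omega, ?_⟩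
    rw [hzero, WW, bv]
    simp only [qc, map_inv₀, map_natCast]
    rfl

/-- **the first stage** -/
theorem eps_stage (hm : 1 ≤ m) (hN : 3 ≤ N) (hmN : 2 * (N + 1) + (2 * m - 1) < m * N)
    (hx : Polynomial.aeval x v = psi (g1 N 0)) (hr : FF (poly2 v) = v) (hx0 : coeff 0 x = 0)
    (hv1 : v.coeff 1 = 1) (hv : v.natDegree = m) (tt : TT N m v x) :
    ∃ e : ℂ, LinearIndependent ℂ
      (fun (i : IX N m n) μ => WW N m n v e (XEs N m v e) i (μ + (N + 1))) := by
  have h0 := bv_indep (n := n) hm hN hmN hx hr hx0 hv1 hv tt (M0 := N + 1) (by omega)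
  have hlow := fun (i : IX N m n) (μ : ℕ) => eps_low (by omega : 1 ≤ N) (by omega : m ≠ 0) hx hr hx0
    i (by omega : N < μ + (N + 1))
  obtain ⟨D, hD0, hD⟩ := low_indep (w := fun (i : IX N m n) μ =>
    WW N m n (v.map Polynomial.C) (Polynomial.X : Polynomial ℂ) (XE N m v) i (μ + (N + 1)))
    (n := lowI N m n) (fun i μ j hj => (hlow i μ).1 j hj) (by
      have : (fun (i : IX N m n) (μ : ℕ) => (WW N m n (v.map Polynomial.C)
          (Polynomial.X : Polynomial ℂ) (XE N m v) i (μ + (N + 1))).coeff (lowI N m n i)) =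
          fun i μ => bv N m n v x i (μ + (N + 1)) := by
        funext i μ
        exact (hlow i μ).2
      rw [this]
      exact h0)
  obtain ⟨s, hs⟩ := Polynomial.exists_eval_ne_zero_of_natDegree_lt_card D hD0 (by
    rw [Cardinal.mk_complex]
    exact (Cardinal.nat_lt_continuum _))
  refine ⟨s, ?_⟩
  have h1 := hD s hs
  simpa only [WW_ev] using h1

end stage

end

end Pool.Agent.helper59.LD
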