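import Pool.Agent.helper59.LD.LH

/-!
# Transformation of the field
-/

open Set Filter Topology PowerSeries Asymptotics

set_option linter.unusedSectionVars false

namespace Pool.Agent.helper59.LD

open LC

noncomputable section

variable {n K : ℕ} (R : RPt n K)

/-- the contraction with the differential of `P_0` -/
def Sc (p : Fin 2 → MvPolynomial (Fin 2) ℂ) (h : Fin 2 → MvPolynomial (Fin 2) ℂ) :
    MvPolynomial (Fin 2) ℂ := ∑ j, MvPolynomial.pderiv j (PP p 0) * h j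

/-- the complex form of the field -/
def Wp (H : MvPolynomial (Fin 2) ℂ) (ε : ℝ) : MvPolynomial (Fin 2) ℂ :=
  MvPolynomial.C Complex.I * (R.lam * UU R.p R.g) + MvPolynomial.C (ε : ℂ) * H

/-- the field -/
def Zf (H : MvPolynomial (Fin 2) ℂ) (ε : ℝ) (z : ℂ) : ℂ := Ez (Wp R H ε) z

/-- the time factor -/
def tau (e : ℂ → ℂ) (w : ℂ) : ℝ := (Ez (Jac R.p * R.lam) (e w)).re

/-- the perturbation in the linearising coordinate -/
def G2 (e : ℂ → ℂ) (H : MvPolynomial (Fin 2) ℂ) (w : ℂ) : ℂ :=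
  ev w (rec' (psi (R.g 0))) * Ez (Sc R.p (pr H)) (e w) * ((tau R e w : ℝ) : ℂ)⁻¹

theorem csw_Fp (P : MvPolynomial (Fin 2) ℂ) (g : Polynomial ℂ) :
    csw (Fp P g) = Fp (csw P) (cP g) := by
  have hFF : FF (cP g) = cP (FF g) := by
    rw [FF, FF, map_add, map_mul, map_pow]
    simp [cP]
  rw [Fp, Fp, hFF]
  induction (FF g) using Polynomial.induction_on' with
  | add p q hp hq => rw [map_add, map_add, hp, hq, map_add, map_add]
  | monomial k a =>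
    have : cP (Polynomial.monomial k a) = Polynomial.monomial k (starRingEnd ℂ a) := by
      simp [cP]
    rw [this, Polynomial.aeval_monomial, Polynomial.aeval_monomial, map_mul,
      map_pow, MvPolynomial.algebraMap_eq, csw_C]

theorem csw_UU : csw (UU R.p R.g) =
    MvPolynomial.pderiv 0 (PP R.p 0) * Fp (PP R.p 1) (R.g 1) +
      MvPolynomial.pderiv 0 (PP R.p 1) * Fp (PP R.p 0) (R.g 0) := by
  have e0 : (0 : Fin 2) + 1 = 1 := rfl
  have e1 : (1 : Fin 2) + 1 = 0 := rfl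
  rw [UU, map_add, map_mul, map_mul, csw_pderiv, csw_pderiv, csw_Fp, csw_Fp,
    csw_PP R.preal, csw_PP R.preal, R.greal, R.greal, e0, e1]

theorem Sc_field : Sc R.p (pr (MvPolynomial.C Complex.I * (R.lam * UU R.p R.g))) =
    MvPolynomial.C Complex.I * (Jac R.p * R.lam) * Fp (PP R.p 0) (R.g 0) := by
  rw [Sc, Fin.sum_univ_two]
  have h0 : pr (MvPolynomial.C Complex.I * (R.lam * UU R.p R.g)) 0 =
      MvPolynomial.C Complex.I * (R.lam * UU R.p R.g) := rfl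
  have h1 : pr (MvPolynomial.C Complex.I * (R.lam * UU R.p R.g)) 1 =
      csw (MvPolynomial.C Complex.I * (R.lam * UU R.p R.g)) := rfl
  rw [h0, h1, map_mul csw, map_mul csw, csw_C, R.lreal, csw_UU, Complex.conj_I, map_neg, UU, Jac]
  ring

theorem pr_add (H H' : MvPolynomial (Fin 2) ℂ) (j : Fin 2) : pr (H + H') j = pr H j + pr H' j := by
  rw [pr, pr, pr]
  split_ifs
  · rfl
  · exact map_add _ _ _

theorem pr_smul (c : ℝ) (H : MvPolynomial (Fin 2) ℂ) (j : Fin 2) :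
    pr (MvPolynomial.C (c : ℂ) * H) j = MvPolynomial.C (c : ℂ) * pr H j := by
  rw [pr, pr]
  split_ifs
  · rfl
  · rw [map_mul, csw_C, Complex.conj_ofReal]

theorem Sc_add (H H' : MvPolynomial (Fin 2) ℂ) :
    Sc R.p (pr (H + H')) = Sc R.p (pr H) + Sc R.p (pr H') := by
  rw [Sc, Sc, Sc, ← Finset.sum_add_distrib]
  exact Finset.sum_congr rfl fun j _ => by rw [pr_add]; ring

theorem Sc_smul (c : ℝ) (H : MvPolynomial (Fin 2) ℂ) :
    Sc R.p (pr (MvPolynomial.C (c : ℂ) * H)) = MvPolynomial.C (c : ℂ) * Sc R.p (pr H) := by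
  rw [Sc, Sc, Finset.mul_sum]
  exact Finset.sum_congr rfl fun j _ => by rw [pr_smul]; ring

theorem Sc_Wp (H : MvPolynomial (Fin 2) ℂ) (ε : ℝ) : Sc R.p (pr (Wp R H ε)) =
    MvPolynomial.C Complex.I * (Jac R.p * R.lam) * Fp (PP R.p 0) (R.g 0) +
      MvPolynomial.C (ε : ℂ) * Sc R.p (pr H) := by
  rw [Wp, Sc_add, Sc_field, Sc_smul]

theorem DE_Ez (W : MvPolynomial (Fin 2) ℂ) (z : ℂ) :
    DE (PP R.p 0) z (Ez W z) = Ez (Sc R.p (pr W)) z := by
  have h0 : pr W 0 = W := rfl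
  have h1 : pr W 1 = csw W := rfl
  rw [DE_apply, Sc, Fin.sum_univ_two, Ez_add, Ez_mul, Ez_mul, h0, h1, Ez_csw]

theorem Jlam_real (z : ℂ) : Ez (Jac R.p * R.lam) z = ((Ez (Jac R.p * R.lam) z).re : ℂ) := by
  have h : csw (Jac R.p * R.lam) = Jac R.p * R.lam := by
    rw [map_mul, csw_Jac R.preal, R.lreal]
  have h1 := Ez_csw (Jac R.p * R.lam) z
  rw [h] at h1
  exact (Complex.conj_eq_iff_re.1 h1.symm).symm

theorem Jac_eq (z : ℂ) : (Ez (Jac R.p) z).re = ‖Ez (MvPolynomial.pderiv 0 (PP R.p 0)) z‖ ^ 2 -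
    ‖Ez (MvPolynomial.pderiv 1 (PP R.p 0)) z‖ ^ 2 := by
  have e0 : (0 : Fin 2) + 1 = 1 := rfl
  have e1 : (1 : Fin 2) + 1 = 0 := rfl
  have h1 : MvPolynomial.pderiv 1 (PP R.p 1) = csw (MvPolynomial.pderiv 0 (PP R.p 0)) := by
    rw [csw_pderiv, csw_PP R.preal, e0]
  have h2 : MvPolynomial.pderiv 0 (PP R.p 1) = csw (MvPolynomial.pderiv 1 (PP R.p 0)) := by
    rw [csw_pderiv, csw_PP R.preal, e0, e1]
  rw [Jac, Ez_sub, Ez_mul, Ez_mul, h1, h2, Ez_csw, Ez_csw, Complex.mul_conj, Complex.mul_conj,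
    Complex.normSq_eq_norm_sq, Complex.normSq_eq_norm_sq, ← Complex.ofReal_sub,
    Complex.ofReal_re]

theorem DE_inj {z : ℂ} (h : 0 < (Ez (Jac R.p) z).re) {u v : ℂ}
    (huv : DE (PP R.p 0) z u = DE (PP R.p 0) z v) : u = v := by
  rw [Jac_eq] at h
  have h1 : DE (PP R.p 0) z (u - v) = 0 := by rw [map_sub, huv, sub_self]
  rw [DE_apply] at h1
  set a := Ez (MvPolynomial.pderiv 0 (PP R.p 0)) z
  set b := Ez (MvPolynomial.pderiv 1 (PP R.p 0)) z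
  have h2 : ‖a‖ * ‖u - v‖ = ‖b‖ * ‖u - v‖ := by
    have h3 : a * (u - v) = -(b * starRingEnd ℂ (u - v)) := by linear_combination h1
    have h4 := congrArg norm h3
    rwa [norm_mul, norm_neg, norm_mul, RCLike.norm_conj] at h4
  by_contra hne
  have h5 : 0 < ‖u - v‖ := norm_pos_iff.2 (sub_ne_zero.2 hne)
  have h6 : ‖a‖ = ‖b‖ := mul_right_cancel₀ h5.ne' h2
  rw [h6] at h
  linarith

section local_
variable {e : OpenPartialHomeomorph ℂ ℂ} {r C : ℝ} {U : Set ℂ}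
  (h1 : Conv r (psi (R.g 0))) (h2 : Conv r (rec' (psi (R.g 0))))
  (hP : ∀ w ∈ Metric.ball (0 : ℂ) r, Ez (PP R.p 0) (e w) = ev w (psi (R.g 0)) ∧
        0 < (Ez (Jac R.p * R.lam) (e w)).re ∧ 0 < (Ez (Jac R.p) (e w)).re ∧
        ‖e w‖ ≤ C * ‖w‖ ∧ e w ∈ U)

include h1 h2 hP

theorem DE_field (H : MvPolynomial (Fin 2) ℂ) (ε : ℝ) {w : ℂ} (hw : ‖w‖ < r) :
    DE (PP R.p 0) (e w) (Zf R H ε (e w)) =
      ev w (derivative ℂ (psi (R.g 0))) * (((tau R e w : ℝ) : ℂ) * VF (G2 R e H) ε w) := by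
  obtain ⟨a1, a2, a3, -, -⟩ := hP w (mem_ball_zero_iff.2 hw)
  have h3 := ev_eq1 h1 hw
  have h4 := ev_eq2 h1 h2 hw
  have h5 : Ez (Jac R.p * R.lam) (e w) = ((tau R e w : ℝ) : ℂ) := Jlam_real R (e w)
  have h6 : ((tau R e w : ℝ) : ℂ) ≠ 0 := by
    have : tau R e w ≠ 0 := a2.ne'
    exact_mod_cast this
  rw [Zf, DE_Ez, Sc_Wp, Ez_add, Ez_mul, Ez_mul, Ez_C, h5, Ez_Fp, a1, Ez_mul, Ez_C, ← h3, VF, G2]
  have h7 : ((tau R e w : ℝ) : ℂ) * ((tau R e w : ℝ) : ℂ)⁻¹ = 1 := mul_inv_cancel₀ h6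
  linear_combination (-(ε : ℂ) * Ez (Sc R.p (pr H)) (e w)) * h4 -
    (ε : ℂ) * Ez (Sc R.p (pr H)) (e w) * (ev w (derivative ℂ (psi (R.g 0))) *
      ev w (rec' (psi (R.g 0)))) * h7

theorem hfw (hcd : ContDiffOn ℝ 1 e (Metric.ball 0 r)) (H : MvPolynomial (Fin 2) ℂ) (ε : ℝ)
    (w : ℝ → ℂ) (hw : ∀ t, ‖w t‖ < r)
    (hd : ∀ t, HasDerivAt w (((tau R e (w t) : ℝ) : ℂ) * VF (G2 R e H) ε (w t)) t) (t : ℝ) :
    HasDerivAt (fun t => e (w t)) (Zf R H ε (e (w t))) t := by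
  obtain ⟨-, -, a3, -, -⟩ := hP (w t) (mem_ball_zero_iff.2 (hw t))
  have hda : DifferentiableAt ℝ e (w t) :=
    (hcd.contDiffAt (Metric.isOpen_ball.mem_nhds (mem_ball_zero_iff.2 (hw t)))).differentiableAt
      one_ne_zero
  have hc : HasDerivAt (fun t => e (w t)) (fderiv ℝ e (w t)
      (((tau R e (w t) : ℝ) : ℂ) * VF (G2 R e H) ε (w t))) t :=
    hda.hasFDerivAt.comp_hasDerivAt t (hd t)
  set c' := fderiv ℝ e (w t) (((tau R e (w t) : ℝ) : ℂ) * VF (G2 R e H) ε (w t)) with hc'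
  have h5 := Ez_curve (PP R.p 0) hc
  have h6 : (fun t => Ez (PP R.p 0) (e (w t))) = fun t => ev (w t) (psi (R.g 0)) :=
    funext fun t => (hP (w t) (mem_ball_zero_iff.2 (hw t))).1
  rw [h6] at h5
  have h7 := HasDerivAt.comp_of_eq (x := t) (h₂ := fun z => ev z (psi (R.g 0))) (h := w)
      (y := w t) (hasDerivAt_ev h1 (hw t)) (hd t) rfl
  have h8 := h5.unique h7
  rw [← DE_apply, ← DE_field R h1 h2 hP H ε (hw t)] at h8
  rw [← DE_inj R a3 h8]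
  exact hc

theorem hbw (hinv : ∀ (w : ℝ → ℂ) (u' : ℂ) (t : ℝ), (∀ t, ‖w t‖ < r) →
        HasDerivAt (fun t => ev (w t) (psi (R.g 0))) u' t →
        HasDerivAt w ((ev (w t) (derivative ℂ (psi (R.g 0))))⁻¹ * u') t)
    (H : MvPolynomial (Fin 2) ℂ) (ε : ℝ) (c w : ℝ → ℂ) (hw : ∀ t, ‖w t‖ < r)
    (hcw : ∀ t, c t = e (w t)) (hd : ∀ t, HasDerivAt c (Zf R H ε (c t)) t) (t : ℝ) :
    HasDerivAt w (((tau R e (w t) : ℝ) : ℂ) * VF (G2 R e H) ε (w t)) t := by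
  have h5 := Ez_curve (PP R.p 0) (hd t)
  have h6 : (fun t => Ez (PP R.p 0) (c t)) = fun t => ev (w t) (psi (R.g 0)) :=
    funext fun t => by rw [hcw]; exact (hP (w t) (mem_ball_zero_iff.2 (hw t))).1
  rw [h6, ← DE_apply, hcw, DE_field R h1 h2 hP H ε (hw t)] at h5
  have h7 := hinv w _ t hw h5
  have h8 := ev_eq2 h1 h2 (hw t)
  have hne : ev (w t) (derivative ℂ (psi (R.g 0))) ≠ 0 := left_ne_zero_of_mul_eq_one h8
  rwa [← mul_assoc, inv_mul_cancel₀ hne, one_mul] at h7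

theorem tau_contDiff (hcd : ContDiffOn ℝ 1 e (Metric.ball 0 r)) :
    ContDiffOn ℝ 1 (fun w => ((tau R e w : ℝ) : ℂ)) (Metric.ball 0 r) := by
  have h3 : ContDiffOn ℝ 1 (fun w => Ez (Jac R.p * R.lam) (e w)) (Metric.ball 0 r) :=
    (Ez_contDiff _).comp_contDiffOn hcd
  refine h3.congr fun w _ => ?_
  exact (Jlam_real R (e w)).symm

theorem G2_contDiff (hcd : ContDiffOn ℝ 1 e (Metric.ball 0 r)) (H : MvPolynomial (Fin 2) ℂ) :
    ContDiffOn ℝ 1 (G2 R e H) (Metric.ball 0 r) := by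
  have h3 : ContDiffOn ℝ 1 (fun w => Ez (Sc R.p (pr H)) (e w)) (Metric.ball 0 r) :=
    (Ez_contDiff _).comp_contDiffOn hcd
  have h4 := tau_contDiff R h1 h2 hP hcd
  refine ((ev_contDiffOn h2).mul h3).mul (h4.inv fun w hw => ?_)
  have : tau R e w ≠ 0 := (hP w hw).2.1.ne'
  exact_mod_cast this

theorem tau_cont (hcd : ContDiffOn ℝ 1 e (Metric.ball 0 r)) :
    ContinuousOn (tau R e) (Metric.ball 0 r) := by
  have h3 : ContDiffOn ℝ 1 (fun w => Ez (Jac R.p * R.lam) (e w)) (Metric.ball 0 r) :=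
    (Ez_contDiff _).comp_contDiffOn hcd
  exact Complex.continuous_re.comp_continuousOn h3.continuousOn

end local_

end

end Pool.Agent.helper59.LD
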