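import Pool.Agent.helper59.LD.Vf

/-!
# The real point
-/

open PowerSeries Filter

set_option linter.unusedSectionVars false

namespace Pool.Agent.helper59.LD

open LC

noncomputable section

/-- the data of a real point -/
structure RPt (n K : ℕ) where
  /-- nonlinear parts -/
  p : Fin 2 → MvPolynomial (Fin 2) ℂ
  /-- holomorphic fields -/
  g : Fin 2 → Polynomial ℂ
  /-- multiplier -/
  lam : MvPolynomial (Fin 2) ℂ
  low : ∀ i, Low (p i)
  preal : ∀ i, csw (p i) = p (i + 1)
  greal : ∀ i, cP (g i) = g (i + 1)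
  lreal : csw lam = lam
  lconst : MvPolynomial.constantCoeff lam = 1
  deg : (lam * UU p g).totalDegree = n
  cdeg : ∀ i j, TD (hF p lam i (PP p i) j) n
  /-- the perturbations -/
  h : Fin K → Fin 2 → MvPolynomial (Fin 2) ℂ
  hdeg : ∀ i j, TD (h i j) n
  ind : LinearIndependent ℂ fun i μ => MM p g lam (h i) (μ + 1)

theorem dg_lamS_deg (r : ℕ) (s : ℝ) : r ≤ (lamS r (s : ℂ)).totalDegree := by
  refine le_trans ?_ (dg_le _)
  have h1 : dg (lamS r (s : ℂ)) = 1 + Polynomial.C ((s : ℂ) ^ 2 + 1) *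
      ((Polynomial.C 2 * Polynomial.X + Polynomial.C 1) ^ r - 1) := by
    rw [lamS]
    simp only [map_add, map_mul, map_sub, map_pow, map_one, dg_X, dg_C, map_ofNat]
    ring
  rw [h1]
  rcases r with _ | r
  · exact Nat.zero_le _
  have hs : ((s : ℂ) ^ 2 + 1) ≠ 0 := by
    have h2 : (0 : ℝ) < s ^ 2 + 1 := by positivity
    have h3 : ((s : ℂ) ^ 2 + 1) = ((s ^ 2 + 1 : ℝ) : ℂ) := by push_cast; ring
    rw [h3]
    exact_mod_cast h2.ne'
  have hlin : (Polynomial.C 2 * Polynomial.X + Polynomial.C 1 : Polynomial ℂ).natDegree = 1 :=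
    Polynomial.natDegree_linear two_ne_zero
  have hp : ((Polynomial.C 2 * Polynomial.X + Polynomial.C 1 : Polynomial ℂ) ^ (r + 1)).natDegree =
      r + 1 := by rw [Polynomial.natDegree_pow, hlin, mul_one]
  have hp1 : ((Polynomial.C 2 * Polynomial.X + Polynomial.C 1 : Polynomial ℂ) ^ (r + 1) -
      1).natDegree = r + 1 := by
    rw [Polynomial.natDegree_sub_eq_left_of_natDegree_lt, hp]
    rw [Polynomial.natDegree_one, hp]
    omega
  rw [Polynomial.natDegree_add_eq_right_of_natDegree_lt]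
  · rw [Polynomial.natDegree_C_mul hs, hp1]
  · rw [Polynomial.natDegree_one, Polynomial.natDegree_C_mul hs, hp1]
    omega

theorem td_lamS (r : ℕ) (s : ℂ) : TD (lamS r s) r := by
  rw [lamS]
  refine (td_one r).add ?_
  have h1 : TD (1 + MvPolynomial.X 0 + MvPolynomial.X 1 : MvPolynomial (Fin 2) ℂ) 1 :=
    ((td_one 1).add (td_X 0 le_rfl)).add (td_X 1 le_rfl)
  have h2 := (td_C (s ^ 2 + 1) 0).mul ((h1.pow r).sub (td_one (r * 1)))
  exact h2.mono (by omega)

theorem natDegree_miyS {a b : Polynomial ℂ} {d : ℕ} (ha : a.natDegree ≤ d)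
    (hb : b.natDegree ≤ d) (s : ℂ) : (miyS s a b).natDegree ≤ d := by
  rw [miyS]
  refine (Polynomial.natDegree_add_le _ _).trans (max_le ?_ ?_)
  · refine (Polynomial.natDegree_C_mul_le _ _).trans ?_
    exact (Polynomial.natDegree_add_le _ _).trans (max_le ha hb)
  · refine (Polynomial.natDegree_C_mul_le _ _).trans ((Polynomial.natDegree_C_mul_le _ _).trans ?_)
    exact (Polynomial.natDegree_sub_le _ _).trans (max_le ha hb)

theorem PP_pσ (p : Fin 2 → MvPolynomial (Fin 2) ℂ) (s : ℂ) (i : Fin 2) :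
    PP (pσ p s) i = mixS s (PP p i) (csw (PP p (i + 1))) := by
  have h2 : (MvPolynomial.C (1 / 2) : MvPolynomial (Fin 2) ℂ) * 2 = 1 := by
    have : (2 : MvPolynomial (Fin 2) ℂ) = MvPolynomial.C 2 := by rw [map_ofNat]
    rw [this, ← map_mul]
    norm_num
  rw [PP, PP, PP, pσ, mixS, mixS, map_add, csw_X, fin2_add]
  linear_combination (-(MvPolynomial.X i)) * h2

theorem td_mixS {a b : MvPolynomial (Fin 2) ℂ} {d : ℕ} (ha : TD a d) (hb : TD b d) (s : ℂ) :
    TD (mixS s a b) d := by
  rw [← mixP_ev]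
  exact (td_mixP ha hb).map _

/-- the existence of real points -/
theorem exists_RPt {N q n r : ℕ} (hq : 2 ≤ q) (hN : 3 ≤ N)
    (hmN : 2 * (N + 1) + (2 * 2 ^ q - 1) < 2 ^ q * N)
    (hn : n = 2 ^ q * (N + 1) + (2 ^ q - 1) + r) :
    Nonempty (RPt n (Fintype.card (IX N (2 ^ q) n))) := by
  set m := 2 ^ q with hm
  have hm4 : 4 ≤ m := by
    rw [hm]
    calc 4 = 2 ^ 2 := by norm_num
      _ ≤ 2 ^ q := Nat.pow_le_pow_right (by norm_num) hq
  obtain ⟨v, x, good, tt⟩ := exists_tower hN q
  rw [← hm] at good tt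
  have hr : FF (poly2 v) = v := FF_poly2 good.v0 good.v1
  have hpsi : IsPsi (g1 N (0 : ℂ)) (Polynomial.aeval x v) := by
    refine ⟨?_, ?_, ?_⟩
    · rw [X_dvd_iff, ← coeff_zero_eq_constantCoeff_apply, coeff_zero_aeval good.z0, good.v0]
    · rw [coeff_one_aeval good.z0, good.v1, good.z1, one_mul]
    · rw [good.hφ, FF_g1 (by omega)]
      simp only [map_mul, map_sub, map_one, map_pow, Polynomial.aeval_X, map_zero, zero_mul,
        add_zero]
      ring
  have hx : Polynomial.aeval x v = psi (g1 N 0) := hpsi.unique (isPsi_psi _)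
  obtain ⟨e, s, hind⟩ := delta_stage (n := n) (by omega : 1 ≤ m) hN hmN hx hr good.z0 good.v1
    good.deg tt
  have hnn : m * (N + 1) + (m - 1) ≤ n := by omega
  -- shift the index
  obtain ⟨D, hD0, hD⟩ := sigma_stage (fun i => low_pS s i) (N + 1) r hind
  -- the top coefficient
  have hbase := UU_base_deg (by omega : 3 ≤ m) (by omega : 2 ≤ N) hr good.deg s e
  obtain ⟨s0, hs0, hs0d⟩ : ∃ s0 ∈ (UU (pS m v s) (gg N m e)).support,
      m - 1 + (N + 1) * m ≤ s0 0 + s0 1 := by
    by_contra hcon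
    push Not at hcon
    have h1 : (UU (pS m v s) (gg N m e)).totalDegree < m - 1 + (N + 1) * m := by
      rw [MvPolynomial.totalDegree]
      rw [Finset.sup_lt_iff (by rw [Nat.bot_eq_zero]; omega)]
      intro b hb
      rw [Finsupp.sum_fintype _ _ (fun _ => rfl), Fin.sum_univ_two]
      exact hcon b hb
    omega
  set cU : Polynomial ℂ := MvPolynomial.coeff s0 (UU (pσP (pS m v s)) (gσP (gg N m e))) with hcU
  have hcUe : ∀ t : ℂ, cU.eval t = MvPolynomial.coeff s0
      (UU (pσ (pS m v s) t) (gσ (gg N m e) t)) := by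
    intro t
    have h1 := UU_map (Polynomial.evalRingHom t) (pσP (pS m v s)) (gσP (gg N m e))
    have e1 : (fun j => MvPolynomial.map (Polynomial.evalRingHom t) (pσP (pS m v s) j)) =
        pσ (pS m v s) t := by
      funext j
      rw [pσP, mixP_ev]; rfl
    have e2 : (fun j => (gσP (gg N m e) j).map (Polynomial.evalRingHom t)) =
        gσ (gg N m e) t := by
      funext j
      rw [gσP, miyP_ev]; rfl
    rw [e1, e2] at h1
    rw [← h1, MvPolynomial.coeff_map]
    rfl
  have hcU0 : cU ≠ 0 := by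
    intro h
    have h1 := hcUe Complex.I
    have h0 : pσ (pS m v s) Complex.I = pS m v s := by
      funext i
      rw [pσ, mixS_I]
    have h0' : gσ (gg N m e) Complex.I = gg N m e := by
      funext i
      rw [gσ, miyS_I]
    rw [h, h0, h0', Polynomial.eval_zero] at h1
    rw [MvPolynomial.mem_support_iff] at hs0
    exact hs0 h1.symm
  -- a real parameter
  obtain ⟨t, ht⟩ : ∃ t : ℝ, (D * cU).eval (t : ℂ) ≠ 0 := by
    by_contra hcon
    push Not at hcon
    apply mul_ne_zero hD0 hcU0
    apply Polynomial.eq_zero_of_infinite_isRoot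
    refine Set.infinite_of_injective_forall_mem (f := fun t : ℝ => (t : ℂ))
      Complex.ofReal_injective fun t => ?_
    exact hcon t
  rw [Polynomial.eval_mul] at ht
  have ht1 := left_ne_zero_of_mul ht
  have ht2 := right_ne_zero_of_mul ht
  rw [hcUe] at ht2
  set p' := pσ (pS m v s) (t : ℂ) with hp'
  set g' := gσ (gg N m e) (t : ℂ) with hg'
  have hPP : ∀ i, TD (PP p' i) (m - 1 + 1) := by
    intro i
    rw [hp', PP_pσ, Nat.sub_add_cancel (by omega : 1 ≤ m)]
    exact td_mixS (td_PP_pS (by omega) hr good.deg s i) (td_PP_pS (by omega) hr good.deg s _).csw _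
  have hgd : ∀ i, (FF (g' i)).natDegree ≤ N + 1 := by
    intro i
    have h1 : FF (g' i) = miyS (t : ℂ) (FF (gg N m e i)) (cP (FF (gg N m e (i + 1)))) := by
      have h2 : (Polynomial.C (1 / 2) : Polynomial ℂ) * 2 = 1 := by
        have : (2 : Polynomial ℂ) = Polynomial.C 2 := by rw [map_ofNat]
        rw [this, ← map_mul]
        norm_num
      have h3 : cP (FF (gg N m e (i + 1))) = Polynomial.X + Polynomial.X ^ 2 *
          cP (gg N m e (i + 1)) := by
        rw [FF, map_add, map_mul, map_pow]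
        simp [cP]
      rw [hg', gσ, FF, h3, FF, miyS, miyS]
      linear_combination (-(Polynomial.X)) * h2
    rw [h1]
    refine natDegree_miyS (FF_gg_deg (by omega) (by omega) e i) ?_ _
    have h4 : (cP (FF (gg N m e (i + 1)))).natDegree ≤ (FF (gg N m e (i + 1))).natDegree :=
      Polynomial.natDegree_map_le
    exact h4.trans (FF_gg_deg (by omega) (by omega) e _)
  have hUtd : TD (UU p' g') (m - 1 + (N + 1) * m) := by
    have := td_UU hPP hgd
    rwa [Nat.sub_add_cancel (by omega : 1 ≤ m)] at this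
  have hUdeg : (UU p' g').totalDegree = m - 1 + (N + 1) * m := by
    refine le_antisymm hUtd ?_
    have h1 := MvPolynomial.le_totalDegree (MvPolynomial.mem_support_iff.2 ht2)
    rw [Finsupp.sum_fintype _ _ (fun _ => rfl), Fin.sum_univ_two] at h1
    exact hs0d.trans h1
  have hlamd : (lamS r (t : ℂ)).totalDegree = r :=
    le_antisymm (td_lamS r _) (dg_lamS_deg r t)
  have hU0 : UU p' g' ≠ 0 := by
    intro h
    rw [h, MvPolynomial.coeff_zero] at ht2
    exact ht2 rfl
  have hl0 : lamS r (t : ℂ) ≠ 0 := by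
    intro h
    have := lamS_const r (t : ℂ)
    rw [h, map_zero] at this
    exact zero_ne_one this
  have hmc : (N + 1) * m = m * (N + 1) := mul_comm _ _
  have hind2 := hD _ ht1
  set eqv := (Fintype.equivFin (IX N m n)).symm with heqv
  refine ⟨{ p := p', g := g', lam := lamS r (t : ℂ), low := ?_, preal := ?_, greal := ?_,
            lreal := lamS_csw r t, lconst := lamS_const r _, deg := ?_, cdeg := ?_,
            h := fun i => hS N m n v s (eqv i), hdeg := ?_, ind := ?_ }⟩
  · intro i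
    exact low_mixS (low_pS s i) (low_pS s _).csw _
  · exact fun i => pσ_real _ t i
  · exact fun i => gσ_real _ t i
  · rw [MvPolynomial.totalDegree_mul_of_isDomain hl0 hU0, hlamd, hUdeg]
    omega
  · intro i j
    refine (td_hF hPP (td_lamS r _) (hPP i) i j).mono ?_
    have : 2 * m ≤ m * (N + 1) := by nlinarith
    omega
  · intro i j
    exact td_hS (by omega) hr good.deg hnn s _ j
  · have h1 : LinearIndependent ℂ fun (i : Fin (Fintype.card (IX N m n))) (μ : ℕ) =>
        MM p' g' (lamS r (t : ℂ)) (hS N m n v s (eqv i)) (μ + (N + 1)) :=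
      hind2.comp _ eqv.injective
    -- restriction of the index set
    refine LinearIndependent.of_comp (LinearMap.funLeft ℂ ℂ (fun μ : ℕ => μ + N)) ?_
    exact h1

end

end Pool.Agent.helper59.LD
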