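import Pool.Agent.helper59.LD.Hyp
import Pool.Agent.helper59.LC.Formal

/-!
# The independence statement `TT` and base change
-/

open PowerSeries Filter

namespace Pool.Agent.helper59.LD

open LC

noncomputable section

/-- the reciprocal of a series with constant term `1` -/
def inv1 {A : Type*} [CommRing A] (s : A⟦X⟧) : A⟦X⟧ := invOfUnit s 1

theorem inv1_mul {A : Type*} [CommRing A] {s : A⟦X⟧} (h : coeff 0 s = 1) : s * inv1 s = 1 := by
  apply mul_invOfUnit
  rw [← coeff_zero_eq_constantCoeff_apply, h]
  simp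

theorem inv1_unique {A : Type*} [CommRing A] {s t : A⟦X⟧} (h : coeff 0 s = 1) (h' : s * t = 1) :
    t = inv1 s := by
  have h1 := inv1_mul h
  calc t = (s * inv1 s) * t := by rw [h1, one_mul]
    _ = inv1 s * (s * t) := by ring
    _ = inv1 s := by rw [h', mul_one]

theorem inv1_map {A B : Type*} [CommRing A] [CommRing B] (f : A →+* B) {s : A⟦X⟧}
    (h : coeff 0 s = 1) : PowerSeries.map f (inv1 s) = inv1 (PowerSeries.map f s) := by
  apply inv1_unique
  · rw [coeff_map, h, map_one]
  · rw [← map_mul, inv1_mul h, map_one]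

section
variable {K : Type*} [Field K]

/-- the expression at the index `μ` -/
def Rel (N : ℕ) (P : Polynomial K) (x : K⟦X⟧) (A H B C : Polynomial K) (d : K) (μ : ℕ) : K :=
  coeff (μ + 1) ((Polynomial.aeval x A + Polynomial.aeval x H *
      inv1 (Polynomial.aeval x (Polynomial.derivative P))) * rec' (Polynomial.aeval x P)) +
  coeff μ (Polynomial.aeval x B * inv1 (Polynomial.aeval x (Polynomial.derivative P))) /
    ((μ : K) + 1) +
  coeff μ (Polynomial.aeval x C * inv1 (Polynomial.aeval x (Polynomial.derivative P))) /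
    ((μ : K) + 1) ^ 2 +
  d * (coeff (μ + 1) (Polynomial.aeval x P ^ 2 * rec' (Polynomial.aeval x P)) / ((μ : K) - N))

/-- the independence statement -/
def TT (N m : ℕ) (P : Polynomial K) (x : K⟦X⟧) : Prop :=
  ∀ (ι : Type) [Fintype ι] (κ : ι → ℚ), (∀ j, ∀ z : ℤ, κ j ≠ z) →
    (∀ i j, i ≠ j → ∀ z : ℤ, κ i - κ j ≠ z) →
    ∀ (A H B C : ι → Polynomial K) (d : ι → K),
      (∀ j t, m * N ≤ t → (A j).coeff t = 0) →
      (∀ j t, m ≤ t + 1 → (H j).coeff t = 0) →
      (∀ j t, m * N + m ≤ t + 1 → (B j).coeff t = 0) →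
      (∀ j t, m * N ≤ t → (C j).coeff t = 0) →
      (∀ᶠ μ : ℕ in atTop, ∑ j, ((hyp (κ j) μ : ℚ) : K) *
        Rel N P x (A j) (H j) (B j) (C j) (d j) μ = 0) →
      ∀ j, (∃ c, A j = Polynomial.C c * P) ∧ H j = 0 ∧
        (∃ c, B j = Polynomial.C c * Polynomial.derivative P) ∧
        (∃ c, C j = Polynomial.C c * Polynomial.derivative P) ∧ d j = 0

end

section base
variable {K L : Type*} [Field K] [Field L] [Algebra K L]

/-- coefficientwise application of a functional -/
def lamP (lam : L →ₗ[K] K) (A : Polynomial L) : Polynomial K :=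
  ∑ t ∈ A.support, Polynomial.monomial t (lam (A.coeff t))

theorem coeff_lamP (lam : L →ₗ[K] K) (A : Polynomial L) (t : ℕ) :
    (lamP lam A).coeff t = lam (A.coeff t) := by
  rw [lamP, Polynomial.finsetSum_coeff]
  simp only [Polynomial.coeff_monomial]
  rw [Finset.sum_ite_eq']
  split_ifs with h
  · rfl
  · rw [Polynomial.notMem_support_iff.1 h, map_zero]

theorem lam_mul (lam : L →ₗ[K] K) (a : L) (c : K) : lam (a * algebraMap K L c) = lam a * c := by
  rw [mul_comm, ← Algebra.smul_def, map_smul, smul_eq_mul, mul_comm]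

theorem lam_coeff (lam : L →ₗ[K] K) (A : Polynomial L) (x S : K⟦X⟧) (μ : ℕ) :
    lam (coeff μ (Polynomial.aeval (PowerSeries.map (algebraMap K L) x) A *
      PowerSeries.map (algebraMap K L) S)) = coeff μ (Polynomial.aeval x (lamP lam A) * S) := by
  have h1 : Polynomial.aeval (PowerSeries.map (algebraMap K L) x) A *
      PowerSeries.map (algebraMap K L) S =
      ∑ t ∈ A.support, PowerSeries.C (A.coeff t) *
        PowerSeries.map (algebraMap K L) (x ^ t * S) := by
    conv_lhs => rw [A.as_sum_support]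
    rw [map_sum, Finset.sum_mul]
    refine Finset.sum_congr rfl fun t _ => ?_
    rw [Polynomial.aeval_monomial, map_mul, map_pow, PowerSeries.algebraMap_apply]
    simp only [Algebra.algebraMap_self, RingHom.id_apply]
    ring
  have h2 : Polynomial.aeval x (lamP lam A) * S =
      ∑ t ∈ A.support, PowerSeries.C (lam (A.coeff t)) * (x ^ t * S) := by
    rw [lamP, map_sum, Finset.sum_mul]
    refine Finset.sum_congr rfl fun t _ => ?_
    rw [Polynomial.aeval_monomial, PowerSeries.algebraMap_apply]
    simp only [Algebra.algebraMap_self, RingHom.id_apply]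
    ring
  rw [h1, h2, map_sum, map_sum, map_sum]
  refine Finset.sum_congr rfl fun t _ => ?_
  rw [coeff_C_mul, coeff_C_mul, coeff_map, lam_mul]

theorem map_aeval' (P : Polynomial K) (x : K⟦X⟧) : PowerSeries.map (algebraMap K L)
    (Polynomial.aeval x P) = Polynomial.aeval (PowerSeries.map (algebraMap K L) x)
      (P.map (algebraMap K L)) := by
  rw [Polynomial.aeval_def, Polynomial.aeval_def, Polynomial.eval₂_map, Polynomial.hom_eval₂]
  congr 1
  ext r
  simp only [RingHom.comp_apply, PowerSeries.algebraMap_apply, PowerSeries.map_C]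
  rfl

omit [Algebra K L] in
theorem map_derivative' (f : K →+* L) (s : K⟦X⟧) :
    PowerSeries.map f (PowerSeries.derivative K s) =
      PowerSeries.derivative L (PowerSeries.map f s) := by
  ext n
  rw [coeff_map, coeff_derivative, coeff_derivative, coeff_map, map_mul]
  simp

omit [Algebra K L] in
theorem rec'_map (f : K →+* L) {s : K⟦X⟧} (h : coeff 1 s = 1) :
    PowerSeries.map f (rec' s) = rec' (PowerSeries.map f s) := by
  rw [rec', rec', ← map_derivative']
  refine inv1_map f ?_
  rw [coeff_derivative]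
  simp [h]

theorem lam_Rel (lam : L →ₗ[K] K) (N : ℕ) {P : Polynomial K} {x : K⟦X⟧}
    (h0 : coeff 0 (Polynomial.aeval x (Polynomial.derivative P)) = 1)
    (h1 : coeff 1 (Polynomial.aeval x P) = 1)
    (A H B C : Polynomial L) (d : L) (r : ℚ) (μ : ℕ) :
    lam ((r : L) * Rel N (P.map (algebraMap K L)) (PowerSeries.map (algebraMap K L) x)
      A H B C d μ) = (r : K) * Rel N P x (lamP lam A) (lamP lam H) (lamP lam B) (lamP lam C)
        (lam d) μ := by
  have e1 : inv1 (Polynomial.aeval (PowerSeries.map (algebraMap K L) x)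
      (Polynomial.derivative (P.map (algebraMap K L)))) = PowerSeries.map (algebraMap K L)
        (inv1 (Polynomial.aeval x (Polynomial.derivative P))) := by
    rw [inv1_map _ h0, map_aeval', Polynomial.derivative_map]
  have e2 : rec' (Polynomial.aeval (PowerSeries.map (algebraMap K L) x)
      (P.map (algebraMap K L))) = PowerSeries.map (algebraMap K L)
        (rec' (Polynomial.aeval x P)) := by
    rw [rec'_map _ h1, map_aeval']
  have e3 : Polynomial.aeval (PowerSeries.map (algebraMap K L) x)
      (P.map (algebraMap K L)) = PowerSeries.map (algebraMap K L)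
        (Polynomial.aeval x P) := by
    rw [map_aeval']
  have hr : ∀ y : L, lam ((r : L) * y) = (r : K) * lam y := by
    intro y
    have : (r : L) = algebraMap K L (r : K) := by simp
    rw [this, ← Algebra.smul_def, map_smul, smul_eq_mul]
  have hdiv : ∀ (y : L) (c : K), lam (y / algebraMap K L c) = lam y / c := by
    intro y c
    rw [div_eq_mul_inv, ← map_inv₀, lam_mul, div_eq_mul_inv]
  rw [hr]
  congr 1
  rw [Rel, Rel, e1, e2, e3, ← map_pow, ← map_mul, coeff_map]
  have c1 : ((μ : L) + 1) = algebraMap K L ((μ : K) + 1) := by simp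
  have c2 : ((μ : L) - N) = algebraMap K L ((μ : K) - N) := by simp
  rw [c1, c2, ← map_pow, ← map_div₀, map_add, map_add, map_add, hdiv, hdiv, lam_mul, lam_coeff,
    lam_coeff, add_mul, add_mul, map_add, map_add, map_add, mul_assoc, mul_assoc, ← map_mul,
    lam_coeff, lam_coeff]

theorem TT.base {N m : ℕ} {P : Polynomial K} {x : K⟦X⟧}
    (h0 : coeff 0 (Polynomial.aeval x (Polynomial.derivative P)) = 1)
    (h1 : coeff 1 (Polynomial.aeval x P) = 1) (hP1 : P.coeff 1 = 1)
    (h : TT N m P x) : TT N m (P.map (algebraMap K L)) (PowerSeries.map (algebraMap K L) x) := by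
  intro ι _ κ hκ1 hκ2 A H B C d hA hH hB hC hrel j
  have key : ∀ lam : L →ₗ[K] K, (∃ c, lamP lam (A j) = Polynomial.C c * P) ∧
      lamP lam (H j) = 0 ∧
        (∃ c, lamP lam (B j) = Polynomial.C c * Polynomial.derivative P) ∧
        (∃ c, lamP lam (C j) = Polynomial.C c * Polynomial.derivative P) ∧ lam (d j) = 0 := by
    intro lam
    refine h ι κ hκ1 hκ2 (fun j => lamP lam (A j)) (fun j => lamP lam (H j))
      (fun j => lamP lam (B j)) (fun j => lamP lam (C j)) (fun j => lam (d j))
      (fun j t ht => by rw [coeff_lamP, hA j t ht, map_zero])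
      (fun j t ht => by rw [coeff_lamP, hH j t ht, map_zero])
      (fun j t ht => by rw [coeff_lamP, hB j t ht, map_zero])
      (fun j t ht => by rw [coeff_lamP, hC j t ht, map_zero]) ?_ j
    filter_upwards [hrel] with μ hμ
    have := congrArg lam hμ
    rw [map_sum, map_zero] at this
    simp only [lam_Rel lam N h0 h1] at this
    exact this
  have hz : ∀ a : L, (∀ lam : L →ₗ[K] K, lam a = 0) → a = 0 := fun a ha =>
    (Module.forall_dual_apply_eq_zero_iff K a).1 ha
  have hD0 : (Polynomial.derivative P).coeff 0 = 1 := by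
    rw [Polynomial.coeff_derivative]
    simp [hP1]
  have hprop : ∀ (A : Polynomial L) (Q : Polynomial K) (t0 : ℕ), Q.coeff t0 = 1 →
      (∀ lam : L →ₗ[K] K, ∃ c, lamP lam A = Polynomial.C c * Q) →
      ∃ c, A = Polynomial.C c * Q.map (algebraMap K L) := by
    intro A Q t0 ht0 hA
    refine ⟨A.coeff t0, ?_⟩
    ext t
    rw [Polynomial.coeff_C_mul, Polynomial.coeff_map, ← sub_eq_zero]
    refine hz _ fun lam => ?_
    obtain ⟨c, hc⟩ := hA lam
    have e1 := congrArg (fun q => Polynomial.coeff q t) hc
    have e2 := congrArg (fun q => Polynomial.coeff q t0) hc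
    simp only [coeff_lamP, Polynomial.coeff_C_mul, ht0, mul_one] at e1 e2
    rw [map_sub, lam_mul, e1, e2, sub_self]
  refine ⟨hprop _ _ 1 hP1 fun lam => (key lam).1, ?_, ?_, ?_, hz _ fun lam => (key lam).2.2.2.2⟩
  · ext t
    rw [Polynomial.coeff_zero]
    refine hz _ fun lam => ?_
    rw [← coeff_lamP, (key lam).2.1, Polynomial.coeff_zero]
  · rw [Polynomial.derivative_map]
    exact hprop _ _ 0 hD0 fun lam => (key lam).2.2.1
  · rw [Polynomial.derivative_map]
    exact hprop _ _ 0 hD0 fun lam => (key lam).2.2.2.1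

end base

end

end Pool.Agent.helper59.LD
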