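import Pool.Agent.helper59.LD.Sol
import Pool.Agent.helper59.LD.TDef
import Pool.Agent.helper59.LC.Generic

/-!
# The formal Melnikov coefficients of a pull-back centre
-/

open PowerSeries

set_option linter.unusedSectionVars false

namespace Pool.Agent.helper59.LD

open LC

noncomputable section

section emb
variable {A : Type*} [CommRing A]

/-- `W ↦ T^e r` -/
def emb (e : ℤ) : A⟦X⟧ →+* (LaurentPolynomial A)⟦X⟧ :=
  (rescale (LaurentPolynomial.T e : LaurentPolynomial A)).comp
    (PowerSeries.map (LaurentPolynomial.C (R := A)))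

theorem coeff_emb (e : ℤ) (s : A⟦X⟧) (n : ℕ) :
    coeff n (emb e s) = LaurentPolynomial.C (coeff n s) * LaurentPolynomial.T (n * e) := by
  rw [emb, RingHom.comp_apply, coeff_rescale, coeff_map, LaurentPolynomial.T_pow, mul_comm]

theorem X_dvd_emb {e : ℤ} {s : A⟦X⟧} (h : (X : A⟦X⟧) ∣ s) :
    (X : (LaurentPolynomial A)⟦X⟧) ∣ emb e s := by
  rw [X_dvd_iff, ← coeff_zero_eq_constantCoeff_apply] at h ⊢
  rw [coeff_emb, h, map_zero, zero_mul]

/-- coefficient extraction -/
def tc (e : ℤ) (μ : ℕ) (φ : (LaurentPolynomial A)⟦X⟧) : A := (coeff (2 * μ + 1) φ).coeff e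

theorem tc_add (e : ℤ) (μ : ℕ) (φ χ : (LaurentPolynomial A)⟦X⟧) :
    tc e μ (φ + χ) = tc e μ φ + tc e μ χ := by
  rw [tc, map_add]; rfl

theorem tc_zero (e : ℤ) (μ : ℕ) : tc e μ (0 : (LaurentPolynomial A)⟦X⟧) = 0 := by
  rw [tc, map_zero]; rfl

theorem tc_sum (e : ℤ) (μ : ℕ) {ι : Type*} (s : Finset ι) (f : ι → (LaurentPolynomial A)⟦X⟧) :
    tc e μ (∑ i ∈ s, f i) = ∑ i ∈ s, tc e μ (f i) := by
  classical
  induction s using Finset.induction_on with
  | empty => rw [Finset.sum_empty, Finset.sum_empty, tc_zero]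
  | insert a s ha ih => rw [Finset.sum_insert ha, Finset.sum_insert ha, tc_add, ih]

/-- constants -/
def cc (a : A) : (LaurentPolynomial A)⟦X⟧ := C (LaurentPolynomial.C a)

theorem cc_mul (a b : A) : cc (a * b) = cc a * cc b := by rw [cc, map_mul, map_mul]; rfl

theorem emb_C (e : ℤ) (a : A) : emb e (C a) = cc a := by
  rw [emb, RingHom.comp_apply, PowerSeries.map_C]
  ext1 n
  rw [coeff_rescale, cc, coeff_C]
  split_ifs with h
  · rw [h, pow_zero, one_mul]
  · rw [mul_zero]

theorem coeff_C_mul' (a : A) (f : LaurentPolynomial A) (n : ℤ) :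
    (LaurentPolynomial.C a * f).coeff n = a * f.coeff n := by
  rw [← LaurentPolynomial.smul_eq_C_mul]
  rfl

theorem tc_cc_mul (e : ℤ) (μ : ℕ) (a : A) (φ : (LaurentPolynomial A)⟦X⟧) :
    tc e μ (cc a * φ) = a * tc e μ φ := by
  rw [tc, cc, coeff_C_mul, coeff_C_mul', tc]

theorem tc_emb_mul {e : ℤ} (he : e ≠ 0) (μ : ℕ) (a b : A⟦X⟧) :
    tc e μ (emb e a * emb (-e) b) = coeff (μ + 1) a * coeff μ b := by
  have hsumcoeff : ∀ (s : Finset (ℕ × ℕ)) (f : ℕ × ℕ → LaurentPolynomial A) (n : ℤ),
      (∑ i ∈ s, f i).coeff n = ∑ i ∈ s, (f i).coeff n := by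
    intro s f n
    classical
    induction s using Finset.induction_on with
    | empty => rfl
    | insert a s ha ih =>
      rw [Finset.sum_insert ha, Finset.sum_insert ha, ← ih]; rfl
  rw [tc, coeff_mul, hsumcoeff]
  have h1 : ∀ x ∈ Finset.HasAntidiagonal.antidiagonal (2 * μ + 1),
      (coeff x.1 (emb e a) * coeff x.2 (emb (-e) b)).coeff e =
      if x = (μ + 1, μ) then coeff (μ + 1) a * coeff μ b else 0 := by
    rintro ⟨i, j⟩ hij
    rw [Finset.HasAntidiagonal.mem_antidiagonal] at hij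
    simp only at hij ⊢
    rw [coeff_emb, coeff_emb]
    have e1 : LaurentPolynomial.C (coeff i a) * LaurentPolynomial.T (i * e) *
        (LaurentPolynomial.C (coeff j b) * LaurentPolynomial.T (j * -e)) =
        LaurentPolynomial.C (coeff i a * coeff j b) * LaurentPolynomial.T (((i : ℤ) - j) * e) := by
      have : (((i : ℤ) - j) * e) = i * e + j * -e := by ring
      rw [this, LaurentPolynomial.T_add, map_mul]
      ring
    rw [e1, coeff_C_mul', LaurentPolynomial.T_apply]
    by_cases h : i = μ + 1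
    · have hj : j = μ := by omega
      subst h
      subst hj
      have e2 : (((j + 1 : ℕ) : ℤ) - j) * e = e := by push_cast; ring
      rw [if_pos e2, if_pos rfl, mul_one]
    · rw [if_neg, if_neg, mul_zero]
      · intro h2
        rw [Prod.mk.injEq] at h2
        exact h h2.1
      · intro h2
        have h3 : ((i : ℤ) - j) * e = 1 * e := by rw [h2, one_mul]
        have h4 := mul_right_cancel₀ he h3
        omega
  rw [Finset.sum_congr rfl h1, Finset.sum_ite_eq', if_pos]
  rw [Finset.HasAntidiagonal.mem_antidiagonal]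
  simp only
  omega

end emb

section map
variable {A A' : Type*} [CommRing A] [CommRing A']

/-- the induced map of Laurent polynomials -/
def lpm (f : A →+* A') : LaurentPolynomial A →+* LaurentPolynomial A' :=
  AddMonoidAlgebra.mapRingHom ℤ f

theorem lpm_coeff (f : A →+* A') (x : LaurentPolynomial A) (n : ℤ) :
    (lpm f x).coeff n = f (x.coeff n) := AddMonoidAlgebra.coeff_mapRingHom f x n

theorem lpm_C (f : A →+* A') (a : A) :
    lpm f (LaurentPolynomial.C a) = LaurentPolynomial.C (f a) := by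
  ext n
  rw [lpm_coeff, LaurentPolynomial.C_apply, LaurentPolynomial.C_apply]
  split_ifs
  · rfl
  · exact map_zero f

theorem lpm_T (f : A →+* A') (n : ℤ) :
    lpm f (LaurentPolynomial.T n) = LaurentPolynomial.T n := by
  ext m
  rw [lpm_coeff, LaurentPolynomial.T_apply, LaurentPolynomial.T_apply]
  split_ifs
  · exact map_one f
  · exact map_zero f

theorem emb_map (f : A →+* A') (e : ℤ) (s : A⟦X⟧) :
    PowerSeries.map (lpm f) (emb e s) = emb e (PowerSeries.map f s) := by
  ext1 n
  rw [coeff_map, coeff_emb, coeff_emb, map_mul, lpm_C, lpm_T, coeff_map]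

theorem tc_map (f : A →+* A') (e : ℤ) (μ : ℕ) (φ : (LaurentPolynomial A)⟦X⟧) :
    tc e μ (PowerSeries.map (lpm f) φ) = f (tc e μ φ) := by
  rw [tc, coeff_map, lpm_coeff, tc]

theorem cc_map (f : A →+* A') (a : A) : PowerSeries.map (lpm f) (cc a) = cc (f a) := by
  rw [cc, PowerSeries.map_C, lpm_C, cc]

end map

/-! ### the solution and the Melnikov coefficients -/

section sol
variable {A : Type*} [CommRing A] [Algebra ℚ A]

/-- the signs -/
def eI (i : Fin 2) : ℤ := if i = 0 then 1 else -1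

theorem eI_ne (i : Fin 2) : eI i ≠ 0 := by rw [eI]; split_ifs <;> norm_num

theorem eI_add (i : Fin 2) : eI (i + 1) = -eI i := by
  fin_cases i <;> rfl

/-- right hand sides -/
def rhs (g : Fin 2 → Polynomial A) : Fin 2 → (LaurentPolynomial A)⟦X⟧ :=
  fun i => emb (eI i) (psi (g i))

/-- the solution -/
def xy (p : Fin 2 → MvPolynomial (Fin 2) A) (g : Fin 2 → Polynomial A) :
    Fin 2 → (LaurentPolynomial A)⟦X⟧ := sol p (rhs g)

theorem isSol_xy {p : Fin 2 → MvPolynomial (Fin 2) A} (hp : ∀ i, Low (p i))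
    (g : Fin 2 → Polynomial A) : IsSol p (rhs g) (xy p g) :=
  isSol_sol hp fun i => X_dvd_emb (X_dvd_psi (g i))

/-- evaluation at a pair of series -/
def ev2 (x : Fin 2 → (LaurentPolynomial A)⟦X⟧) (P : MvPolynomial (Fin 2) A) :
    (LaurentPolynomial A)⟦X⟧ := MvPolynomial.aeval x P

/-- `P_i = X_i + p_i` -/
def PP (p : Fin 2 → MvPolynomial (Fin 2) A) (i : Fin 2) : MvPolynomial (Fin 2) A :=
  MvPolynomial.X i + p i

/-- the Jacobian -/
def Jac (p : Fin 2 → MvPolynomial (Fin 2) A) : MvPolynomial (Fin 2) A :=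
  MvPolynomial.pderiv 0 (PP p 0) * MvPolynomial.pderiv 1 (PP p 1) -
    MvPolynomial.pderiv 1 (PP p 0) * MvPolynomial.pderiv 0 (PP p 1)

/-- one of the two parts of the Melnikov coefficient -/
def MMp (p : Fin 2 → MvPolynomial (Fin 2) A) (g : Fin 2 → Polynomial A)
    (lam : MvPolynomial (Fin 2) A) (h : Fin 2 → MvPolynomial (Fin 2) A) (i : Fin 2) (μ : ℕ) : A :=
  tc (eI i) μ (emb (eI i) (rec' (psi (g i))) *
    ev2 (xy p g) (∑ j, MvPolynomial.pderiv j (PP p i) * h j) * inv1 (ev2 (xy p g) (Jac p * lam)))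

/-- the Melnikov coefficient -/
def MM (p : Fin 2 → MvPolynomial (Fin 2) A) (g : Fin 2 → Polynomial A)
    (lam : MvPolynomial (Fin 2) A) (h : Fin 2 → MvPolynomial (Fin 2) A) (μ : ℕ) : A :=
  ∑ i, MMp p g lam h i μ

theorem coeff_zero_ev2 {x : Fin 2 → (LaurentPolynomial A)⟦X⟧}
    (hx : ∀ i, (X : (LaurentPolynomial A)⟦X⟧) ∣ x i) (P : MvPolynomial (Fin 2) A) :
    coeff 0 (ev2 x P) = LaurentPolynomial.C (MvPolynomial.constantCoeff P) := by
  rw [ev2]
  induction P using MvPolynomial.induction_on with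
  | C a =>
    rw [MvPolynomial.aeval_C, MvPolynomial.constantCoeff_C, PowerSeries.algebraMap_apply, coeff_C,
      if_pos rfl]
    rfl
  | add p q hp hq => rw [map_add, map_add, hp, hq, map_add, map_add]
  | mul_X p i hp =>
    have h1 := hx i
    rw [X_dvd_iff, ← coeff_zero_eq_constantCoeff_apply] at h1
    rw [map_mul, MvPolynomial.aeval_X, coeff_mul, Finset.Nat.antidiagonal_zero,
      Finset.sum_singleton, h1, mul_zero, map_mul, MvPolynomial.constantCoeff_X, mul_zero, map_zero]

theorem low_pderiv {p : MvPolynomial (Fin 2) A} (hp : Low p) (i : Fin 2) :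
    MvPolynomial.constantCoeff (MvPolynomial.pderiv i p) = 0 := by
  obtain ⟨a, rfl⟩ := hp
  rw [map_sum, map_sum]
  refine Finset.sum_eq_zero fun j _ => ?_
  rw [map_sum, map_sum]
  refine Finset.sum_eq_zero fun k _ => ?_
  rw [Derivation.leibniz, Derivation.leibniz]
  simp

theorem jac_const {p : Fin 2 → MvPolynomial (Fin 2) A} (hp : ∀ i, Low (p i)) :
    MvPolynomial.constantCoeff (Jac p) = 1 := by
  have h : ∀ i j, MvPolynomial.constantCoeff (MvPolynomial.pderiv i (PP p j)) =
      if i = j then 1 else 0 := by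
    intro i j
    rw [PP, map_add, map_add, low_pderiv (hp j), add_zero]
    split_ifs with h
    · rw [h, MvPolynomial.pderiv_X_self, map_one]
    · rw [MvPolynomial.pderiv_X_of_ne (Ne.symm h), map_zero]
  rw [Jac, map_sub, map_mul, map_mul, h, h, h, h]
  simp

theorem coeff_zero_Jlam {p : Fin 2 → MvPolynomial (Fin 2) A} (hp : ∀ i, Low (p i))
    (g : Fin 2 → Polynomial A) {lam : MvPolynomial (Fin 2) A}
    (hl : MvPolynomial.constantCoeff lam = 1) : coeff 0 (ev2 (xy p g) (Jac p * lam)) = 1 := by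
  rw [coeff_zero_ev2 (isSol_xy hp g).1, map_mul, jac_const hp, hl, mul_one, map_one]

end sol

section natural
variable {A A' : Type*} [CommRing A] [Algebra ℚ A] [CommRing A'] [Algebra ℚ A']

theorem xy_map (f : A →+* A') {p : Fin 2 → MvPolynomial (Fin 2) A} (hp : ∀ i, Low (p i))
    (g : Fin 2 → Polynomial A) (i : Fin 2) : PowerSeries.map (lpm f) (xy p g i) =
      xy (fun i => MvPolynomial.map f (p i)) (fun i => (g i).map f) i := by
  have h1 := (isSol_xy hp g).map f (lpm f) (fun r => lpm_C f r)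
  have h2 := isSol_xy (fun i => (hp i).map f) (fun i => (g i).map f)
  have e : (fun i => PowerSeries.map (lpm f) (rhs g i)) = rhs (fun i => (g i).map f) := by
    funext i
    rw [rhs, emb_map, psi_map, rhs]
  rw [e] at h1
  exact congrFun (h1.unique (fun i => (hp i).map f) h2) i

theorem ev2_map (f : A →+* A') {x : Fin 2 → (LaurentPolynomial A)⟦X⟧}
    {x' : Fin 2 → (LaurentPolynomial A')⟦X⟧} (hx : ∀ i, PowerSeries.map (lpm f) (x i) = x' i)
    (P : MvPolynomial (Fin 2) A) :
    PowerSeries.map (lpm f) (ev2 x P) = ev2 x' (MvPolynomial.map f P) := by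
  rw [ev2, ev2]
  induction P using MvPolynomial.induction_on with
  | C a =>
    rw [MvPolynomial.aeval_C, MvPolynomial.map_C, MvPolynomial.aeval_C,
      PowerSeries.algebraMap_apply, PowerSeries.algebraMap_apply, PowerSeries.map_C]
    congr 1
    exact lpm_C f a
  | add p q hp hq => rw [map_add, map_add, hp, hq, map_add, map_add]
  | mul_X p i hp =>
    rw [map_mul, map_mul, hp, MvPolynomial.aeval_X, hx, map_mul, MvPolynomial.map_X, map_mul,
      MvPolynomial.aeval_X]

theorem PP_map (f : A →+* A') (p : Fin 2 → MvPolynomial (Fin 2) A) (i : Fin 2) :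
    MvPolynomial.map f (PP p i) = PP (fun i => MvPolynomial.map f (p i)) i := by
  rw [PP, PP, map_add, MvPolynomial.map_X]

theorem Jac_map (f : A →+* A') (p : Fin 2 → MvPolynomial (Fin 2) A) :
    MvPolynomial.map f (Jac p) = Jac (fun i => MvPolynomial.map f (p i)) := by
  rw [Jac, Jac, map_sub, map_mul, map_mul, ← MvPolynomial.pderiv_map, ← MvPolynomial.pderiv_map,
    ← MvPolynomial.pderiv_map, ← MvPolynomial.pderiv_map, PP_map, PP_map]

/-- **naturality** -/
theorem MMp_map (f : A →+* A') {p : Fin 2 → MvPolynomial (Fin 2) A} (hp : ∀ i, Low (p i))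
    (g : Fin 2 → Polynomial A) {lam : MvPolynomial (Fin 2) A}
    (hl : MvPolynomial.constantCoeff lam = 1) (h : Fin 2 → MvPolynomial (Fin 2) A) (i : Fin 2)
    (μ : ℕ) : f (MMp p g lam h i μ) = MMp (fun i => MvPolynomial.map f (p i))
      (fun i => (g i).map f) (MvPolynomial.map f lam) (fun i => MvPolynomial.map f (h i)) i μ := by
  rw [MMp, MMp, ← tc_map, map_mul, map_mul, emb_map, rec_map, inv1_map _ (coeff_zero_Jlam hp g hl),
    ev2_map f (xy_map f hp g), ev2_map f (xy_map f hp g), map_mul, Jac_map, map_sum]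
  congr 4
  refine Finset.sum_congr rfl fun j _ => ?_
  rw [map_mul, ← MvPolynomial.pderiv_map, PP_map]

theorem MM_map (f : A →+* A') {p : Fin 2 → MvPolynomial (Fin 2) A} (hp : ∀ i, Low (p i))
    (g : Fin 2 → Polynomial A) {lam : MvPolynomial (Fin 2) A}
    (hl : MvPolynomial.constantCoeff lam = 1) (h : Fin 2 → MvPolynomial (Fin 2) A) 
    (μ : ℕ) : f (MM p g lam h μ) = MM (fun i => MvPolynomial.map f (p i))
      (fun i => (g i).map f) (MvPolynomial.map f lam) (fun i => MvPolynomial.map f (h i)) μ := by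
  rw [MM, MM, map_sum]
  exact Finset.sum_congr rfl fun i _ => MMp_map f hp g hl h i μ

end natural

end

end Pool.Agent.helper59.LD
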