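import Pool.Agent.helper59.LD.Form

/-!
# Evaluation of the Melnikov coefficients in special cases
-/

open PowerSeries

set_option linter.unusedSectionVars false

namespace Pool.Agent.helper59.LD

open LC

noncomputable section

variable {A : Type*} [CommRing A] [Algebra ℚ A]

theorem ev2_add (x : Fin 2 → (LaurentPolynomial A)⟦X⟧) (P Q : MvPolynomial (Fin 2) A) :
    ev2 x (P + Q) = ev2 x P + ev2 x Q := map_add _ _ _

theorem ev2_sub (x : Fin 2 → (LaurentPolynomial A)⟦X⟧) (P Q : MvPolynomial (Fin 2) A) :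
    ev2 x (P - Q) = ev2 x P - ev2 x Q := map_sub _ _ _

theorem ev2_mul (x : Fin 2 → (LaurentPolynomial A)⟦X⟧) (P Q : MvPolynomial (Fin 2) A) :
    ev2 x (P * Q) = ev2 x P * ev2 x Q := map_mul _ _ _

theorem ev2_pow (x : Fin 2 → (LaurentPolynomial A)⟦X⟧) (P : MvPolynomial (Fin 2) A) (n : ℕ) :
    ev2 x (P ^ n) = ev2 x P ^ n := map_pow _ _ _

theorem ev2_one (x : Fin 2 → (LaurentPolynomial A)⟦X⟧) : ev2 x 1 = 1 := map_one _

theorem ev2_zero (x : Fin 2 → (LaurentPolynomial A)⟦X⟧) : ev2 x 0 = 0 := map_zero _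

theorem ev2_sum (x : Fin 2 → (LaurentPolynomial A)⟦X⟧) {ι : Type*} (s : Finset ι)
    (f : ι → MvPolynomial (Fin 2) A) : ev2 x (∑ i ∈ s, f i) = ∑ i ∈ s, ev2 x (f i) :=
  map_sum _ _ _

theorem ev2_X (x : Fin 2 → (LaurentPolynomial A)⟦X⟧) (i : Fin 2) :
    ev2 x (MvPolynomial.X i) = x i := MvPolynomial.aeval_X _ _

theorem ev2_C (x : Fin 2 → (LaurentPolynomial A)⟦X⟧) (a : A) :
    ev2 x (MvPolynomial.C a) = cc a := by
  rw [ev2, MvPolynomial.aeval_C, PowerSeries.algebraMap_apply]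
  rfl

theorem MM_add (p : Fin 2 → MvPolynomial (Fin 2) A) (g : Fin 2 → Polynomial A)
    (lam : MvPolynomial (Fin 2) A) (h h' : Fin 2 → MvPolynomial (Fin 2) A) (μ : ℕ) :
    MM p g lam (fun j => h j + h' j) μ = MM p g lam h μ + MM p g lam h' μ := by
  rw [MM, MM, MM, ← Finset.sum_add_distrib]
  refine Finset.sum_congr rfl fun i _ => ?_
  rw [MMp, MMp, MMp, ← tc_add]
  congr 1
  simp only [mul_add, Finset.sum_add_distrib, ev2_add]
  ring

theorem MM_smul (p : Fin 2 → MvPolynomial (Fin 2) A) (g : Fin 2 → Polynomial A)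
    (lam : MvPolynomial (Fin 2) A) (a : A) (h : Fin 2 → MvPolynomial (Fin 2) A) (μ : ℕ) :
    MM p g lam (fun j => MvPolynomial.C a * h j) μ = a * MM p g lam h μ := by
  rw [MM, MM, Finset.mul_sum]
  refine Finset.sum_congr rfl fun i _ => ?_
  rw [MMp, MMp, ← tc_cc_mul]
  congr 1
  have : ∑ j, MvPolynomial.pderiv j (PP p i) * (MvPolynomial.C a * h j) =
      MvPolynomial.C a * ∑ j, MvPolynomial.pderiv j (PP p i) * h j := by
    rw [Finset.mul_sum]
    exact Finset.sum_congr rfl fun j _ => by ring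
  rw [this, ev2_mul, ev2_C]
  ring

/-! ### multiples of the Hamiltonian-type fields -/

/-- the perturbation `λ w (∂_{i+1} P_{i+1}, - ∂_i P_{i+1})` -/
def hF (p : Fin 2 → MvPolynomial (Fin 2) A) (lam : MvPolynomial (Fin 2) A) (i : Fin 2)
    (w : MvPolynomial (Fin 2) A) : Fin 2 → MvPolynomial (Fin 2) A := fun j =>
  if j = i then w * (lam * MvPolynomial.pderiv (i + 1) (PP p (i + 1)))
  else -(w * (lam * MvPolynomial.pderiv i (PP p (i + 1))))

theorem sum_fin2 {M : Type*} [AddCommMonoid M] (f : Fin 2 → M) (i : Fin 2) :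
    ∑ j, f j = f i + f (i + 1) := by
  rw [Fin.sum_univ_two]
  fin_cases i
  · rfl
  · rw [add_comm]; rfl

theorem fin2_ne (i : Fin 2) : i + 1 ≠ i := by fin_cases i <;> decide

theorem fin2_add (i : Fin 2) : i + 1 + 1 = i := by fin_cases i <;> rfl

theorem hF_same (p : Fin 2 → MvPolynomial (Fin 2) A) (lam w : MvPolynomial (Fin 2) A) (i : Fin 2) :
    ∑ j, MvPolynomial.pderiv j (PP p i) * hF p lam i w j = w * (Jac p * lam) := by
  rw [sum_fin2 _ i, hF, if_pos rfl, hF, if_neg (fin2_ne i), Jac]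
  fin_cases i
  · change MvPolynomial.pderiv 0 (PP p 0) * (w * (lam * MvPolynomial.pderiv 1 (PP p 1))) +
      MvPolynomial.pderiv 1 (PP p 0) * -(w * (lam * MvPolynomial.pderiv 0 (PP p 1))) = _
    ring
  · change MvPolynomial.pderiv 1 (PP p 1) * (w * (lam * MvPolynomial.pderiv 0 (PP p 0))) +
      MvPolynomial.pderiv 0 (PP p 1) * -(w * (lam * MvPolynomial.pderiv 1 (PP p 0))) = _
    ring

theorem hF_other (p : Fin 2 → MvPolynomial (Fin 2) A) (lam w : MvPolynomial (Fin 2) A)
    (i : Fin 2) :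
    ∑ j, MvPolynomial.pderiv j (PP p (i + 1)) * hF p lam i w j = 0 := by
  rw [sum_fin2 _ i, hF, if_pos rfl, hF, if_neg (fin2_ne i)]
  ring

theorem MM_hF {p : Fin 2 → MvPolynomial (Fin 2) A} (hp : ∀ i, Low (p i))
    (g : Fin 2 → Polynomial A) {lam : MvPolynomial (Fin 2) A}
    (hl : MvPolynomial.constantCoeff lam = 1) (i : Fin 2) (w : MvPolynomial (Fin 2) A) (μ : ℕ) :
    MM p g lam (hF p lam i w) μ =
      tc (eI i) μ (emb (eI i) (rec' (psi (g i))) * ev2 (xy p g) w) := by
  rw [MM, sum_fin2 _ i, MMp, MMp, hF_same, hF_other, ev2_zero, mul_zero, zero_mul, tc_zero,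
    add_zero, ev2_mul]
  congr 1
  have := inv1_mul (coeff_zero_Jlam hp g hl)
  linear_combination (emb (eI i) (rec' (psi (g i))) * ev2 (xy p g) w) * this

/-! ### product points -/

/-- `p_i = X_i² r_i(X_i)` -/
def pR (r : Fin 2 → Polynomial A) (i : Fin 2) : MvPolynomial (Fin 2) A :=
  Polynomial.aeval (MvPolynomial.X i) (r i) * MvPolynomial.X i ^ 2

theorem low_pR (r : Fin 2 → Polynomial A) (i : Fin 2) : Low (pR r i) := low_mul_sq _ _

theorem PP_pR (r : Fin 2 → Polynomial A) (i : Fin 2) :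
    PP (pR r) i = Polynomial.aeval (MvPolynomial.X i) (FF (r i)) := by
  rw [PP, pR, FF, map_add, map_mul, map_pow, Polynomial.aeval_X]
  ring

theorem ev2_poly (x : Fin 2 → (LaurentPolynomial A)⟦X⟧) (i : Fin 2) (Q : Polynomial A)
    {s : A⟦X⟧} {e : ℤ} (hx : x i = emb e s) :
    ev2 x (Polynomial.aeval (MvPolynomial.X i) Q) = emb e (Polynomial.aeval s Q) := by
  induction Q using Polynomial.induction_on' with
  | add p q hp hq => rw [map_add, ev2_add, hp, hq, map_add, map_add]
  | monomial n a =>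
    rw [Polynomial.aeval_monomial, ev2_mul, ev2_pow, ev2_X, hx, MvPolynomial.algebraMap_eq, ev2_C,
      Polynomial.aeval_monomial, map_mul, map_pow, PowerSeries.algebraMap_apply,
      Algebra.algebraMap_self, RingHom.id_apply, emb_C]

theorem pderiv_poly (i j : Fin 2) (Q : Polynomial A) :
    MvPolynomial.pderiv j (Polynomial.aeval (MvPolynomial.X i : MvPolynomial (Fin 2) A) Q) =
      if j = i then Polynomial.aeval (MvPolynomial.X i) (Polynomial.derivative Q) else 0 := by
  rw [Derivation.map_aeval]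
  split_ifs with h
  · rw [h, MvPolynomial.pderiv_X_self, smul_eq_mul, mul_one]
  · rw [MvPolynomial.pderiv_X_of_ne (Ne.symm h), smul_zero]

/-- solutions in one variable -/
def IsX1 (r : Fin 2 → Polynomial A) (g : Fin 2 → Polynomial A) (x : Fin 2 → A⟦X⟧) : Prop :=
  ∀ i, (X : A⟦X⟧) ∣ x i ∧ Polynomial.aeval (x i) (FF (r i)) = psi (g i)

theorem xy_pR {r g : Fin 2 → Polynomial A} {x : Fin 2 → A⟦X⟧} (hx : IsX1 r g x) (i : Fin 2) :
    xy (pR r) g i = emb (eI i) (x i) := by
  have h : IsSol (pR r) (rhs g) fun i => emb (eI i) (x i) := by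
    refine ⟨fun i => X_dvd_emb (hx i).1, fun i => ?_⟩
    have e1 := ev2_poly (fun i => emb (eI i) (x i)) i (FF (r i)) rfl
    rw [← PP_pR, PP, ev2_add, ev2_X, (hx i).2] at e1
    exact e1
  exact congrFun ((isSol_xy (low_pR r) g).unique (low_pR r) h) i

theorem coeff_zero_R {r g : Fin 2 → Polynomial A} {x : Fin 2 → A⟦X⟧} (hx : IsX1 r g x)
    (i : Fin 2) :
    coeff 0 (Polynomial.aeval (x i) (Polynomial.derivative (FF (r i)))) = 1 := by
  obtain ⟨c, hc⟩ := (hx i).1
  have e : Polynomial.derivative (FF (r i)) = 1 + Polynomial.X * (2 * r i + Polynomial.X *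
      Polynomial.derivative (r i)) := by
    rw [FF, Polynomial.derivative_add, Polynomial.derivative_mul, Polynomial.derivative_X,
      Polynomial.derivative_X_pow]
    push_cast
    simp only [map_ofNat]
    ring
  rw [e, map_add, map_one, map_mul, Polynomial.aeval_X, hc, map_add, mul_assoc,
    coeff_zero_X_mul]
  simp

theorem Jac_pR (r : Fin 2 → Polynomial A) (i : Fin 2) : Jac (pR r) =
    Polynomial.aeval (MvPolynomial.X i) (Polynomial.derivative (FF (r i))) *
      Polynomial.aeval (MvPolynomial.X (i + 1)) (Polynomial.derivative (FF (r (i + 1)))) := by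
  rw [Jac, PP_pR, PP_pR, pderiv_poly, pderiv_poly, pderiv_poly, pderiv_poly, if_pos rfl,
    if_pos rfl, if_neg (by decide), if_neg (by decide)]
  fin_cases i
  · change _ = Polynomial.aeval (MvPolynomial.X 0) (Polynomial.derivative (FF (r 0))) *
      Polynomial.aeval (MvPolynomial.X 1) (Polynomial.derivative (FF (r 1)))
    ring
  · change _ = Polynomial.aeval (MvPolynomial.X 1) (Polynomial.derivative (FF (r 1))) *
      Polynomial.aeval (MvPolynomial.X 0) (Polynomial.derivative (FF (r 0)))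
    ring

/-- the perturbation `a(X_i) b(X_{i+1})` in the component `i` -/
def hP (i : Fin 2) (a b : Polynomial A) : Fin 2 → MvPolynomial (Fin 2) A := fun j =>
  if j = i then Polynomial.aeval (MvPolynomial.X i) a * Polynomial.aeval (MvPolynomial.X (i + 1)) b
  else 0

/-- the product formula -/
theorem MM_hP {r g : Fin 2 → Polynomial A} {x : Fin 2 → A⟦X⟧} (hx : IsX1 r g x) (i : Fin 2)
    (a b : Polynomial A) (μ : ℕ) :
    MM (pR r) g 1 (hP i a b) μ =
      coeff (μ + 1) (Polynomial.aeval (x i) a * rec' (psi (g i))) *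
        coeff μ (Polynomial.aeval (x (i + 1)) b *
          inv1 (Polynomial.aeval (x (i + 1)) (Polynomial.derivative (FF (r (i + 1)))))) := by
  have hxy := xy_pR hx
  rw [MM, sum_fin2 _ i, MMp, MMp]
  have h1 : ∑ j, MvPolynomial.pderiv j (PP (pR r) i) * hP i a b j =
      Polynomial.aeval (MvPolynomial.X i) (Polynomial.derivative (FF (r i))) *
      (Polynomial.aeval (MvPolynomial.X i) a *
        Polynomial.aeval (MvPolynomial.X (i + 1)) b) := by
    rw [sum_fin2 _ i, hP, if_pos rfl, hP, if_neg (fin2_ne i), mul_zero, add_zero, PP_pR,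
      pderiv_poly, if_pos rfl]
  have h2 : ∑ j, MvPolynomial.pderiv j (PP (pR r) (i + 1)) * hP i a b j = 0 := by
    rw [sum_fin2 _ i, hP, if_pos rfl, hP, if_neg (fin2_ne i), mul_zero, add_zero, PP_pR,
      pderiv_poly, if_neg (Ne.symm (fin2_ne i)), zero_mul]
  rw [h1, h2, ev2_zero, mul_zero, zero_mul, tc_zero, add_zero, mul_one, Jac_pR r i]
  simp only [ev2_mul, ev2_poly _ _ _ (hxy i), ev2_poly _ _ _ (hxy (i + 1)), eI_add]
  set Ri := Polynomial.aeval (x i) (Polynomial.derivative (FF (r i))) with hRi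
  set Rj := Polynomial.aeval (x (i + 1)) (Polynomial.derivative (FF (r (i + 1)))) with hRj
  have hRi0 : coeff 0 Ri = 1 := coeff_zero_R hx i
  have hRj0 : coeff 0 Rj = 1 := coeff_zero_R hx (i + 1)
  have hinv : inv1 (emb (eI i) Ri * emb (-eI i) Rj) =
      emb (eI i) (inv1 Ri) * emb (-eI i) (inv1 Rj) := by
    symm
    apply inv1_unique
    · rw [coeff_mul, Finset.Nat.antidiagonal_zero, Finset.sum_singleton, coeff_emb, coeff_emb,
        hRi0, hRj0]
      simp
    · have e1 : emb (eI i) Ri * emb (eI i) (inv1 Ri) = 1 := by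
        rw [← map_mul, inv1_mul hRi0, map_one]
      have e2 : emb (-eI i) Rj * emb (-eI i) (inv1 Rj) = 1 := by
        rw [← map_mul, inv1_mul hRj0, map_one]
      linear_combination (emb (-eI i) Rj * emb (-eI i) (inv1 Rj)) * e1 + e2
  rw [hinv, ← tc_emb_mul (eI_ne i)]
  congr 1
  rw [map_mul, map_mul]
  have e1 : emb (eI i) Ri * emb (eI i) (inv1 Ri) = 1 := by
    rw [← map_mul, inv1_mul hRi0, map_one]
  linear_combination (emb (eI i) (rec' (psi (g i))) * emb (eI i) (Polynomial.aeval (x i) a) *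
    emb (-eI i) (Polynomial.aeval (x (i + 1)) b) * emb (-eI i) (inv1 Rj)) * e1

end

end Pool.Agent.helper59.LD
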