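import Mathlib

/-!
# Growth of the sequences `(κ)_m / m!`
-/

open Filter Topology

namespace Pool.Agent.helper59.LD

noncomputable section

/-- `(κ)_m / m!` -/
def hyp (κ : ℚ) (m : ℕ) : ℚ := ∏ i ∈ Finset.range m, ((κ + i) / (i + 1))

theorem hyp_zero (κ : ℚ) : hyp κ 0 = 1 := by simp [hyp]

theorem hyp_succ (κ : ℚ) (m : ℕ) : hyp κ (m + 1) = hyp κ m * ((κ + m) / (m + 1)) := by
  rw [hyp, Finset.prod_range_succ, ← hyp]

/-- `(m + 1) h(m+1) = (κ + m) h(m)` -/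
theorem hyp_rec (κ : ℚ) (m : ℕ) : ((m : ℚ) + 1) * hyp κ (m + 1) = (κ + m) * hyp κ m := by
  have : (m : ℚ) + 1 ≠ 0 := by positivity
  rw [hyp_succ]
  field_simp

/-- `(κ - 1)_{m+1} / (m+1)! = (κ - 1) (κ)_m / (m! (m+1))` -/
theorem hyp_sub_one (κ : ℚ) (m : ℕ) :
    hyp (κ - 1) (m + 1) = (κ - 1) / (m + 1) * hyp κ m := by
  induction m with
  | zero => simp [hyp]
  | succ m ih =>
    rw [hyp_succ, ih, hyp_succ]
    have : (m : ℚ) + 1 ≠ 0 := by positivity
    have : (m : ℚ) + 1 + 1 ≠ 0 := by positivity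
    push_cast
    field_simp
    ring

/-- `h(κ, m+1) - h(κ, m) = h(κ - 1, m + 1)` -/
theorem hyp_diff (κ : ℚ) (m : ℕ) : hyp κ (m + 1) - hyp κ m = hyp (κ - 1) (m + 1) := by
  rw [hyp_sub_one, hyp_succ]
  have : (m : ℚ) + 1 ≠ 0 := by positivity
  field_simp
  ring

theorem hyp_ne_zero {κ : ℚ} (h : ∀ i : ℕ, κ ≠ -i) (m : ℕ) : hyp κ m ≠ 0 := by
  rw [hyp]
  refine Finset.prod_ne_zero_iff.2 fun i _ => ?_
  have h1 : κ + i ≠ 0 := fun h2 => h i (by linarith)
  have h2 : (i : ℚ) + 1 ≠ 0 := by positivity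
  exact div_ne_zero h1 h2

theorem prod_range_add_one (n : ℕ) : ∏ i ∈ Finset.range n, ((i : ℝ) + 1) = (n.factorial : ℝ) := by
  induction n with
  | zero => simp
  | succ n ih => rw [Finset.prod_range_succ, ih, Nat.factorial_succ]; push_cast; ring

theorem hyp_gamma {κ : ℚ} (h : ∀ i : ℕ, κ ≠ -i) {n : ℕ} :
    ((hyp κ (n + 1) : ℚ) : ℝ) * Real.GammaSeq κ n = (n : ℝ) ^ (κ : ℝ) / ((n : ℝ) + 1) := by
  have h1 : ∏ j ∈ Finset.range (n + 1), ((κ : ℝ) + j) ≠ 0 := by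
    refine Finset.prod_ne_zero_iff.2 fun i _ h2 => h i ?_
    have : ((κ : ℚ) : ℝ) = ((-(i : ℚ) : ℚ) : ℝ) := by push_cast; linarith
    exact_mod_cast this
  have h2 : ((hyp κ (n + 1) : ℚ) : ℝ) =
      (∏ j ∈ Finset.range (n + 1), ((κ : ℝ) + j)) / ((n + 1).factorial : ℝ) := by
    rw [hyp, ← prod_range_add_one, ← Finset.prod_div_distrib]
    push_cast
    rfl
  rw [h2, Real.GammaSeq]
  have h3 : ((n + 1).factorial : ℝ) = ((n : ℝ) + 1) * n.factorial := by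
    rw [Nat.factorial_succ]; push_cast; ring
  have h4 : (n.factorial : ℝ) ≠ 0 := by positivity
  have h5 : (n : ℝ) + 1 ≠ 0 := by positivity
  rw [h3]
  field_simp

/-- `h(κ, n) ~ n^(κ-1) / Γ(κ)` -/
theorem hyp_tendsto {κ : ℚ} (h : ∀ i : ℕ, κ ≠ -i) :
    Tendsto (fun n : ℕ => ((hyp κ n : ℚ) : ℝ) / (n : ℝ) ^ ((κ : ℝ) - 1)) atTop
      (𝓝 (Real.Gamma κ)⁻¹) := by
  have hG : Real.Gamma κ ≠ 0 := by
    refine Real.Gamma_ne_zero fun i hi => h i ?_
    have : ((κ : ℚ) : ℝ) = ((-(i : ℚ) : ℚ) : ℝ) := by push_cast; exact hi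
    exact_mod_cast this
  have h1 := (Real.GammaSeq_tendsto_Gamma (κ : ℝ)).inv₀ hG
  have h2 : Tendsto (fun n : ℕ => ((n : ℝ) / ((n : ℝ) + 1)) ^ (κ : ℝ)) atTop (𝓝 1) := by
    have h3 : Tendsto (fun n : ℕ => ((n : ℝ) / ((n : ℝ) + 1))) atTop (𝓝 1) :=
      tendsto_natCast_div_add_atTop 1
    have h4 := h3.rpow_const (p := (κ : ℝ)) (Or.inl one_ne_zero)
    rwa [Real.one_rpow] at h4
  have h3 := h2.mul h1
  rw [one_mul] at h3
  rw [← tendsto_add_atTop_iff_nat 1]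
  refine h3.congr' ?_
  have h6 : ∀ᶠ n : ℕ in atTop, Real.GammaSeq κ n ≠ 0 :=
    (Real.GammaSeq_tendsto_Gamma (κ : ℝ)).eventually_ne hG
  filter_upwards [eventually_gt_atTop 0, h6] with n hn hGn
  have hn' : (0 : ℝ) < n := by exact_mod_cast hn
  have h4 := hyp_gamma h (n := n)
  have h5 : ((hyp κ (n + 1) : ℚ) : ℝ) = (n : ℝ) ^ (κ : ℝ) / ((n : ℝ) + 1) *
      (Real.GammaSeq κ n)⁻¹ := by
    rw [← h4]
    field_simp
  rw [h5]
  push_cast
  rw [Real.rpow_sub (by positivity), Real.rpow_one, Real.div_rpow hn'.le (by positivity)]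
  have : ((n : ℝ) + 1) ^ (κ : ℝ) ≠ 0 := (Real.rpow_pos_of_pos (by positivity) _).ne'
  have : (n : ℝ) + 1 ≠ 0 := by positivity
  field_simp

/-- `s(n) ~ c n^E` with `c ≠ 0` -/
def Asy (s : ℕ → ℝ) (E : ℝ) : Prop :=
  ∃ c : ℝ, c ≠ 0 ∧ Tendsto (fun n : ℕ => s n / (n : ℝ) ^ E) atTop (𝓝 c)

theorem Asy.mul {s t : ℕ → ℝ} {E F : ℝ} (h : Asy s E) (h' : Asy t F) :
    Asy (fun n => s n * t n) (E + F) := by
  obtain ⟨c, hc, h⟩ := h
  obtain ⟨d, hd, h'⟩ := h'
  refine ⟨c * d, mul_ne_zero hc hd, (h.mul h').congr' ?_⟩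
  filter_upwards [eventually_gt_atTop 0] with n hn
  have hn' : (0 : ℝ) < n := by exact_mod_cast hn
  rw [Real.rpow_add hn', mul_div_mul_comm]

theorem asy_pow (i : ℕ) : Asy (fun n => (n : ℝ) ^ i) i := by
  refine ⟨1, one_ne_zero, tendsto_const_nhds.congr' ?_⟩
  filter_upwards [eventually_gt_atTop 0] with n hn
  have hn' : (0 : ℝ) < n := by exact_mod_cast hn
  rw [Real.rpow_natCast, div_self (by positivity)]

theorem asy_hyp {κ : ℚ} (h : ∀ i : ℕ, κ ≠ -i) : Asy (fun n => ((hyp κ n : ℚ) : ℝ)) (κ - 1) := by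
  refine ⟨_, inv_ne_zero ?_, hyp_tendsto h⟩
  refine Real.Gamma_ne_zero fun i hi => h i ?_
  have : ((κ : ℚ) : ℝ) = ((-(i : ℚ) : ℚ) : ℝ) := by push_cast; exact hi
  exact_mod_cast this

theorem Asy.shift {s : ℕ → ℝ} {E : ℝ} (h : Asy s E) : Asy (fun n => s (n + 1)) E := by
  obtain ⟨c, hc, h⟩ := h
  refine ⟨c, hc, ?_⟩
  have h1 := (tendsto_add_atTop_iff_nat 1).2 h
  have h3 : Tendsto (fun n : ℕ => (((n + 1 : ℕ) : ℝ) / (n : ℝ)) ^ E) atTop (𝓝 1) := by
    have h3 : Tendsto (fun n : ℕ => ((n : ℝ) / ((n : ℝ) + 1))) atTop (𝓝 1) :=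
      tendsto_natCast_div_add_atTop 1
    have h4 := (h3.inv₀ one_ne_zero).rpow_const (p := E) (Or.inl (by simp))
    rw [inv_one, Real.one_rpow] at h4
    refine h4.congr fun n => ?_
    rw [inv_div]
    push_cast
    rfl
  have h4 := h1.mul h3
  rw [mul_one] at h4
  refine h4.congr' ?_
  filter_upwards [eventually_gt_atTop 0] with n hn
  have hn' : (0 : ℝ) < n := by exact_mod_cast hn
  have hn1 : (0 : ℝ) < ((n + 1 : ℕ) : ℝ) := by positivity
  rw [Real.div_rpow hn1.le hn'.le]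
  have : ((n + 1 : ℕ) : ℝ) ^ E ≠ 0 := (Real.rpow_pos_of_pos hn1 _).ne'
  have : (n : ℝ) ^ E ≠ 0 := (Real.rpow_pos_of_pos hn' _).ne'
  field_simp

/-- independence of sequences with distinct growth -/
theorem asy_indep_real {α : Type*} [Fintype α] {s : α → ℕ → ℝ} {E : α → ℝ}
    (hs : ∀ x, Asy (s x) (E x)) (hE : Function.Injective E) {S : Set ℕ} (hS : S.Infinite)
    {c : α → ℝ} (h : ∀ n ∈ S, ∑ x, c x * s x n = 0) : ∀ x, c x = 0 := by
  classical
  by_contra hne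
  push Not at hne
  obtain ⟨x0, hx0⟩ := hne
  have hne : (Finset.univ.filter fun x => c x ≠ 0).Nonempty := ⟨x0, by simp [hx0]⟩
  obtain ⟨x1, hx1, hmax⟩ := Finset.exists_max_image _ E hne
  rw [Finset.mem_filter] at hx1
  choose C hC hT using hs
  have hlim : Tendsto (fun n : ℕ => ∑ x, c x * s x n / (n : ℝ) ^ E x1) atTop
      (𝓝 (∑ x, if x = x1 then c x1 * C x1 else 0)) := by
    refine tendsto_finsetSum _ fun x _ => ?_
    split_ifs with hx
    · subst hx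
      refine ((hT x).const_mul (c x)).congr fun n => ?_
      rw [mul_div_assoc]
    · rcases eq_or_ne (c x) 0 with h0 | h0
      · simp [h0]
      · have hlt : E x < E x1 := lt_of_le_of_ne (hmax x (by simp [h0])) fun he => hx (hE he)
        have h1 : Tendsto (fun n : ℕ => (n : ℝ) ^ (-(E x1 - E x))) atTop (𝓝 0) :=
          (tendsto_rpow_neg_atTop (by linarith)).comp tendsto_natCast_atTop_atTop
        have h2 := ((hT x).const_mul (c x)).mul h1
        rw [mul_zero] at h2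
        refine h2.congr' ?_
        filter_upwards [eventually_gt_atTop 0] with n hn
        have hn' : (0 : ℝ) < n := by exact_mod_cast hn
        have e : (n : ℝ) ^ (-(E x1 - E x)) = (n : ℝ) ^ E x / (n : ℝ) ^ E x1 := by
          rw [← Real.rpow_sub hn']
          congr 1
          ring
        rw [e]
        have : (n : ℝ) ^ E x ≠ 0 := (Real.rpow_pos_of_pos hn' _).ne'
        have : (n : ℝ) ^ E x1 ≠ 0 := (Real.rpow_pos_of_pos hn' _).ne'
        field_simp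
  rw [Finset.sum_ite_eq' Finset.univ x1] at hlim
  simp only [Finset.mem_univ, if_true] at hlim
  have hfreq : ∃ᶠ n : ℕ in atTop, ∑ x, c x * s x n / (n : ℝ) ^ E x1 = 0 := by
    refine (Nat.frequently_atTop_iff_infinite.2 hS).mono fun n hn => ?_
    rw [← Finset.sum_div, h n hn, zero_div]
  have h3 : c x1 * C x1 = 0 := by
    by_contra hne2
    have h4 := hlim.eventually_ne hne2
    exact hfreq (h4.mono fun n hn => hn)
  exact (mul_ne_zero hx1.2 (hC x1)) h3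

theorem asy_indep {k : Type*} [Field k] [CharZero k] {α : Type*} [Fintype α] {s : α → ℕ → ℚ}
    {E : α → ℝ}
    (hs : ∀ x, Asy (fun n => ((s x n : ℚ) : ℝ)) (E x)) (hE : Function.Injective E) {S : Set ℕ}
    (hS : S.Infinite)
    {c : α → k} (h : ∀ n ∈ S, ∑ x, c x * (s x n : k) = 0) : ∀ x, c x = 0 := by
  intro x
  rw [← Module.forall_dual_apply_eq_zero_iff ℚ]
  intro lam
  have h1 : ∀ n ∈ S, ∑ x, ((lam (c x) : ℚ) : ℝ) * ((s x n : ℚ) : ℝ) = 0 := by
    intro n hn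
    have h2 := congrArg lam (h n hn)
    rw [map_sum, map_zero] at h2
    have h3 : ∀ x, lam (c x * (s x n : k)) = lam (c x) * s x n := by
      intro x
      have : c x * (s x n : k) = (s x n : ℚ) • c x := by
        rw [Algebra.smul_def, mul_comm]
        rfl
      rw [this, map_smul, smul_eq_mul, mul_comm]
    simp only [h3] at h2
    exact_mod_cast h2
  have := asy_indep_real hs hE hS h1 x
  exact_mod_cast this

end

end Pool.Agent.helper59.LD
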