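import Pool.Agent.helper59.LC.Trans

/-!
# Time change and transfer of the periodic orbits
-/

open Set Filter Topology

set_option linter.unusedSectionVars false

namespace Pool.Agent.helper59.LD

open LC

noncomputable section

/-- time change of a periodic solution -/
theorem time_change {w : ℝ → ℂ} {F : ℂ → ℂ} {τ : ℂ → ℝ} {T : ℝ} (hT : 0 < T)
    (hw : ∀ t, HasDerivAt w (F (w t)) t) (hper : ∀ t, w (t + T) = w t)
    (hτ : Continuous fun t => τ (w t)) (hpos : ∀ t, 0 < τ (w t)) :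
    ∃ χ : ℝ → ℝ, Function.Surjective χ ∧
      (∀ t, HasDerivAt (fun t => w (χ t)) (τ (w (χ t)) * F (w (χ t))) t) ∧
      ∃ T' : ℝ, 0 < T' ∧ ∀ t, w (χ (t + T')) = w (χ t) := by
  set p : ℝ → ℝ := fun t => (τ (w t))⁻¹ with hp
  have hpc : Continuous p := hτ.inv₀ fun t => (hpos t).ne'
  have hpper : Function.Periodic p T := by
    intro t
    rw [hp]
    simp only
    rw [hper]
  -- a lower bound
  obtain ⟨B, hB⟩ : ∃ B, ∀ t, τ (w t) ≤ B := by
    obtain ⟨B, hB⟩ := (isCompact_Icc (a := (0 : ℝ)) (b := T)).exists_bound_of_continuousOn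
      hτ.continuousOn
    refine ⟨B, fun t => ?_⟩
    have hP : Function.Periodic (fun t => τ (w t)) T := fun t => by simp only; rw [hper]
    obtain ⟨t', ht', he⟩ := hP.exists_mem_Ico₀ hT t
    rw [he]
    exact (le_abs_self _).trans (hB t' (Ico_subset_Icc_self ht'))
  have hB0 : 0 < B := (hpos 0).trans_le (hB 0)
  have hlb : ∀ t, B⁻¹ ≤ p t := fun t => inv_anti₀ (hpos t) (hB t)
  set φ : ℝ → ℝ := fun t => ∫ s in (0 : ℝ)..t, p s with hφ
  have hφd : ∀ t, HasDerivAt φ (p t) t := fun t =>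
    intervalIntegral.integral_hasDerivAt_right (hpc.intervalIntegrable _ _)
      (hpc.stronglyMeasurableAtFilter _ _) hpc.continuousAt
  obtain ⟨χ, h1, h2, h3⟩ := reparam (inv_pos.2 hB0) hφd hlb
  have hφper : ∀ t, φ (t + T) = φ t + φ T := by
    intro t
    change (∫ s in (0 : ℝ)..(t + T), p s) = (∫ s in (0 : ℝ)..t, p s) + ∫ s in (0 : ℝ)..T, p s
    rw [← intervalIntegral.integral_add_adjacent_intervals (b := t)
      (hpc.intervalIntegrable _ _) (hpc.intervalIntegrable _ _),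
      hpper.intervalIntegral_add_eq t 0, zero_add]
  have hT' : 0 < φ T := by
    have hmono : StrictMono φ := strictMono_of_deriv_pos fun t => by
      rw [(hφd t).deriv]
      exact (inv_pos.2 hB0).trans_le (hlb t)
    have := hmono hT
    have h0 : φ 0 = 0 := by rw [hφ]; simp
    rwa [h0] at this
  refine ⟨χ, fun t => ⟨φ t, h1 t⟩, fun t => ?_, φ T, hT', fun t => ?_⟩
  · have h4 := (hw (χ t)).scomp t (h3 t)
    refine h4.congr_deriv ?_
    rw [hp]
    simp only [inv_inv, Complex.real_smul]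
  · have h4 : χ (t + φ T) = χ t + T := by
      have h5 := h1 (χ t + T)
      rw [hφper, h2] at h5
      exact h5
    rw [h4, hper]

/-- **transfer** -/
theorem cycles_of_zeros {K : ℕ} {r : ℝ} {G : ℂ → ℂ}
    (hGd : ContDiffOn ℝ 1 G {w | 0 < ‖w‖ ∧ ‖w‖ < r}) {ra : Fin K → ℝ} (hramono : StrictMono ra)
    (hra0 : ∀ j, 0 < ra j) (hrar : ∀ j, ra j < r)
    (hz : ∀ j, ∫ θ in (0 : ℝ)..(2 * Real.pi), AA G θ (ra j) = 0)
    (hz' : ∀ j, ∫ θ in (0 : ℝ)..(2 * Real.pi), deriv (AA G θ) (ra j) ≠ 0)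
    {τ : ℂ → ℝ} (hτc : ContinuousOn τ (Metric.ball 0 r)) (hτ : ∀ w ∈ Metric.ball (0 : ℂ) r, 0 < τ w)
    {e : OpenPartialHomeomorph ℂ ℂ} (hes : Metric.ball 0 r ⊆ e.source) {Z : ℝ → ℂ → ℂ}
    (hfw : ∀ ε : ℝ, ∀ w : ℝ → ℂ, (∀ t, ‖w t‖ < r) →
      (∀ t, HasDerivAt w (τ (w t) * VF G ε (w t)) t) →
      ∀ t, HasDerivAt (fun t => e (w t)) (Z ε (e (w t))) t)
    (hbw : ∀ ε : ℝ, ∀ c w : ℝ → ℂ, (∀ t, ‖w t‖ < r) → (∀ t, c t = e (w t)) →
      (∀ t, HasDerivAt c (Z ε (c t)) t) → ∀ t, HasDerivAt w (τ (w t) * VF G ε (w t)) t) :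
    ∃ ε₀ : ℝ, 0 < ε₀ ∧ ∀ ε, 0 < ε → ε < ε₀ →
      ∃ c : Fin K → ℝ → ℂ, (Function.Injective fun j => range (c j)) ∧
        ∀ j, IsPer (Z ε) (c j) ∧ (∃ t, c j t ≠ c j 0) ∧ range (c j) ⊆ e '' Metric.ball 0 r ∧
          ∃ O : Set ℂ, IsOpen O ∧ range (c j) ⊆ O ∧ ∀ c', IsPer (Z ε) c' →
            range c' ⊆ O → range c' = range (c j) := by
  have hann : ∀ j, ∃ η₁ : ℝ, 0 < η₁ ∧ 0 < ra j - η₁ ∧ ra j + η₁ < r ∧
      ∀ η, 0 < η → η ≤ η₁ → ∃ ε₀ > 0, ∀ ε, 0 < ε → ε < ε₀ →
        ∃ T : ℝ, 0 < T ∧ ∃ w : ℝ → ℂ, (∀ t, HasDerivAt w (VF G ε (w t)) t) ∧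
          (∀ t, w (t + T) = w t) ∧ (∀ t, |‖w t‖ - ra j| < η) ∧ (∃ t, w t ≠ w 0) ∧
          ∀ T' : ℝ, 0 < T' → ∀ w' : ℝ → ℂ, (∀ t, HasDerivAt w' (VF G ε (w' t)) t) →
            (∀ t, w' (t + T') = w' t) → (∀ t, |‖w' t‖ - ra j| < η) → range w' = range w := by
    intro j
    exact annulus le_rfl (hra0 j) (hrar j) hGd (hz j) (hz' j)
  choose η₁ hη₁ hη₁a hη₁b hη using hann
  -- a common width
  have hex : ∃ η > 0, (∀ j, η ≤ η₁ j) ∧ ∀ i j, i < j → 2 * η < ra j - ra i := by
    have hfin : ∀ (s : Finset (Fin K)), ∃ η > 0, ∀ j ∈ s, η ≤ η₁ j := by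
      intro s
      classical
      induction s using Finset.induction_on with
      | empty => exact ⟨1, one_pos, fun j hj => absurd hj (Finset.notMem_empty j)⟩
      | insert a s ha ih =>
        obtain ⟨η, hη0, hη⟩ := ih
        refine ⟨min η (η₁ a), lt_min hη0 (hη₁ a), fun j hj => ?_⟩
        rcases Finset.mem_insert.1 hj with rfl | hj
        · exact min_le_right _ _
        · exact (min_le_left _ _).trans (hη j hj)
    have hfin2 : ∀ (s : Finset (Fin K × Fin K)),
        ∃ η > 0, ∀ x ∈ s, x.1 < x.2 → 2 * η < ra x.2 - ra x.1 := by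
      intro s
      classical
      induction s using Finset.induction_on with
      | empty => exact ⟨1, one_pos, fun j hj => absurd hj (Finset.notMem_empty j)⟩
      | insert a s ha ih =>
        obtain ⟨η, hη0, hη⟩ := ih
        by_cases hlt : a.1 < a.2
        · have hpos : 0 < ra a.2 - ra a.1 := sub_pos.2 (hramono hlt)
          refine ⟨min η ((ra a.2 - ra a.1) / 4), lt_min hη0 (by positivity), fun x hx hx2 => ?_⟩
          rcases Finset.mem_insert.1 hx with rfl | hx
          · have := min_le_right η ((ra x.2 - ra x.1) / 4)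
            linarith
          · have := min_le_left η ((ra a.2 - ra a.1) / 4)
            have := hη x hx hx2
            linarith
        · refine ⟨η, hη0, fun x hx hx2 => ?_⟩
          rcases Finset.mem_insert.1 hx with rfl | hx
          · exact absurd hx2 hlt
          · exact hη x hx hx2
    obtain ⟨ηa, ha0, ha⟩ := hfin Finset.univ
    obtain ⟨ηb, hb0, hb⟩ := hfin2 Finset.univ
    refine ⟨min ηa ηb, lt_min ha0 hb0, fun j => (min_le_left _ _).trans (ha j (Finset.mem_univ _)),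
      fun i j hij => ?_⟩
    have := hb (i, j) (Finset.mem_univ _) hij
    have := min_le_right ηa ηb
    simp only at *
    linarith
  obtain ⟨η, hη0, hηj, hηd⟩ := hex
  choose ε₁ hε₁ hε using fun j => hη j η hη0 (hηj j)
  have hexε : ∃ ε₀ > 0, ∀ j, ε₀ ≤ ε₁ j := by
    have hfin : ∀ (s : Finset (Fin K)), ∃ η > 0, ∀ j ∈ s, η ≤ ε₁ j := by
      intro s
      classical
      induction s using Finset.induction_on with
      | empty => exact ⟨1, one_pos, fun j hj => absurd hj (Finset.notMem_empty j)⟩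
      | insert a s ha ih =>
        obtain ⟨η, hη0, hη⟩ := ih
        refine ⟨min η (ε₁ a), lt_min hη0 (hε₁ a), fun j hj => ?_⟩
        rcases Finset.mem_insert.1 hj with rfl | hj
        · exact min_le_right _ _
        · exact (min_le_left _ _).trans (hη j hj)
    obtain ⟨ε₀, h3, h4⟩ := hfin Finset.univ
    exact ⟨ε₀, h3, fun j => h4 j (Finset.mem_univ _)⟩
  obtain ⟨ε₀, hε₀, hε₀j⟩ := hexε
  refine ⟨ε₀, hε₀, fun ε hεpos hεlt => ?_⟩
  choose T hT w hw hwper hwn hwne hwu using fun j => hε j ε hεpos (hεlt.trans_le (hε₀j j))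
  -- norms
  have hwr : ∀ j t, ‖w j t‖ < r := fun j t => by
    have h3 := (abs_lt.1 (hwn j t)).2
    have := hηj j
    have := hη₁b j
    linarith
  have hball : ∀ {x : ℂ}, ‖x‖ < r → x ∈ Metric.ball (0 : ℂ) r := fun {x} hx =>
    mem_ball_zero_iff.2 hx
  have hsub : ∀ {x : ℂ}, ‖x‖ < r → x ∈ e.source := fun {x} hx => hes (hball hx)
  have hinj : ∀ {x y : ℂ}, ‖x‖ < r → ‖y‖ < r → e x = e y → x = y := by
    intro x y hx hy hxy
    exact e.injOn (hsub hx) (hsub hy) hxy
  have hwc : ∀ j, Continuous (w j) := fun j =>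
    continuous_iff_continuousAt.2 fun t => (hw j t).continuousAt
  have hτw : ∀ j, Continuous fun t => τ (w j t) := fun j =>
    hτc.comp_continuous (hwc j) fun t => hball (hwr j t)
  choose χ hχs hχd T' hT' hχp using fun j => time_change (hT j) (hw j) (hwper j) (hτw j)
    (fun t => hτ _ (hball (hwr j t)))
  set c : Fin K → ℝ → ℂ := fun j t => e (w j (χ j t)) with hc
  have hrc : ∀ j, range (c j) = e '' range (w j) := by
    intro j
    have h1 : range (w j) = range (fun t => w j (χ j t)) := (hχs j).range_comp (w j) |>.symm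
    rw [h1, ← range_comp]
    rfl
  refine ⟨c, ?_, fun j => ⟨⟨fun t => ?_, T' j, hT' j, fun t => ?_⟩, ?_, ?_, ?_⟩⟩
  · -- distinct orbits
    have hdis : ∀ i j, i < j → range (c i) ≠ range (c j) := by
      intro i j hij heq
      have h3 : c i 0 ∈ range (c j) := by rw [← heq]; exact ⟨0, rfl⟩
      obtain ⟨t, ht⟩ := h3
      have h4 := hinj (hwr j _) (hwr i _) ht
      have h5 := abs_lt.1 (hwn j (χ j t))
      have h6 := abs_lt.1 (hwn i (χ i 0))
      rw [h4] at h5
      have := hηd i j hij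
      linarith [h5.1, h6.2]
    intro i j hij
    simp only at hij
    rcases lt_trichotomy i j with h3 | h3 | h3
    · exact absurd hij (hdis i j h3)
    · exact h3
    · exact absurd hij.symm (hdis j i h3)
  · exact hfw ε (fun t => w j (χ j t)) (fun t => hwr j _) (fun t => hχd j t) t
  · rw [hc]
    simp only
    rw [hχp]
  · by_contra hcon
    push Not at hcon
    obtain ⟨t, ht⟩ := hwne j
    apply ht
    have h1 : ∀ s, w j s = w j (χ j 0) := by
      intro s
      obtain ⟨s', hs'⟩ := hχs j s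
      rw [← hs']
      exact hinj (hwr j _) (hwr j _) (hcon s')
    rw [h1 t, h1 0]
  · rintro _ ⟨t, rfl⟩
    exact ⟨_, hball (hwr j _), rfl⟩
  · -- the annulus
    set W : Set ℂ := {x | |‖x‖ - ra j| < η} with hW
    have hWo : IsOpen W := isOpen_lt (by fun_prop) continuous_const
    have hWr : ∀ x ∈ W, ‖x‖ < r := fun x hx => by
      have h3 := (abs_lt.1 (show |‖x‖ - ra j| < η from hx)).2
      have := hηj j
      have := hη₁b j
      linarith
    have hWs : W ⊆ e.source := fun x hx => hsub (hWr x hx)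
    refine ⟨e '' W, e.isOpen_image_of_subset_source hWo hWs, ?_, ?_⟩
    · rintro _ ⟨t, rfl⟩
      exact ⟨w j (χ j t), hwn j _, rfl⟩
    · rintro c' ⟨hc', T₀, hT₀, hper'⟩ hcO
      have hin : ∀ t, e.symm (c' t) ∈ W ∧ e (e.symm (c' t)) = c' t := by
        intro t
        obtain ⟨x, hx, hxe⟩ := hcO ⟨t, rfl⟩
        have : e.symm (c' t) = x := by rw [← hxe]; exact e.left_inv (hWs hx)
        rw [this]
        exact ⟨hx, hxe⟩
      set w' : ℝ → ℂ := fun t => e.symm (c' t) with hw'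
      have hw'r : ∀ t, ‖w' t‖ < r := fun t => hWr _ (hin t).1
      have hw'd : ∀ t, HasDerivAt w' (τ (w' t) * VF G ε (w' t)) t :=
        hbw ε c' w' hw'r (fun t => (hin t).2.symm) hc'
      have hw'c : Continuous w' := continuous_iff_continuousAt.2 fun t => (hw'd t).continuousAt
      have hτw' : Continuous fun t => (τ (w' t))⁻¹ :=
        (hτc.comp_continuous hw'c fun t => hball (hw'r t)).inv₀
          fun t => (hτ _ (hball (hw'r t))).ne'
      obtain ⟨χ', hχ's, hχ'd, T₁, hT₁, hχ'p⟩ := time_change (F := fun x => τ x * VF G ε x)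
        (τ := fun x => (τ x)⁻¹) hT₀ hw'd (fun t => by rw [hw']; simp only; rw [hper']) hτw'
        (fun t => inv_pos.2 (hτ _ (hball (hw'r t))))
      have hran := hwu j T₁ hT₁ (fun t => w' (χ' t)) (fun t => by
        refine (hχ'd t).congr_deriv ?_
        have h1 := (hτ _ (hball (hw'r (χ' t)))).ne'
        push_cast
        have h2 : ((τ (w' (χ' t)) : ℝ) : ℂ) ≠ 0 := by exact_mod_cast h1
        field_simp) hχ'p (fun t => (hin _).1)
      have h13 : c' = fun t => e (w' t) := funext fun t => ((hin t).2).symm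
      have h16 : range w' = range (fun t => w' (χ' t)) := (hχ's.range_comp w').symm
      have h14 : range c' = e '' range w' := by
        rw [h13, ← range_comp]
        rfl
      rw [h14, hrc, h16, hran]

end

end Pool.Agent.helper59.LD
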