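import Pool.Agent.helper59.LD.AE2
import Pool.Agent.helper59.LD.TC

/-!
# The local coordinate
-/

open Set Filter Topology PowerSeries Asymptotics

set_option linter.unusedSectionVars false

namespace Pool.Agent.helper59.LD

open LC

noncomputable section

/-- the pair `(z, conj z)` -/
def zz (z : ℂ) : Fin 2 → ℂ := fun i => if i = 0 then z else starRingEnd ℂ z

/-- evaluation at `(z, conj z)` -/
def Ez (P : MvPolynomial (Fin 2) ℂ) (z : ℂ) : ℂ := MvPolynomial.eval (zz z) P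

theorem Ez_add (P Q : MvPolynomial (Fin 2) ℂ) (z : ℂ) : Ez (P + Q) z = Ez P z + Ez Q z :=
  map_add _ _ _

theorem Ez_sub (P Q : MvPolynomial (Fin 2) ℂ) (z : ℂ) : Ez (P - Q) z = Ez P z - Ez Q z :=
  map_sub _ _ _

theorem Ez_neg (P : MvPolynomial (Fin 2) ℂ) (z : ℂ) : Ez (-P) z = -Ez P z := map_neg _ _

theorem Ez_mul (P Q : MvPolynomial (Fin 2) ℂ) (z : ℂ) : Ez (P * Q) z = Ez P z * Ez Q z :=
  map_mul _ _ _

theorem Ez_C (a : ℂ) (z : ℂ) : Ez (MvPolynomial.C a) z = a := MvPolynomial.eval_C _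

theorem Ez_X (i : Fin 2) (z : ℂ) : Ez (MvPolynomial.X i) z = zz z i := MvPolynomial.eval_X _

theorem Ez_csw (P : MvPolynomial (Fin 2) ℂ) (z : ℂ) : Ez (csw P) z = starRingEnd ℂ (Ez P z) := by
  induction P using MvPolynomial.induction_on with
  | C a => rw [csw_C, Ez_C, Ez_C]
  | add p q hp hq => rw [map_add, Ez_add, hp, hq, Ez_add, map_add]
  | mul_X p i hp =>
    rw [map_mul, Ez_mul, hp, csw_X, Ez_mul, map_mul, Ez_X, Ez_X]
    congr 1
    fin_cases i
    · rfl
    · exact (Complex.conj_conj z).symm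

theorem Ez_Fp (P : MvPolynomial (Fin 2) ℂ) (g : Polynomial ℂ) (z : ℂ) :
    Ez (Fp P g) z = (FF g).eval (Ez P z) := by
  rw [Ez, Fp, Polynomial.aeval_def, Polynomial.hom_eval₂]
  have : (MvPolynomial.eval (zz z)).comp (algebraMap ℂ (MvPolynomial (Fin 2) ℂ)) =
      RingHom.id ℂ := by
    ext a
    simp [MvPolynomial.algebraMap_eq]
  rw [this]
  rfl

/-- the real derivative -/
def DE (P : MvPolynomial (Fin 2) ℂ) (z : ℂ) : ℂ →L[ℝ] ℂ :=
  Ez (MvPolynomial.pderiv 0 P) z • ContinuousLinearMap.id ℝ ℂ +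
    Ez (MvPolynomial.pderiv 1 P) z • (Complex.conjCLE : ℂ →L[ℝ] ℂ)

theorem DE_apply (P : MvPolynomial (Fin 2) ℂ) (z v : ℂ) : DE P z v =
    Ez (MvPolynomial.pderiv 0 P) z * v +
      Ez (MvPolynomial.pderiv 1 P) z * starRingEnd ℂ v := rfl

theorem Ez_strict (P : MvPolynomial (Fin 2) ℂ) (z : ℂ) : HasStrictFDerivAt (Ez P) (DE P z) z := by
  induction P using MvPolynomial.induction_on with
  | C a =>
    have h1 : Ez (MvPolynomial.C a) = fun _ => a := funext fun z => Ez_C a z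
    have h2 : DE (MvPolynomial.C a) z = 0 := by
      ext v
      rw [DE_apply, MvPolynomial.pderiv_C, MvPolynomial.pderiv_C]
      simp [Ez]
    rw [h1, h2]
    exact hasStrictFDerivAt_const _ _
  | add p q hp hq =>
    have h1 : Ez (p + q) = fun z => Ez p z + Ez q z := funext fun z => Ez_add p q z
    have h2 : DE (p + q) z = DE p z + DE q z := by
      ext v
      simp only [DE_apply, _root_.add_apply, map_add, Ez_add]
      ring
    rw [h1, h2]
    exact hp.add hq
  | mul_X p i hp =>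
    have h1 : Ez (p * MvPolynomial.X i) = fun z => Ez p z * zz z i := funext fun z => by
      rw [Ez_mul, Ez_X]
    have h3 : HasStrictFDerivAt (fun z => zz z i)
        (if i = 0 then ContinuousLinearMap.id ℝ ℂ else (Complex.conjCLE : ℂ →L[ℝ] ℂ)) z := by
      fin_cases i
      · exact hasStrictFDerivAt_id z
      · exact (Complex.conjCLE : ℂ →L[ℝ] ℂ).hasStrictFDerivAt
    have h4 := hp.mul h3
    rw [h1]
    refine h4.congr_fderiv ?_
    ext v
    simp only [DE_apply, _root_.add_apply, _root_.smul_apply, smul_eq_mul,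
      Derivation.leibniz, Ez_add, Ez_mul, Ez_X]
    fin_cases i
    · simp only [Fin.zero_eta, if_true, ContinuousLinearMap.id_apply, MvPolynomial.pderiv_X_self,
        MvPolynomial.pderiv_X_of_ne (show (0 : Fin 2) ≠ 1 by decide)]
      simp only [Ez, map_one, map_zero]
      ring
    · simp only [Fin.mk_one, MvPolynomial.pderiv_X_self,
        MvPolynomial.pderiv_X_of_ne (show (1 : Fin 2) ≠ 0 by decide)]
      rw [if_neg (by decide)]
      simp only [Ez, map_one, map_zero, ContinuousLinearEquiv.coe_coe, Complex.conjCLE_apply]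
      ring

theorem Ez_contDiff (P : MvPolynomial (Fin 2) ℂ) : ContDiff ℝ 1 (Ez P) := by
  induction P using MvPolynomial.induction_on with
  | C a =>
    have h1 : Ez (MvPolynomial.C a) = fun _ => a := funext fun z => Ez_C a z
    rw [h1]
    exact contDiff_const
  | add p q hp hq =>
    have h1 : Ez (p + q) = fun z => Ez p z + Ez q z := funext fun z => Ez_add p q z
    rw [h1]
    exact hp.add hq
  | mul_X p i hp =>
    have h1 : Ez (p * MvPolynomial.X i) = fun z => Ez p z * zz z i := funext fun z => by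
      rw [Ez_mul, Ez_X]
    rw [h1]
    refine hp.mul ?_
    fin_cases i
    · exact contDiff_id
    · exact (Complex.conjCLE : ℂ →L[ℝ] ℂ).contDiff

theorem Ez_curve (P : MvPolynomial (Fin 2) ℂ) {c : ℝ → ℂ} {c' : ℂ} {t : ℝ}
    (h : HasDerivAt c c' t) : HasDerivAt (fun t => Ez P (c t))
      (Ez (MvPolynomial.pderiv 0 P) (c t) * c' +
        Ez (MvPolynomial.pderiv 1 P) (c t) * starRingEnd ℂ c') t :=
  (Ez_strict P (c t)).hasFDerivAt.comp_hasDerivAt t h

theorem zz_zero : zz 0 = 0 := by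
  funext i
  rw [zz]
  split_ifs <;> simp

theorem Ez_zero (P : MvPolynomial (Fin 2) ℂ) : Ez P 0 = MvPolynomial.constantCoeff P := by
  rw [Ez, zz_zero, MvPolynomial.eval_zero]

theorem const_pderiv_PP {p : Fin 2 → MvPolynomial (Fin 2) ℂ} (hp : ∀ i, Low (p i))
    (i j : Fin 2) : MvPolynomial.constantCoeff (MvPolynomial.pderiv i (PP p j)) =
      if i = j then 1 else 0 := by
  rw [PP, map_add, map_add, low_pderiv (hp j), add_zero]
  split_ifs with h
  · rw [h, MvPolynomial.pderiv_X_self, map_one]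
  · rw [MvPolynomial.pderiv_X_of_ne (Ne.symm h), map_zero]

theorem DE_PP_zero {p : Fin 2 → MvPolynomial (Fin 2) ℂ} (hp : ∀ i, Low (p i)) :
    DE (PP p 0) 0 = ((ContinuousLinearEquiv.refl ℝ ℂ : ℂ ≃L[ℝ] ℂ) : ℂ →L[ℝ] ℂ) := by
  ext v
  rw [DE_apply, Ez_zero, Ez_zero, const_pderiv_PP hp, const_pderiv_PP hp]
  simp

theorem low_const {P : MvPolynomial (Fin 2) ℂ} (h : Low P) :
    MvPolynomial.constantCoeff P = 0 := by
  obtain ⟨a, rfl⟩ := h
  simp

theorem Ez_PP_zero {p : Fin 2 → MvPolynomial (Fin 2) ℂ} (hp : ∀ i, Low (p i)) (i : Fin 2) :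
    Ez (PP p i) 0 = 0 := by
  rw [Ez_zero, PP, map_add, MvPolynomial.constantCoeff_X, low_const (hp i), add_zero]

/-- **the local coordinate** -/
theorem exists_loc {p : Fin 2 → MvPolynomial (Fin 2) ℂ} {lam : MvPolynomial (Fin 2) ℂ}
    (hp : ∀ i, Low (p i)) (hl : MvPolynomial.constantCoeff lam = 1) (g : Polynomial ℂ)
    {U : Set ℂ} (hU : U ∈ 𝓝 (0 : ℂ)) :
    ∃ (e : OpenPartialHomeomorph ℂ ℂ) (r C : ℝ), 0 < r ∧ Conv r (psi g) ∧ Conv r (rec' (psi g)) ∧
      Metric.ball 0 r ⊆ e.source ∧ ContDiffOn ℝ 1 e (Metric.ball 0 r) ∧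
      (∀ w ∈ Metric.ball (0 : ℂ) r, Ez (PP p 0) (e w) = ev w (psi g) ∧
        0 < (Ez (Jac p * lam) (e w)).re ∧ 0 < (Ez (Jac p) (e w)).re ∧
        ‖e w‖ ≤ C * ‖w‖ ∧ e w ∈ U) ∧
      (∀ (w : ℝ → ℂ) (u' : ℂ) (t : ℝ), (∀ t, ‖w t‖ < r) →
        HasDerivAt (fun t => ev (w t) (psi g)) u' t →
        HasDerivAt w ((ev (w t) (derivative ℂ (psi g)))⁻¹ * u') t) := by
  obtain ⟨R, hR, h1, h2⟩ := exists_radius g
  obtain ⟨ep, R₁, hR₁, hR₁R, hep, heps⟩ := exists_homeo h1 hR
  have hst : HasStrictFDerivAt (Ez (PP p 0))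
      ((ContinuousLinearEquiv.refl ℝ ℂ : ℂ ≃L[ℝ] ℂ) : ℂ →L[ℝ] ℂ) 0 := by
    rw [← DE_PP_zero hp]
    exact Ez_strict _ _
  set eq := hst.toOpenPartialHomeomorph (Ez (PP p 0)) with heq
  have heqc : ∀ z, eq z = Ez (PP p 0) z := fun z => rfl
  have h0s : (0 : ℂ) ∈ eq.source := hst.mem_toOpenPartialHomeomorph_source
  have hq0 : eq 0 = 0 := Ez_PP_zero hp 0
  have h0t : (0 : ℂ) ∈ eq.target := by
    rw [← hq0]
    exact eq.map_source h0s
  have hqs0 : eq.symm 0 = 0 := by
    conv_lhs => rw [← hq0]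
    exact eq.left_inv h0s
  have hcd : ContDiffAt ℝ 1 eq.symm 0 := by
    refine eq.contDiffAt_symm h0t (f₀' := ContinuousLinearEquiv.refl ℝ ℂ) ?_ ?_
    · rw [hqs0]
      exact hst.hasFDerivAt
    · rw [hqs0]
      exact (Ez_contDiff _).contDiffAt
  have hp0 : ep 0 = 0 := by rw [hep]; exact ev_psi_zero
  have hpcd : ContDiffAt ℝ 1 ep 0 := by
    have : (ep : ℂ → ℂ) = fun w => ev w (psi g) := funext hep
    rw [this]
    exact (ev_contDiffOn h1).contDiffAt (Metric.ball_mem_nhds _ hR)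
  set e := ep.trans eq.symm with he
  have heE : ∀ w, e w = eq.symm (ep w) := fun w => rfl
  have he0 : e 0 = 0 := by rw [heE, hp0, hqs0]
  have hecd : ContDiffAt ℝ 1 e 0 := by
    have h3 : ContDiffAt ℝ 1 eq.symm (ep 0) := by rw [hp0]; exact hcd
    exact h3.comp (0 : ℂ) hpcd
  have hec : ContinuousAt e 0 := hecd.continuousAt
  have h0es : (0 : ℂ) ∈ e.source := by
    rw [he, OpenPartialHomeomorph.trans_source]
    refine ⟨heps (Metric.mem_ball_self hR₁), ?_⟩
    change ep 0 ∈ eq.symm.source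
    rw [hp0]
    exact h0t
  -- eventually
  have ev1 : ∀ᶠ w in 𝓝 (0 : ℂ), w ∈ e.source := e.open_source.mem_nhds h0es
  have ev2 : ∀ᶠ w in 𝓝 (0 : ℂ), ContDiffAt ℝ 1 e w := hecd.eventually (by simp)
  have ev3 : ∀ᶠ w in 𝓝 (0 : ℂ), 0 < (Ez (Jac p * lam) (e w)).re := by
    have hc : ContinuousAt (fun w => (Ez (Jac p * lam) (e w)).re) 0 :=
      Complex.continuous_re.continuousAt.comp
        ((Ez_contDiff _).continuous.continuousAt.comp hec)
    have h3 : (0 : ℝ) < (Ez (Jac p * lam) (e 0)).re := by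
      rw [he0, Ez_zero, map_mul, jac_const hp, hl]
      simp
    exact hc.eventually (lt_mem_nhds h3)
  have ev4 : ∀ᶠ w in 𝓝 (0 : ℂ), 0 < (Ez (Jac p) (e w)).re := by
    have hc : ContinuousAt (fun w => (Ez (Jac p) (e w)).re) 0 :=
      Complex.continuous_re.continuousAt.comp
        ((Ez_contDiff _).continuous.continuousAt.comp hec)
    have h3 : (0 : ℝ) < (Ez (Jac p) (e 0)).re := by
      rw [he0, Ez_zero, jac_const hp]
      simp
    exact hc.eventually (lt_mem_nhds h3)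
  have ev5 : ∀ᶠ w in 𝓝 (0 : ℂ), e w ∈ U := by
    apply hec
    rw [he0]
    exact hU
  have hO : (fun w => e w - e 0) =O[𝓝 0] fun w => w - 0 :=
    (hecd.differentiableAt one_ne_zero).isBigO_sub
  obtain ⟨C, hC⟩ := hO.bound
  simp only [he0, sub_zero] at hC
  have evall := ev1.and (ev2.and (ev3.and (ev4.and (ev5.and hC))))
  obtain ⟨r₀, hr₀, hball⟩ := Metric.mem_nhds_iff.1 evall
  set r := min r₀ R₁ with hr
  have hr0 : 0 < r := lt_min hr₀ hR₁
  have hrR : r ≤ R := (min_le_right _ _).trans hR₁R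
  have hb : ∀ w ∈ Metric.ball (0 : ℂ) r, w ∈ e.source ∧ ContDiffAt ℝ 1 e w ∧
      0 < (Ez (Jac p * lam) (e w)).re ∧ 0 < (Ez (Jac p) (e w)).re ∧ e w ∈ U ∧
      ‖e w‖ ≤ C * ‖w‖ := fun w hw =>
    hball (Metric.ball_subset_ball (min_le_left _ _) hw)
  refine ⟨e, r, C, hr0, h1.mono hr0.le hrR, h2.mono hr0.le hrR, fun w hw => (hb w hw).1,
    fun w hw => (hb w hw).2.1.contDiffWithinAt, fun w hw => ?_, ?_⟩
  · obtain ⟨a1, a2, a3, a4, a5, a6⟩ := hb w hw
    refine ⟨?_, a3, a4, a6, a5⟩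
    rw [he, OpenPartialHomeomorph.trans_source] at a1
    have h3 : ep w ∈ eq.target := a1.2
    have h4 := eq.right_inv h3
    rw [heqc] at h4
    rw [heE, h4, hep]
  · intro w u' t hw hd
    have hws : ∀ t, w t ∈ ep.source := fun t => heps (mem_ball_zero_iff.2
      ((hw t).trans_le (min_le_right _ _)))
    have hwR : ‖w t‖ < R := (hw t).trans_le hrR
    have h6 := hasDerivAt_ev h1 hwR
    have h7 := ev_eq2 h1 h2 hwR
    have hne : ev (w t) (derivative ℂ (psi g)) ≠ 0 := left_ne_zero_of_mul_eq_one h7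
    have htgt : ep (w t) ∈ ep.target := ep.map_source (hws t)
    have h8 : HasDerivAt ep (ev (w t) (derivative ℂ (psi g))) (ep.symm (ep (w t))) := by
      rw [ep.left_inv (hws t)]
      have : (ep : ℂ → ℂ) = fun w => ev w (psi g) := funext hep
      rw [this]
      exact h6
    have h9 := ep.hasDerivAt_symm htgt hne h8
    have hd' : HasDerivAt (fun t => ep (w t)) u' t := by
      have : (fun t => ep (w t)) = fun t => ev (w t) (psi g) := funext fun t => hep _
      rw [this]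
      exact hd
    have h10 := HasDerivAt.comp_of_eq (x := t) (h₂ := ep.symm) (h := fun t => ep (w t))
      (y := ep (w t)) h9 hd' rfl
    have h11 : (ep.symm ∘ fun t => ep (w t)) = w := by
      funext s
      exact ep.left_inv (hws s)
    rw [h11] at h10
    exact h10

end

end Pool.Agent.helper59.LD
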