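import Pool.Agent.helper59.LD.T0

/-!
# Leading coefficients in the parameter, and the separation lemma
-/

open PowerSeries Filter

namespace Pool.Agent.helper59.LD

open LC

noncomputable section

/-! ### powers of `1 - 4W` -/

section pow
variable (k : Type*) [Field k] [CharZero k]

/-- `(1 - 4W)^(-κ)` -/
def ee (κ : ℚ) : k⟦X⟧ := PowerSeries.mk fun n => (((4 : ℚ) ^ n * hyp κ n : ℚ) : k)

theorem ee_step (κ : ℚ) : (1 - C (4 : k) * X) * ee k (κ + 1) = ee k κ := by
  ext n
  rw [sub_mul, one_mul, mul_assoc, map_sub, coeff_C_mul]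
  rcases n with _ | n
  · simp [ee, hyp_zero]
  · rw [mul_comm X, coeff_succ_mul_X, ee, ee, coeff_mk, coeff_mk, coeff_mk]
    have h := hyp_diff (κ + 1) n
    rw [add_sub_cancel_right] at h
    rw [← h]
    push_cast
    ring

theorem ee_deriv (κ : ℚ) : derivative k (ee k κ) = C ((4 * κ : ℚ) : k) * ee k (κ + 1) := by
  ext n
  rw [coeff_derivative, coeff_C_mul, ee, ee, coeff_mk, coeff_mk]
  have h := hyp_rec κ n
  have h2 : hyp (κ + 1) n * κ = (κ + n) * hyp κ n := by
    have h3 := hyp_sub_one (κ + 1) n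
    rw [add_sub_cancel_right] at h3
    have h4 : (n : ℚ) + 1 ≠ 0 := by positivity
    rw [h3] at h
    field_simp at h
    linarith
  have h5 : ((4 : ℚ) ^ (n + 1) * hyp κ (n + 1)) * (n + 1) = (4 * κ) * (4 ^ n * hyp (κ + 1) n) := by
    linear_combination (4 : ℚ) ^ (n + 1) * h - (4 : ℚ) ^ (n + 1) * h2
  have h6 := congrArg (Rat.cast : ℚ → k) h5
  push_cast at h6 ⊢
  exact h6

/-- if `ω² = 1 - 4W`, `ω(0) = 1` then `ω (1-4W)^(-1/2) = 1` -/
theorem ee_half {ω : k⟦X⟧} (h0 : coeff 0 ω = 1) (h : ω ^ 2 = 1 - C (4 : k) * X) :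
    ω * ee k (1 / 2) = 1 := by
  have hd : derivative k (ω * ee k (1 / 2)) = 0 := by
    have h1 := congrArg (derivative k) h
    have h1' : C (2 : k) * (ω * derivative k ω) = -C (4 : k) := by
      rw [Derivation.leibniz_pow, map_sub, Derivation.map_one_eq_zero, Derivation.leibniz,
        derivative_X, derivative_C] at h1
      simp only [smul_eq_mul, nsmul_eq_mul] at h1
      have e2 : (C (2 : k)) = ((2 : ℕ) : k⟦X⟧) := by
        rw [← map_natCast (C (R := k))]
        norm_num
      rw [e2]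
      push_cast at h1 ⊢
      linear_combination h1
    have hω : ω * derivative k ω = -C (2 : k) := by
      have e : C (4 : k) = C (2 : k) * C (2 : k) := by rw [← map_mul]; norm_num
      rw [e] at h1'
      have h2 : C (2 : k) ≠ (0 : k⟦X⟧) := by
        rw [Ne, map_eq_zero_iff _ (C_injective (R := k))]
        norm_num
      refine mul_left_cancel₀ h2 ?_
      linear_combination h1'
    have hωne : ω ≠ 0 := by
      intro h2
      rw [h2, map_zero] at h0
      exact zero_ne_one h0
    refine mul_left_cancel₀ hωne ?_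
    rw [Derivation.leibniz, ee_deriv, mul_zero]
    simp only [smul_eq_mul]
    have e3 := ee_step k (1 / 2)
    rw [← h] at e3
    have e4 : C (((4 * (1 / 2) : ℚ)) : k) = C (2 : k) := by
      congr 1
      push_cast
      norm_num
    rw [e4]
    linear_combination (ee k (1 / 2)) * hω + C (2 : k) * e3
  ext n
  rcases n with _ | n
  · rw [coeff_mul]
    simp [h0, ee, hyp_zero]
  · have h1 := congrArg (coeff n) hd
    rw [coeff_derivative, map_zero] at h1
    have h2 : ((n : k) + 1) ≠ 0 := by exact_mod_cast Nat.succ_ne_zero n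
    rw [(mul_eq_zero.1 h1).resolve_right h2, coeff_one, if_neg (by omega)]

theorem ee_pow {ω : k⟦X⟧} (h0 : coeff 0 ω = 1) (h : ω ^ 2 = 1 - C (4 : k) * X) (n : ℕ) :
    ω ^ (2 * n + 1) * ee k (1 / 2 + n) = 1 := by
  induction n with
  | zero => simpa using ee_half k h0 h
  | succ n ih =>
    have h1 := ee_step k (1 / 2 + n)
    rw [← h] at h1
    have e : (1 / 2 + ((n + 1 : ℕ) : ℚ)) = 1 / 2 + n + 1 := by push_cast; ring
    rw [e, ← ih, ← h1]
    ring

/-- `(1-4W)^e ω^{-5}` -/
theorem ee_five {ω ωi : k⟦X⟧} (h0 : coeff 0 ω = 1) (h : ω ^ 2 = 1 - C (4 : k) * X)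
    (hi : ω * ωi = 1) (e : ℕ) : (1 - C (4 : k) * X) ^ e * ωi ^ 5 = ee k (5 / 2 - e) := by
  induction e with
  | zero =>
    have h1 := ee_pow k h0 h 2
    have e1 : (1 / 2 + ((2 : ℕ) : ℚ)) = 5 / 2 - ((0 : ℕ) : ℚ) := by norm_num
    rw [e1] at h1
    have h2 : ωi ^ 5 * ω ^ 5 = 1 := by rw [← mul_pow, mul_comm ωi, hi, one_pow]
    rw [pow_zero, one_mul]
    calc ωi ^ 5 = ωi ^ 5 * (ω ^ (2 * 2 + 1) * ee k (5 / 2 - ((0 : ℕ) : ℚ))) := by
          rw [h1, mul_one]
      _ = (ωi ^ 5 * ω ^ 5) * ee k (5 / 2 - ((0 : ℕ) : ℚ)) := by ring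
      _ = _ := by rw [h2, one_mul]
  | succ e ih =>
    have e1 : (5 / 2 - (e : ℚ)) = (5 / 2 - ((e + 1 : ℕ) : ℚ)) + 1 := by push_cast; ring
    rw [pow_succ', mul_assoc, ih, e1, ee_step]

end pow

/-! ### leading coefficients -/

section lead
variable {k : Type*} [Field k]

/-- the coefficient of `W^n` has degree at most `n` in the parameter -/
def Gr (g : (Polynomial k)⟦X⟧) : Prop := ∀ n, (coeff n g).natDegree ≤ n

/-- the top coefficients -/
def lead (g : (Polynomial k)⟦X⟧) : k⟦X⟧ := PowerSeries.mk fun n => (coeff n g).coeff n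

theorem coeff_lead (g : (Polynomial k)⟦X⟧) (n : ℕ) : coeff n (lead g) = (coeff n g).coeff n := by
  rw [lead, coeff_mk]

theorem Gr.add {f g : (Polynomial k)⟦X⟧} (hf : Gr f) (hg : Gr g) : Gr (f + g) := fun n => by
  rw [map_add]
  exact (Polynomial.natDegree_add_le _ _).trans (max_le (hf n) (hg n))

theorem Gr.sub {f g : (Polynomial k)⟦X⟧} (hf : Gr f) (hg : Gr g) : Gr (f - g) := fun n => by
  rw [map_sub]
  exact (Polynomial.natDegree_sub_le _ _).trans (max_le (hf n) (hg n))

theorem Gr.mul {f g : (Polynomial k)⟦X⟧} (hf : Gr f) (hg : Gr g) : Gr (f * g) := fun n => by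
  rw [coeff_mul]
  refine Polynomial.natDegree_sum_le_of_forall_le _ _ fun p hp => ?_
  rw [Finset.HasAntidiagonal.mem_antidiagonal] at hp
  refine Polynomial.natDegree_mul_le.trans ?_
  have := hf p.1
  have := hg p.2
  omega

theorem gr_map (s : k⟦X⟧) : Gr (PowerSeries.map Polynomial.C s) := fun n => by
  rw [coeff_map, Polynomial.natDegree_C]
  exact Nat.zero_le _

theorem gr_one : Gr (1 : (Polynomial k)⟦X⟧) := fun n => by
  rw [coeff_one]
  split_ifs
  · simp
  · simp

theorem Gr.pow {f : (Polynomial k)⟦X⟧} (hf : Gr f) (n : ℕ) : Gr (f ^ n) := by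
  induction n with
  | zero => rw [pow_zero]; exact gr_one
  | succ n ih => rw [pow_succ]; exact ih.mul hf

theorem lead_add (f g : (Polynomial k)⟦X⟧) : lead (f + g) = lead f + lead g := by
  ext n; simp [coeff_lead]

theorem lead_sub (f g : (Polynomial k)⟦X⟧) : lead (f - g) = lead f - lead g := by
  ext n; simp [coeff_lead]

theorem lead_mul {f g : (Polynomial k)⟦X⟧} (hf : Gr f) (hg : Gr g) :
    lead (f * g) = lead f * lead g := by
  ext n
  rw [coeff_lead, coeff_mul, coeff_mul, Polynomial.finsetSum_coeff]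
  refine Finset.sum_congr rfl fun p hp => ?_
  rw [Finset.HasAntidiagonal.mem_antidiagonal] at hp
  rw [coeff_lead, coeff_lead, ← hp]
  exact Polynomial.coeff_mul_add_eq_of_natDegree_le (hf p.1) (hg p.2)

theorem lead_one : lead (1 : (Polynomial k)⟦X⟧) = 1 := by
  ext n
  rw [coeff_lead, coeff_one, coeff_one]
  split_ifs with h
  · rw [h]; simp
  · simp

theorem lead_pow {f : (Polynomial k)⟦X⟧} (hf : Gr f) (n : ℕ) : lead (f ^ n) = lead f ^ n := by
  induction n with
  | zero => rw [pow_zero, pow_zero, lead_one]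
  | succ n ih => rw [pow_succ, pow_succ, lead_mul (hf.pow n) hf, ih]

theorem lead_map (s : k⟦X⟧) : lead (PowerSeries.map Polynomial.C s) = C (coeff 0 s) := by
  ext n
  rw [coeff_lead, coeff_map, Polynomial.coeff_C, coeff_C]
  split_ifs with h
  · rw [h]
  · rfl

/-- inverse -/
theorem Gr.inv {f g : (Polynomial k)⟦X⟧} (hf : Gr f) (h0 : coeff 0 f = 1) (h : f * g = 1) :
    Gr g := by
  intro n
  induction n using Nat.strong_induction_on with
  | _ n ih =>
    have h1 := congrArg (coeff n) h
    rw [coeff_mul, ← Finset.sum_erase_add _ _ (Finset.HasAntidiagonal.mem_antidiagonal.2 (show (0, n).1 + (0, n).2 = n from zero_add n)), h0, one_mul]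
      at h1
    have h2 : coeff n g = coeff n (1 : (Polynomial k)⟦X⟧) -
        ∑ x ∈ (Finset.HasAntidiagonal.antidiagonal n).erase (0, n), coeff x.1 f * coeff x.2 g := by
      rw [← h1]; ring
    rw [h2]
    refine (Polynomial.natDegree_sub_le _ _).trans (max_le (gr_one n) ?_)
    refine Polynomial.natDegree_sum_le_of_forall_le _ _ fun p hp => ?_
    rw [Finset.mem_erase, Finset.HasAntidiagonal.mem_antidiagonal] at hp
    refine Polynomial.natDegree_mul_le.trans ?_
    have hlt : p.2 < n := by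
      rcases p with ⟨p1, p2⟩
      simp only at hp ⊢
      rcases Nat.eq_zero_or_pos p1 with h1 | h1
      · exfalso
        apply hp.1
        rw [Prod.mk.injEq]
        omega
      · omega
    have := hf p.1
    have := ih p.2 hlt
    omega

/-- the solution of `y - y² = a z` -/
theorem gr_of_quad {y z : (Polynomial k)⟦X⟧} (hy : coeff 0 y = 0)
    (h : y - y ^ 2 = z) (hz : Gr z) : Gr y := by
  intro n
  induction n using Nat.strong_induction_on with
  | _ n ih =>
    have h1 := congrArg (coeff n) h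
    rw [map_sub, pow_two, coeff_mul] at h1
    have h2 : coeff n y = coeff n z + ∑ x ∈ Finset.HasAntidiagonal.antidiagonal n, coeff x.1 y * coeff x.2 y := by
      rw [← h1]; ring
    rcases Nat.eq_zero_or_pos n with h0 | hn
    · rw [h0, hy]; simp
    · rw [h2]
      refine (Polynomial.natDegree_add_le _ _).trans (max_le (hz n) ?_)
      refine Polynomial.natDegree_sum_le_of_forall_le _ _ fun p hp => ?_
      rw [Finset.HasAntidiagonal.mem_antidiagonal] at hp
      rcases Nat.eq_zero_or_pos p.1 with h1 | h1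
      · rw [h1, hy, zero_mul]; simp
      rcases Nat.eq_zero_or_pos p.2 with h2 | h2
      · rw [h2, hy, mul_zero]; simp
      refine Polynomial.natDegree_mul_le.trans ?_
      have := ih p.1 (by omega)
      have := ih p.2 (by omega)
      omega

end lead

end

end Pool.Agent.helper59.LD
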