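import Pool.Agent.helper59.LD.Lead

/-!
# Separation lemma
-/

open PowerSeries Filter

namespace Pool.Agent.helper59.LD

open LC

noncomputable section

variable {k : Type*} [Field k] [CharZero k]

/-- the parameter times four -/
def a4 (k : Type*) [Field k] : Polynomial k := Polynomial.C 4 * Polynomial.X

theorem a4_ne : a4 k ≠ 0 := mul_ne_zero (by simp) Polynomial.X_ne_zero

theorem a4_natDegree : (a4 k).natDegree = 1 := by
  rw [a4, Polynomial.natDegree_C_mul (by norm_num), Polynomial.natDegree_X]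

theorem gr_az {z : k⟦X⟧} (hz0 : coeff 0 z = 0) :
    Gr (C (a4 k) * PowerSeries.map Polynomial.C z) := by
  intro n
  rw [coeff_C_mul, coeff_map]
  rcases n with _ | n
  · rw [hz0]; simp
  · refine Polynomial.natDegree_mul_le.trans ?_
    rw [a4_natDegree, Polynomial.natDegree_C]
    omega

omit [CharZero k] in
theorem lead_az {z : k⟦X⟧} (_hz0 : coeff 0 z = 0) (hz1 : coeff 1 z = 1) :
    lead (C (a4 k) * PowerSeries.map Polynomial.C z) = C 4 * X := by
  ext n
  rw [coeff_lead, coeff_C_mul, coeff_map, coeff_C_mul, coeff_X, a4, mul_right_comm,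
    ← Polynomial.C_mul, Polynomial.coeff_C_mul, Polynomial.coeff_X]
  rcases n with _ | _ | n
  · simp
  · simp [hz1]
  · rw [if_neg (by omega), if_neg (by omega)]
    simp

omit [CharZero k] in
theorem gr_C {c : k} : Gr (C (Polynomial.C c)) := by
  have := gr_map (PowerSeries.C c)
  rwa [PowerSeries.map_C] at this

theorem separation {ι : Type*} [Fintype ι] {κ : ι → ℚ} (h1 : ∀ j, ∀ z : ℤ, κ j ≠ z)
    (h2 : ∀ i j, i ≠ j → ∀ z : ℤ, κ i - κ j ≠ z)
    {z G : k⟦X⟧} (hz0 : coeff 0 z = 0) (hz1 : coeff 1 z = 1) (hG : coeff 0 G = 1)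
    {u ui : (Polynomial k)⟦X⟧} (hu0 : coeff 0 u = 1)
    (hu : u ^ 2 = 1 - C (a4 k) * PowerSeries.map Polynomial.C z) (hGr : Gr u) (hui : u * ui = 1)
    {R : ι → Polynomial (Polynomial k)} {e : ℕ → Polynomial k} {D : ℕ}
    (he : ∀ μ, (e μ).natDegree ≤ D)
    (h : ∀ᶠ μ : ℕ in atTop, ∑ j, Polynomial.C (((hyp (κ j) μ : ℚ) : k)) *
      coeff (μ + 1) (PowerSeries.map Polynomial.C G * ui ^ 5 *
        Polynomial.eval₂ (C (R := Polynomial k)) (PowerSeries.map Polynomial.C z) (R j)) = e μ) : ∀ j, R j = 0 := by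
  classical
  set L := Finset.univ.sup fun j => (R j).natDegree with hL
  have hLj : ∀ j, (R j).natDegree < L + 1 := fun j => by
    have := Finset.le_sup (f := fun j => (R j).natDegree) (Finset.mem_univ j)
    simp only [← hL] at this
    omega
  set c : ι × Fin (L + 1) → Polynomial k := fun x =>
    (R x.1).coeff x.2 * a4 k ^ (L - (x.2 : ℕ)) with hc
  by_contra hne
  have hc0 : ∃ x, c x ≠ 0 := by
    by_contra hall
    push Not at hall
    apply hne
    intro j
    ext1 l
    rw [Polynomial.coeff_zero]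
    rcases lt_or_ge l (L + 1) with hl | hl
    · exact (mul_eq_zero.1 (hall (j, ⟨l, hl⟩))).resolve_right (pow_ne_zero _ a4_ne)
    · exact Polynomial.coeff_eq_zero_of_natDegree_lt ((hLj j).trans_le hl)
  obtain ⟨x1, hx1⟩ := hc0
  obtain ⟨x0, hx0, hmax⟩ := Finset.exists_max_image (Finset.univ.filter fun x => c x ≠ 0)
    (fun x => (c x).natDegree) ⟨x1, by simp [hx1]⟩
  rw [Finset.mem_filter] at hx0
  set M := (c x0).natDegree with hM
  have hMx : ∀ x, (c x).natDegree ≤ M := by
    intro x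
    rcases eq_or_ne (c x) 0 with h0 | h0
    · rw [h0]; simp
    · exact hmax x (by simp [h0])
  have hcM : (c x0).coeff M ≠ 0 := by
    rw [hM, Polynomial.coeff_natDegree]
    exact Polynomial.leadingCoeff_ne_zero.2 hx0.2
  set ω := lead u with hω
  set ωi := lead ui with hωi
  have hGui : Gr ui := hGr.inv hu0 hui
  have hGG : Gr (PowerSeries.map Polynomial.C G * ui ^ 5) := (gr_map G).mul (hGui.pow 5)
  have hω0 : coeff 0 ω = 1 := by rw [hω, coeff_lead, hu0]; simp
  have hωω : ω * ωi = 1 := by rw [hω, hωi, ← lead_mul hGr hGui, hui, lead_one]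
  have hω2 : ω ^ 2 = 1 - C (4 : k) * X := by
    rw [hω, ← lead_pow hGr, hu, lead_sub, lead_one, lead_az hz0 hz1]
  -- the polynomials
  set q : ι → Polynomial k := fun j =>
    ∑ l : Fin (L + 1), Polynomial.C ((c (j, l)).coeff M) * Polynomial.X ^ (l : ℕ) with hq
  have hqdeg : ∀ j, (q j).natDegree < L + 1 := by
    intro j
    refine Nat.lt_succ_of_le (Polynomial.natDegree_sum_le_of_forall_le _ _ fun l _ => ?_)
    refine (Polynomial.natDegree_C_mul_le _ _).trans ?_
    rw [Polynomial.natDegree_X_pow]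
    omega
  set s : ι → Polynomial k := fun j => (q j).comp (1 - Polynomial.X) with hs
  have hsdeg : ∀ j, (s j).natDegree < L + 1 := by
    intro j
    refine lt_of_le_of_lt Polynomial.natDegree_comp_le ?_
    have e1 : (1 - Polynomial.X : Polynomial k).natDegree ≤ 1 := by
      refine (Polynomial.natDegree_sub_le _ _).trans (max_le (by simp) Polynomial.natDegree_X_le)
    calc (q j).natDegree * (1 - Polynomial.X : Polynomial k).natDegree ≤ (q j).natDegree * 1 :=
          Nat.mul_le_mul_left _ e1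
      _ < L + 1 := by rw [mul_one]; exact hqdeg j
  have hsq : ∀ j, q j = (s j).comp (1 - Polynomial.X) := by
    intro j
    rw [hs]
    simp only
    rw [Polynomial.comp_assoc]
    simp
  have hval : ∀ j n, ∑ l : Fin (L + 1), (c (j, l)).coeff M * coeff n
      (C (coeff 0 G) * ωi ^ 5 * (C (4 : k) * X) ^ (l : ℕ)) =
      (4 : k) ^ n * ∑ i : Fin (L + 1), (s j).coeff i * ((hyp (5 / 2 - ((i : ℕ) : ℚ)) n : ℚ) : k) := by
    intro j n
    have e1 : ∑ l : Fin (L + 1), (c (j, l)).coeff M * coeff n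
      (C (coeff 0 G) * ωi ^ 5 * (C (4 : k) * X) ^ (l : ℕ)) =
      coeff n (Polynomial.aeval (C (4 : k) * X : k⟦X⟧) (q j) * ωi ^ 5) := by
      rw [hq]
      simp only
      rw [map_sum, Finset.sum_mul, map_sum]
      refine Finset.sum_congr rfl fun l _ => ?_
      have e0 : Polynomial.aeval (C (4 : k) * X : k⟦X⟧) (Polynomial.C ((c (j, l)).coeff M) *
          Polynomial.X ^ (l : ℕ)) = C ((c (j, l)).coeff M) * (C (4 : k) * X) ^ (l : ℕ) := by
        rw [map_mul, Polynomial.aeval_C, map_pow, Polynomial.aeval_X,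
          PowerSeries.algebraMap_apply, Algebra.algebraMap_self, RingHom.id_apply]
      rw [e0, hG, map_one, one_mul, mul_assoc, coeff_C_mul, mul_comm (ωi ^ 5)]
    rw [e1, hsq j, Polynomial.aeval_comp, Polynomial.aeval_eq_sum_range' (hsdeg j), Finset.sum_mul,
      map_sum, Finset.mul_sum, ← Fin.sum_univ_eq_sum_range (f := fun i => coeff n
        ((s j).coeff i • Polynomial.aeval (C (4 : k) * X : k⟦X⟧) (1 - Polynomial.X) ^ i * ωi ^ 5))]
    refine Finset.sum_congr rfl fun i _ => ?_
    rw [map_sub, map_one, Polynomial.aeval_X, smul_mul_assoc, ee_five k hω0 hω2 hωω, map_smul,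
      smul_eq_mul, ee, coeff_mk]
    push_cast
    ring
  -- the relation of leading coefficients
  obtain ⟨M0, hM0⟩ := eventually_atTop.1 h
  set S : Set ℕ := {μ | M0 ≤ μ ∧ L + D ≤ μ} with hS
  have hSinf : S.Infinite := by
    rw [Set.infinite_iff_exists_gt]
    intro a
    exact ⟨M0 + L + D + a + 1, ⟨by omega, by omega⟩, by omega⟩
  have hlead : ∀ μ ∈ S, ∑ x : ι × Fin (L + 1), (s x.1).coeff x.2 *
      ((hyp (κ x.1) μ * hyp (5 / 2 - ((x.2 : ℕ) : ℚ)) (μ + 1) : ℚ) : k) = 0 := by
    rintro μ ⟨hμ1, hμ2⟩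
    have h3 := congrArg (fun P => (a4 k ^ L * P).coeff (M + (μ + 1))) (hM0 μ hμ1)
    have h4 : (a4 k ^ L * e μ).coeff (M + (μ + 1)) = 0 := by
      refine Polynomial.coeff_eq_zero_of_natDegree_lt ?_
      refine lt_of_le_of_lt Polynomial.natDegree_mul_le ?_
      have e1 : (a4 k ^ L).natDegree ≤ L := by
        refine Polynomial.natDegree_pow_le.trans ?_
        rw [a4_natDegree, mul_one]
      have := he μ
      omega
    rw [h4, Finset.mul_sum, Polynomial.finsetSum_coeff] at h3
    have h5 : ∀ j ∈ Finset.univ, (a4 k ^ L * (Polynomial.C (((hyp (κ j) μ : ℚ) : k)) *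
      coeff (μ + 1) (PowerSeries.map Polynomial.C G * ui ^ 5 *
        Polynomial.eval₂ (C (R := Polynomial k)) (PowerSeries.map Polynomial.C z) (R j)))).coeff (M + (μ + 1)) =
        (4 : k) ^ (μ + 1) * (((hyp (κ j) μ : ℚ) : k) * ∑ i : Fin (L + 1), (s j).coeff i *
          ((hyp (5 / 2 - ((i : ℕ) : ℚ)) (μ + 1) : ℚ) : k)) := by
      intro j _
      have e1 : a4 k ^ L * (Polynomial.C (((hyp (κ j) μ : ℚ) : k)) *
        coeff (μ + 1) (PowerSeries.map Polynomial.C G * ui ^ 5 *
          Polynomial.eval₂ (C (R := Polynomial k)) (PowerSeries.map Polynomial.C z) (R j))) =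
          Polynomial.C (((hyp (κ j) μ : ℚ) : k)) * ∑ l : Fin (L + 1), c (j, l) *
            coeff (μ + 1) (PowerSeries.map Polynomial.C G * ui ^ 5 *
              (C (a4 k) * PowerSeries.map Polynomial.C z) ^ (l : ℕ)) := by
        rw [mul_left_comm]
        congr 1
        rw [Polynomial.eval₂_eq_sum_range' _ (hLj j), Finset.mul_sum, map_sum, Finset.mul_sum,
          ← Fin.sum_univ_eq_sum_range (f := fun i => a4 k ^ L * coeff (μ + 1)
            (PowerSeries.map Polynomial.C G * ui ^ 5 * (C ((R j).coeff i) *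
              PowerSeries.map Polynomial.C z ^ i)))]
        refine Finset.sum_congr rfl fun l _ => ?_
        have e5 : PowerSeries.map Polynomial.C G * ui ^ 5 * (C ((R j).coeff (l : ℕ)) *
            PowerSeries.map Polynomial.C z ^ (l : ℕ)) = C ((R j).coeff (l : ℕ)) *
            (PowerSeries.map Polynomial.C G * ui ^ 5 *
              PowerSeries.map Polynomial.C z ^ (l : ℕ)) := by ring
        have e6 : PowerSeries.map Polynomial.C G * ui ^ 5 *
            (C (a4 k) * PowerSeries.map Polynomial.C z) ^ (l : ℕ) = C (a4 k ^ (l : ℕ)) *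
            (PowerSeries.map Polynomial.C G * ui ^ 5 *
              PowerSeries.map Polynomial.C z ^ (l : ℕ)) := by
          rw [mul_pow, map_pow]; ring
        rw [e5, e6, coeff_C_mul, coeff_C_mul, hc]
        simp only
        have e2 : a4 k ^ L = a4 k ^ (L - (l : ℕ)) * a4 k ^ (l : ℕ) := by
          rw [← pow_add]
          congr 1
          omega
        rw [e2]
        ring
      rw [e1, Polynomial.coeff_C_mul, Polynomial.finsetSum_coeff]
      have e3 : ∀ l ∈ (Finset.univ : Finset (Fin (L + 1))), (c (j, l) *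
          coeff (μ + 1) (PowerSeries.map Polynomial.C G * ui ^ 5 *
              (C (a4 k) * PowerSeries.map Polynomial.C z) ^ (l : ℕ))).coeff (M + (μ + 1)) =
          (c (j, l)).coeff M * coeff (μ + 1) (C (coeff 0 G) * ωi ^ 5 *
            (C (4 : k) * X) ^ (l : ℕ)) := by
        intro l _
        have hgr := hGG.mul ((gr_az hz0).pow (l : ℕ))
        rw [Polynomial.coeff_mul_add_eq_of_natDegree_le (hMx _) (hgr _), ← coeff_lead,
          lead_mul hGG ((gr_az hz0).pow _), lead_mul (gr_map G) (hGui.pow 5), lead_map,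
          lead_pow hGui, lead_pow (gr_az hz0), lead_az hz0 hz1]
      rw [Finset.sum_congr rfl e3, hval]
      ring
    rw [Finset.sum_congr rfl h5, ← Finset.mul_sum] at h3
    have h6 := (mul_eq_zero.1 h3).resolve_left (pow_ne_zero _ (by norm_num))
    rw [← h6, Fintype.sum_prod_type]
    refine Finset.sum_congr rfl fun j _ => ?_
    rw [Finset.mul_sum]
    refine Finset.sum_congr rfl fun i _ => ?_
    push_cast
    ring
  have key := asy_indep (k := k) (α := ι × Fin (L + 1))
    (s := fun x n => hyp (κ x.1) n * hyp (5 / 2 - ((x.2 : ℕ) : ℚ)) (n + 1))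
    (E := fun x => ((κ x.1 : ℝ) - 1) + (((5 / 2 - ((x.2 : ℕ) : ℚ) : ℚ) : ℝ) - 1))
    (fun x => ?_) ?_ hSinf (c := fun x => (s x.1).coeff x.2) hlead
  · have hs0 : s x0.1 = 0 := by
      ext i
      rw [Polynomial.coeff_zero]
      rcases lt_or_ge i (L + 1) with hi | hi
      · exact key (x0.1, ⟨i, hi⟩)
      · exact Polynomial.coeff_eq_zero_of_natDegree_lt ((hsdeg _).trans_le hi)
    have hq0 : q x0.1 = 0 := by rw [hsq, hs0, Polynomial.zero_comp]
    apply hcM
    have h7 := congrArg (fun P => Polynomial.coeff P (x0.2 : ℕ)) hq0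
    rw [hq] at h7
    simp only [Polynomial.finsetSum_coeff, Polynomial.coeff_C_mul, Polynomial.coeff_X_pow,
      Polynomial.coeff_zero] at h7
    rw [Finset.sum_eq_single x0.2] at h7
    · simpa using h7
    · intro b _ hb
      rw [if_neg, mul_zero]
      intro h8
      exact hb (Fin.ext h8.symm)
    · intro h8
      exact absurd (Finset.mem_univ _) h8
  · have e1 := (asy_hyp (κ := κ x.1) fun i => by
      have := h1 x.1 (-(i : ℤ))
      push_cast at this
      exact this).mul (asy_hyp (κ := 5 / 2 - ((x.2 : ℕ) : ℚ)) fun i hi => by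
        have h8 : (5 : ℚ) = 2 * (((x.2 : ℕ) : ℤ) - (i : ℤ) : ℤ) := by push_cast; linarith
        have h9 : (5 : ℤ) = 2 * (((x.2 : ℕ) : ℤ) - (i : ℤ) : ℤ) := by exact_mod_cast h8
        omega).shift
    refine (congrArg (fun f => Asy f _) (funext fun n => ?_)).mp e1
    push_cast
    rfl
  · intro x y hxy
    simp only at hxy
    have h3 : κ x.1 - κ y.1 = (((x.2 : ℕ) : ℤ) - ((y.2 : ℕ) : ℤ) : ℤ) := by
      have : ((κ x.1 - κ y.1 : ℚ) : ℝ) = ((((x.2 : ℕ) : ℤ) - ((y.2 : ℕ) : ℤ) : ℤ) : ℝ) := by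
        push_cast at hxy ⊢
        linarith
      exact_mod_cast this
    have h4 : x.1 = y.1 := by
      by_contra hne'
      exact h2 _ _ hne' _ h3
    rw [h4, sub_self] at h3
    have h5 : (((x.2 : ℕ) : ℤ) - ((y.2 : ℕ) : ℤ) : ℤ) = 0 := by exact_mod_cast h3.symm
    exact Prod.ext h4 (Fin.ext (by omega))

end

end Pool.Agent.helper59.LD
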