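import Pool.Agent.helper59.LC.Formal

/-!
# Formal solution of `x_i + p_i(x) = s_i`, `p_i` without terms of degree `< 2`
-/

open PowerSeries

namespace Pool.Agent.helper59.LD

noncomputable section

variable {R B : Type*} [CommRing R] [CommRing B] [Algebra R B]

/-- no terms of degree less than two -/
def Low (p : MvPolynomial (Fin 2) R) : Prop :=
  ∃ a : Fin 2 → Fin 2 → MvPolynomial (Fin 2) R,
    p = ∑ j, ∑ k, a j k * (MvPolynomial.X j * MvPolynomial.X k)

theorem Low.add {p q : MvPolynomial (Fin 2) R} (hp : Low p) (hq : Low q) : Low (p + q) := by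
  obtain ⟨a, rfl⟩ := hp
  obtain ⟨b, rfl⟩ := hq
  refine ⟨fun j k => a j k + b j k, ?_⟩
  simp only [add_mul, Finset.sum_add_distrib]

theorem Low.mul_left {p : MvPolynomial (Fin 2) R} (hp : Low p) (q : MvPolynomial (Fin 2) R) :
    Low (q * p) := by
  obtain ⟨a, rfl⟩ := hp
  refine ⟨fun j k => q * a j k, ?_⟩
  simp only [Finset.mul_sum, mul_assoc]

theorem Low.neg {p : MvPolynomial (Fin 2) R} (hp : Low p) : Low (-p) := by
  have := hp.mul_left (-1)
  simpa using this

theorem Low.sub {p q : MvPolynomial (Fin 2) R} (hp : Low p) (hq : Low q) : Low (p - q) := by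
  rw [sub_eq_add_neg]
  exact hp.add hq.neg

theorem low_zero : Low (0 : MvPolynomial (Fin 2) R) := ⟨fun _ _ => 0, by simp⟩

theorem low_XX (i j : Fin 2) : Low (MvPolynomial.X i * MvPolynomial.X j : MvPolynomial (Fin 2) R) := by
  classical
  refine ⟨fun i' j' => if i' = i ∧ j' = j then 1 else 0, ?_⟩
  rw [Finset.sum_eq_single i, Finset.sum_eq_single j]
  · simp
  · intro b _ hb
    simp [hb]
  · intro h; exact absurd (Finset.mem_univ _) h
  · intro b _ hb
    simp [hb]
  · intro h; exact absurd (Finset.mem_univ _) h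

theorem low_mul_sq (q : MvPolynomial (Fin 2) R) (i : Fin 2) :
    Low (q * MvPolynomial.X i ^ 2) := by
  rw [pow_two]
  exact (low_XX i i).mul_left q

theorem Low.map {S : Type*} [CommRing S] (f : R →+* S) {p : MvPolynomial (Fin 2) R}
    (hp : Low p) : Low (MvPolynomial.map f p) := by
  obtain ⟨a, rfl⟩ := hp
  refine ⟨fun j k => MvPolynomial.map f (a j k), ?_⟩
  simp only [map_sum, map_mul, MvPolynomial.map_X]

/-- congruence -/
theorem aeval_sub_dvd (p : MvPolynomial (Fin 2) R) {x y : Fin 2 → B⟦X⟧} {m : ℕ}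
    (h : ∀ i, (X : B⟦X⟧) ^ m ∣ x i - y i) :
    (X : B⟦X⟧) ^ m ∣ MvPolynomial.aeval x p - MvPolynomial.aeval y p := by
  induction p using MvPolynomial.induction_on with
  | C a => simp
  | add p q hp hq =>
    rw [map_add, map_add]
    have : ∀ a b c d : B⟦X⟧, a + b - (c + d) = (a - c) + (b - d) := fun a b c d => by ring
    rw [this]
    exact dvd_add hp hq
  | mul_X p i hp =>
    rw [map_mul, map_mul, MvPolynomial.aeval_X, MvPolynomial.aeval_X]
    have e : MvPolynomial.aeval x p * x i - MvPolynomial.aeval y p * y i =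
        (MvPolynomial.aeval x p - MvPolynomial.aeval y p) * x i +
          MvPolynomial.aeval y p * (x i - y i) := by ring
    rw [e]
    exact dvd_add (dvd_mul_of_dvd_left hp _) (dvd_mul_of_dvd_right (h i) _)

theorem low_sub_dvd {p : MvPolynomial (Fin 2) R} (hp : Low p) {x y : Fin 2 → B⟦X⟧} {m : ℕ}
    (hx : ∀ i, (X : B⟦X⟧) ∣ x i) (hy : ∀ i, (X : B⟦X⟧) ∣ y i)
    (h : ∀ i, (X : B⟦X⟧) ^ m ∣ x i - y i) :
    (X : B⟦X⟧) ^ (m + 1) ∣ MvPolynomial.aeval x p - MvPolynomial.aeval y p := by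
  obtain ⟨a, rfl⟩ := hp
  simp only [map_sum, map_mul, MvPolynomial.aeval_X, ← Finset.sum_sub_distrib]
  refine Finset.dvd_sum fun i _ => Finset.dvd_sum fun j _ => ?_
  have e : MvPolynomial.aeval x (a i j) * (x i * x j) - MvPolynomial.aeval y (a i j) * (y i * y j) =
      (MvPolynomial.aeval x (a i j) - MvPolynomial.aeval y (a i j)) * x i * x j +
        MvPolynomial.aeval y (a i j) * ((x i - y i) * x j + (x j - y j) * y i) := by ring
  rw [e, pow_succ]
  refine dvd_add (mul_dvd_mul (dvd_mul_of_dvd_left (aeval_sub_dvd _ h) _) (hx j))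
    (dvd_mul_of_dvd_right (dvd_add (mul_dvd_mul (h i) (hx j)) (mul_dvd_mul (h j) (hy i))) _)

theorem low_dvd {p : MvPolynomial (Fin 2) R} (hp : Low p) {x : Fin 2 → B⟦X⟧}
    (hx : ∀ i, (X : B⟦X⟧) ∣ x i) : (X : B⟦X⟧) ^ 2 ∣ MvPolynomial.aeval x p := by
  obtain ⟨a, rfl⟩ := hp
  simp only [map_sum, map_mul, MvPolynomial.aeval_X]
  refine Finset.dvd_sum fun i _ => Finset.dvd_sum fun j _ => dvd_mul_of_dvd_right ?_ _
  rw [pow_two]
  exact mul_dvd_mul (hx i) (hx j)

/-- the iteration -/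
def solN (p : Fin 2 → MvPolynomial (Fin 2) R) (s : Fin 2 → B⟦X⟧) : ℕ → Fin 2 → B⟦X⟧
  | 0 => fun _ => 0
  | n + 1 => fun i => s i - MvPolynomial.aeval (solN p s n) (p i)

/-- the solution -/
def IsSol (p : Fin 2 → MvPolynomial (Fin 2) R) (s x : Fin 2 → B⟦X⟧) : Prop :=
  (∀ i, (X : B⟦X⟧) ∣ x i) ∧ ∀ i, x i + MvPolynomial.aeval x (p i) = s i

theorem IsSol.unique {p : Fin 2 → MvPolynomial (Fin 2) R} (hp : ∀ i, Low (p i))
    {s x y : Fin 2 → B⟦X⟧} (hx : IsSol p s x) (hy : IsSol p s y) : x = y := by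
  have key : ∀ m i, (X : B⟦X⟧) ^ m ∣ x i - y i := by
    intro m
    induction m with
    | zero => intro i; simp
    | succ m ih =>
      intro i
      have h1 := low_sub_dvd (hp i) hx.1 hy.1 ih
      have h2 : x i - y i = -(MvPolynomial.aeval x (p i) - MvPolynomial.aeval y (p i)) := by
        linear_combination hx.2 i - hy.2 i
      rw [h2]
      exact (dvd_neg).2 h1
  funext i
  rw [← sub_eq_zero]
  ext m
  have := key (m + 1) i
  rw [X_pow_dvd_iff] at this
  rw [this m (by omega), map_zero]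

section
variable {p : Fin 2 → MvPolynomial (Fin 2) R} {s : Fin 2 → B⟦X⟧}

theorem X_dvd_solN (hp : ∀ i, Low (p i)) (hs : ∀ i, (X : B⟦X⟧) ∣ s i) (n : ℕ) :
    ∀ i, (X : B⟦X⟧) ∣ solN p s n i := by
  induction n with
  | zero => intro i; exact dvd_zero _
  | succ n ih =>
    intro i
    exact dvd_sub (hs i) ((dvd_pow_self X two_ne_zero).trans (low_dvd (hp i) ih))

theorem solN_succ (hp : ∀ i, Low (p i)) (hs : ∀ i, (X : B⟦X⟧) ∣ s i) (n : ℕ) :
    ∀ i, (X : B⟦X⟧) ^ (n + 1) ∣ solN p s (n + 1) i - solN p s n i := by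
  induction n with
  | zero =>
    intro i
    rw [zero_add, pow_one]
    exact dvd_sub (X_dvd_solN hp hs _ i) (X_dvd_solN hp hs _ i)
  | succ n ih =>
    intro i
    have h1 := low_sub_dvd (hp i) (X_dvd_solN hp hs _) (X_dvd_solN hp hs _) ih
    have h2 : solN p s (n + 1 + 1) i - solN p s (n + 1) i =
        -(MvPolynomial.aeval (solN p s (n + 1)) (p i) - MvPolynomial.aeval (solN p s n) (p i)) := by
      change (s i - _) - (s i - _) = _
      ring
    rw [h2]
    exact (dvd_neg).2 h1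

theorem solN_add (hp : ∀ i, Low (p i)) (hs : ∀ i, (X : B⟦X⟧) ∣ s i) (n j : ℕ) :
    ∀ i, (X : B⟦X⟧) ^ (n + 1) ∣ solN p s (n + j) i - solN p s n i := by
  induction j with
  | zero => intro i; simp
  | succ j ih =>
    intro i
    have e : solN p s (n + (j + 1)) i - solN p s n i =
        (solN p s (n + j + 1) i - solN p s (n + j) i) + (solN p s (n + j) i - solN p s n i) := by
      rw [← add_assoc]; ring
    rw [e]
    exact dvd_add ((pow_dvd_pow _ (by omega)).trans (solN_succ hp hs (n + j) i)) (ih i)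

variable (p s) in
/-- the solution -/
def sol : Fin 2 → B⟦X⟧ := fun i => PowerSeries.mk fun m => coeff m (solN p s m i)

theorem sol_sub (hp : ∀ i, Low (p i)) (hs : ∀ i, (X : B⟦X⟧) ∣ s i) (n : ℕ) (i : Fin 2) :
    (X : B⟦X⟧) ^ (n + 1) ∣ sol p s i - solN p s n i := by
  rw [X_pow_dvd_iff]
  intro m hm
  rw [map_sub, sol, coeff_mk]
  have h := solN_add hp hs m (n - m) i
  rw [Nat.add_sub_cancel' (by omega), X_pow_dvd_iff] at h
  have := h m (by omega)
  rw [map_sub] at this
  rw [sub_eq_zero] at this ⊢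
  exact this.symm

theorem isSol_sol (hp : ∀ i, Low (p i)) (hs : ∀ i, (X : B⟦X⟧) ∣ s i) : IsSol p s (sol p s) := by
  have hX : ∀ i, (X : B⟦X⟧) ∣ sol p s i := by
    intro i
    have h := sol_sub hp hs 0 i
    rw [zero_add, pow_one] at h
    have := dvd_add h (X_dvd_solN hp hs 0 i)
    simpa using this
  refine ⟨hX, fun i => ?_⟩
  rw [← sub_eq_zero]
  ext m
  rw [map_zero]
  have h1 := low_sub_dvd (hp i) hX (X_dvd_solN hp hs m) (sol_sub hp hs m)
  have h2 := sol_sub hp hs (m + 1) i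
  have h3 := dvd_add ((pow_dvd_pow X (by omega : m + 1 ≤ m + 1 + 1)).trans h2)
    ((pow_dvd_pow X (by omega : m + 1 ≤ m + 1 + 1)).trans h1)
  have h4 : sol p s i - solN p s (m + 1) i + (MvPolynomial.aeval (sol p s) (p i) -
      MvPolynomial.aeval (solN p s m) (p i)) =
      sol p s i + MvPolynomial.aeval (sol p s) (p i) - s i := by
    change sol p s i - (s i - _) + _ = _
    ring
  rw [h4, X_pow_dvd_iff] at h3
  exact h3 m (by omega)

end

/-- naturality -/
theorem IsSol.map {R' B' : Type*} [CommRing R'] [CommRing B'] [Algebra R' B'] (f : R →+* R')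
    (f' : B →+* B') (hf : ∀ r, f' (algebraMap R B r) = algebraMap R' B' (f r))
    {p : Fin 2 → MvPolynomial (Fin 2) R} {s x : Fin 2 → B⟦X⟧} (h : IsSol p s x) :
    IsSol (fun i => MvPolynomial.map f (p i)) (fun i => PowerSeries.map f' (s i))
      (fun i => PowerSeries.map f' (x i)) := by
  refine ⟨fun i => ?_, fun i => ?_⟩
  · obtain ⟨c, hc⟩ := h.1 i
    exact ⟨PowerSeries.map f' c, by simp only; rw [hc, map_mul, PowerSeries.map_X]⟩
  · simp only
    rw [← h.2 i, map_add]
    congr 1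
    rw [MvPolynomial.aeval_def, MvPolynomial.eval₂_map, MvPolynomial.aeval_def,
      MvPolynomial.hom_eval₂]
    congr 1
    ext r
    · simp only [RingHom.comp_apply, PowerSeries.algebraMap_apply, PowerSeries.map_C, hf]

end

end Pool.Agent.helper59.LD
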