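import Pool.Agent.helper59.LD.Ser
import Pool.Agent.helper59.LD.Sep
import Pool.Agent.helper59.LD.Sol

/-!
# The level step
-/

open PowerSeries Filter

set_option linter.unusedSectionVars false

namespace Pool.Agent.helper59.LD

open LC

noncomputable section

section split
variable {K : Type*} [Field K]

/-- `X - a X²` -/
def sP (a : K) : Polynomial K := Polynomial.X - Polynomial.C a * Polynomial.X ^ 2

theorem sP_deg (a : K) : (sP a).natDegree ≤ 2 := by
  rw [sP]
  refine (Polynomial.natDegree_sub_le _ _).trans (max_le (Polynomial.natDegree_X_le.trans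
    (by norm_num)) ?_)
  exact (Polynomial.natDegree_C_mul_le _ _).trans (by rw [Polynomial.natDegree_X_pow])

theorem sP_coeff_two (a : K) : (sP a).coeff 2 = -a := by
  simp [sP, Polynomial.coeff_X]

theorem sP_deriv (a : K) : Polynomial.derivative (sP a) = 1 - Polynomial.C (2 * a) *
    Polynomial.X := by
  rw [sP, Polynomial.derivative_sub, Polynomial.derivative_X, Polynomial.derivative_C_mul,
    Polynomial.derivative_X_pow]
  simp only [map_mul, map_ofNat]
  push_cast
  simp only [map_ofNat]
  ring

theorem split [CharZero K] {a : K} (ha : a ≠ 0) (n : ℕ) : ∀ A : Polynomial K,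
    (∀ t, n ≤ t → A.coeff t = 0) → ∃ Ae Ao : Polynomial K, (∀ t, n ≤ 2 * t → Ae.coeff t = 0) ∧
      (∀ t, n ≤ 2 * t + 1 → Ao.coeff t = 0) ∧
      A = Ae.comp (sP a) + (1 - Polynomial.C (2 * a) * Polynomial.X) * Ao.comp (sP a) := by
  induction n with
  | zero =>
    intro A hA
    refine ⟨0, 0, by simp, by simp, ?_⟩
    have : A = 0 := by
      ext t
      rw [hA t (Nat.zero_le _), Polynomial.coeff_zero]
    rw [this]
    simp
  | succ n ih =>
    intro A hA
    have hna : -a ≠ 0 := neg_ne_zero.2 ha
    rcases Nat.even_or_odd' n with ⟨l, hl | hl⟩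
    · -- even
      set c := A.coeff n / (-a) ^ l with hc
      have hsl : (sP a ^ l).natDegree ≤ n := by
        refine Polynomial.natDegree_pow_le.trans ?_
        rw [hl, mul_comm]
        exact Nat.mul_le_mul_right _ (sP_deg a)
      have hsc : (sP a ^ l).coeff n = (-a) ^ l := by
        rw [hl, mul_comm, Polynomial.coeff_pow_of_natDegree_le (sP_deg a), sP_coeff_two]
      obtain ⟨Ae, Ao, h1, h2, h3⟩ := ih (A - Polynomial.C c * sP a ^ l) (fun t ht => by
        rw [Polynomial.coeff_sub, Polynomial.coeff_C_mul]
        rcases Nat.eq_or_lt_of_le ht with h | h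
        · rw [← h, hsc, hc, div_mul_cancel₀ _ (pow_ne_zero _ hna), sub_self]
        · rw [hA t h, Polynomial.coeff_eq_zero_of_natDegree_lt (hsl.trans_lt h)]
          ring)
      refine ⟨Ae + Polynomial.C c * Polynomial.X ^ l, Ao, fun t ht => ?_, fun t ht => ?_, ?_⟩
      · rw [Polynomial.coeff_add, h1 t (by omega), Polynomial.coeff_C_mul, Polynomial.coeff_X_pow,
          if_neg (by omega)]
        ring
      · exact h2 t (by omega)
      · rw [Polynomial.add_comp, Polynomial.mul_comp, Polynomial.C_comp, Polynomial.pow_comp,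
          Polynomial.X_comp]
        linear_combination h3
    · -- odd
      set c := A.coeff n / (-(2 * a) * (-a) ^ l) with hc
      have h2a : -(2 * a) ≠ 0 := neg_ne_zero.2 (mul_ne_zero (by norm_num) ha)
      have hsd : (1 - Polynomial.C (2 * a) * Polynomial.X : Polynomial K).natDegree ≤ 1 := by
        refine (Polynomial.natDegree_sub_le _ _).trans (max_le (by simp) ?_)
        exact (Polynomial.natDegree_C_mul_le _ _).trans Polynomial.natDegree_X_le
      have hsl : (sP a ^ l).natDegree ≤ 2 * l := by
        refine Polynomial.natDegree_pow_le.trans ?_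
        rw [mul_comm]
        exact Nat.mul_le_mul_right _ (sP_deg a)
      have hsl2 : ((1 - Polynomial.C (2 * a) * Polynomial.X) * sP a ^ l).natDegree ≤ n := by
        refine Polynomial.natDegree_mul_le.trans ?_
        omega
      have hsc : ((1 - Polynomial.C (2 * a) * Polynomial.X) * sP a ^ l).coeff n =
          -(2 * a) * (-a) ^ l := by
        have e1 : n = 1 + 2 * l := by omega
        rw [e1, Polynomial.coeff_mul_add_eq_of_natDegree_le hsd hsl, mul_comm 2 l,
          Polynomial.coeff_pow_of_natDegree_le (sP_deg a), sP_coeff_two]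
        simp [Polynomial.coeff_one]
      obtain ⟨Ae, Ao, h1, h2, h3⟩ := ih (A - Polynomial.C c *
        ((1 - Polynomial.C (2 * a) * Polynomial.X) * sP a ^ l)) (fun t ht => by
        rw [Polynomial.coeff_sub, Polynomial.coeff_C_mul]
        rcases Nat.eq_or_lt_of_le ht with h | h
        · rw [← h, hsc, hc, div_mul_cancel₀ _ (mul_ne_zero h2a (pow_ne_zero _ hna)), sub_self]
        · rw [hA t h, Polynomial.coeff_eq_zero_of_natDegree_lt (hsl2.trans_lt h)]
          ring)
      refine ⟨Ae, Ao + Polynomial.C c * Polynomial.X ^ l, fun t ht => ?_, fun t ht => ?_, ?_⟩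
      · exact h1 t (by omega)
      · rw [Polynomial.coeff_add, h2 t (by omega), Polynomial.coeff_C_mul, Polynomial.coeff_X_pow,
          if_neg (by omega)]
        ring
      · rw [Polynomial.add_comp, Polynomial.mul_comp, Polynomial.C_comp, Polynomial.pow_comp,
          Polynomial.X_comp]
        linear_combination h3

end split

/-! ### bounded degree in the parameter -/

section bd
variable {k K : Type*} [Field k] [Field K] [Algebra k K] [Algebra (Polynomial k) K]
  [IsScalarTower k (Polynomial k) K]

/-- images of polynomials of degree at most `D` -/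
def Bd (k : Type*) {K : Type*} [Field k] [Field K] [Algebra (Polynomial k) K] (D : ℕ) (y : K) :
    Prop := ∃ e : Polynomial k, e.natDegree ≤ D ∧ algebraMap (Polynomial k) K e = y

theorem Bd.add {D : ℕ} {x y : K} (hx : Bd k D x) (hy : Bd k D y) : Bd k D (x + y) := by
  obtain ⟨e, he, rfl⟩ := hx
  obtain ⟨f, hf, rfl⟩ := hy
  exact ⟨e + f, (Polynomial.natDegree_add_le _ _).trans (max_le he hf), map_add _ _ _⟩

theorem Bd.mul {D : ℕ} {x : K} (hx : Bd k D x) (c : k) : Bd k D (x * algebraMap k K c) := by
  obtain ⟨e, he, rfl⟩ := hx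
  refine ⟨e * Polynomial.C c, (Polynomial.natDegree_mul_C_le _ _).trans he, ?_⟩
  rw [map_mul, IsScalarTower.algebraMap_apply k (Polynomial k) K, Polynomial.algebraMap_eq]

theorem bd_zero {D : ℕ} : Bd k D (0 : K) := ⟨0, by simp, map_zero _⟩

theorem Bd.sum {D : ℕ} {ι : Type*} (s : Finset ι) {f : ι → K} (h : ∀ i ∈ s, Bd k D (f i)) :
    Bd k D (∑ i ∈ s, f i) := by
  classical
  induction s using Finset.induction_on with
  | empty => rw [Finset.sum_empty]; exact bd_zero
  | insert a s ha ih =>
    rw [Finset.sum_insert ha]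
    exact (h a (Finset.mem_insert_self _ _)).add (ih fun i hi => h i (Finset.mem_insert_of_mem hi))

theorem Bd.mono {D D' : ℕ} (hD : D ≤ D') {x : K} (hx : Bd k D x) : Bd k D' x := by
  obtain ⟨e, he, rfl⟩ := hx
  exact ⟨e, he.trans hD, rfl⟩

theorem exists_denom [IsFractionRing (Polynomial k) K] (s : Finset K) :
    ∃ b : Polynomial k, b ≠ 0 ∧ ∃ D, ∀ c ∈ s, Bd k D (algebraMap (Polynomial k) K b * c) := by
  classical
  induction s using Finset.induction_on with
  | empty => exact ⟨1, one_ne_zero, 0, fun c hc => absurd hc (Finset.notMem_empty c)⟩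
  | insert x s hx ih =>
    obtain ⟨b, hb, D, hD⟩ := ih
    obtain ⟨e, f, hf, hef⟩ := IsFractionRing.div_surjective (A := Polynomial k) x
    have hf0 : f ≠ 0 := nonZeroDivisors.ne_zero hf
    refine ⟨b * f, mul_ne_zero hb hf0, D + f.natDegree + b.natDegree + e.natDegree,
      fun c hc => ?_⟩
    rcases Finset.mem_insert.1 hc with rfl | hc
    · refine ⟨b * e, Polynomial.natDegree_mul_le.trans (by omega), ?_⟩
      rw [map_mul, map_mul, ← hef]
      have : algebraMap (Polynomial k) K f ≠ 0 := by
        rw [Ne, map_eq_zero_iff _ (IsFractionRing.injective (Polynomial k) K)]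
        exact hf0
      field_simp
    · obtain ⟨g, hg, hg2⟩ := hD c hc
      refine ⟨g * f, Polynomial.natDegree_mul_le.trans (by omega), ?_⟩
      rw [map_mul, hg2, map_mul]
      ring

theorem bd_coeff {D : ℕ} {β : K} {A : Polynomial K} (hA : ∀ t, Bd k D (β * A.coeff t))
    (z S : k⟦X⟧) (μ : ℕ) : Bd k D (β * coeff μ (Polynomial.aeval
      (PowerSeries.map (algebraMap k K) z) A * PowerSeries.map (algebraMap k K) S)) := by
  have h1 : Polynomial.aeval (PowerSeries.map (algebraMap k K) z) A *
      PowerSeries.map (algebraMap k K) S =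
      ∑ t ∈ A.support, PowerSeries.C (A.coeff t) *
        PowerSeries.map (algebraMap k K) (z ^ t * S) := by
    conv_lhs => rw [A.as_sum_support]
    rw [map_sum, Finset.sum_mul]
    refine Finset.sum_congr rfl fun t _ => ?_
    rw [Polynomial.aeval_monomial, map_mul, map_pow, PowerSeries.algebraMap_apply]
    simp only [Algebra.algebraMap_self, RingHom.id_apply]
    ring
  rw [h1, map_sum, Finset.mul_sum]
  refine Bd.sum _ fun t _ => ?_
  rw [coeff_C_mul, coeff_map, ← mul_assoc]
  exact (hA t).mul _

end bd

end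

end Pool.Agent.helper59.LD
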