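import Pool.Agent.helper59.LD.Level

/-!
# The level step: main theorem
-/

open PowerSeries Filter

set_option linter.unusedSectionVars false

namespace Pool.Agent.helper59.LD

open LC

noncomputable section

/-- the standing assumptions on a stage of the tower -/
structure Good {K : Type*} [Field K] (N m : ℕ) (v : Polynomial K) (z : K⟦X⟧) : Prop where
  hm : 1 ≤ m
  deg : v.natDegree = m
  v0 : v.coeff 0 = 0
  v1 : v.coeff 1 = 1
  c1 : IsCoprime (Polynomial.derivative v) (v * (1 - v ^ N))
  c2 : IsCoprime (Polynomial.derivative v) (Polynomial.derivative (Polynomial.derivative v))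
  z0 : coeff 0 z = 0
  z1 : coeff 1 z = 1
  hφ : X * derivative K (Polynomial.aeval z v) = Polynomial.aeval z (v * (1 - v ^ N))

section

theorem coeff_zero_aeval {K : Type*} [Field K] {z : K⟦X⟧} (hz : coeff 0 z = 0)
    (P : Polynomial K) : coeff 0 (Polynomial.aeval z P) = P.coeff 0 := by
  obtain ⟨Q, hQ⟩ := Polynomial.X_dvd_sub_C (p := P)
  have h1 : P = Polynomial.X * Q + Polynomial.C (P.coeff 0) := by rw [← hQ]; ring
  rw [h1, map_add, map_add, map_mul, Polynomial.aeval_X, Polynomial.aeval_C,
    PowerSeries.algebraMap_apply, Algebra.algebraMap_self, RingHom.id_apply, coeff_mul,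
    Finset.Nat.antidiagonal_zero, Finset.sum_singleton, hz]
  simp

theorem coeff_one_aeval {K : Type*} [Field K] {z : K⟦X⟧} (hz : coeff 0 z = 0)
    (P : Polynomial K) : coeff 1 (Polynomial.aeval z P) = P.coeff 1 * coeff 1 z := by
  have h1 := coeff_derivative (R := K) (Polynomial.aeval z P) 0
  rw [deriv_aeval, coeff_mul, Finset.Nat.antidiagonal_zero, Finset.sum_singleton,
    coeff_zero_aeval hz, coeff_derivative, Polynomial.coeff_derivative] at h1
  simp only [Nat.cast_zero, zero_add, mul_one] at h1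
  exact h1.symm

theorem Good.p0 {K : Type*} [Field K] {N m : ℕ} {v : Polynomial K} {z : K⟦X⟧} (h : Good N m v z) :
    coeff 0 (Polynomial.aeval z (Polynomial.derivative v)) = 1 := by
  rw [coeff_zero_aeval h.z0, Polynomial.coeff_derivative]
  simp [h.v1]

theorem Good.φ1 {K : Type*} [Field K] {N m : ℕ} {v : Polynomial K} {z : K⟦X⟧} (h : Good N m v z) :
    coeff 1 (Polynomial.aeval z v) = 1 := by
  rw [coeff_one_aeval h.z0, h.v1, h.z1, one_mul]

theorem Good.φrec {K : Type*} [Field K] {N m : ℕ} {v : Polynomial K} {z : K⟦X⟧}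
    (h : Good N m v z) :
    derivative K (Polynomial.aeval z v) * rec' (Polynomial.aeval z v) = 1 := by
  apply mul_invOfUnit
  rw [← coeff_zero_eq_constantCoeff_apply, coeff_derivative]
  simp [h.φ1]

end

variable {k K : Type*} [Field k] [CharZero k] [Field K] [CharZero K] [Algebra k K]
  [Algebra (Polynomial k) K] [IsScalarTower k (Polynomial k) K]

/-- change of field -/
theorem Good.map {k K : Type*} [Field k] [Field K] [Algebra k K] {N m : ℕ} {v : Polynomial k}
    {z : k⟦X⟧} (h : Good N m v z) :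
    Good N m (v.map (algebraMap k K)) (PowerSeries.map (algebraMap k K) z) := by
  have e1 : ∀ P Q : Polynomial k, IsCoprime P Q →
      IsCoprime (P.map (algebraMap k K)) (Q.map (algebraMap k K)) := fun P Q hPQ =>
    hPQ.map (Polynomial.mapRingHom (algebraMap k K))
  refine ⟨h.hm, ?_, ?_, ?_, ?_, ?_, ?_, ?_, ?_⟩
  · rw [Polynomial.natDegree_map, h.deg]
  · rw [Polynomial.coeff_map, h.v0, map_zero]
  · rw [Polynomial.coeff_map, h.v1, map_one]
  · have := e1 _ _ h.c1
    rw [← Polynomial.derivative_map] at this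
    simpa using this
  · have := e1 _ _ h.c2
    simpa only [Polynomial.derivative_map] using this
  · rw [coeff_map, h.z0, map_zero]
  · rw [coeff_map, h.z1, map_one]
  · have := congrArg (PowerSeries.map (algebraMap k K)) h.hφ
    rw [map_mul, PowerSeries.map_X, map_derivative', map_aeval', map_aeval'] at this
    rw [this]
    simp

/-- the next polynomial -/
def nextP (a : K) (v : Polynomial K) : Polynomial K := v.comp (sP a)

theorem aeval_sP (a : K) (x : K⟦X⟧) : Polynomial.aeval x (sP a) = x - C a * x ^ 2 := by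
  rw [sP, map_sub, map_mul, map_pow, Polynomial.aeval_X, Polynomial.aeval_C,
    PowerSeries.algebraMap_apply, Algebra.algebraMap_self, RingHom.id_apply]

theorem aeval_comp_sP {a : K} {x z : K⟦X⟧} (hx : x - C a * x ^ 2 = z) (P : Polynomial K) :
    Polynomial.aeval x (P.comp (sP a)) = Polynomial.aeval z P := by
  rw [Polynomial.aeval_comp, aeval_sP, hx]

/-- the square root `1 - 2 a x` -/
def uS (a : K) (x : K⟦X⟧) : K⟦X⟧ := 1 - C (2 * a) * x

theorem aeval_lin (a : K) (x : K⟦X⟧) :
    Polynomial.aeval x (1 - Polynomial.C (2 * a) * Polynomial.X) = uS a x := by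
  rw [map_sub, map_mul, map_one, Polynomial.aeval_X, Polynomial.aeval_C,
    PowerSeries.algebraMap_apply, Algebra.algebraMap_self, RingHom.id_apply, uS]

theorem aeval_nextP_deriv {a : K} {x z : K⟦X⟧} (hx : x - C a * x ^ 2 = z) (v : Polynomial K) :
    Polynomial.aeval x (Polynomial.derivative (nextP a v)) =
      Polynomial.aeval z (Polynomial.derivative v) * uS a x := by
  rw [nextP, Polynomial.derivative_comp, map_mul, sP_deriv, aeval_lin, aeval_comp_sP hx, mul_comm]

theorem levelData {N m : ℕ} {v : Polynomial K} {z x : K⟦X⟧} (h : Good N m v z) {a : K}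
    (hx : x - C a * x ^ 2 = z) (hx0 : coeff 0 x = 0) :
    LevelData a (Polynomial.derivative v) (v * (1 - v ^ N)) z (rec' (Polynomial.aeval z v))
      (uS a x) (inv1 (uS a x)) (inv1 (Polynomial.aeval z (Polynomial.derivative v))) := by
  have hu0 : coeff 0 (uS a x) = 1 := by
    rw [uS, map_sub, coeff_C_mul, hx0, mul_zero, sub_zero]
    simp
  have hpi := inv1_mul h.p0
  have hρ : Polynomial.aeval z (v * (1 - v ^ N)) * rec' (Polynomial.aeval z v) = X := by
    rw [← h.hφ]
    linear_combination X * h.φrec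
  refine ⟨?_, hρ, ?_, ?_, inv1_mul hu0, hpi⟩
  · have h1 := h.hφ
    rw [deriv_aeval] at h1
    rw [dl, ← h1]
    linear_combination (-(X * derivative K z)) * hpi
  · intro h0
    rw [h0, zero_mul] at hρ
    exact PowerSeries.X_ne_zero hρ.symm
  · have et : Polynomial.aeval z (tP a) = 1 - C (4 * a) * z := by
      rw [tP, map_sub, map_mul, map_one, Polynomial.aeval_X, Polynomial.aeval_C,
        PowerSeries.algebraMap_apply, Algebra.algebraMap_self, RingHom.id_apply]
    rw [uS, et, ← hx]
    have e2 : (C (2 * a) : K⟦X⟧) = 2 * C a := by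
      rw [map_mul, map_ofNat]
    have e4 : (C (4 * a) : K⟦X⟧) = 4 * C a := by
      rw [map_mul, map_ofNat]
    rw [e2, e4]
    ring

/-- the odd part -/
def OD {K : Type*} [Field K] (z ρ u ui pi : K⟦X⟧) (Ao He Be Ce : Polynomial K) (μ : ℕ) : K :=
  coeff (μ + 1) ((u * Polynomial.aeval z Ao + ui * pi * Polynomial.aeval z He) * ρ) +
    coeff μ (ui * pi * Polynomial.aeval z Be) / ((μ : K) + 1) +
    coeff μ (ui * pi * Polynomial.aeval z Ce) / ((μ : K) + 1) ^ 2

theorem OD_eq {a : K} {p F : Polynomial K} {z ρ u ui pi : K⟦X⟧}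
    (h : LevelData a p F z ρ u ui pi) (Ao He Be Ce : Polynomial K) (μ : ℕ) :
    ((μ : K) + 1) ^ 2 * OD z ρ u ui pi Ao He Be Ce μ =
      coeff (μ + 1) (ρ * pi ^ 5 * ui ^ 5 * Polynomial.aeval z (RP a p F (tP a * Ao * p + He) Be Ce)) := by
  have h1 := h.main (tP a * Ao * p + He) Be Ce
  have h2 := congrArg (coeff (μ + 1)) h1
  rw [map_add, map_add, coeff_dl, coeff_dl, coeff_dl, mul_comm X, coeff_succ_mul_X, mul_comm X,
    coeff_succ_mul_X] at h2
  have e1 : ρ * ui * pi * Polynomial.aeval z (tP a * Ao * p + He) =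
      (u * Polynomial.aeval z Ao + ui * pi * Polynomial.aeval z He) * ρ := by
    rw [map_add, map_mul, map_mul, ← h.hu]
    linear_combination (ρ * u * Polynomial.aeval z Ao * (u * ui)) * h.hpi +
      ρ * u * Polynomial.aeval z Ao * h.hui
  rw [e1] at h2
  have e2 : ρ * pi ^ 5 * ui ^ 5 = ρ * ui ^ 5 * pi ^ 5 := by ring
  rw [e2, ← h2, OD]
  have hμ : ((μ : K) + 1) ≠ 0 := by exact_mod_cast Nat.succ_ne_zero μ
  push_cast
  field_simp

/-- decomposition of the relation -/
theorem Rel_split {N m : ℕ} {v : Polynomial K} {z x : K⟦X⟧} (h : Good N m v z) {a : K}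
    (hx : x - C a * x ^ 2 = z) (hx0 : coeff 0 x = 0) {A H B Cc : Polynomial K} {d : K}
    {Ae Ao He Ho Be Bo Ce Co : Polynomial K}
    (hA : A = Ae.comp (sP a) + (1 - Polynomial.C (2 * a) * Polynomial.X) * Ao.comp (sP a))
    (hH : H = He.comp (sP a) + (1 - Polynomial.C (2 * a) * Polynomial.X) * Ho.comp (sP a))
    (hB : B = Be.comp (sP a) + (1 - Polynomial.C (2 * a) * Polynomial.X) * Bo.comp (sP a))
    (hC : Cc = Ce.comp (sP a) + (1 - Polynomial.C (2 * a) * Polynomial.X) * Co.comp (sP a))
    (μ : ℕ) : Rel N (nextP a v) x A H B Cc d μ = Rel N v z Ae Ho Bo Co d μ +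
      OD z (rec' (Polynomial.aeval z v)) (uS a x) (inv1 (uS a x))
        (inv1 (Polynomial.aeval z (Polynomial.derivative v))) Ao He Be Ce μ := by
  have hL := levelData h hx hx0
  have ev : ∀ Q Qe Qo : Polynomial K, Q = Qe.comp (sP a) + (1 - Polynomial.C (2 * a) *
      Polynomial.X) * Qo.comp (sP a) → Polynomial.aeval x Q = Polynomial.aeval z Qe +
        uS a x * Polynomial.aeval z Qo := by
    rintro Q Qe Qo rfl
    rw [map_add, map_mul, aeval_lin, aeval_comp_sP hx, aeval_comp_sP hx]
  have hφ : Polynomial.aeval x (nextP a v) = Polynomial.aeval z v := aeval_comp_sP hx v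
  have hu0 : coeff 0 (uS a x) = 1 := by
    rw [uS, map_sub, coeff_C_mul, hx0, mul_zero, sub_zero]
    simp
  have hinv : inv1 (Polynomial.aeval x (Polynomial.derivative (nextP a v))) =
      inv1 (uS a x) * inv1 (Polynomial.aeval z (Polynomial.derivative v)) := by
    symm
    apply inv1_unique
    · rw [aeval_nextP_deriv hx, coeff_mul, Finset.Nat.antidiagonal_zero, Finset.sum_singleton,
        h.p0, hu0, mul_one]
    · rw [aeval_nextP_deriv hx]
      have h1 := hL.hpi
      have h2 := hL.hui
      linear_combination (uS a x * inv1 (uS a x)) * h1 + h2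
  rw [Rel, Rel, OD, hφ, hinv, ev _ _ _ hA, ev _ _ _ hH, ev _ _ _ hB, ev _ _ _ hC]
  have h2 := hL.hui
  generalize uS a x = u at *
  generalize inv1 u = ui at *
  generalize inv1 (Polynomial.aeval z (Polynomial.derivative v)) = pi at *
  have e1 : (Polynomial.aeval z Ae + u * Polynomial.aeval z Ao + (Polynomial.aeval z He +
      u * Polynomial.aeval z Ho) * (ui * pi)) * rec' (Polynomial.aeval z v) =
      (Polynomial.aeval z Ae + Polynomial.aeval z Ho * pi) * rec' (Polynomial.aeval z v) +
      (u * Polynomial.aeval z Ao + ui * pi * Polynomial.aeval z He) *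
        rec' (Polynomial.aeval z v) := by
    linear_combination (Polynomial.aeval z Ho * pi * rec' (Polynomial.aeval z v)) * h2
  have e2 : ∀ q r : K⟦X⟧, (q + u * r) * (ui * pi) = r * pi + ui * pi * q := by
    intro q r
    linear_combination (r * pi) * h2
  rw [e1, e2, e2, map_add, map_add, map_add, add_div, add_div]
  ring

end

end Pool.Agent.helper59.LD
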