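import Pool.Agent.helper59.LD.Level2

/-!
# The level step: conclusion
-/

open PowerSeries Filter

set_option linter.unusedSectionVars false

namespace Pool.Agent.helper59.LD

open LC

noncomputable section

theorem exists_quad {B : Type*} [CommRing B] {s : B⟦X⟧} (hs : (X : B⟦X⟧) ∣ s) :
    ∃ y : B⟦X⟧, coeff 0 y = 0 ∧ y - y ^ 2 = s := by
  set p : Fin 2 → MvPolynomial (Fin 2) ℤ := fun i => -(MvPolynomial.X i * MvPolynomial.X i) with hp
  have h := isSol_sol (B := B) (p := p) (s := fun _ => s) (fun i => (low_XX i i).neg) (fun _ => hs)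
  refine ⟨sol p (fun _ => s) 0, ?_, ?_⟩
  · have h1 := h.1 0
    rw [X_dvd_iff, ← coeff_zero_eq_constantCoeff_apply] at h1
    exact h1
  · have h2 := h.2 0
    rw [hp] at h2
    simp only [map_neg, map_mul, MvPolynomial.aeval_X] at h2
    rw [← hp] at h2
    linear_combination h2

theorem quad_unique {K : Type*} [Field K] {y y' : K⟦X⟧} (hy : coeff 0 y = 0) (hy' : coeff 0 y' = 0)
    (h : y - y ^ 2 = y' - y' ^ 2) : y = y' := by
  have h1 : (y - y') * (1 - (y + y')) = 0 := by linear_combination h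
  have h2 : (1 - (y + y')) ≠ 0 := by
    intro h3
    have := congrArg (coeff 0) h3
    rw [map_sub, map_add, hy, hy', map_zero] at this
    simp at this
  exact sub_eq_zero.1 ((mul_eq_zero.1 h1).resolve_right h2)

variable {k K : Type*} [Field k] [CharZero k] [Field K] [CharZero K] [Algebra k K]
  [Algebra (Polynomial k) K] [IsScalarTower k (Polynomial k) K]

variable (k K) in
/-- the parameter -/
def aK : K := algebraMap (Polynomial k) K Polynomial.X

theorem algMap_C (c : k) : algebraMap (Polynomial k) K (Polynomial.C c) = algebraMap k K c := by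
  rw [IsScalarTower.algebraMap_apply k (Polynomial k) K, Polynomial.algebraMap_eq]

theorem map_map_C (s : k⟦X⟧) : PowerSeries.map (algebraMap (Polynomial k) K)
    (PowerSeries.map Polynomial.C s) = PowerSeries.map (algebraMap k K) s := by
  ext n
  rw [coeff_map, coeff_map, coeff_map, algMap_C]

theorem bd_Rel {N m D : ℕ} {v : Polynomial k} {z : k⟦X⟧} (h : Good N m v z) {β : K}
    {A H B Cc : Polynomial K} {d : K} (hA : ∀ t, Bd k D (β * A.coeff t))
    (hH : ∀ t, Bd k D (β * H.coeff t)) (hB : ∀ t, Bd k D (β * B.coeff t))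
    (hC : ∀ t, Bd k D (β * Cc.coeff t)) (hd : Bd k D (β * d)) (μ : ℕ) :
    Bd k D (β * Rel N (v.map (algebraMap k K)) (PowerSeries.map (algebraMap k K) z)
      A H B Cc d μ) := by
  have e1 : inv1 (Polynomial.aeval (PowerSeries.map (algebraMap k K) z)
      (Polynomial.derivative (v.map (algebraMap k K)))) = PowerSeries.map (algebraMap k K)
        (inv1 (Polynomial.aeval z (Polynomial.derivative v))) := by
    rw [inv1_map _ h.p0, map_aeval', Polynomial.derivative_map]
  have e2 : rec' (Polynomial.aeval (PowerSeries.map (algebraMap k K) z)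
      (v.map (algebraMap k K))) = PowerSeries.map (algebraMap k K)
        (rec' (Polynomial.aeval z v)) := by
    rw [rec'_map _ h.φ1, map_aeval']
  have e3 : Polynomial.aeval (PowerSeries.map (algebraMap k K) z)
      (v.map (algebraMap k K)) = PowerSeries.map (algebraMap k K)
        (Polynomial.aeval z v) := by
    rw [map_aeval']
  rw [Rel, e1, e2, e3, ← map_pow, ← map_mul, coeff_map, add_mul, map_add, mul_assoc, ← map_mul]
  have c1 : ((μ : K) + 1) = algebraMap k K ((μ : k) + 1) := by simp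
  have c2 : ((μ : K) - N) = algebraMap k K ((μ : k) - N) := by simp
  rw [c1, c2, ← map_pow, ← map_div₀, div_eq_mul_inv, div_eq_mul_inv, ← map_inv₀, ← map_inv₀,
    mul_add, mul_add, mul_add, mul_add]
  refine (((Bd.add ?_ ?_).add ?_).add ?_).add ?_
  · exact bd_coeff hA z _ _
  · exact bd_coeff hH z _ _
  · rw [← mul_assoc]
    exact (bd_coeff hB z _ _).mul _
  · rw [← mul_assoc]
    exact (bd_coeff hC z _ _).mul _
  · rw [← mul_assoc]
    exact hd.mul _

theorem ne_zero_aK [IsFractionRing (Polynomial k) K] : aK k K ≠ 0 := by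
  rw [aK, Ne, map_eq_zero_iff _ (IsFractionRing.injective (Polynomial k) K)]
  exact Polynomial.X_ne_zero

theorem trans_aK [IsFractionRing (Polynomial k) K] : Transcendental k ((4 * aK k K)⁻¹) := by
  intro h
  have h1 : IsAlgebraic k (4 * aK k K) := by
    have := h.inv
    rwa [inv_inv] at this
  have h2 : IsAlgebraic k (aK k K) := by
    have h3 : IsAlgebraic k (algebraMap k K (4⁻¹ : k)) := isAlgebraic_algebraMap _
    have h4 := h3.mul h1
    have h5 : algebraMap k K (4⁻¹ : k) * (4 * aK k K) = aK k K := by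
      rw [map_inv₀, map_ofNat, ← mul_assoc, inv_mul_cancel₀ (by norm_num), one_mul]
    rwa [h5] at h4
  have h6 : IsAlgebraic k (Polynomial.X : Polynomial k) :=
    (isAlgebraic_algebraMap_iff (IsFractionRing.injective (Polynomial k) K)).1 h2
  exact Polynomial.transcendental_X k h6

theorem coprime_tP [IsFractionRing (Polynomial k) K] {Q : Polynomial k} (hQ : Q ≠ 0) :
    IsCoprime (tP (aK k K)) (Q.map (algebraMap k K)) := by
  set τ : K := (4 * aK k K)⁻¹ with hτ
  have ha : (4 * aK k K) ≠ 0 := mul_ne_zero (by norm_num) ne_zero_aK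
  have hne : (Q.map (algebraMap k K)).eval τ ≠ 0 := by
    intro h0
    apply trans_aK (k := k) (K := K)
    refine ⟨Q, hQ, ?_⟩
    rw [Polynomial.aeval_def, ← Polynomial.eval_map]
    exact h0
  set c := (Q.map (algebraMap k K)).eval τ with hc
  obtain ⟨R, hR⟩ := Polynomial.X_sub_C_dvd_sub_C_eval (a := τ) (p := Q.map (algebraMap k K))
  rw [← hc] at hR
  refine ⟨Polynomial.C (c⁻¹ * τ) * R, Polynomial.C c⁻¹, ?_⟩
  have e1 : Polynomial.C τ * tP (aK k K) = -(Polynomial.X - Polynomial.C τ) := by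
    rw [tP, mul_sub, mul_one, ← mul_assoc, ← Polynomial.C_mul, hτ, inv_mul_cancel₀ ha]
    simp
  have e2 : Polynomial.C (c⁻¹ * τ) = Polynomial.C c⁻¹ * Polynomial.C τ := Polynomial.C_mul
  have e3 : Polynomial.C c⁻¹ * Polynomial.C c = 1 := by
    rw [← Polynomial.C_mul, inv_mul_cancel₀ hne, Polynomial.C_1]
  rw [e2]
  linear_combination (Polynomial.C c⁻¹ * R) * e1 + Polynomial.C c⁻¹ * hR + e3

theorem Good.p_ne {N m : ℕ} {v : Polynomial k} {z : k⟦X⟧} (h : Good N m v z) :
    Polynomial.derivative v ≠ 0 := by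
  intro h0
  have := congrArg (fun P => Polynomial.coeff P 0) h0
  simp [Polynomial.coeff_derivative, h.v1] at this

theorem Good.F_ne {N m : ℕ} {v : Polynomial k} {z : k⟦X⟧} (h : Good N m v z) (hN : 1 ≤ N) :
    v * (1 - v ^ N) ≠ 0 := by
  intro h0
  have := congrArg (fun P => Polynomial.coeff P 1) h0
  have hv : v.eval 0 = 0 := by rw [← Polynomial.coeff_zero_eq_eval_zero]; exact h.v0
  simp only [Polynomial.coeff_zero] at this
  have h1 : (v * (1 - v ^ N)).coeff 1 = 1 := by
    have h2 : (Polynomial.derivative (v * (1 - v ^ N))).coeff 0 = 1 := by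
      rw [Polynomial.coeff_zero_eq_eval_zero, Polynomial.derivative_mul]
      simp only [Polynomial.eval_add, Polynomial.eval_mul, Polynomial.eval_sub,
        Polynomial.eval_one, Polynomial.eval_pow, hv, zero_mul, add_zero]
      rw [zero_pow (by omega), sub_zero, mul_one, ← Polynomial.coeff_zero_eq_eval_zero,
        Polynomial.coeff_derivative]
      simp [h.v1]
    rw [Polynomial.coeff_derivative] at h2
    simpa using h2
  rw [h1] at this
  exact one_ne_zero this

/-- the series over `k[a]` -/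
theorem seriesA {N m : ℕ} {v : Polynomial k}
    {z : k⟦X⟧} (h : Good N m v z) {x : K⟦X⟧}
    (hx : x - C (aK k K) * x ^ 2 = PowerSeries.map (algebraMap k K) z) (hx0 : coeff 0 x = 0) :
    ∃ uA uiA : (Polynomial k)⟦X⟧, coeff 0 uA = 1 ∧
      uA ^ 2 = 1 - C (a4 k) * PowerSeries.map Polynomial.C z ∧ Gr uA ∧ uA * uiA = 1 ∧
      PowerSeries.map (algebraMap (Polynomial k) K) uiA = inv1 (uS (aK k K) x) := by
  obtain ⟨y, hy0, hy⟩ := exists_quad (B := Polynomial k)
    (s := C Polynomial.X * PowerSeries.map Polynomial.C z) (by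
      refine dvd_mul_of_dvd_right ?_ _
      rw [X_dvd_iff, ← coeff_zero_eq_constantCoeff_apply, coeff_map, h.z0, map_zero])
  have hymap : PowerSeries.map (algebraMap (Polynomial k) K) y = C (aK k K) * x := by
    refine quad_unique ?_ ?_ ?_
    · rw [coeff_map, hy0, map_zero]
    · rw [coeff_C_mul, hx0, mul_zero]
    · have h1 := congrArg (PowerSeries.map (algebraMap (Polynomial k) K)) hy
      rw [map_sub, map_pow, map_mul, PowerSeries.map_C, map_map_C] at h1
      rw [h1]
      change C (aK k K) * PowerSeries.map (algebraMap k K) z = _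
      rw [← hx]
      ring
  have huA0 : coeff 0 (1 - (y + y) : (Polynomial k)⟦X⟧) = 1 := by
    rw [map_sub, map_add, hy0]
    simp
  have hGy : Gr y := by
    refine gr_of_quad hy0 hy fun n => ?_
    rw [coeff_C_mul, coeff_map]
    rcases n with _ | n
    · rw [h.z0]; simp
    · refine Polynomial.natDegree_mul_le.trans ?_
      rw [Polynomial.natDegree_X, Polynomial.natDegree_C]
      omega
  refine ⟨1 - (y + y), inv1 (1 - (y + y)), huA0, ?_, gr_one.sub (hGy.add hGy), inv1_mul huA0, ?_⟩
  · have e4 : (C (a4 k) : (Polynomial k)⟦X⟧) = 4 * C Polynomial.X := by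
      rw [a4, map_mul, show (Polynomial.C (4 : k)) = (4 : Polynomial k) from map_ofNat _ 4,
        map_ofNat]
    rw [e4, mul_assoc, ← hy]
    ring
  · rw [inv1_map _ huA0]
    congr 1
    rw [map_sub, map_one, map_add, hymap, uS, map_mul, map_ofNat]
    ring

/-- common denominators -/
theorem denoms [IsFractionRing (Polynomial k) K] {τ : Type*} [Fintype τ] (Q : τ → Polynomial K) :
    ∃ b : Polynomial k, b ≠ 0 ∧ ∃ D, ∀ j t, Bd k D (algebraMap (Polynomial k) K b *
      (Q j).coeff t) := by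
  classical
  obtain ⟨b, hb0, D, hD⟩ := exists_denom (k := k) (K := K)
    (Finset.univ.biUnion fun j => (Q j).coeffs)
  refine ⟨b, hb0, D, fun j t => ?_⟩
  rcases eq_or_ne ((Q j).coeff t) 0 with h0 | h0
  · rw [h0, mul_zero]; exact bd_zero
  · exact hD _ (Finset.mem_biUnion.2 ⟨j, Finset.mem_univ _, Polynomial.coeff_mem_coeffs h0⟩)

theorem lift_poly {D : ℕ} {β : K} {Q : Polynomial K} (h : ∀ t, Bd k D (β * Q.coeff t)) :
    ∃ R : Polynomial (Polynomial k), R.map (algebraMap (Polynomial k) K) = Polynomial.C β * Q := by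
  choose r hr1 hr2 using h
  refine ⟨∑ t ∈ Q.support, Polynomial.monomial t (r t), ?_⟩
  rw [Polynomial.map_sum]
  conv_rhs => rw [Q.as_sum_support]
  rw [Finset.mul_sum]
  refine Finset.sum_congr rfl fun t _ => ?_
  rw [Polynomial.map_monomial, hr2, Polynomial.C_mul_monomial]

/-- evaluation of the lift -/
theorem eval_lift {β : K} {R : Polynomial (Polynomial k)} {Q : Polynomial K}
    (h : R.map (algebraMap (Polynomial k) K) = Polynomial.C β * Q) (z : k⟦X⟧) :
    PowerSeries.map (algebraMap (Polynomial k) K)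
      (Polynomial.eval₂ (C (R := Polynomial k)) (PowerSeries.map Polynomial.C z) R) =
      C β * Polynomial.aeval (PowerSeries.map (algebraMap k K) z) Q := by
  rw [Polynomial.hom_eval₂, map_map_C]
  have e5 : (PowerSeries.map (algebraMap (Polynomial k) K)).comp
      (C (R := Polynomial k)) = (C (R := K)).comp (algebraMap (Polynomial k) K) := by
    refine RingHom.ext fun r => ?_
    rw [RingHom.comp_apply, RingHom.comp_apply, PowerSeries.map_C]
  rw [e5, ← Polynomial.eval₂_map, h, Polynomial.eval₂_mul, Polynomial.eval₂_C]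
  rfl

/-- the odd part vanishes -/
theorem RR_zero [IsFractionRing (Polynomial k) K] {N m : ℕ} {v : Polynomial k}
    {z : k⟦X⟧} (h : Good N m v z) {x : K⟦X⟧}
    (hx : x - C (aK k K) * x ^ 2 = PowerSeries.map (algebraMap k K) z) (hx0 : coeff 0 x = 0)
    {ι : Type} [Fintype ι] {κ : ι → ℚ} (hκ1 : ∀ j, ∀ z : ℤ, κ j ≠ z)
    (hκ2 : ∀ i j, i ≠ j → ∀ z : ℤ, κ i - κ j ≠ z)
    (Ae Ho Bo Co : ι → Polynomial K) (d : ι → K) (Ao He Be Ce : ι → Polynomial K)
    (hrel : ∀ᶠ μ : ℕ in atTop, ∑ j, ((hyp (κ j) μ : ℚ) : K) *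
      (Rel N (v.map (algebraMap k K)) (PowerSeries.map (algebraMap k K) z)
        (Ae j) (Ho j) (Bo j) (Co j) (d j) μ +
      OD (PowerSeries.map (algebraMap k K) z)
        (rec' (Polynomial.aeval (PowerSeries.map (algebraMap k K) z) (v.map (algebraMap k K))))
        (uS (aK k K) x) (inv1 (uS (aK k K) x))
        (inv1 (Polynomial.aeval (PowerSeries.map (algebraMap k K) z)
          (Polynomial.derivative (v.map (algebraMap k K)))))
        (Ao j) (He j) (Be j) (Ce j) μ) = 0) (j : ι) :
    RP (aK k K) (Polynomial.derivative (v.map (algebraMap k K)))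
      (v.map (algebraMap k K) * (1 - v.map (algebraMap k K) ^ N))
      (tP (aK k K) * Ao j * Polynomial.derivative (v.map (algebraMap k K)) + He j)
      (Be j) (Ce j) = 0 := by
  have hL := levelData (h.map (K := K)) hx hx0
  obtain ⟨uA, uiA, huA0, huA2, hGuA, huiA, huimap⟩ := seriesA h hx hx0
  set v' := v.map (algebraMap k K) with hv'
  set z' := PowerSeries.map (algebraMap k K) z with hz'
  set RR : ι → Polynomial K := fun j => RP (aK k K) (Polynomial.derivative v')
    (v' * (1 - v' ^ N))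
    (tP (aK k K) * Ao j * Polynomial.derivative v' + He j) (Be j) (Ce j) with hRR
  obtain ⟨b, hb0, D, hD⟩ := denoms (k := k) (K := K) (τ := ι × Fin 6) (fun x =>
    ![Ae x.1, Ho x.1, Bo x.1, Co x.1, Polynomial.C (d x.1), RR x.1] x.2)
  set β := algebraMap (Polynomial k) K b with hβ
  have hbA : ∀ j t, Bd k D (β * (Ae j).coeff t) := fun j => hD (j, 0)
  have hbH : ∀ j t, Bd k D (β * (Ho j).coeff t) := fun j => hD (j, 1)
  have hbB : ∀ j t, Bd k D (β * (Bo j).coeff t) := fun j => hD (j, 2)
  have hbC : ∀ j t, Bd k D (β * (Co j).coeff t) := fun j => hD (j, 3)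
  have hbd : ∀ j, Bd k D (β * d j) := fun j => by
    have := hD (j, 4) 0
    simpa using this
  have hbR : ∀ j t, Bd k D (β * (RR j).coeff t) := fun j => hD (j, 5)
  choose R' hR'map using fun j => lift_poly (hbR j)
  have heven : ∀ μ : ℕ, ∃ e : Polynomial k, e.natDegree ≤ D ∧ algebraMap (Polynomial k) K e =
      -(((μ : K) + 1) ^ 2 * (β * ∑ j, ((hyp (κ j) μ : ℚ) : K) *
        Rel N v' z' (Ae j) (Ho j) (Bo j) (Co j) (d j) μ)) := by
    intro μ
    have e1 : -(((μ : K) + 1) ^ 2 * (β * ∑ j, ((hyp (κ j) μ : ℚ) : K) *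
        Rel N v' z' (Ae j) (Ho j) (Bo j) (Co j) (d j) μ)) =
        ∑ j, (β * Rel N v' z' (Ae j) (Ho j) (Bo j) (Co j) (d j) μ) *
          algebraMap k K (-(((μ : k) + 1) ^ 2 * ((hyp (κ j) μ : ℚ) : k))) := by
      rw [Finset.mul_sum, Finset.mul_sum, ← Finset.sum_neg_distrib]
      refine Finset.sum_congr rfl fun j _ => ?_
      simp only [map_neg, map_mul, map_pow, map_add, map_natCast, map_one, map_ratCast]
      ring
    rw [e1]
    exact Bd.sum _ fun j _ => (bd_Rel h (hbA j) (hbH j) (hbB j) (hbC j) (hbd j) μ).mul _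
  choose e he1 he2 using heven
  set G : k⟦X⟧ := rec' (Polynomial.aeval z v) *
    inv1 (Polynomial.aeval z (Polynomial.derivative v)) ^ 5 with hG
  have hGmap : PowerSeries.map (algebraMap k K) G = rec' (Polynomial.aeval z' v') *
      inv1 (Polynomial.aeval z' (Polynomial.derivative v')) ^ 5 := by
    rw [hG, map_mul, map_pow, rec'_map _ h.φ1, map_aeval', inv1_map _ h.p0, map_aeval',
      ← Polynomial.derivative_map]
  have hG0 : coeff 0 G = 1 := by
    have e1 : constantCoeff (rec' (Polynomial.aeval z v)) = 1 := by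
      rw [rec', constantCoeff_invOfUnit]; simp
    have e2 : constantCoeff (inv1 (Polynomial.aeval z (Polynomial.derivative v))) = 1 := by
      rw [inv1, constantCoeff_invOfUnit]; simp
    rw [hG, coeff_zero_eq_constantCoeff_apply, map_mul, map_pow, e1, e2]
    simp
  generalize hρ : rec' (Polynomial.aeval z' v') = ρ at *
  generalize hu : uS (aK k K) x = u at *
  generalize hui : inv1 u = ui at *
  generalize hpi : inv1 (Polynomial.aeval z' (Polynomial.derivative v')) = pi at *
  have hrel2 : ∀ᶠ μ : ℕ in atTop, ∑ j, Polynomial.C (((hyp (κ j) μ : ℚ) : k)) *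
      coeff (μ + 1) (PowerSeries.map Polynomial.C G * uiA ^ 5 *
        Polynomial.eval₂ (C (R := Polynomial k)) (PowerSeries.map Polynomial.C z) (R' j)) =
        e μ := by
    filter_upwards [hrel] with μ hμ
    apply IsFractionRing.injective (Polynomial k) K
    rw [he2, map_sum]
    have e3 : ∀ j ∈ Finset.univ, algebraMap (Polynomial k) K
        (Polynomial.C (((hyp (κ j) μ : ℚ) : k)) * coeff (μ + 1)
        (PowerSeries.map Polynomial.C G * uiA ^ 5 *
          Polynomial.eval₂ (C (R := Polynomial k)) (PowerSeries.map Polynomial.C z) (R' j))) =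
        ((μ : K) + 1) ^ 2 * (β * (((hyp (κ j) μ : ℚ) : K) *
          OD z' ρ u ui pi (Ao j) (He j) (Be j) (Ce j) μ)) := by
      intro j _
      have e9 : PowerSeries.map (algebraMap (Polynomial k) K)
          (PowerSeries.map Polynomial.C G * uiA ^ 5 * Polynomial.eval₂ (C (R := Polynomial k))
            (PowerSeries.map Polynomial.C z) (R' j)) =
          ρ * pi ^ 5 * ui ^ 5 * (C β * Polynomial.aeval z' (RR j)) := by
        rw [map_mul, map_mul, map_map_C, hGmap, map_pow, huimap, eval_lift (hR'map j)]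
      rw [map_mul, ← coeff_map, e9, algMap_C, map_ratCast]
      have e6 := OD_eq hL (Ao j) (He j) (Be j) (Ce j) μ
      have e7 : ρ * pi ^ 5 * ui ^ 5 * (C β * Polynomial.aeval z' (RR j)) =
          C β * (ρ * pi ^ 5 * ui ^ 5 * Polynomial.aeval z' (RR j)) := by ring
      rw [e7, coeff_C_mul]
      have e8 : ((μ : K) + 1) ^ 2 * OD z' ρ u ui pi (Ao j) (He j) (Be j) (Ce j) μ =
        coeff (μ + 1) (ρ * pi ^ 5 * ui ^ 5 * Polynomial.aeval z' (RR j)) := e6
      rw [← e8]
      ring
    rw [Finset.sum_congr rfl e3, ← Finset.mul_sum, ← Finset.mul_sum]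
    have e8 : ∑ j, ((hyp (κ j) μ : ℚ) : K) * Rel N v' z' (Ae j) (Ho j) (Bo j) (Co j) (d j) μ +
        ∑ j, ((hyp (κ j) μ : ℚ) : K) * OD z' ρ u ui pi (Ao j) (He j) (Be j) (Ce j) μ = 0 := by
      rw [← Finset.sum_add_distrib, ← hμ]
      refine Finset.sum_congr rfl fun j _ => ?_
      ring
    linear_combination (((μ : K) + 1) ^ 2 * β) * e8
  have hsep := separation (k := k) hκ1 hκ2 h.z0 h.z1 hG0 huA0 huA2 hGuA huiA (R := R') he1 hrel2
  have hβ0 : β ≠ 0 := by
    rw [hβ, Ne, map_eq_zero_iff _ (IsFractionRing.injective (Polynomial k) K)]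
    exact hb0
  have e1 := hR'map j
  rw [hsep j, Polynomial.map_zero] at e1
  exact (mul_eq_zero.1 e1.symm).resolve_left (Polynomial.C_ne_zero.2 hβ0)

/-- **level step** -/
theorem TT.level [IsFractionRing (Polynomial k) K] {N m : ℕ} (hN : 1 ≤ N) {v : Polynomial k}
    {z : k⟦X⟧} (h : Good N m v z) (hT : TT N m v z) {x : K⟦X⟧}
    (hx : x - C (aK k K) * x ^ 2 = PowerSeries.map (algebraMap k K) z) (hx0 : coeff 0 x = 0) :
    TT N (2 * m) (nextP (aK k K) (v.map (algebraMap k K))) x := by
  have ha0 : aK k K ≠ 0 := ne_zero_aK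
  have h' : Good N m (v.map (algebraMap k K)) (PowerSeries.map (algebraMap k K) z) := h.map
  have hT' : TT N m (v.map (algebraMap k K)) (PowerSeries.map (algebraMap k K) z) :=
    hT.base h.p0 h.φ1 h.v1
  intro ι _ κ hκ1 hκ2 A H B Cc d hA hH hB hC hrel
  have hm := h.hm
  have hmN : 2 * m * N = 2 * (m * N) := by ring
  choose Ae Ao hAe hAo hAeq using fun j => split ha0 (2 * m * N) (A j) (hA j)
  choose He Ho hHe hHo hHeq using fun j => split ha0 (2 * m - 1) (H j)
    (fun t ht => hH j t (by omega))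
  choose Be Bo hBe hBo hBeq using fun j => split ha0 (2 * m * N + 2 * m - 1) (B j)
    (fun t ht => hB j t (by omega))
  choose Ce Co hCe hCo hCeq using fun j => split ha0 (2 * m * N) (Cc j) (hC j)
  have hrel2 := hrel
  simp only [fun j μ => Rel_split h' hx hx0 (d := d j) (hAeq j) (hHeq j) (hBeq j) (hCeq j) μ]
    at hrel2
  have hRR := RR_zero h hx hx0 hκ1 hκ2 Ae Ho Bo Co d Ao He Be Ce hrel2
  have hcop1 : IsCoprime (tP (aK k K)) (Polynomial.derivative (v.map (algebraMap k K))) := by
    rw [Polynomial.derivative_map]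
    exact coprime_tP h.p_ne
  have hcop2 : IsCoprime (tP (aK k K)) (v.map (algebraMap k K) *
      (1 - v.map (algebraMap k K) ^ N)) := by
    have := coprime_tP (K := K) (h.F_ne hN)
    simpa using this
  have halg : ∀ j, Ao j = 0 ∧ He j = 0 ∧ Be j = 0 ∧ Ce j = 0 := fun j =>
    alg_main ha0 hN hm h'.deg h'.c1 h'.c2 hcop1 hcop2
      (fun t ht => hAo j t (by omega)) (fun t ht => hHe j t (by omega))
      (fun t ht => hBe j t (by omega)) (fun t ht => hCe j t (by omega)) (hRR j)
  have hrel3 : ∀ᶠ μ : ℕ in atTop, ∑ j, ((hyp (κ j) μ : ℚ) : K) *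
      Rel N (v.map (algebraMap k K)) (PowerSeries.map (algebraMap k K) z)
        (Ae j) (Ho j) (Bo j) (Co j) (d j) μ = 0 := by
    filter_upwards [hrel2] with μ hμ
    rw [← hμ]
    refine Finset.sum_congr rfl fun j _ => ?_
    obtain ⟨e1, e2, e3, e4⟩ := halg j
    rw [e1, e2, e3, e4, OD]
    simp
  have hfin := hT' ι κ hκ1 hκ2 Ae Ho Bo Co d (fun j t ht => hAe j t (by omega))
    (fun j t ht => hHo j t (by omega)) (fun j t ht => hBo j t (by omega))
    (fun j t ht => hCo j t (by omega)) hrel3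
  intro j
  obtain ⟨e1, e2, e3, e4⟩ := halg j
  obtain ⟨⟨c1, f1⟩, f2, ⟨c3, f3⟩, ⟨c4, f4⟩, f5⟩ := hfin j
  have hder : Polynomial.derivative (nextP (aK k K) (v.map (algebraMap k K))) =
      (1 - Polynomial.C (2 * aK k K) * Polynomial.X) *
        (Polynomial.derivative (v.map (algebraMap k K))).comp (sP (aK k K)) := by
    rw [nextP, Polynomial.derivative_comp, sP_deriv]
  refine ⟨⟨c1, ?_⟩, ?_, ⟨c3, ?_⟩, ⟨c4, ?_⟩, f5⟩
  · rw [hAeq j, e1, f1, nextP]
    simp
  · rw [hHeq j, e2, f2]
    simp
  · rw [hBeq j, e3, f3, hder]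
    simp only [Polynomial.zero_comp, zero_add, Polynomial.mul_comp, Polynomial.C_comp]
    ring
  · rw [hCeq j, e4, f4, hder]
    simp only [Polynomial.zero_comp, zero_add, Polynomial.mul_comp, Polynomial.C_comp]
    ring

end

end Pool.Agent.helper59.LD
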