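import Pool.Agent.helper59.LD.FT

/-!
# The Melnikov function of the general family
-/

open Set Filter Topology PowerSeries Asymptotics

set_option linter.unusedSectionVars false

namespace Pool.Agent.helper59.LD

open LC

noncomputable section

/-- derivative of the Melnikov integral -/
theorem int_AA_deriv {G : ℂ → ℂ} {R : ℝ} (hGd : ContDiffOn ℝ 1 G {w | 0 < ‖w‖ ∧ ‖w‖ < R})
    {r : ℝ} (hr : 0 < r) (hrR : r < R) :
    HasDerivAt (fun x => ∫ θ in (0 : ℝ)..(2 * Real.pi), AA G θ x)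
      (∫ θ in (0 : ℝ)..(2 * Real.pi), deriv (AA G θ) r) r := by
  obtain ⟨hcA, -⟩ := contDiffOn_AA le_rfl hGd
  obtain ⟨A', hA'd, hA'c, hA'b, -⟩ := per_data hcA (AA_per G)
  obtain ⟨α, β, hα, hαr, hrβ, hβ⟩ : ∃ α β, 0 < α ∧ α < r ∧ r < β ∧ β < R :=
    ⟨r / 2, (r + R) / 2, by positivity, by linarith, by linarith, by linarith⟩
  obtain ⟨C, hC⟩ := hA'b α β hα hβ
  have hAc : ∀ x, 0 < x → x < R → Continuous fun θ => AA G θ x := fun x hx1 hx2 =>
    hcA.continuousOn.comp_continuous (f := fun θ : ℝ => (θ, x))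
      (continuous_id.prodMk continuous_const) fun θ => ⟨hx1, hx2⟩
  have hA'cr : Continuous fun θ => A' θ r :=
    hA'c.comp_continuous (f := fun θ : ℝ => (θ, r))
      (continuous_id.prodMk continuous_const) fun θ => ⟨hr, hrR⟩
  have key := intervalIntegral.hasDerivAt_integral_of_dominated_loc_of_deriv_le
    (μ := MeasureTheory.volume) (a := 0) (b := 2 * Real.pi)
    (F := fun x θ => AA G θ x) (F' := fun x θ => A' θ x) (x₀ := r) (s := Ioo α β)
    (bound := fun _ => C) (Ioo_mem_nhds hαr hrβ)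
    (by
      filter_upwards [Ioo_mem_nhds hαr hrβ] with x hx
      exact (hAc x (hα.trans hx.1) (hx.2.trans hβ)).aestronglyMeasurable)
    ((hAc r hr hrR).intervalIntegrable _ _)
    hA'cr.aestronglyMeasurable
    (Eventually.of_forall fun θ _ x hx => (hC θ x hx.1.le hx.2.le).2)
    intervalIntegrable_const
    (Eventually.of_forall fun θ _ x hx => hA'd θ x (hα.trans hx.1) (hx.2.trans hβ))
  refine key.2.congr_deriv ?_
  refine intervalIntegral.integral_congr fun θ _ => ?_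
  exact (hA'd θ r hr hrR).deriv.symm

theorem AA_cont {G : ℂ → ℂ} {R : ℝ} (hGd : ContDiffOn ℝ 1 G {w | 0 < ‖w‖ ∧ ‖w‖ < R})
    {r : ℝ} (hr : 0 < r) (hrR : r < R) : Continuous fun θ => AA G θ r := by
  obtain ⟨hcA, -⟩ := contDiffOn_AA le_rfl hGd
  exact hcA.continuousOn.comp_continuous (f := fun θ : ℝ => (θ, r))
      (continuous_id.prodMk continuous_const) fun θ => ⟨hr, hrR⟩

theorem G_cont {G : ℂ → ℂ} {R : ℝ} (hGd : ContinuousOn G (Metric.ball 0 R))
    {r : ℝ} (hr : 0 < r) (hrR : r < R) :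
    Continuous fun θ : ℝ => G ((r : ℂ) * Complex.exp (θ * Complex.I)) := by
  refine hGd.comp_continuous (by fun_prop) fun θ => ?_
  rw [mem_ball_zero_iff, norm_polar hr]
  exact hrR

theorem int_AA_re {G : ℂ → ℂ} {R : ℝ} (hGd : ContinuousOn G (Metric.ball 0 R))
    {r : ℝ} (hr : 0 < r) (hrR : r < R) :
    ∫ θ in (0 : ℝ)..(2 * Real.pi), AA G θ r =
      (∫ θ in (0 : ℝ)..(2 * Real.pi), Complex.exp (-(θ * Complex.I)) *
      G (r * Complex.exp (θ * Complex.I))).re := by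
  have hcexp : Continuous fun θ : ℝ => Complex.exp (-(θ * Complex.I)) := by fun_prop
  have hGc := hcexp.mul (G_cont hGd hr hrR)
  have := Complex.reCLM.intervalIntegral_comp_comm (μ := MeasureTheory.volume)
    (hGc.intervalIntegrable 0 (2 * Real.pi))
  exact this

theorem int_psi_rec {g : Polynomial ℂ} {R : ℝ} (h1 : Conv R (psi g))
    (h2 : Conv R (rec' (psi g))) {r : ℝ} (hr : 0 < r) (hrR : r < R) :
    ∫ θ in (0 : ℝ)..(2 * Real.pi), Complex.exp (-(θ * Complex.I)) *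
      (ev (r * Complex.exp (θ * Complex.I)) (rec' (psi g)) *
        ev (r * Complex.exp (θ * Complex.I)) (psi g)) = 2 * Real.pi * r := by
  have c1 : Conv r (psi g) := h1.mono hr.le hrR.le
  have c2 : Conv r (rec' (psi g)) := h2.mono hr.le hrR.le
  have c3 : Conv r (1 : ℂ⟦X⟧) := by
    have := conv_C r 1
    rwa [map_one] at this
  have hf := fourier hr (c1.mul hr.le c2) c3
  have e2 : (PowerSeries.mk fun m => coeff (m + 1) (psi g * rec' (psi g)) *
      starRingEnd ℂ (coeff m (1 : ℂ⟦X⟧))) = 1 := by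
    ext m
    rw [coeff_mk, coeff_one]
    rcases m with _ | m
    · have h3 := (isPsi_psi g).mul_rec
      have h4 := (isPsi_psi g).2.1
      have h0 : coeff 0 (psi g) = 0 := by
        have := (isPsi_psi g).1
        rwa [X_dvd_iff, ← coeff_zero_eq_constantCoeff_apply] at this
      have h5 : coeff 0 (rec' (psi g)) = 1 := by
        have h6 := congrArg (coeff 0) h3
        simpa [coeff_mul, coeff_derivative, h4] using h6
      rw [coeff_mul, Finset.Nat.sum_antidiagonal_eq_sum_range_succ_mk]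
      simp [Finset.sum_range_succ, h0, h4, h5]
    · simp
  rw [e2, ev_one, mul_one] at hf
  rw [← hf]
  refine intervalIntegral.integral_congr fun θ _ => ?_
  rw [ev_one, map_one, mul_one, ev_mul c1 c2 (norm_polar hr θ).le]
  ring

variable {n K : ℕ} (R : RPt n K)

/-- the formal expansion -/
def PhH (H : MvPolynomial (Fin 2) ℂ) : (LaurentPolynomial ℂ)⟦X⟧ :=
  emb (eI 0) (rec' (psi (R.g 0))) * ev2 (xy R.p R.g) (Sc R.p (pr H)) *
    inv1 (ev2 (xy R.p R.g) (Jac R.p * R.lam))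

theorem tc_PhH (H : MvPolynomial (Fin 2) ℂ) (μ : ℕ) :
    tc 1 μ (PhH R H) = MMp R.p R.g R.lam (pr H) 0 μ := rfl

section local_
variable {e : OpenPartialHomeomorph ℂ ℂ} {r C : ℝ} {U : Set ℂ} (hr : 0 < r)
  (h1 : Conv r (psi (R.g 0))) (h2 : Conv r (rec' (psi (R.g 0))))
  (hP : ∀ w ∈ Metric.ball (0 : ℂ) r, Ez (PP R.p 0) (e w) = ev w (psi (R.g 0)) ∧
        0 < (Ez (Jac R.p * R.lam) (e w)).re ∧ 0 < (Ez (Jac R.p) (e w)).re ∧
        ‖e w‖ ≤ C * ‖w‖ ∧ e w ∈ U)
  (hcd : ContDiffOn ℝ 1 e (Metric.ball 0 r))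

theorem wF_ball (hr : 0 < r) : ∀ᶠ q in lF, wF q ∈ Metric.ball (0 : ℂ) r := by
  filter_upwards [ev_pos, ev_small hr] with q hq1 hq2
  rw [mem_ball_zero_iff, norm_wF hq1]
  exact hq2

include hr h1 h2 hP hcd

theorem ex_z (N : ℕ) (i : Fin 2) : Ex N (fun q => zz (e (wF q)) i) (xy R.p R.g i) := by
  have hzO : ∀ i, (fun q => zz (e (wF q)) i) =O[lF] (fun p => rF p ^ 1) := by
    intro i
    refine IsBigO.of_bound C ?_
    filter_upwards [ev_pos, wF_ball hr] with q hq1 hq2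
    obtain ⟨-, -, -, h3, -⟩ := hP _ hq2
    rw [norm_wF hq1] at h3
    have h4 : ‖zz (e (wF q)) i‖ = ‖e (wF q)‖ := by
      rw [zz]
      split_ifs
      · rfl
      · exact RCLike.norm_conj _
    rw [h4, pow_one, Real.norm_eq_abs, abs_of_pos hq1]
    exact h3
  have hw : ∀ N i, Ex N (fun q => zz (ev (wF q) (psi (R.g 0))) i) (rhs R.g i) := by
    intro N i
    fin_cases i
    · exact ex_emb hr h1 N
    · have h3 := (ex_emb hr h1 N).conj
      rw [inl_emb, psi_map] at h3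
      have h5 : (R.g 0).map (starRingEnd ℂ) = R.g 1 := R.greal 0
      rw [h5] at h3
      exact h3
  refine ex_sol R.low hzO hw (fun i => ?_) N i
  filter_upwards [wF_ball hr] with q hq2
  obtain ⟨h3, -⟩ := hP _ hq2
  have h4 : Ez (PP R.p i) (e (wF q)) = zz (ev (wF q) (psi (R.g 0))) i := by
    fin_cases i
    · exact h3
    · have h5 : PP R.p 1 = csw (PP R.p 0) := (csw_PP R.preal 0).symm
      change Ez (PP R.p 1) (e (wF q)) = starRingEnd ℂ (ev (wF q) (psi (R.g 0)))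
      rw [h5, Ez_csw, h3]
  rw [← h4, PP, Ez_add, Ez_X]
  rfl

theorem ex_G2 (H : MvPolynomial (Fin 2) ℂ) (N : ℕ) :
    Ex N (fun q => G2 R e H (wF q)) (PhH R H) := by
  have hz := fun i => ex_z R hr h1 h2 hP hcd N i
  have h3 : Ex N (fun q => Ez (Sc R.p (pr H)) (e (wF q))) (ev2 (xy R.p R.g) (Sc R.p (pr H))) :=
    ex_ev2 hz _
  have h4 : Ex N (fun q => Ez (Jac R.p * R.lam) (e (wF q)))
      (ev2 (xy R.p R.g) (Jac R.p * R.lam)) := ex_ev2 hz _
  have h5 : Ex N (fun q => ev (wF q) (rec' (psi (R.g 0)))) (emb (eI 0) (rec' (psi (R.g 0)))) :=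
    ex_emb hr h2 N
  have hτ0 : 0 < tau R e 0 := (hP 0 (Metric.mem_ball_self hr)).2.1
  have hτc : ContinuousAt (tau R e) 0 :=
    (tau_cont R h1 h2 hP hcd).continuousAt (Metric.ball_mem_nhds _ hr)
  have hτe : ∀ᶠ w in 𝓝 (0 : ℂ), tau R e 0 / 2 < tau R e w :=
    hτc.eventually (lt_mem_nhds (by linarith))
  obtain ⟨δ, hδ, hball⟩ := Metric.mem_nhds_iff.1 hτe
  have h6 : Ex N (fun q => ((tau R e (wF q) : ℝ) : ℂ)⁻¹)
      (inv1 (ev2 (xy R.p R.g) (Jac R.p * R.lam))) := by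
    refine ex_inv h4 (coeff_zero_Jlam R.low R.g R.lconst) ?_ ?_
    · refine IsBigO.of_bound (tau R e 0 / 2)⁻¹ ?_
      filter_upwards [wF_ball hδ] with q hq
      have h7 : tau R e 0 / 2 < tau R e (wF q) := hball hq
      have h8 : 0 < tau R e 0 / 2 := by linarith
      rw [norm_inv, Complex.norm_real, Real.norm_eq_abs, abs_of_pos (h8.trans h7), norm_one,
        mul_one]
      exact inv_anti₀ h8 h7.le
    · filter_upwards [wF_ball hr] with q hq
      have h7 : Ez (Jac R.p * R.lam) (e (wF q)) = ((tau R e (wF q) : ℝ) : ℂ) := Jlam_real R _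
      rw [h7]
      refine mul_inv_cancel₀ ?_
      have : tau R e (wF q) ≠ 0 := (hP _ hq).2.1.ne'
      exact_mod_cast this
  exact (h5.mul h3).mul h6

end local_

end

end Pool.Agent.helper59.LD
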