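import Pool.Agent.helper59.LD.Mel2

/-!
# The cycles
-/

open Set Filter Topology PowerSeries Asymptotics

set_option linter.unusedSectionVars false

namespace Pool.Agent.helper59.LD

open LC

noncomputable section

variable {n K : ℕ} (R : RPt n K)

/-- combination -/
def Hv {K : ℕ} (H : Fin (K + 1) → MvPolynomial (Fin 2) ℂ) (v : Fin (K + 1) → ℝ) :
    MvPolynomial (Fin 2) ℂ := ∑ i, MvPolynomial.C ((v i : ℝ) : ℂ) * H i

theorem td_Hv {H : Fin (K + 1) → MvPolynomial (Fin 2) ℂ} {n : ℕ} (hH : ∀ i, TD (H i) n)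
    (v : Fin (K + 1) → ℝ) : TD (Hv H v) n := by
  rw [Hv]
  refine TD.sum fun i _ => ?_
  exact ((td_C _ 0).mul (hH i)).mono (by omega)

theorem Sc_Hv (H : Fin (K + 1) → MvPolynomial (Fin 2) ℂ) (v : Fin (K + 1) → ℝ) :
    Sc R.p (pr (Hv H v)) = ∑ i, MvPolynomial.C ((v i : ℝ) : ℂ) * Sc R.p (pr (H i)) := by
  have key : ∀ s : Finset (Fin (K + 1)),
      Sc R.p (pr (∑ i ∈ s, MvPolynomial.C ((v i : ℝ) : ℂ) * H i)) =
        ∑ i ∈ s, MvPolynomial.C ((v i : ℝ) : ℂ) * Sc R.p (pr (H i)) := by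
    intro s
    classical
    induction s using Finset.induction_on with
    | empty =>
      rw [Finset.sum_empty, Finset.sum_empty, Sc, Fin.sum_univ_two]
      have h0 : pr (0 : MvPolynomial (Fin 2) ℂ) 0 = 0 := rfl
      have h1 : pr (0 : MvPolynomial (Fin 2) ℂ) 1 = 0 := map_zero csw
      rw [h0, h1, mul_zero, mul_zero, add_zero]
    | insert a s ha ih => rw [Finset.sum_insert ha, Finset.sum_insert ha, Sc_add, Sc_smul, ih]
  exact key _

theorem Ez_sum {ι : Type*} (s : Finset ι) (F : ι → MvPolynomial (Fin 2) ℂ) (z : ℂ) :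
    Ez (∑ i ∈ s, F i) z = ∑ i ∈ s, Ez (F i) z := map_sum _ _ _

theorem G2_Hv (e : ℂ → ℂ) (H : Fin (K + 1) → MvPolynomial (Fin 2) ℂ) (v : Fin (K + 1) → ℝ)
    (w : ℂ) : G2 R e (Hv H v) w = ∑ i, ((v i : ℝ) : ℂ) * G2 R e (H i) w := by
  rw [G2, Sc_Hv, Ez_sum, Finset.mul_sum, Finset.sum_mul]
  refine Finset.sum_congr rfl fun i _ => ?_
  rw [G2, Ez_mul, Ez_C]
  ring

/-- the Melnikov integral -/
def MI (G : ℂ → ℂ) (s : ℝ) : ℝ := ∫ θ in (0 : ℝ)..(2 * Real.pi), AA G θ s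

theorem AA_Hv (e : ℂ → ℂ) (H : Fin (K + 1) → MvPolynomial (Fin 2) ℂ) (v : Fin (K + 1) → ℝ)
    (θ s : ℝ) : AA (G2 R e (Hv H v)) θ s = ∑ i, v i * AA (G2 R e (H i)) θ s := by
  simp only [AA]
  rw [G2_Hv, Finset.mul_sum, Complex.re_sum]
  refine Finset.sum_congr rfl fun i _ => ?_
  rw [mul_left_comm, Complex.re_ofReal_mul]

section local_
variable {e : OpenPartialHomeomorph ℂ ℂ} {r C : ℝ} {U : Set ℂ} (hr : 0 < r)
  (h1 : Conv r (psi (R.g 0))) (h2 : Conv r (rec' (psi (R.g 0))))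
  (hP : ∀ w ∈ Metric.ball (0 : ℂ) r, Ez (PP R.p 0) (e w) = ev w (psi (R.g 0)) ∧
        0 < (Ez (Jac R.p * R.lam) (e w)).re ∧ 0 < (Ez (Jac R.p) (e w)).re ∧
        ‖e w‖ ≤ C * ‖w‖ ∧ e w ∈ U)
  (hcd : ContDiffOn ℝ 1 e (Metric.ball 0 r))

include hr h1 h2 hP hcd

theorem G2_ann (H : MvPolynomial (Fin 2) ℂ) :
    ContDiffOn ℝ 1 (G2 R e H) {w | 0 < ‖w‖ ∧ ‖w‖ < r} :=
  (G2_contDiff R h1 h2 hP hcd H).mono fun w hw => by
    rw [mem_ball_zero_iff]
    exact hw.2

theorem MI_Hv (H : Fin (K + 1) → MvPolynomial (Fin 2) ℂ) (v : Fin (K + 1) → ℝ) {s : ℝ}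
    (hs : 0 < s) (hsr : s < r) :
    MI (G2 R e (Hv H v)) s = ∑ i, v i * MI (G2 R e (H i)) s := by
  rw [MI]
  simp_rw [AA_Hv]
  rw [intervalIntegral.integral_finsetSum]
  · refine Finset.sum_congr rfl fun i _ => ?_
    rw [intervalIntegral.integral_const_mul]
    rfl
  · intro i _
    exact (continuous_const.mul
      (AA_cont (G2_ann R hr h1 h2 hP hcd (H i)) hs hsr)).intervalIntegrable _ _

theorem MI_Hc {s : ℝ} (hs : 0 < s) (hsr : s < r) :
    MI (G2 R e (Hc R.p R.lam)) s = 2 * Real.pi * s := by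
  have hSc : Sc R.p (pr (Hc R.p R.lam)) = PP R.p 0 * (Jac R.p * R.lam) := by
    have e0 : (1 : Fin 2) + 1 = 0 := rfl
    have h3 := hF_same R.p R.lam (PP R.p 0) 0
    have h4 := hF_other R.p R.lam (PP R.p 1) 1
    rw [e0] at h4
    rw [Sc, Hc_pr R.preal R.lreal, ← h3]
    simp only [mul_add, Finset.sum_add_distrib, h4, add_zero]
  rw [MI, int_AA_re (G2_contDiff R h1 h2 hP hcd _).continuousOn hs hsr]
  have h5 : ∀ θ : ℝ, Complex.exp (-(θ * Complex.I)) *
      G2 R e (Hc R.p R.lam) (s * Complex.exp (θ * Complex.I)) =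
      Complex.exp (-(θ * Complex.I)) *
      (ev (s * Complex.exp (θ * Complex.I)) (rec' (psi (R.g 0))) *
        ev (s * Complex.exp (θ * Complex.I)) (psi (R.g 0))) := by
    intro θ
    congr 1
    have hw : (s * Complex.exp (θ * Complex.I)) ∈ Metric.ball (0 : ℂ) r := by
      rw [mem_ball_zero_iff, norm_polar hs]
      exact hsr
    obtain ⟨h6, h7, -⟩ := hP _ hw
    have h8 : Ez (Jac R.p * R.lam) (e (s * Complex.exp (θ * Complex.I))) =
      ((tau R e (s * Complex.exp (θ * Complex.I)) : ℝ) : ℂ) := Jlam_real R _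
    have h9 : ((tau R e (s * Complex.exp (θ * Complex.I)) : ℝ) : ℂ) ≠ 0 := by
      have : tau R e (s * Complex.exp (θ * Complex.I)) ≠ 0 := h7.ne'
      exact_mod_cast this
    rw [G2, hSc, Ez_mul, h6, h8]
    field_simp
  simp_rw [h5]
  rw [int_psi_rec h1 h2 hs hsr]
  have : (2 * (Real.pi : ℂ) * (s : ℂ)) = ((2 * Real.pi * s : ℝ) : ℂ) := by push_cast; ring
  rw [this, Complex.ofReal_re]

/-- the reduced functions -/
theorem indep_local {H : Fin (K + 1) → MvPolynomial (Fin 2) ℂ} (hH0 : H 0 = Hc R.p R.lam)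
    (hind : LinearIndependent ℝ (fun i μ => (MMp R.p R.g R.lam (pr (H i)) 0 μ).re)) :
    LinearIndependent ℝ (fun (i : Fin (K + 1)) => fun s : Ioo (0 : ℝ) r =>
      if i = 0 then (1 : ℝ) else MI (G2 R e (H i)) s / (2 * Real.pi * s)) := by
  rw [Fintype.linearIndependent_iff] at hind ⊢
  intro v hv
  refine hind v ?_
  have hz : ∀ s : ℝ, 0 < s → s < r → MI (G2 R e (Hv H v)) s = 0 := by
    intro s hs hsr
    have h3 := congrFun hv ⟨s, hs, hsr⟩
    rw [Finset.sum_apply] at h3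
    simp only [Pi.smul_apply, smul_eq_mul, Pi.zero_apply] at h3
    rw [MI_Hv R hr h1 h2 hP hcd H v hs hsr]
    have hpi : 2 * Real.pi * s ≠ 0 := by
      have := Real.pi_pos
      positivity
    have h4 : ∀ i, v i * MI (G2 R e (H i)) s = (2 * Real.pi * s) *
        (v i * (if i = 0 then (1 : ℝ) else MI (G2 R e (H i)) s / (2 * Real.pi * s))) := by
      intro i
      split_ifs with h
      · rw [h, hH0, MI_Hc R hr h1 h2 hP hcd hs hsr]
        ring
      · field_simp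
    rw [Finset.sum_congr rfl fun i _ => h4 i, ← Finset.mul_sum, h3, mul_zero]
  have hcont : ContinuousOn (G2 R e (Hv H v)) (Metric.ball 0 r) :=
    (G2_contDiff R h1 h2 hP hcd _).continuousOn
  have hsm : ∀ᶠ s in 𝓝[>] (0 : ℝ), 0 < s ∧ s < r := by
    filter_upwards [self_mem_nhdsWithin, mem_nhdsWithin_of_mem_nhds (Iio_mem_nhds hr)] with s a b
    exact ⟨a, b⟩
  funext μ
  rw [Finset.sum_apply]
  simp only [Pi.smul_apply, smul_eq_mul, Pi.zero_apply]
  have hex : ∀ N, Ex N (fun q => ∑ i, ((v i : ℝ) : ℂ) * G2 R e (H i) (wF q))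
      (∑ i, cc ((v i : ℝ) : ℂ) * PhH R (H i)) := by
    intro N
    have key : ∀ s : Finset (Fin (K + 1)),
        Ex N (fun q => ∑ i ∈ s, ((v i : ℝ) : ℂ) * G2 R e (H i) (wF q))
        (∑ i ∈ s, cc ((v i : ℝ) : ℂ) * PhH R (H i)) := by
      intro s
      classical
      induction s using Finset.induction_on with
      | empty =>
        have := ex_cc N 0
        have h0 : (cc (0 : ℂ)) = 0 := by rw [cc, map_zero, map_zero]
        rw [h0] at this
        simpa using this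
      | insert a s ha ih =>
        rw [Finset.sum_insert ha]
        have := ((ex_cc N ((v a : ℝ) : ℂ)).mul (ex_G2 R hr h1 h2 hP hcd (H a) N)).add ih
        refine this.congr (Eventually.of_forall fun q => ?_)
        simp only
        rw [Finset.sum_insert ha]
    exact key _
  have h3 := extract hex ?_ ?_ (2 * μ + 1)
  · have h4 : (coeff (2 * μ + 1) (∑ i, cc ((v i : ℝ) : ℂ) * PhH R (H i))).coeff 1 =
        ∑ i, ((v i : ℝ) : ℂ) * MMp R.p R.g R.lam (pr (H i)) 0 μ := by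
      have := tc_sum 1 μ Finset.univ (fun i => cc ((v i : ℝ) : ℂ) * PhH R (H i))
      simp only [tc_cc_mul, tc_PhH] at this
      exact this
    rw [h4, Complex.re_sum] at h3
    simp only [Complex.re_ofReal_mul] at h3
    exact h3
  · filter_upwards [hsm] with s hs
    have := G_cont hcont hs.1 hs.2
    refine this.congr fun θ => ?_
    rw [G2_Hv]
    rfl
  · filter_upwards [hsm] with s hs
    have h5 := hz s hs.1 hs.2
    rw [MI, int_AA_re hcont hs.1 hs.2] at h5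
    have h6 : ∀ θ : ℝ, Complex.exp (-(θ * Complex.I)) *
        ∑ i, ((v i : ℝ) : ℂ) * G2 R e (H i) (wF (s, θ)) = Complex.exp (-(θ * Complex.I)) *
          G2 R e (Hv H v) (s * Complex.exp (θ * Complex.I)) := fun θ => by
      rw [G2_Hv]
      rfl
    simp_rw [h6]
    exact h5

end local_

/-- **the cycles** -/
theorem complex_cycles2 {U : Set ℂ} (hU : U ∈ 𝓝 (0 : ℂ)) :
    ∃ H : MvPolynomial (Fin 2) ℂ, TD H n ∧ ∃ ε₀ : ℝ, 0 < ε₀ ∧ ∀ ε, 0 < ε → ε < ε₀ →
      ∃ c : Fin K → ℝ → ℂ, (Function.Injective fun j => range (c j)) ∧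
        ∀ j, IsPer (Zf R H ε) (c j) ∧ (∃ t, c j t ≠ c j 0) ∧ range (c j) ⊆ U ∧
          ∃ O : Set ℂ, IsOpen O ∧ range (c j) ⊆ O ∧ ∀ c', IsPer (Zf R H ε) c' →
            range c' ⊆ O → range c' = range (c j) := by
  classical
  obtain ⟨e, r, C, hr, h1, h2, hes, hcd, hP, hinv⟩ := exists_loc R.low R.lconst (R.g 0) hU
  obtain ⟨H, hH, hH0, hind⟩ := real_family R
  set φ : Fin (K + 1) → ℝ → ℝ := fun i s =>
    if i = 0 then (1 : ℝ) else MI (G2 R e (H i)) s / (2 * Real.pi * s) with hφ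
  have hpi := Real.pi_pos
  have hφd : ∀ i, ∀ s ∈ Ioo 0 r, DifferentiableAt ℝ (φ i) s := by
    intro i s hs
    by_cases hi : i = 0
    · have : φ i = fun _ => 1 := funext fun s => if_pos hi
      rw [this]
      exact differentiableAt_const _
    · have : φ i = fun s => MI (G2 R e (H i)) s / (2 * Real.pi * s) := funext fun s => if_neg hi
      rw [this]
      have h3 := int_AA_deriv (G2_ann R hr h1 h2 hP hcd (H i)) hs.1 hs.2
      have hne : 2 * Real.pi * s ≠ 0 := by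
        have := hs.1
        positivity
      exact h3.differentiableAt.div ((differentiableAt_const _).mul differentiableAt_id) hne
  obtain ⟨v, z, hzm, hz⟩ := exists_zeros φ 0 (fun s => if_pos rfl) hφd
    (indep_local R hr h1 h2 hP hcd hH0 hind) (m := K) (by rw [Fintype.card_fin])
  set F : ℝ → ℝ := fun s => ∑ i, v i * φ i s with hF
  have hMF : ∀ s, 0 < s → s < r → MI (G2 R e (Hv H v)) s = 2 * Real.pi * s * F s := by
    intro s hs hsr
    rw [MI_Hv R hr h1 h2 hP hcd H v hs hsr, hF]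
    simp only
    rw [Finset.mul_sum]
    refine Finset.sum_congr rfl fun i _ => ?_
    rw [hφ]
    simp only
    split_ifs with h
    · rw [h, hH0, MI_Hc R hr h1 h2 hP hcd hs hsr]
      ring
    · field_simp
  have hFd : ∀ s ∈ Ioo 0 r, DifferentiableAt ℝ F s := by
    intro s hs
    exact DifferentiableAt.fun_sum (u := Finset.univ) (A := fun i s => v i * φ i s) (x := s)
      (fun i _ => (hφd i s hs).const_mul (v i))
  have hann := G2_ann R hr h1 h2 hP hcd (Hv H v)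
  have hz1 : ∀ j, ∫ θ in (0 : ℝ)..(2 * Real.pi), AA (G2 R e (Hv H v)) θ (z j) = 0 := by
    intro j
    obtain ⟨a, b, -⟩ := hz j
    have h3 := hMF (z j) a.1 a.2
    have h4 : F (z j) = 0 := b
    rw [h4, mul_zero] at h3
    exact h3
  have hz2 : ∀ j, ∫ θ in (0 : ℝ)..(2 * Real.pi), deriv (AA (G2 R e (Hv H v)) θ) (z j) ≠ 0 := by
    intro j
    obtain ⟨a, b, c⟩ := hz j
    have h3 := int_AA_deriv hann a.1 a.2
    have h4 : HasDerivAt (fun s => 2 * Real.pi * s * F s) (2 * Real.pi * z j * deriv F (z j))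
        (z j) := by
      have h5 := (hFd (z j) a).hasDerivAt
      have h8 : HasDerivAt (fun x : ℝ => 2 * Real.pi * x) (2 * Real.pi) (z j) := by
        have := (hasDerivAt_id (z j)).const_mul (2 * Real.pi)
        rwa [mul_one] at this
      have h9 := h8.fun_mul h5
      refine h9.congr_deriv ?_
      have h4 : F (z j) = 0 := b
      rw [h4]
      ring
    have h5 : HasDerivAt (fun x => ∫ θ in (0 : ℝ)..(2 * Real.pi), AA (G2 R e (Hv H v)) θ x)
        (2 * Real.pi * z j * deriv F (z j)) (z j) := by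
      refine h4.congr_of_eventuallyEq ?_
      filter_upwards [Ioo_mem_nhds a.1 a.2] with x hx
      exact hMF x hx.1 hx.2
    rw [h3.unique h5]
    have := a.1
    exact mul_ne_zero (by positivity) c
  obtain ⟨ε₀, hε₀, hε⟩ := cycles_of_zeros hann hzm (fun j => (hz j).1.1) (fun j => (hz j).1.2)
    hz1 hz2 (tau_cont R h1 h2 hP hcd) (fun w hw => (hP w hw).2.1) hes
    (Z := Zf R (Hv H v)) (fun ε w hw hd => hfw R h1 h2 hP hcd (Hv H v) ε w hw hd)
    (fun ε c w hw hcw hd => hbw R h1 h2 hP hinv (Hv H v) ε c w hw hcw hd)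
  refine ⟨Hv H v, td_Hv hH v, ε₀, hε₀, fun ε hε1 hε2 => ?_⟩
  obtain ⟨c, hc1, hc2⟩ := hε ε hε1 hε2
  refine ⟨c, hc1, fun j => ?_⟩
  obtain ⟨a, b, c', d⟩ := hc2 j
  refine ⟨a, b, c'.trans ?_, d⟩
  rintro _ ⟨w, hw, rfl⟩
  exact (hP w hw).2.2.2.2

end

end Pool.Agent.helper59.LD
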