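import Pool.Agent.helper59.LD.Mel3
import Pool.Agent.helper59.LC.Real

/-!
# From complex notation to real polynomials, general case
-/

open Set Filter Topology

set_option linter.unusedSectionVars false

namespace Pool.Agent.helper59.LD

open LC

noncomputable section

/-- substitution of linear forms -/
def ff (f : Fin 2 → MvPolynomial (Fin 2) ℂ) (P : MvPolynomial (Fin 2) ℂ) :
    MvPolynomial (Fin 2) ℂ := MvPolynomial.aeval f P

theorem ff_add (f : Fin 2 → MvPolynomial (Fin 2) ℂ) (P Q : MvPolynomial (Fin 2) ℂ) :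
    ff f (P + Q) = ff f P + ff f Q := map_add _ _ _

theorem ff_mul (f : Fin 2 → MvPolynomial (Fin 2) ℂ) (P Q : MvPolynomial (Fin 2) ℂ) :
    ff f (P * Q) = ff f P * ff f Q := map_mul _ _ _

theorem ff_C (f : Fin 2 → MvPolynomial (Fin 2) ℂ) (a : ℂ) :
    ff f (MvPolynomial.C a) = MvPolynomial.C a := by
  rw [ff, MvPolynomial.aeval_C, MvPolynomial.algebraMap_eq]

theorem ff_X (f : Fin 2 → MvPolynomial (Fin 2) ℂ) (i : Fin 2) : ff f (MvPolynomial.X i) = f i :=
  MvPolynomial.aeval_X _ _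

theorem td_ff {f : Fin 2 → MvPolynomial (Fin 2) ℂ} (hf : ∀ i, TD (f i) 1)
    {P : MvPolynomial (Fin 2) ℂ} {d : ℕ} (h : TD P d) : TD (ff f P) d := by
  have h1 : ff f P = ∑ s ∈ P.support, ff f (MvPolynomial.monomial s (MvPolynomial.coeff s P)) := by
    conv_lhs => rw [MvPolynomial.as_sum P]
    exact map_sum _ _ _
  rw [h1]
  refine TD.sum fun s hs => ?_
  have h2 := td_coeff h hs
  have h3 : ff f (MvPolynomial.monomial s (MvPolynomial.coeff s P)) =
      MvPolynomial.C (MvPolynomial.coeff s P) * (f 0 ^ s 0 * f 1 ^ s 1) := by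
    rw [ff, MvPolynomial.aeval_monomial, MvPolynomial.algebraMap_eq,
      Finsupp.prod_fintype _ _ (fun i => pow_zero _), Fin.prod_univ_two]
  rw [h3]
  exact ((td_C _ 0).mul (((hf 0).pow (s 0)).mul ((hf 1).pow (s 1)))).mono (by omega)

/-- the two linear forms -/
def ZZ : Fin 2 → MvPolynomial (Fin 2) ℂ := fun i => if i = 0 then Zp else Zb

/-- the inverse forms -/
def ZI : Fin 2 → MvPolynomial (Fin 2) ℂ := fun i =>
  if i = 0 then MvPolynomial.C (1 / 2) * (MvPolynomial.X 0 + MvPolynomial.X 1)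
  else MvPolynomial.C (1 / (2 * Complex.I)) * (MvPolynomial.X 0 - MvPolynomial.X 1)

theorem td_ZZ (i : Fin 2) : TD (ZZ i) 1 := by
  rw [ZZ]
  split_ifs
  · exact totalDegree_Zp
  · exact totalDegree_Zb

theorem td_ZI (i : Fin 2) : TD (ZI i) 1 := by
  rw [ZI]
  split_ifs
  · exact ((td_C _ 0).mul ((td_X 0 le_rfl).add (td_X 1 le_rfl))).mono (by omega)
  · exact ((td_C _ 0).mul ((td_X 0 le_rfl).sub (td_X 1 le_rfl))).mono (by omega)

theorem ff_inv (P : MvPolynomial (Fin 2) ℂ) : ff ZI (ff ZZ P) = P := by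
  have h2 : (MvPolynomial.C (1 / 2) : MvPolynomial (Fin 2) ℂ) * 2 = 1 := by
    have : (2 : MvPolynomial (Fin 2) ℂ) = MvPolynomial.C 2 := by rw [map_ofNat]
    rw [this, ← map_mul]
    norm_num
  have h3 : (MvPolynomial.C (1 / (2 * Complex.I)) : MvPolynomial (Fin 2) ℂ) *
      MvPolynomial.C Complex.I = MvPolynomial.C (1 / 2) := by
    rw [← map_mul]
    congr 1
    have := Complex.I_ne_zero
    field_simp
  have e0 : ZI 0 = MvPolynomial.C (1 / 2) * (MvPolynomial.X 0 + MvPolynomial.X 1) := rfl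
  have e1 : ZI 1 = MvPolynomial.C (1 / (2 * Complex.I)) * (MvPolynomial.X 0 - MvPolynomial.X 1) :=
    rfl
  have k0 : ff ZI Zp = MvPolynomial.X 0 := by
    rw [Zp, ff_add, ff_mul, ff_C, ff_X, ff_X, e0, e1]
    linear_combination (MvPolynomial.X 0 - MvPolynomial.X 1) * h3 + MvPolynomial.X 0 * h2
  have k1 : ff ZI Zb = MvPolynomial.X 1 := by
    have : Zb = MvPolynomial.X 0 + MvPolynomial.C (-Complex.I) * MvPolynomial.X 1 := by
      rw [Zb, map_neg]; ring
    rw [this, ff_add, ff_mul, ff_C, ff_X, ff_X, e0, e1, map_neg]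
    linear_combination (-(MvPolynomial.X 0 - MvPolynomial.X 1)) * h3 + MvPolynomial.X 1 * h2
  induction P using MvPolynomial.induction_on with
  | C a => rw [ff_C, ff_C]
  | add p q hp hq => rw [ff_add, ff_add, hp, hq]
  | mul_X p i hp =>
    rw [ff_mul, ff_mul, hp, ff_X]
    congr 1
    fin_cases i
    · exact k0
    · exact k1

theorem totalDegree_ff (P : MvPolynomial (Fin 2) ℂ) : (ff ZZ P).totalDegree = P.totalDegree := by
  refine le_antisymm (td_ff td_ZZ (le_refl P.totalDegree)) ?_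
  conv_lhs => rw [← ff_inv P]
  exact td_ff td_ZI (le_refl (ff ZZ P).totalDegree)

theorem eval_ff (P : MvPolynomial (Fin 2) ℂ) (x : Fin 2 → ℝ) :
    MvPolynomial.eval (fun i => (x i : ℂ)) (ff ZZ P) = Ez P ((x 0 : ℂ) + Complex.I * (x 1 : ℂ)) := by
  induction P using MvPolynomial.induction_on with
  | C a => rw [ff_C, MvPolynomial.eval_C, Ez_C]
  | add p q hp hq => rw [ff_add, map_add, hp, hq, Ez_add]
  | mul_X p i hp =>
    rw [ff_mul, map_mul, hp, ff_X, Ez_mul, Ez_X]
    congr 1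
    fin_cases i
    · exact eval_Zp x
    · exact eval_Zb x

/-- first order coefficients -/
def D1 (i : Fin 2) (P : MvPolynomial (Fin 2) ℂ) : ℂ :=
  MvPolynomial.constantCoeff (MvPolynomial.pderiv i P)

theorem D1_add (i : Fin 2) (P Q : MvPolynomial (Fin 2) ℂ) : D1 i (P + Q) = D1 i P + D1 i Q := by
  rw [D1, map_add, map_add]; rfl

theorem D1_mul (i : Fin 2) (P Q : MvPolynomial (Fin 2) ℂ) : D1 i (P * Q) =
    MvPolynomial.constantCoeff P * D1 i Q + MvPolynomial.constantCoeff Q * D1 i P := by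
  rw [D1, Derivation.leibniz, smul_eq_mul, smul_eq_mul, map_add, map_mul, map_mul]; rfl

theorem D1_C (i : Fin 2) (a : ℂ) : D1 i (MvPolynomial.C a) = 0 := by
  rw [D1, MvPolynomial.pderiv_C, map_zero]

theorem D1_X (i j : Fin 2) : D1 i (MvPolynomial.X j) = if i = j then 1 else 0 := by
  rw [D1]
  split_ifs with h
  · rw [h, MvPolynomial.pderiv_X_self, map_one]
  · rw [MvPolynomial.pderiv_X_of_ne (Ne.symm h), map_zero]

theorem const_ZZ (i : Fin 2) : MvPolynomial.constantCoeff (ZZ i) = 0 := by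
  rw [ZZ]
  split_ifs
  · rw [Zp]; simp
  · rw [Zb]; simp

theorem const_ff (P : MvPolynomial (Fin 2) ℂ) : MvPolynomial.constantCoeff (ff ZZ P) =
    MvPolynomial.constantCoeff P := by
  induction P using MvPolynomial.induction_on with
  | C a => rw [ff_C]
  | add p q hp hq => rw [ff_add, map_add, hp, hq, map_add]
  | mul_X p i hp => rw [ff_mul, map_mul, ff_X, const_ZZ, map_mul, MvPolynomial.constantCoeff_X]; simp

theorem D1_ff (i : Fin 2) (P : MvPolynomial (Fin 2) ℂ) :
    D1 i (ff ZZ P) = D1 0 P * D1 i (ZZ 0) + D1 1 P * D1 i (ZZ 1) := by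
  induction P using MvPolynomial.induction_on with
  | C a => rw [ff_C, D1_C, D1_C, D1_C]; ring
  | add p q hp hq => rw [ff_add, D1_add, hp, hq, D1_add, D1_add]; ring
  | mul_X p j hp =>
    rw [ff_mul, ff_X, D1_mul, const_ZZ, const_ff, D1_mul, D1_mul, MvPolynomial.constantCoeff_X,
      D1_X, D1_X]
    fin_cases j
    · simp
    · simp

theorem D1_Zp0 : D1 0 (ZZ 0) = 1 := by
  change D1 0 Zp = 1
  rw [Zp, D1_add, D1_mul, D1_X, D1_X, D1_C]
  simp

theorem D1_Zp1 : D1 1 (ZZ 0) = Complex.I := by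
  change D1 1 Zp = Complex.I
  rw [Zp, D1_add, D1_mul, D1_X, D1_X, D1_C]
  simp

theorem D1_Fp {P : MvPolynomial (Fin 2) ℂ} (hP : MvPolynomial.constantCoeff P = 0)
    (g : Polynomial ℂ) (i : Fin 2) : D1 i (Fp P g) = D1 i P := by
  have h1 : Fp P g = P + P * P * Polynomial.aeval P g := by
    rw [Fp, FF, map_add, map_mul, map_pow, Polynomial.aeval_X]; ring
  rw [h1, D1_add, D1_mul, D1_mul, map_mul, hP]
  ring

theorem const_Fp {P : MvPolynomial (Fin 2) ℂ} (hP : MvPolynomial.constantCoeff P = 0)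
    (g : Polynomial ℂ) : MvPolynomial.constantCoeff (Fp P g) = 0 := by
  have h1 : Fp P g = P + P * P * Polynomial.aeval P g := by
    rw [Fp, FF, map_add, map_mul, map_pow, Polynomial.aeval_X]; ring
  rw [h1, map_add, map_mul, map_mul, hP]
  ring

variable {n K : ℕ} (R : RPt n K)

theorem const_PP (i : Fin 2) : MvPolynomial.constantCoeff (PP R.p i) = 0 := by
  rw [← Ez_zero]
  exact Ez_PP_zero R.low i

theorem const_UU : MvPolynomial.constantCoeff (UU R.p R.g) = 0 := by
  rw [UU, map_add, map_mul, map_mul, const_Fp (const_PP R 0), const_Fp (const_PP R 1)]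
  ring

theorem D1_PP (i j : Fin 2) : D1 i (PP R.p j) = if i = j then 1 else 0 :=
  const_pderiv_PP R.low i j

theorem D1_UU (i : Fin 2) : D1 i (UU R.p R.g) = if i = 0 then 1 else 0 := by
  have h1 : MvPolynomial.constantCoeff (MvPolynomial.pderiv 1 (PP R.p 1)) = 1 := by
    rw [const_pderiv_PP R.low]; rfl
  have h2 : MvPolynomial.constantCoeff (MvPolynomial.pderiv 1 (PP R.p 0)) = 0 := by
    rw [const_pderiv_PP R.low]; rfl
  rw [UU, D1_add, D1_mul, D1_mul, const_Fp (const_PP R 0), const_Fp (const_PP R 1), h1, h2,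
    D1_Fp (const_PP R 0), D1_Fp (const_PP R 1), D1_PP]
  ring

/-- the unperturbed field -/
def W0 : MvPolynomial (Fin 2) ℂ := MvPolynomial.C Complex.I * (R.lam * UU R.p R.g)

theorem const_W0 : MvPolynomial.constantCoeff (W0 R) = 0 := by
  rw [W0, map_mul, map_mul, const_UU]; ring

theorem D1_W0 (i : Fin 2) : D1 i (W0 R) = if i = 0 then Complex.I else 0 := by
  rw [W0, D1_mul, D1_mul, D1_C, const_UU, R.lconst, D1_UU, MvPolynomial.constantCoeff_C]
  split_ifs <;> ring

theorem D1_fW0 : D1 0 (ff ZZ (W0 R)) = Complex.I ∧ D1 1 (ff ZZ (W0 R)) = -1 := by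
  constructor
  · rw [D1_ff, D1_W0, D1_W0, D1_Zp0]
    simp
  · rw [D1_ff, D1_W0, D1_W0, D1_Zp1]
    simp

theorem deg_W0 : (ff ZZ (W0 R)).totalDegree = n := by
  rw [totalDegree_ff]
  refine le_antisymm ?_ ?_
  · exact totalDegree_C_mul_le _ _ R.deg.le
  · have h1 : R.lam * UU R.p R.g = MvPolynomial.C (Complex.I⁻¹) * W0 R := by
      rw [W0, ← mul_assoc, ← map_mul, inv_mul_cancel₀ Complex.I_ne_zero, map_one, one_mul]
    conv_lhs => rw [← R.deg, h1]
    exact totalDegree_C_mul_le _ _ le_rfl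

theorem td_Wp {H : MvPolynomial (Fin 2) ℂ} (hH : TD H n) (ε : ℝ) :
    (ff ZZ (Wp R H ε)).totalDegree ≤ n := by
  rw [totalDegree_ff]
  have h1 : TD (W0 R) n := by
    rw [TD, ← totalDegree_ff, deg_W0]
  exact h1.add (((td_C _ 0).mul hH).mono (by omega))

end

end Pool.Agent.helper59.LD
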