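import Pool.Agent.helper59.LD.Fin1

/-!
# Real perturbations
-/

open PowerSeries Filter

set_option linter.unusedSectionVars false

namespace Pool.Agent.helper59.LD

open LC

noncomputable section

/-- conjugation of Laurent polynomials on the unit circle -/
def inl : LaurentPolynomial ℂ →+* LaurentPolynomial ℂ :=
  (LaurentPolynomial.invert (R := ℂ)).toRingEquiv.toRingHom.comp (lpm (starRingEnd ℂ))

theorem inl_coeff (f : LaurentPolynomial ℂ) (n : ℤ) :
    (inl f).coeff n = starRingEnd ℂ (f.coeff (-n)) := by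
  rw [← lpm_coeff]
  exact LaurentPolynomial.invert_apply _ _

theorem inl_C (a : ℂ) : inl (LaurentPolynomial.C a) = LaurentPolynomial.C (starRingEnd ℂ a) := by
  rw [inl, RingHom.comp_apply, lpm_C]
  exact LaurentPolynomial.invert_C _

theorem inl_T (n : ℤ) : inl (LaurentPolynomial.T n) = LaurentPolynomial.T (-n) := by
  rw [inl, RingHom.comp_apply, lpm_T]
  exact LaurentPolynomial.invert_T _

theorem inl_emb (e : ℤ) (s : ℂ⟦X⟧) : PowerSeries.map inl (emb e s) =
    emb (-e) (PowerSeries.map (starRingEnd ℂ) s) := by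
  ext1 n
  rw [coeff_map, coeff_emb, coeff_emb, map_mul, inl_C, inl_T, coeff_map, mul_neg]

theorem inl_tc (e : ℤ) (μ : ℕ) (φ : (LaurentPolynomial ℂ)⟦X⟧) :
    tc (-e) μ (PowerSeries.map inl φ) = starRingEnd ℂ (tc e μ φ) := by
  rw [tc, coeff_map, inl_coeff, neg_neg, tc]

theorem inl_ev2 {x y : Fin 2 → (LaurentPolynomial ℂ)⟦X⟧}
    (hx : ∀ i, PowerSeries.map inl (x i) = y (i + 1)) (P : MvPolynomial (Fin 2) ℂ) :
    PowerSeries.map inl (ev2 x P) = ev2 y (csw P) := by
  induction P using MvPolynomial.induction_on with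
  | C a =>
    rw [csw_C, ev2_C, ev2_C, cc, PowerSeries.map_C, inl_C, cc]
  | add p q hp hq => rw [ev2_add, map_add, hp, hq, map_add, ev2_add]
  | mul_X p i hp => rw [ev2_mul, map_mul, hp, map_mul, ev2_mul, csw_X, ev2_X, ev2_X, hx]

section data
variable {p : Fin 2 → MvPolynomial (Fin 2) ℂ} {g : Fin 2 → Polynomial ℂ}
  {lam : MvPolynomial (Fin 2) ℂ}

theorem inl_xy (hp : ∀ i, Low (p i)) (hpr : ∀ i, csw (p i) = p (i + 1))
    (hgr : ∀ i, cP (g i) = g (i + 1)) (i : Fin 2) :
    PowerSeries.map inl (xy p g i) = xy p g (i + 1) := by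
  have h := isSol_xy hp g
  have h2 : IsSol p (rhs g) (fun j => PowerSeries.map inl (xy p g (j + 1))) := by
    refine ⟨fun j => ?_, fun j => ?_⟩
    · obtain ⟨c, hc⟩ := h.1 (j + 1)
      exact ⟨PowerSeries.map inl c, by simp only; rw [hc, map_mul, PowerSeries.map_X]⟩
    · have h3 := congrArg (PowerSeries.map inl) (h.2 (j + 1))
      have h4 := inl_ev2 (x := xy p g) (y := fun j => PowerSeries.map inl (xy p g (j + 1)))
        (fun i => by rw [fin2_add]) (p (j + 1))
      rw [map_add] at h3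
      rw [hpr, fin2_add] at h4
      change PowerSeries.map inl (xy p g (j + 1)) + PowerSeries.map inl (ev2 (xy p g) (p (j + 1)))
        = _ at h3
      rw [h4, rhs, inl_emb, eI_add, neg_neg, psi_map] at h3
      have h5 : (g (j + 1)).map (starRingEnd ℂ) = g j := by
        have := hgr (j + 1)
        rw [fin2_add] at this
        exact this
      rw [h5] at h3
      exact h3
  have h3 := congrFun ((isSol_xy hp g).unique hp h2) (i + 1)
  simp only [fin2_add] at h3
  exact h3.symm

theorem csw_pderiv (P : MvPolynomial (Fin 2) ℂ) (i : Fin 2) :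
    csw (MvPolynomial.pderiv i P) = MvPolynomial.pderiv (i + 1) (csw P) := by
  induction P using MvPolynomial.induction_on with
  | C a => rw [MvPolynomial.pderiv_C, map_zero, csw_C, MvPolynomial.pderiv_C]
  | add p q hp hq => rw [map_add, map_add, hp, hq, map_add, map_add]
  | mul_X p j hp =>
    rw [Derivation.leibniz, map_add, map_mul, csw_X, Derivation.leibniz]
    simp only [smul_eq_mul, map_mul, hp, csw_X]
    congr 1
    by_cases h : i = j
    · rw [h, MvPolynomial.pderiv_X_self, MvPolynomial.pderiv_X_self, map_one]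
    · have h2 : j + 1 ≠ i + 1 := by
        intro h3
        apply h
        have := congrArg (fun t : Fin 2 => t + 1) h3
        simp only [fin2_add] at this
        exact this.symm
      rw [MvPolynomial.pderiv_X_of_ne (Ne.symm h), MvPolynomial.pderiv_X_of_ne h2, map_zero]

theorem csw_PP (hpr : ∀ i, csw (p i) = p (i + 1)) (i : Fin 2) :
    csw (PP p i) = PP p (i + 1) := by
  rw [PP, map_add, csw_X, hpr, PP]

theorem csw_Jac (hpr : ∀ i, csw (p i) = p (i + 1)) : csw (Jac p) = Jac p := by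
  rw [Jac, map_sub, map_mul, map_mul, csw_pderiv, csw_pderiv, csw_pderiv, csw_pderiv,
    csw_PP hpr, csw_PP hpr]
  have e0 : (0 : Fin 2) + 1 = 1 := rfl
  have e1 : (1 : Fin 2) + 1 = 0 := rfl
  rw [e0, e1]
  ring

theorem conj_MMp (hp : ∀ i, Low (p i)) (hpr : ∀ i, csw (p i) = p (i + 1))
    (hgr : ∀ i, cP (g i) = g (i + 1)) (hl : MvPolynomial.constantCoeff lam = 1)
    (hlr : csw lam = lam) (h : Fin 2 → MvPolynomial (Fin 2) ℂ) (i : Fin 2) (μ : ℕ) :
    starRingEnd ℂ (MMp p g lam h i μ) =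
      MMp p g lam (fun j => csw (h (j + 1))) (i + 1) μ := by
  have hx := inl_xy hp hpr hgr
  rw [MMp, ← inl_tc, map_mul (PowerSeries.map inl), map_mul (PowerSeries.map inl), inl_emb,
    inv1_map inl (coeff_zero_Jlam hp g hl), inl_ev2 hx, inl_ev2 hx, map_mul csw,
    csw_Jac hpr, hlr, rec_map, MMp, eI_add]
  have h5 : (g i).map (starRingEnd ℂ) = g (i + 1) := hgr i
  rw [h5]
  congr 5
  rw [map_sum]
  refine Fintype.sum_equiv (Equiv.addRight 1) _ _ fun j => ?_
  simp only [Equiv.coe_addRight, fin2_add]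
  rw [map_mul, csw_pderiv, csw_PP hpr]

/-- the pair of a real perturbation -/
def pr (H : MvPolynomial (Fin 2) ℂ) : Fin 2 → MvPolynomial (Fin 2) ℂ := fun j =>
  if j = 0 then H else csw H

theorem pr_conj (H : MvPolynomial (Fin 2) ℂ) : (fun j => csw (pr H (j + 1))) = pr H := by
  funext j
  fin_cases j
  · change csw (csw H) = H
    exact csw_csw H
  · rfl

theorem conj_MM_pr (hp : ∀ i, Low (p i)) (hpr : ∀ i, csw (p i) = p (i + 1))
    (hgr : ∀ i, cP (g i) = g (i + 1)) (hl : MvPolynomial.constantCoeff lam = 1)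
    (hlr : csw lam = lam) (H : MvPolynomial (Fin 2) ℂ) (μ : ℕ) :
    starRingEnd ℂ (MM p g lam (pr H) μ) = MM p g lam (pr H) μ ∧
      MM p g lam (pr H) μ = ((2 * (MMp p g lam (pr H) 0 μ).re : ℝ) : ℂ) := by
  have h1 := fun i => conj_MMp hp hpr hgr hl hlr (pr H) i μ
  simp only [pr_conj] at h1
  have h0 := h1 0
  have h1' := h1 1
  have e0 : (0 : Fin 2) + 1 = 1 := rfl
  have e1 : (1 : Fin 2) + 1 = 0 := rfl
  rw [e0] at h0
  rw [e1] at h1'
  constructor
  · rw [MM, map_sum, Fin.sum_univ_two, Fin.sum_univ_two, h0, h1']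
    ring
  · rw [MM, Fin.sum_univ_two, ← h0, Complex.add_conj]

end data

end

end Pool.Agent.helper59.LD
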