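import Pool.Agent.helper59.LD.TDef
import Pool.Agent.helper59.LD.Alg

/-!
# The series identity of the level step
-/

open PowerSeries

namespace Pool.Agent.helper59.LD

open LC

noncomputable section

variable {K : Type*} [Field K]

/-- `W d/dW` -/
def dl (s : K⟦X⟧) : K⟦X⟧ := X * derivative K s

theorem coeff_dl (s : K⟦X⟧) (n : ℕ) : coeff n (dl s) = n * coeff n s := by
  rw [dl]
  rcases n with _ | n
  · simp
  · rw [mul_comm X, coeff_succ_mul_X, coeff_derivative]
    push_cast
    ring

theorem dl_mul (s t : K⟦X⟧) : dl (s * t) = dl s * t + s * dl t := by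
  rw [dl, Derivation.leibniz, dl, dl]
  simp only [smul_eq_mul]
  ring

theorem dl_pow (s : K⟦X⟧) (n : ℕ) : dl (s ^ (n + 1)) = ((n : K⟦X⟧) + 1) * s ^ n * dl s := by
  induction n with
  | zero => simp
  | succ n ih => rw [pow_succ, dl_mul, ih]; push_cast; ring

theorem dl_aeval (s : K⟦X⟧) (P : Polynomial K) : dl (Polynomial.aeval s P) =
    Polynomial.aeval s (Polynomial.derivative P) * dl s := by
  rw [dl, deriv_aeval, dl]; ring

/-- data of a level -/
structure LevelData (a : K) (p F : Polynomial K) (z ρ u ui pi : K⟦X⟧) : Prop where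
  hz : dl z = Polynomial.aeval z F * pi
  hρ : Polynomial.aeval z F * ρ = X
  hF : Polynomial.aeval z F ≠ 0
  hu : u ^ 2 = Polynomial.aeval z (tP a)
  hui : u * ui = 1
  hpi : Polynomial.aeval z p * pi = 1

variable {a : K} {p F : Polynomial K} {z ρ u ui pi : K⟦X⟧}

theorem LevelData.dρ (h : LevelData a p F z ρ u ui pi) :
    dl ρ = ρ * (1 - Polynomial.aeval z (Polynomial.derivative F) * pi) := by
  refine mul_left_cancel₀ h.hF ?_
  have h1 := congrArg dl h.hρ
  rw [dl_mul, dl_aeval, h.hz] at h1
  have h2 : dl (X : K⟦X⟧) = X := by rw [dl, derivative_X, mul_one]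
  rw [h2] at h1
  linear_combination h1 - h.hρ

theorem LevelData.ui2 (h : LevelData a p F z ρ u ui pi) :
    Polynomial.aeval z (tP a) * ui ^ 2 = 1 := by
  rw [← h.hu, ← mul_pow, h.hui, one_pow]

theorem LevelData.dui (h : LevelData a p F z ρ u ui pi) [CharZero K] :
    dl ui = C (2 * a) * Polynomial.aeval z F * pi * ui ^ 3 := by
  have h1 := congrArg dl h.hu
  rw [dl_pow u 1, dl_aeval, h.hz] at h1
  have ht : Polynomial.derivative (tP a) = -Polynomial.C (4 * a) := by
    rw [tP, Polynomial.derivative_sub, Polynomial.derivative_one, Polynomial.derivative_C_mul,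
      Polynomial.derivative_X, mul_one, zero_sub]
  rw [ht, map_neg, Polynomial.aeval_C, PowerSeries.algebraMap_apply, Algebra.algebraMap_self,
    RingHom.id_apply] at h1
  have h2 := congrArg dl h.hui
  rw [dl_mul] at h2
  have h3 : dl (1 : K⟦X⟧) = 0 := by rw [dl, Derivation.map_one_eq_zero, mul_zero]
  rw [h3] at h2
  have h4 : C (4 * a) = C (2 : K) * C (2 * a) := by rw [← map_mul]; congr 1; ring
  have h5 : (C (2 : K)) = (2 : K⟦X⟧) := map_ofNat (C (R := K)) 2
  rw [h4, h5] at h1
  have h6 : u * dl u = -(C (2 * a) * (Polynomial.aeval z F * pi)) := by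
    have h7 : (2 : K⟦X⟧) ≠ 0 := by
      rw [← h5]
      rw [Ne, map_eq_zero_iff _ (C_injective (R := K))]
      norm_num
    refine mul_left_cancel₀ h7 ?_
    push_cast at h1
    linear_combination h1
  linear_combination (-dl ui) * h.hui + ui * h2 + (-ui ^ 3) * h6 + ui ^ 2 * dl u * h.hui

theorem LevelData.dpi (h : LevelData a p F z ρ u ui pi) :
    dl pi = -(pi ^ 3 * Polynomial.aeval z (Polynomial.derivative p) * Polynomial.aeval z F) := by
  have h1 := congrArg dl h.hpi
  rw [dl_mul, dl_aeval, h.hz] at h1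
  have h3 : dl (1 : K⟦X⟧) = 0 := by rw [dl, Derivation.map_one_eq_zero, mul_zero]
  rw [h3] at h1
  linear_combination (-dl pi) * h.hpi + pi * h1

/-- the general step -/
theorem LevelData.step (h : LevelData a p F z ρ u ui pi) [CharZero K] (i j : ℕ)
    (G : Polynomial K) :
    dl (ρ * ui ^ (i + 1) * pi ^ (j + 1) * Polynomial.aeval z G) =
      ρ * ui ^ (i + 3) * pi ^ (j + 3) * (Polynomial.aeval z (tP a) *
        (Polynomial.aeval z (Polynomial.derivative G) * Polynomial.aeval z p *
          Polynomial.aeval z F - (j + 1) * (Polynomial.aeval z G *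
          Polynomial.aeval z (Polynomial.derivative p) * Polynomial.aeval z F) -
          Polynomial.aeval z G * Polynomial.aeval z p *
          Polynomial.aeval z (Polynomial.derivative F)) +
        (i + 1) * C (2 * a) * Polynomial.aeval z G * Polynomial.aeval z p * Polynomial.aeval z F +
        Polynomial.aeval z (tP a) * Polynomial.aeval z G * Polynomial.aeval z p ^ 2) := by
  rw [dl_mul, dl_mul, dl_mul, dl_pow, dl_pow, dl_aeval, h.dρ, h.dui, h.dpi, h.hz]
  have e1 := h.ui2
  have e2 := h.hpi
  generalize Polynomial.aeval z (tP a) = t at *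
  generalize Polynomial.aeval z p = P at *
  generalize Polynomial.aeval z (Polynomial.derivative p) = P' at *
  generalize Polynomial.aeval z F = f at *
  generalize Polynomial.aeval z (Polynomial.derivative F) = f' at *
  generalize Polynomial.aeval z G = g at *
  generalize Polynomial.aeval z (Polynomial.derivative G) = g' at *
  generalize C (2 * a) = c
  have e3 : ui ^ (i + 3) = ui ^ i * ui * ui ^ 2 := by ring
  have e4 : pi ^ (j + 3) = pi ^ j * pi * pi ^ 2 := by ring
  have e5 : t * ui ^ (i + 3) = ui ^ (i + 1) := by rw [e3]; linear_combination (ui ^ i * ui) * e1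
  have e6 : P * pi ^ (j + 3) = pi ^ (j + 2) := by rw [e4]; linear_combination (pi ^ (j + 2)) * e2
  have e7 : P ^ 2 * pi ^ (j + 3) = pi ^ (j + 1) := by
    linear_combination P * e6 + (pi ^ (j + 1)) * e2
  have r : ρ * ui ^ (i + 3) * pi ^ (j + 3) * (t * (g' * P * f - (j + 1) * (g * P' * f) -
      g * P * f') + (i + 1) * c * g * P * f + t * g * P ^ 2) =
      ρ * (t * ui ^ (i + 3)) * ((P * pi ^ (j + 3)) * g' * f - pi ^ (j + 3) * ((j + 1) * (g * P' * f))
        - (P * pi ^ (j + 3)) * g * f' + (P ^ 2 * pi ^ (j + 3)) * g) +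
      ρ * ui ^ (i + 3) * (P * pi ^ (j + 3)) * ((i + 1) * c * g * f) := by ring
  rw [r, e5, e6, e7]
  ring

/-- **the series identity** -/
theorem LevelData.main (h : LevelData a p F z ρ u ui pi) [CharZero K] (U B Cc : Polynomial K) :
    dl (dl (ρ * ui * pi * Polynomial.aeval z U)) + dl (X * (ui * pi * Polynomial.aeval z B)) +
      X * (ui * pi * Polynomial.aeval z Cc) =
      ρ * ui ^ 5 * pi ^ 5 * Polynomial.aeval z (RP a p F U B Cc) := by
  have s1 := h.step 0 0 U
  have hN1 : Polynomial.aeval z (N1 a p F U) = Polynomial.aeval z (tP a) *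
        (Polynomial.aeval z (Polynomial.derivative U) * Polynomial.aeval z p *
          Polynomial.aeval z F - (((0 : ℕ) : K⟦X⟧) + 1) * (Polynomial.aeval z U *
          Polynomial.aeval z (Polynomial.derivative p) * Polynomial.aeval z F) -
          Polynomial.aeval z U * Polynomial.aeval z p *
          Polynomial.aeval z (Polynomial.derivative F)) +
        (((0 : ℕ) : K⟦X⟧) + 1) * C (2 * a) * Polynomial.aeval z U * Polynomial.aeval z p *
          Polynomial.aeval z F +
        Polynomial.aeval z (tP a) * Polynomial.aeval z U * Polynomial.aeval z p ^ 2 := by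
    rw [N1]
    simp only [map_add, map_sub, map_mul, map_pow, Polynomial.aeval_C, PowerSeries.algebraMap_apply,
      Algebra.algebraMap_self, RingHom.id_apply]
    push_cast
    ring
  rw [← hN1] at s1
  have s2 := h.step 2 2 (N1 a p F U)
  have hN2 : Polynomial.aeval z (N2 a p F (N1 a p F U)) = Polynomial.aeval z (tP a) *
        (Polynomial.aeval z (Polynomial.derivative (N1 a p F U)) * Polynomial.aeval z p *
          Polynomial.aeval z F - (((2 : ℕ) : K⟦X⟧) + 1) * (Polynomial.aeval z (N1 a p F U) *
          Polynomial.aeval z (Polynomial.derivative p) * Polynomial.aeval z F) -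
          Polynomial.aeval z (N1 a p F U) * Polynomial.aeval z p *
          Polynomial.aeval z (Polynomial.derivative F)) +
        (((2 : ℕ) : K⟦X⟧) + 1) * C (2 * a) * Polynomial.aeval z (N1 a p F U) *
          Polynomial.aeval z p * Polynomial.aeval z F +
        Polynomial.aeval z (tP a) * Polynomial.aeval z (N1 a p F U) *
          Polynomial.aeval z p ^ 2 := by
    have e6 : (Polynomial.C (6 * a) : Polynomial K) = 3 * Polynomial.C (2 * a) := by
      have : (3 : Polynomial K) = Polynomial.C 3 := (map_ofNat (Polynomial.C (R := K)) 3).symm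
      rw [this, ← map_mul]
      congr 1
      ring
    rw [N2, e6]
    generalize N1 a p F U = V
    simp only [map_add, map_sub, map_mul, map_pow, map_ofNat, Polynomial.aeval_C,
      PowerSeries.algebraMap_apply, Algebra.algebraMap_self, RingHom.id_apply]
    push_cast
    ring
  rw [← hN2] at s2
  have s3 := h.step 0 0 (F * B)
  have hX : X * (ui * pi * Polynomial.aeval z B) =
      ρ * ui ^ (0 + 1) * pi ^ (0 + 1) * Polynomial.aeval z (F * B) := by
    rw [← h.hρ, map_mul]; ring
  have hX2 : X * (ui * pi * Polynomial.aeval z Cc) =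
      ρ * ui * pi * (Polynomial.aeval z F * Polynomial.aeval z Cc) := by
    rw [← h.hρ]; ring
  have e0 : ρ * ui * pi * Polynomial.aeval z U =
      ρ * ui ^ (0 + 1) * pi ^ (0 + 1) * Polynomial.aeval z U := by ring
  rw [hX2, hX, e0, s1, s2, s3, RP]
  have e1 := h.ui2
  have e2 := h.hpi
  simp only [map_add, map_mul, map_pow, M1, Polynomial.derivative_mul, map_sub, Polynomial.aeval_C,
      PowerSeries.algebraMap_apply, Algebra.algebraMap_self, RingHom.id_apply]
  generalize Polynomial.aeval z (N2 a p F (N1 a p F U)) = n2 at *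
  generalize Polynomial.aeval z (tP a) = t at *
  generalize Polynomial.aeval z p = P at *
  generalize Polynomial.aeval z (Polynomial.derivative p) = P' at *
  generalize Polynomial.aeval z F = f at *
  generalize Polynomial.aeval z (Polynomial.derivative F) = f' at *
  generalize Polynomial.aeval z B = g at *
  generalize Polynomial.aeval z (Polynomial.derivative B) = g' at *
  generalize Polynomial.aeval z Cc = cc at *
  have k1 : t * ui ^ 5 = ui ^ 3 := by linear_combination ui ^ 3 * e1
  have k2 : P ^ 2 * pi ^ 5 = pi ^ 3 := by linear_combination (P * pi ^ 4 + pi ^ 3) * e2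
  have k3 : t ^ 2 * ui ^ 5 = ui := by linear_combination (t * ui ^ 3 + ui) * e1
  have k4 : P ^ 4 * pi ^ 5 = pi := by
    linear_combination (P ^ 3 * pi ^ 4 + P ^ 2 * pi ^ 3 + P * pi ^ 2 + pi) * e2
  have r : ρ * ui ^ 5 * pi ^ 5 * (n2 + t * (t * f * (g' * P - g * P') + C 2 * C a * f * g * P +
      t * g * P ^ 2) * P ^ 2 * f + t ^ 2 * cc * P ^ 4 * f) = ρ * ui ^ 5 * pi ^ 5 * n2 +
      ρ * (t * ui ^ 5) * (P ^ 2 * pi ^ 5) * ((t * f * (g' * P - g * P') + C 2 * C a * f * g * P +
      t * g * P ^ 2) * f) + ρ * (t ^ 2 * ui ^ 5) * (P ^ 4 * pi ^ 5) * (cc * f) := by ring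
  rw [r, k1, k2, k3, k4]
  push_cast
  ring

end

end Pool.Agent.helper59.LD
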