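import Pool.Agent.helper59.LD.Dlt

/-!
# The third deformation: reaching the real points
-/

open PowerSeries Filter

set_option linter.unusedSectionVars false

namespace Pool.Agent.helper59.LD

open LC

noncomputable section

theorem conj_half : starRingEnd ℂ (1 / 2) = 1 / 2 := by
  rw [map_div₀, map_one, map_ofNat]

theorem conj_half_I : starRingEnd ℂ (1 / (2 * Complex.I)) = -(1 / (2 * Complex.I)) := by
  rw [map_div₀, map_one, map_mul, map_ofNat, Complex.conj_I, mul_neg, div_neg]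

/-- conjugation and exchange of the variables -/
def csw : MvPolynomial (Fin 2) ℂ →+* MvPolynomial (Fin 2) ℂ :=
  (MvPolynomial.rename (fun i : Fin 2 => i + 1)).toRingHom.comp
    (MvPolynomial.map (starRingEnd ℂ))

theorem csw_X (i : Fin 2) : csw (MvPolynomial.X i) = MvPolynomial.X (i + 1) := by
  rw [csw, RingHom.comp_apply, MvPolynomial.map_X]
  exact MvPolynomial.rename_X _ _

theorem csw_C (a : ℂ) : csw (MvPolynomial.C a) = MvPolynomial.C (starRingEnd ℂ a) := by
  rw [csw, RingHom.comp_apply, MvPolynomial.map_C]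
  exact MvPolynomial.rename_C _ _

theorem csw_csw (P : MvPolynomial (Fin 2) ℂ) : csw (csw P) = P := by
  induction P using MvPolynomial.induction_on with
  | C a => rw [csw_C, csw_C, Complex.conj_conj]
  | add p q hp hq => rw [map_add, map_add, hp, hq]
  | mul_X p i hp => rw [map_mul, map_mul, hp, csw_X, csw_X, fin2_add]

theorem Low.csw {P : MvPolynomial (Fin 2) ℂ} (h : Low P) : Low (csw P) := by
  obtain ⟨a, rfl⟩ := h
  rw [map_sum]
  have hs : ∀ (s : Finset (Fin 2)) (f : Fin 2 → MvPolynomial (Fin 2) ℂ), (∀ i, Low (f i)) →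
      Low (∑ i ∈ s, f i) := by
    intro s f hf
    classical
    induction s using Finset.induction_on with
    | empty => rw [Finset.sum_empty]; exact low_zero
    | insert a s ha ih => rw [Finset.sum_insert ha]; exact (hf a).add ih
  refine hs _ _ fun j => ?_
  rw [map_sum]
  refine hs _ _ fun k => ?_
  rw [map_mul, map_mul, csw_X, csw_X]
  exact (low_XX _ _).mul_left _

theorem TD.csw {P : MvPolynomial (Fin 2) ℂ} {d : ℕ} (h : TD P d) :
    TD (LD.csw P) d := by
  have h1 : TD (MvPolynomial.map (starRingEnd ℂ) P) d := h.map _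
  exact (MvPolynomial.totalDegree_rename_le _ _).trans h1

/-- the mixture at a number -/
def mixS (s : ℂ) (a b : MvPolynomial (Fin 2) ℂ) : MvPolynomial (Fin 2) ℂ :=
  MvPolynomial.C (1 / 2) * (a + b) + MvPolynomial.C s * (MvPolynomial.C (1 / (2 * Complex.I)) *
    (a - b))

/-- the mixture over `ℂ[σ]` -/
def mixP (a b : MvPolynomial (Fin 2) ℂ) : MvPolynomial (Fin 2) (Polynomial ℂ) :=
  MvPolynomial.map Polynomial.C (MvPolynomial.C (1 / 2) * (a + b)) +
    MvPolynomial.C Polynomial.X * MvPolynomial.map Polynomial.C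
      (MvPolynomial.C (1 / (2 * Complex.I)) * (a - b))

theorem mapC_ev (s : ℂ) (P : MvPolynomial (Fin 2) ℂ) :
    MvPolynomial.map (Polynomial.evalRingHom s) (MvPolynomial.map Polynomial.C P) = P := by
  rw [MvPolynomial.map_map]
  have : (Polynomial.evalRingHom s).comp (Polynomial.C) = RingHom.id ℂ := by
    ext a; simp
  rw [this, MvPolynomial.map_id]

theorem mixP_ev (s : ℂ) (a b : MvPolynomial (Fin 2) ℂ) :
    MvPolynomial.map (Polynomial.evalRingHom s) (mixP a b) = mixS s a b := by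
  rw [mixP, mixS, map_add (MvPolynomial.map (Polynomial.evalRingHom s)),
    map_mul (MvPolynomial.map (Polynomial.evalRingHom s)) (MvPolynomial.C Polynomial.X),
    mapC_ev, mapC_ev, MvPolynomial.map_C]
  simp

theorem mixS_I (a b : MvPolynomial (Fin 2) ℂ) : mixS Complex.I a b = a := by
  rw [mixS, ← mul_assoc, ← map_mul]
  have h : Complex.I * (1 / (2 * Complex.I)) = 1 / 2 := by
    have := Complex.I_ne_zero
    field_simp
  rw [h, ← mul_add]
  have h2 : a + b + (a - b) = MvPolynomial.C 2 * a := by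
    rw [map_ofNat]; ring
  rw [h2, ← mul_assoc, ← map_mul]
  norm_num

theorem mixS_csw (s : ℝ) (a b : MvPolynomial (Fin 2) ℂ) :
    csw (mixS (s : ℂ) a (csw b)) = mixS (s : ℂ) b (csw a) := by
  rw [mixS, mixS, map_add, map_mul, map_mul, map_mul, csw_C, csw_C, csw_C, map_add, map_sub,
    csw_csw, Complex.conj_ofReal]
  have h1 : starRingEnd ℂ (1 / 2) = 1 / 2 := conj_half
  have h2 : starRingEnd ℂ (1 / (2 * Complex.I)) = -(1 / (2 * Complex.I)) := conj_half_I
  rw [h1, h2, map_neg]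
  ring

theorem low_mixP {a b : MvPolynomial (Fin 2) ℂ} (ha : Low a) (hb : Low b) : Low (mixP a b) := by
  rw [mixP]
  exact ((((ha.add hb).mul_left _)).map _).add (((ha.sub hb).mul_left _).map _ |>.mul_left _)

theorem low_mixS {a b : MvPolynomial (Fin 2) ℂ} (ha : Low a) (hb : Low b) (s : ℂ) :
    Low (mixS s a b) := by
  rw [← mixP_ev]
  exact (low_mixP ha hb).map _

theorem td_mixP {a b : MvPolynomial (Fin 2) ℂ} {d : ℕ} (ha : TD a d) (hb : TD b d) :
    TD (mixP a b) d := by
  rw [mixP]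
  have h1 := ((td_C (1 / 2 : ℂ) 0).mul (ha.add hb)).map (Polynomial.C (R := ℂ))
  have h2 := (td_C (Polynomial.X : Polynomial ℂ) 0).mul
    (((td_C (1 / (2 * Complex.I)) 0).mul (ha.sub hb)).map (Polynomial.C (R := ℂ)))
  exact (h1.mono (by omega)).add (h2.mono (by omega))

/-- for polynomials in one variable -/
def cP : Polynomial ℂ →+* Polynomial ℂ := Polynomial.mapRingHom (starRingEnd ℂ)

theorem cP_cP (P : Polynomial ℂ) : cP (cP P) = P := by
  ext n
  simp [cP]

/-- the mixture of polynomials at a number -/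
def miyS (s : ℂ) (a b : Polynomial ℂ) : Polynomial ℂ :=
  Polynomial.C (1 / 2) * (a + b) + Polynomial.C s * (Polynomial.C (1 / (2 * Complex.I)) *
    (a - b))

/-- the mixture over `ℂ[σ]` -/
def miyP (a b : Polynomial ℂ) : Polynomial (Polynomial ℂ) :=
  (Polynomial.C (1 / 2) * (a + b)).map Polynomial.C + Polynomial.C Polynomial.X *
    (Polynomial.C (1 / (2 * Complex.I)) * (a - b)).map Polynomial.C

theorem miyP_ev (s : ℂ) (a b : Polynomial ℂ) :
    (miyP a b).map (Polynomial.evalRingHom s) = miyS s a b := by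
  rw [miyP, miyS, Polynomial.map_add, map_C_ev,
    Polynomial.map_mul (Polynomial.evalRingHom s) (p := Polynomial.C Polynomial.X),
    map_C_ev, Polynomial.map_C]
  simp

theorem miyS_I (a b : Polynomial ℂ) : miyS Complex.I a b = a := by
  rw [miyS, ← mul_assoc, ← map_mul]
  have h : Complex.I * (1 / (2 * Complex.I)) = 1 / 2 := by
    have := Complex.I_ne_zero
    field_simp
  rw [h, ← mul_add]
  have h2 : a + b + (a - b) = Polynomial.C 2 * a := by
    rw [map_ofNat]; ring
  rw [h2, ← mul_assoc, ← map_mul]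
  norm_num

theorem cP_C (a : ℂ) : cP (Polynomial.C a) = Polynomial.C (starRingEnd ℂ a) := by
  simp [cP]

theorem miyS_cP (s : ℝ) (a b : Polynomial ℂ) :
    cP (miyS (s : ℂ) a (cP b)) = miyS (s : ℂ) b (cP a) := by
  rw [miyS, miyS, map_add, map_mul, map_mul, map_mul, cP_C, cP_C, cP_C, map_add, map_sub,
    cP_cP, Complex.conj_ofReal]
  have h1 : starRingEnd ℂ (1 / 2) = 1 / 2 := conj_half
  have h2 : starRingEnd ℂ (1 / (2 * Complex.I)) = -(1 / (2 * Complex.I)) := conj_half_I
  rw [h1, h2, map_neg]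
  ring

/-- the multiplier at a number -/
def lamS (r : ℕ) (s : ℂ) : MvPolynomial (Fin 2) ℂ :=
  1 + MvPolynomial.C (s ^ 2 + 1) * ((1 + MvPolynomial.X 0 + MvPolynomial.X 1) ^ r - 1)

/-- the multiplier over `ℂ[σ]` -/
def lamQ (r : ℕ) : MvPolynomial (Fin 2) (Polynomial ℂ) :=
  1 + MvPolynomial.C (Polynomial.X ^ 2 + 1) * ((1 + MvPolynomial.X 0 + MvPolynomial.X 1) ^ r - 1)

theorem lamQ_ev (r : ℕ) (s : ℂ) :
    MvPolynomial.map (Polynomial.evalRingHom s) (lamQ r) = lamS r s := by
  rw [lamQ, lamS]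
  simp

theorem lamQ_const (r : ℕ) : MvPolynomial.constantCoeff (lamQ r) = 1 := by
  rw [lamQ]; simp

theorem lamS_const (r : ℕ) (s : ℂ) : MvPolynomial.constantCoeff (lamS r s) = 1 := by
  rw [lamS]; simp

theorem lamS_I (r : ℕ) : lamS r Complex.I = 1 := by
  rw [lamS]; simp

theorem lamS_csw (r : ℕ) (s : ℝ) : csw (lamS r (s : ℂ)) = lamS r (s : ℂ) := by
  rw [lamS]
  simp only [map_add, map_mul, map_sub, map_pow, map_one, csw_X, csw_C, Complex.conj_ofReal]
  have e0 : (0 : Fin 2) + 1 = 1 := rfl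
  have e1 : (1 : Fin 2) + 1 = 0 := rfl
  rw [e0, e1]
  ring

/-- the deformed data -/
def pσ (p : Fin 2 → MvPolynomial (Fin 2) ℂ) (s : ℂ) (i : Fin 2) : MvPolynomial (Fin 2) ℂ :=
  mixS s (p i) (csw (p (i + 1)))

/-- the deformed data -/
def gσ (g : Fin 2 → Polynomial ℂ) (s : ℂ) (i : Fin 2) : Polynomial ℂ :=
  miyS s (g i) (cP (g (i + 1)))

/-- the deformed data over `ℂ[σ]` -/
def pσP (p : Fin 2 → MvPolynomial (Fin 2) ℂ) (i : Fin 2) : MvPolynomial (Fin 2) (Polynomial ℂ) :=
  mixP (p i) (csw (p (i + 1)))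

/-- the deformed data over `ℂ[σ]` -/
def gσP (g : Fin 2 → Polynomial ℂ) (i : Fin 2) : Polynomial (Polynomial ℂ) :=
  miyP (g i) (cP (g (i + 1)))

theorem pσ_real (p : Fin 2 → MvPolynomial (Fin 2) ℂ) (s : ℝ) (i : Fin 2) :
    csw (pσ p (s : ℂ) i) = pσ p (s : ℂ) (i + 1) := by
  rw [pσ, pσ, mixS_csw, fin2_add]

theorem gσ_real (g : Fin 2 → Polynomial ℂ) (s : ℝ) (i : Fin 2) :
    cP (gσ g (s : ℂ) i) = gσ g (s : ℂ) (i + 1) := by
  rw [gσ, gσ, miyS_cP, fin2_add]

theorem sigma_stage {ι : Type*} [Fintype ι] {p : Fin 2 → MvPolynomial (Fin 2) ℂ}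
    {g : Fin 2 → Polynomial ℂ} {h : ι → Fin 2 → MvPolynomial (Fin 2) ℂ} (hp : ∀ i, Low (p i))
    (M r : ℕ) (hind : LinearIndependent ℂ fun i μ => MM p g 1 (h i) (μ + M)) :
    ∃ D : Polynomial ℂ, D ≠ 0 ∧ ∀ s, D.eval s ≠ 0 →
      LinearIndependent ℂ fun i μ => MM (pσ p s) (gσ g s) (lamS r s) (h i) (μ + M) := by
  have hlow : ∀ i, Low (pσP p i) := fun i => low_mixP (hp i) (hp _).csw
  have key : ∀ s i μ, (MM (pσP p) (gσP g) (lamQ r)
      (fun j => MvPolynomial.map Polynomial.C (h i j)) μ).eval s =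
      MM (pσ p s) (gσ g s) (lamS r s) (h i) μ := by
    intro s i μ
    have h1 := MM_map (Polynomial.evalRingHom s) hlow (gσP g) (lamQ_const r)
      (fun j => MvPolynomial.map Polynomial.C (h i j)) μ
    have e1 : (fun j => MvPolynomial.map (Polynomial.evalRingHom s) (pσP p j)) = pσ p s := by
      funext j
      rw [pσP, mixP_ev]; rfl
    have e2 : (fun j => (gσP g j).map (Polynomial.evalRingHom s)) = gσ g s := by
      funext j
      rw [gσP, miyP_ev]; rfl
    have e3 : (fun j => MvPolynomial.map (Polynomial.evalRingHom s)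
        (MvPolynomial.map Polynomial.C (h i j))) = h i := by
      funext j
      rw [mapC_ev]
    rw [e1, e2, e3, lamQ_ev] at h1
    exact h1
  have h0 : pσ p Complex.I = p := by
    funext i
    rw [pσ, mixS_I]
  have h0' : gσ g Complex.I = g := by
    funext i
    rw [gσ, miyS_I]
  obtain ⟨D, hD0, hD⟩ := at_indep (w := fun (i : ι) μ => MM (pσP p) (gσP g) (lamQ r)
      (fun j => MvPolynomial.map Polynomial.C (h i j)) (μ + M)) (s0 := Complex.I) (by
    simp only [key]
    rw [h0, h0', lamS_I]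
    exact hind)
  refine ⟨D, hD0, fun s hs => ?_⟩
  have h1 := hD s hs
  simpa only [key] using h1

end

end Pool.Agent.helper59.LD
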