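import Pool.Agent.helper59.LD.TDef
import Pool.Agent.helper59.LC.Core2
import Pool.Agent.helper59.LC.Generic

/-!
# The independence statement for `P = X`
-/

open PowerSeries Filter

namespace Pool.Agent.helper59.LD

open LC

noncomputable section

theorem hyp_poly_indep {k : Type*} [Field k] [CharZero k] {ι : Type*} [Fintype ι] {κ : ι → ℚ}
    (h1 : ∀ j, ∀ z : ℤ, κ j ≠ z) (h2 : ∀ i j, i ≠ j → ∀ z : ℤ, κ i - κ j ≠ z)
    {q : ι → Polynomial k} {S : Set ℕ} (hS : S.Infinite)
    (h : ∀ n ∈ S, ∑ j, ((hyp (κ j) n : ℚ) : k) * (q j).eval (n : k) = 0) : ∀ j, q j = 0 := by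
  set D := Finset.univ.sup fun j => (q j).natDegree with hD
  have hDj : ∀ j, (q j).natDegree < D + 1 := fun j => by
    have := Finset.le_sup (f := fun j => (q j).natDegree) (Finset.mem_univ j)
    simp only [← hD] at this
    omega
  have key := asy_indep (k := k) (α := ι × Fin (D + 1))
    (s := fun x n => hyp (κ x.1) n * (n : ℚ) ^ (x.2 : ℕ))
    (E := fun x => ((κ x.1 : ℝ) - 1) + ((x.2 : ℕ) : ℝ)) (fun x => ?_) ?_ hS
    (c := fun x => (q x.1).coeff x.2) ?_
  · intro j
    ext t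
    rw [Polynomial.coeff_zero]
    rcases lt_or_ge t (D + 1) with ht | ht
    · exact key (j, ⟨t, ht⟩)
    · exact Polynomial.coeff_eq_zero_of_natDegree_lt ((hDj j).trans_le ht)
  · have e1 := (asy_hyp (κ := κ x.1) fun i => by
      have := h1 x.1 (-(i : ℤ))
      push_cast at this
      exact this).mul (asy_pow x.2)
    refine (congrArg (fun f => Asy f _) (funext fun n => ?_)).mp e1
    push_cast
    rfl
  · intro x y hxy
    simp only at hxy
    have h3 : κ x.1 - κ y.1 = (((y.2 : ℕ) : ℤ) - ((x.2 : ℕ) : ℤ) : ℤ) := by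
      have : ((κ x.1 - κ y.1 : ℚ) : ℝ) = ((((y.2 : ℕ) : ℤ) - ((x.2 : ℕ) : ℤ) : ℤ) : ℝ) := by
        push_cast
        linarith
      exact_mod_cast this
    have h4 : x.1 = y.1 := by
      by_contra hne
      exact h2 _ _ hne _ h3
    rw [h4, sub_self] at h3
    have h5 : (((y.2 : ℕ) : ℤ) - ((x.2 : ℕ) : ℤ) : ℤ) = 0 := by exact_mod_cast h3.symm
    exact Prod.ext h4 (Fin.ext (by omega))
  · intro n hn
    rw [← h n hn, Fintype.sum_prod_type]
    refine Finset.sum_congr rfl fun j _ => ?_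
    rw [Polynomial.eval_eq_sum_range' (hDj j), Finset.mul_sum, ← Fin.sum_univ_eq_sum_range
      (f := fun i => ((hyp (κ j) n : ℚ) : k) * ((q j).coeff i * (n : k) ^ i))]
    refine Finset.sum_congr rfl fun i _ => ?_
    push_cast
    ring

/-- `v = psi (-X^k)` over `ℚ` -/
def vQ (k : ℕ) : ℚ⟦X⟧ := psi (-(Polynomial.X ^ k) : Polynomial ℚ)

theorem isPsi_vQ (k : ℕ) : IsPsi (-(Polynomial.X ^ k) : Polynomial ℚ) (vQ k) := isPsi_psi _

theorem vQ_map (k : ℕ) : PowerSeries.map (algebraMap ℚ ℂ) (vQ k) = qC k := by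
  rw [vQ, psi_map, qC]
  congr 1
  simp

theorem vQ_pow (k j m : ℕ) : algebraMap ℚ ℂ (coeff m (vQ k ^ j)) = coeff m (qC k ^ j) := by
  rw [← coeff_map, map_pow, vQ_map]

theorem vQ_ne_zero {k j m : ℕ} (h : coeff m (qC k ^ j) ≠ 0) : coeff m (vQ k ^ j) ≠ 0 := by
  intro h0
  apply h
  rw [← vQ_pow, h0, map_zero]

theorem vQ_eq_zero {k j m : ℕ} (h : coeff m (qC k ^ j) = 0) : coeff m (vQ k ^ j) = 0 := by
  rw [← vQ_pow] at h
  exact (_root_.map_eq_zero _).1 h

theorem vQ_SS (k i m : ℕ) : algebraMap ℚ ℂ (SS (vQ k) (Polynomial.X ^ i) m) =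
    SS (qC k) (Polynomial.X ^ i) m := by
  rw [vQ, SS_map, qC]
  simp

theorem SS_v (k i m : ℕ) (hi : 1 ≤ i) :
    ((m : ℚ) - (k + 1)) * SS (vQ k) (Polynomial.X ^ i) m =
      -((k : ℚ) + 2 - i) * coeff m (vQ k ^ (i - 1)) := by
  have h := SS_h k i m hi
  rw [← vQ_SS, ← vQ_pow] at h
  apply (algebraMap ℚ ℂ).injective
  rw [map_mul, map_mul, map_sub, map_neg, map_sub, map_add, map_add]
  simpa using h

theorem SS_v_zero (k m : ℕ) :
    ((m : ℚ) + 1) * SS (vQ k) 1 m = ((k : ℚ) + 2) * SS (vQ k) (Polynomial.X ^ (k + 1)) m := by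
  have h := SS_h_zero k m
  have h0 := vQ_SS k 0 m
  rw [pow_zero, pow_zero] at h0
  rw [← h0, ← vQ_SS] at h
  apply (algebraMap ℚ ℂ).injective
  rw [map_mul, map_mul, map_add, map_add]
  simpa using h

theorem coeff_aeval_v (k : ℕ) (B : Polynomial ℚ) (hB : ∀ t, k + 1 ≤ t → B.coeff t = 0) {m ρ : ℕ}
    (hρ1 : 1 ≤ ρ) (hρ2 : ρ ≤ k) (hm : k + 1 < m) (hd : (k + 1) ∣ m + (k + 1 - ρ)) :
    coeff m (Polynomial.aeval (vQ k) B) = B.coeff ρ * coeff m (vQ k ^ ρ) := by
  have hdeg : B.natDegree < k + 1 := by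
    by_contra hc
    push Not at hc
    have := hB _ hc
    have h0 : B = 0 := Polynomial.leadingCoeff_eq_zero.1 this
    rw [h0, Polynomial.natDegree_zero] at hc
    omega
  rw [Polynomial.aeval_eq_sum_range' hdeg, map_sum, Finset.sum_eq_single ρ]
  · rw [map_smul, smul_eq_mul]
  · intro j hj hne
    rw [Finset.mem_range] at hj
    rw [map_smul, smul_eq_mul]
    rcases Nat.eq_zero_or_pos j with rfl | hj0
    · rw [pow_zero, coeff_one, if_neg (by omega), mul_zero]
    · rw [vQ_eq_zero (sel hρ1 (by omega) hm hd hj0 (by omega) hne), mul_zero]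
  · intro hn
    exact absurd (Finset.mem_range.2 (by omega)) hn

theorem SS_aeval_v (k : ℕ) (A : Polynomial ℚ) (hA : ∀ t, k + 1 ≤ t → A.coeff t = 0) {m ρ : ℕ}
    (hρ1 : 1 ≤ ρ) (hρ2 : ρ ≤ k) (hm : k + 1 < m) (hd : (k + 1) ∣ m + (k + 1 - ρ)) :
    ((m : ℚ) + 1) * ((m : ℚ) - (k + 1)) * SS (vQ k) A m =
      -coeff m (vQ k ^ ρ) * (((m : ℚ) + 1) * ((k : ℚ) + 1 - ρ) * A.coeff (ρ + 1) +
        (if ρ = k then ((k : ℚ) + 2) * A.coeff 0 else 0)) := by
  have hdeg : A.natDegree < k + 1 := by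
    by_contra hc
    push Not at hc
    have := hA _ hc
    have h0 : A = 0 := Polynomial.leadingCoeff_eq_zero.1 this
    rw [h0, Polynomial.natDegree_zero] at hc
    omega
  have hSS : SS (vQ k) A m = ∑ t ∈ Finset.range (k + 1 + 1), A.coeff t *
      SS (vQ k) (Polynomial.X ^ t) m := by
    have : A = ∑ t ∈ Finset.range (k + 1 + 1), Polynomial.C (A.coeff t) * Polynomial.X ^ t :=
      Polynomial.as_sum_range_C_mul_X_pow' A (by omega)
    conv_lhs => rw [this]
    rw [SS_sum]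
    simp only [SS_smul]
  have hval : ∀ t, 1 ≤ t → t ≤ k + 1 → ((m : ℚ) - (k + 1)) * SS (vQ k) (Polynomial.X ^ t) m =
      if t = ρ + 1 then -((k : ℚ) + 1 - ρ) * coeff m (vQ k ^ ρ) else 0 := by
    intro t ht1 ht2
    rw [SS_v k t m ht1]
    split_ifs with h
    · subst h
      push_cast
      ring
    · rcases Nat.eq_or_lt_of_le ht1 with h1 | h1
      · rw [← h1, Nat.sub_self, pow_zero, coeff_one, if_neg (by omega), mul_zero]
      · rw [vQ_eq_zero (sel hρ1 (by omega) hm hd (by omega) (by omega) (by omega)), mul_zero]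
  have hval0 : ((m : ℚ) + 1) * ((m : ℚ) - (k + 1)) * SS (vQ k) 1 m =
      if ρ = k then -((k : ℚ) + 2) * coeff m (vQ k ^ ρ) else 0 := by
    have e := SS_v_zero k m
    have e2 := hval (k + 1) (by omega) le_rfl
    have e3 : ((m : ℚ) + 1) * ((m : ℚ) - (k + 1)) * SS (vQ k) 1 m =
      ((k : ℚ) + 2) * (((m : ℚ) - (k + 1)) * SS (vQ k) (Polynomial.X ^ (k + 1)) m) := by
      linear_combination ((m : ℚ) - (k + 1)) * e
    rw [e3, e2]
    by_cases h : ρ = k
    · rw [if_pos (by omega), if_pos h, h]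
      ring
    · rw [if_neg (by omega), if_neg h, mul_zero]
  rw [hSS, Finset.mul_sum, Finset.sum_range_succ']
  have h1 : ∀ t ∈ Finset.range (k + 1), ((m : ℚ) + 1) * ((m : ℚ) - (k + 1)) *
      (A.coeff (t + 1) * SS (vQ k) (Polynomial.X ^ (t + 1)) m) =
      if t = ρ then -(((m : ℚ) + 1) * A.coeff (ρ + 1) * ((k : ℚ) + 1 - ρ) *
        coeff m (vQ k ^ ρ)) else 0 := by
    intro t ht
    rw [Finset.mem_range] at ht
    have e := hval (t + 1) (by omega) (by omega)
    have e2 : ((m : ℚ) + 1) * ((m : ℚ) - (k + 1)) *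
      (A.coeff (t + 1) * SS (vQ k) (Polynomial.X ^ (t + 1)) m) = ((m : ℚ) + 1) * A.coeff (t + 1) *
        (((m : ℚ) - (k + 1)) * SS (vQ k) (Polynomial.X ^ (t + 1)) m) := by ring
    rw [e2, e]
    by_cases h : t = ρ
    · subst h
      rw [if_pos rfl, if_pos rfl]
      ring
    · rw [if_neg (by omega), if_neg h, mul_zero]
  rw [Finset.sum_congr rfl h1, Finset.sum_ite_eq' (Finset.range (k + 1)) ρ,
    if_pos (Finset.mem_range.2 (by omega)), pow_zero]
  have e4 : ((m : ℚ) + 1) * ((m : ℚ) - (k + 1)) * (A.coeff 0 * SS (vQ k) 1 m) =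
      A.coeff 0 * (((m : ℚ) + 1) * ((m : ℚ) - (k + 1)) * SS (vQ k) 1 m) := by ring
  rw [e4, hval0]
  by_cases h : ρ = k
  · rw [if_pos h, if_pos h]
    ring
  · rw [if_neg h, if_neg h]
    ring

theorem TT_zero {k : ℕ} (hk : 2 ≤ k) : TT (k + 1) 1 (Polynomial.X : Polynomial ℚ) (vQ k) := by
  intro ι _ κ hκ1 hκ2 A H B C d hA hH hB hC hrel
  rw [one_mul] at hA hC
  have hB' : ∀ j t, k + 1 ≤ t → (B j).coeff t = 0 := fun j t ht => hB j t (by omega)
  have hH0 : ∀ j, H j = 0 := fun j => by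
    ext t
    rw [hH j t (by omega), Polynomial.coeff_zero]
  have hd1 : inv1 (Polynomial.aeval (vQ k) (Polynomial.derivative (Polynomial.X : Polynomial ℚ))) =
      1 := by
    rw [Polynomial.derivative_X, map_one]
    refine (inv1_unique ?_ (one_mul 1)).symm
    simp
  have hRel : ∀ j μ, Rel (k + 1) (Polynomial.X : Polynomial ℚ) (vQ k) (A j) (H j) (B j) (C j) (d j)
      μ = SS (vQ k) (A j) μ + coeff μ (Polynomial.aeval (vQ k) (B j)) / ((μ : ℚ) + 1) +
      coeff μ (Polynomial.aeval (vQ k) (C j)) / ((μ : ℚ) + 1) ^ 2 +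
      d j * (SS (vQ k) (Polynomial.X ^ 2) μ / ((μ : ℚ) - ((k : ℚ) + 1))) := by
    intro j μ
    rw [Rel, hd1, hH0, Polynomial.aeval_X, map_zero, zero_mul, add_zero, mul_one, mul_one, SS, SS,
      map_pow, Polynomial.aeval_X]
    push_cast
    rfl
  -- the polynomial of a class
  have main : ∀ ρ, 1 ≤ ρ → ρ ≤ k → ∀ j, (A j).coeff (ρ + 1) = 0 ∧
      (ρ = k → (A j).coeff 0 = 0) ∧ (B j).coeff ρ = 0 ∧ (C j).coeff ρ = 0 ∧
        (ρ = 1 → d j = 0) := by
    intro ρ hρ1 hρ2
    set q : ι → Polynomial ℚ := fun j =>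
      -((Polynomial.X - Polynomial.C ((k : ℚ) + 1)) * (Polynomial.X + 1) * ((Polynomial.X + 1) *
        Polynomial.C (((k : ℚ) + 1 - ρ) * (A j).coeff (ρ + 1)) +
        Polynomial.C (if ρ = k then ((k : ℚ) + 2) * (A j).coeff 0 else 0))) +
      (Polynomial.X - Polynomial.C ((k : ℚ) + 1)) ^ 2 * (Polynomial.X + 1) *
        Polynomial.C ((B j).coeff ρ) +
      (Polynomial.X - Polynomial.C ((k : ℚ) + 1)) ^ 2 * Polynomial.C ((C j).coeff ρ) -
      (Polynomial.X + 1) ^ 2 * Polynomial.C (if ρ = 1 then (k : ℚ) * d j else 0) with hq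
    obtain ⟨M, hM⟩ := eventually_atTop.1 hrel
    set S : Set ℕ := {μ | (M ≤ μ ∧ k + 1 < μ) ∧ (k + 1) ∣ μ + (k + 1 - ρ)} with hS
    have hSinf : S.Infinite := by
      rw [Set.infinite_iff_exists_gt]
      intro a
      refine ⟨(k + 1) * (M + a + 2) + ρ, ⟨⟨?_, ?_⟩, ?_⟩, ?_⟩
      · nlinarith
      · nlinarith
      · have : (k + 1) * (M + a + 2) + ρ + (k + 1 - ρ) = (k + 1) * (M + a + 3) := by
          have : ρ + (k + 1 - ρ) = k + 1 := by omega
          rw [add_assoc, this]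
          ring
        rw [this]
        exact dvd_mul_right _ _
      · nlinarith
    have hz := hyp_poly_indep hκ1 hκ2 (q := q) hSinf (fun μ hμ => ?_)
    · intro j
      have h0 := hz j
      have ev : ∀ y : ℚ, (q j).eval y = 0 := fun y => by rw [h0, Polynomial.eval_zero]
      have hk0 : (0 : ℚ) < (k : ℚ) + 1 + 1 := by positivity
      have e1 := ev ((k : ℚ) + 1)
      have e2 := ev (-1)
      have e3 := ev 0
      have e4 := ev 1
      rw [hq] at e1 e2 e3 e4
      simp only [Polynomial.eval_add, Polynomial.eval_sub, Polynomial.eval_mul, Polynomial.eval_neg,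
        Polynomial.eval_pow, Polynomial.eval_X, Polynomial.eval_C, Polynomial.eval_one] at e1 e2 e3 e4
      have hd0 : (if ρ = 1 then (k : ℚ) * d j else 0) = 0 := by
        have : ((k : ℚ) + 1 + 1) ^ 2 * (if ρ = 1 then (k : ℚ) * d j else 0) = 0 := by
          linear_combination -e1
        exact (mul_eq_zero.1 this).resolve_left (by positivity)
      have hc0 : (C j).coeff ρ = 0 := by
        have : ((k : ℚ) + 1 + 1) ^ 2 * (C j).coeff ρ = 0 := by
          linear_combination e2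
        exact (mul_eq_zero.1 this).resolve_left (by positivity)
      rw [hd0, hc0] at e3 e4
      -- the two remaining relations
      have r1 : ((k : ℚ) + 1 - ρ) * (A j).coeff (ρ + 1) +
          (if ρ = k then ((k : ℚ) + 2) * (A j).coeff 0 else 0) +
            ((k : ℚ) + 1) * (B j).coeff ρ = 0 := by
        have : ((k : ℚ) + 1) * (((k : ℚ) + 1 - ρ) * (A j).coeff (ρ + 1) +
          (if ρ = k then ((k : ℚ) + 2) * (A j).coeff 0 else 0) +
            ((k : ℚ) + 1) * (B j).coeff ρ) = 0 := by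
          linear_combination e3
        exact (mul_eq_zero.1 this).resolve_left (by positivity)
      have r2 : 2 * (((k : ℚ) + 1 - ρ) * (A j).coeff (ρ + 1)) +
          (if ρ = k then ((k : ℚ) + 2) * (A j).coeff 0 else 0) +
            (k : ℚ) * (B j).coeff ρ = 0 := by
        have hk1 : (k : ℚ) ≠ 0 := by exact_mod_cast (by omega : k ≠ 0)
        have : (2 * (k : ℚ)) * (2 * (((k : ℚ) + 1 - ρ) * (A j).coeff (ρ + 1)) +
          (if ρ = k then ((k : ℚ) + 2) * (A j).coeff 0 else 0) +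
            (k : ℚ) * (B j).coeff ρ) = 0 := by
          linear_combination e4
        exact (mul_eq_zero.1 this).resolve_left (by positivity)
      have hab : ((k : ℚ) + 1 - ρ) * (A j).coeff (ρ + 1) = (B j).coeff ρ := by
        linear_combination r2 - r1
      have hρk : (0 : ℚ) < (k : ℚ) + 1 - ρ := by
        have : (ρ : ℚ) ≤ k := by exact_mod_cast hρ2
        linarith
      by_cases hρ : ρ = k
      · have hA0 : (A j).coeff (ρ + 1) = 0 := hA j _ (by omega)
        rw [hA0, mul_zero] at hab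
        rw [if_pos hρ, hA0, ← hab] at r1
        have h5 : ((k : ℚ) + 2) * (A j).coeff 0 = 0 := by linear_combination r1
        refine ⟨hA0, fun _ => (mul_eq_zero.1 h5).resolve_left (by positivity), hab.symm, hc0, ?_⟩
        intro h1
        rw [if_pos h1] at hd0
        refine (mul_eq_zero.1 hd0).resolve_left ?_
        exact_mod_cast (by omega : k ≠ 0)
      · rw [if_neg hρ, hab] at r1
        have h5 : ((k : ℚ) + 2) * (B j).coeff ρ = 0 := by linear_combination r1
        have h6 : (B j).coeff ρ = 0 := (mul_eq_zero.1 h5).resolve_left (by positivity)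
        rw [h6] at hab
        refine ⟨(mul_eq_zero.1 hab).resolve_left hρk.ne', fun h => absurd h hρ, h6, hc0, ?_⟩
        intro h1
        rw [if_pos h1] at hd0
        refine (mul_eq_zero.1 hd0).resolve_left ?_
        exact_mod_cast (by omega : k ≠ 0)
    · obtain ⟨⟨hμM, hμk⟩, hd⟩ := hμ
      have h1 := hM μ hμM
      have hw : coeff μ (vQ k ^ ρ) ≠ 0 := vQ_ne_zero (qC_self_ne hρ1 (by omega) hμk hd)
      have hμ1 : ((μ : ℚ) + 1) ≠ 0 := by positivity
      have hμ2 : ((μ : ℚ) - ((k : ℚ) + 1)) ≠ 0 := by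
        rw [sub_ne_zero]
        exact_mod_cast (by omega : μ ≠ k + 1)
      have h2 : ∀ j, coeff μ (vQ k ^ ρ) * (q j).eval (μ : ℚ) =
          (((μ : ℚ) + 1) * ((μ : ℚ) - (k + 1))) ^ 2 * Rel (k + 1) (Polynomial.X : Polynomial ℚ)
            (vQ k) (A j) (H j) (B j) (C j) (d j) μ := by
        intro j
        have e1 := SS_aeval_v k (A j) (hA j) hρ1 hρ2 hμk hd
        have e2 := coeff_aeval_v k (B j) (hB' j) hρ1 hρ2 hμk hd
        have e3 := coeff_aeval_v k (C j) (hC j) hρ1 hρ2 hμk hd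
        have e4 : ((μ : ℚ) - (k + 1)) * SS (vQ k) (Polynomial.X ^ 2) μ =
            if ρ = 1 then -(k : ℚ) * coeff μ (vQ k ^ ρ) else 0 := by
          rw [SS_v k 2 μ (by omega)]
          split_ifs with h
          · rw [h]
            push_cast
            ring
          · rw [show 2 - 1 = 1 from rfl, vQ_eq_zero (sel hρ1 (by omega) hμk hd le_rfl (by omega)
              (fun h' => h h'.symm)), mul_zero]
        rw [hRel, e2, e3]
        set S2 := SS (vQ k) (Polynomial.X ^ 2) μ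
        set SA := SS (vQ k) (A j) μ
        set w := coeff μ (vQ k ^ ρ)
        have e5 : (((μ : ℚ) + 1) * ((μ : ℚ) - (k + 1))) ^ 2 *
            (SA + (B j).coeff ρ * w / ((μ : ℚ) + 1) + (C j).coeff ρ * w / ((μ : ℚ) + 1) ^ 2 +
              d j * (S2 / ((μ : ℚ) - ((k : ℚ) + 1)))) =
            ((μ : ℚ) + 1) * ((μ : ℚ) - (k + 1)) * (((μ : ℚ) + 1) * ((μ : ℚ) - (k + 1)) * SA) +
            ((μ : ℚ) - (k + 1)) ^ 2 * ((μ : ℚ) + 1) * ((B j).coeff ρ * w) +
            ((μ : ℚ) - (k + 1)) ^ 2 * ((C j).coeff ρ * w) +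
            d j * ((μ : ℚ) + 1) ^ 2 * (((μ : ℚ) - (k + 1)) * S2) := by
          field_simp
        rw [e5, e1, e4, hq]
        simp only [Polynomial.eval_add, Polynomial.eval_sub, Polynomial.eval_mul,
          Polynomial.eval_neg, Polynomial.eval_pow, Polynomial.eval_X, Polynomial.eval_C,
          Polynomial.eval_one]
        by_cases h1 : ρ = 1
        · rw [if_pos h1, if_pos h1]
          ring
        · rw [if_neg h1, if_neg h1]
          ring
      have h3 : coeff μ (vQ k ^ ρ) * ∑ j, ((hyp (κ j) μ : ℚ) : ℚ) * (q j).eval (μ : ℚ) = 0 := by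
        rw [Finset.mul_sum]
        have : ∀ j ∈ Finset.univ, coeff μ (vQ k ^ ρ) * (((hyp (κ j) μ : ℚ) : ℚ) *
            (q j).eval (μ : ℚ)) = (((μ : ℚ) + 1) * ((μ : ℚ) - (k + 1))) ^ 2 *
              (((hyp (κ j) μ : ℚ) : ℚ) * Rel (k + 1) (Polynomial.X : Polynomial ℚ)
            (vQ k) (A j) (H j) (B j) (C j) (d j) μ) := by
          intro j _
          linear_combination ((hyp (κ j) μ : ℚ) : ℚ) * h2 j
        have h1' : ∑ j, ((hyp (κ j) μ : ℚ) : ℚ) * Rel (k + 1) (Polynomial.X : Polynomial ℚ)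
            (vQ k) (A j) (H j) (B j) (C j) (d j) μ = 0 := h1
        rw [Finset.sum_congr rfl this, ← Finset.mul_sum, h1', mul_zero]
      exact (mul_eq_zero.1 h3).resolve_left hw
  intro j
  refine ⟨⟨(A j).coeff 1, ?_⟩, hH0 j, ⟨(B j).coeff 0, ?_⟩, ⟨(C j).coeff 0, ?_⟩, ?_⟩
  · ext t
    rw [Polynomial.coeff_C_mul, Polynomial.coeff_X]
    rcases t with _ | _ | t
    · rw [if_neg (by omega), mul_zero]
      exact (main k (by omega) le_rfl j).2.1 rfl
    · simp
    · rw [if_neg (by omega), mul_zero]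
      rcases le_or_gt (t + 1) k with h | h
      · exact (main (t + 1) (by omega) h j).1
      · exact hA j _ (by omega)
  · ext t
    rw [Polynomial.derivative_X, mul_one, Polynomial.coeff_C]
    split_ifs with h
    · rw [h]
    · rcases le_or_gt t k with h' | h'
      · exact (main t (by omega) h' j).2.2.1
      · exact hB' j _ (by omega)
  · ext t
    rw [Polynomial.derivative_X, mul_one, Polynomial.coeff_C]
    split_ifs with h
    · rw [h]
    · rcases le_or_gt t k with h' | h'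
      · exact (main t (by omega) h' j).2.2.2.1
      · exact hC j _ (by omega)
  · exact (main 1 le_rfl (by omega) j).2.2.2.2 rfl

end

end Pool.Agent.helper59.LD
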