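import Pool.Agent.helper59.LD.Sig

/-!
# The degree of the unperturbed field
-/

open PowerSeries Filter

set_option linter.unusedSectionVars false

namespace Pool.Agent.helper59.LD

open LC

noncomputable section

section gen
variable {A : Type*} [CommRing A]

/-- composition -/
def Fp (P : MvPolynomial (Fin 2) A) (g : Polynomial A) : MvPolynomial (Fin 2) A :=
  Polynomial.aeval P (FF g)

/-- the field without multiplier -/
def UU (p : Fin 2 → MvPolynomial (Fin 2) A) (g : Fin 2 → Polynomial A) :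
    MvPolynomial (Fin 2) A :=
  MvPolynomial.pderiv 1 (PP p 1) * Fp (PP p 0) (g 0) +
    MvPolynomial.pderiv 1 (PP p 0) * Fp (PP p 1) (g 1)

theorem Fp_map {B : Type*} [CommRing B] (f : A →+* B) (P : MvPolynomial (Fin 2) A)
    (g : Polynomial A) : MvPolynomial.map f (Fp P g) = Fp (MvPolynomial.map f P) (g.map f) := by
  have hFF : (FF g).map f = FF (g.map f) := by simp [FF]
  rw [Fp, Fp, ← hFF]
  induction (FF g) using Polynomial.induction_on' with
  | add p q hp hq => rw [map_add, map_add, hp, hq, Polynomial.map_add, map_add]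
  | monomial n a =>
    rw [Polynomial.aeval_monomial, Polynomial.map_monomial, Polynomial.aeval_monomial, map_mul,
      map_pow, MvPolynomial.algebraMap_eq, MvPolynomial.map_C]
    rfl

theorem UU_map {B : Type*} [CommRing B] (f : A →+* B) (p : Fin 2 → MvPolynomial (Fin 2) A)
    (g : Fin 2 → Polynomial A) : MvPolynomial.map f (UU p g) =
      UU (fun i => MvPolynomial.map f (p i)) (fun i => (g i).map f) := by
  have hPP : ∀ i, MvPolynomial.map f (PP p i) = PP (fun i => MvPolynomial.map f (p i)) i := by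
    intro i
    rw [PP, PP, map_add, MvPolynomial.map_X]
  rw [UU, UU, map_add, map_mul, map_mul, Fp_map, Fp_map, ← MvPolynomial.pderiv_map,
    ← MvPolynomial.pderiv_map, hPP, hPP]

theorem td_Fp {P : MvPolynomial (Fin 2) A} {g : Polynomial A} {a b : ℕ} (hP : TD P a)
    (hg : (FF g).natDegree ≤ b) : TD (Fp P g) (b * a) := by
  rw [Fp, Polynomial.aeval_eq_sum_range]
  refine TD.sum fun j hj => ?_
  rw [Finset.mem_range] at hj
  rw [MvPolynomial.smul_eq_C_mul]
  have := (td_C ((FF g).coeff j) 0).mul (hP.pow j)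
  refine this.mono ?_
  rw [zero_add]
  exact Nat.mul_le_mul_right a (by omega)

theorem td_UU {p : Fin 2 → MvPolynomial (Fin 2) A} {g : Fin 2 → Polynomial A} {a b : ℕ}
    (hp : ∀ i, TD (PP p i) (a + 1)) (hg : ∀ i, (FF (g i)).natDegree ≤ b) :
    TD (UU p g) (a + b * (a + 1)) :=
  (((hp 1).pderiv 1).mul (td_Fp (hp 0) (hg 0))).add
    (((hp 0).pderiv 1).mul (td_Fp (hp 1) (hg 1)))

end gen

/-- diagonal substitution -/
def dg : MvPolynomial (Fin 2) ℂ →ₐ[ℂ] Polynomial ℂ := MvPolynomial.aeval fun _ => Polynomial.X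

theorem dg_le (P : MvPolynomial (Fin 2) ℂ) : (dg P).natDegree ≤ P.totalDegree := by
  have h1 := MvPolynomial.aeval_natDegree_le P (le_refl P.totalDegree)
    (fun _ : Fin 2 => (Polynomial.X : Polynomial ℂ)) (n := 1) (fun _ => Polynomial.natDegree_X_le)
  rwa [mul_one] at h1

theorem dg_X (i : Fin 2) : dg (MvPolynomial.X i) = Polynomial.X := MvPolynomial.aeval_X _ _

theorem dg_C (a : ℂ) : dg (MvPolynomial.C a) = Polynomial.C a := by
  rw [dg, MvPolynomial.aeval_C]; rfl

theorem dg_aeval (P : MvPolynomial (Fin 2) ℂ) (Q : Polynomial ℂ) :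
    dg (Polynomial.aeval P Q) = Q.comp (dg P) := by
  rw [← Polynomial.aeval_algHom_apply, Polynomial.comp_eq_aeval]

variable {N m : ℕ} {v : Polynomial ℂ}

theorem FF_g1 (hN : 1 ≤ N) (e : ℂ) : FF (g1 N e) = Polynomial.X + Polynomial.C e *
    Polynomial.X ^ 2 - Polynomial.X ^ (N + 1) := by
  rw [FF, g1]
  have : N + 1 = 2 + (N - 1) := by omega
  rw [this, pow_add]
  ring

theorem FF_g1_deg (hN : 2 ≤ N) (e : ℂ) : (FF (g1 N e)).natDegree = N + 1 := by
  rw [FF_g1 (by omega)]
  rw [Polynomial.natDegree_sub_eq_right_of_natDegree_lt]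
  · exact Polynomial.natDegree_X_pow _
  · rw [Polynomial.natDegree_X_pow]
    have h1 : (Polynomial.X + Polynomial.C e * Polynomial.X ^ 2 : Polynomial ℂ).natDegree ≤ 2 := by
      refine (Polynomial.natDegree_add_le _ _).trans (max_le ?_ ?_)
      · exact Polynomial.natDegree_X_le.trans (by omega)
      · exact Polynomial.natDegree_C_mul_X_pow_le _ _
    omega

theorem F2_deg (e : ℂ) (N m : ℕ) (hN : 1 ≤ N) : (F2 N m e).natDegree ≤ N + 1 := by
  have hT : (Tm ℂ m).natDegree ≤ 1 := by
    rw [Tm]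
    refine (Polynomial.natDegree_add_le _ _).trans (max_le ?_ ?_)
    · rw [Polynomial.natDegree_one]; omega
    · exact (Polynomial.natDegree_C_mul_le _ _).trans Polynomial.natDegree_X_le
  have hTp : ∀ j, (Tm ℂ m ^ j).natDegree ≤ j := fun j =>
    (Polynomial.natDegree_pow_le).trans (by nlinarith)
  rw [F2, Gp]
  refine (Polynomial.natDegree_C_mul_le _ _).trans ?_
  refine (Polynomial.natDegree_add_le _ _).trans (max_le ?_ ?_)
  · refine (Polynomial.natDegree_sub_le _ _).trans (max_le ?_ ?_)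
    · exact (Polynomial.natDegree_C_mul_le _ _).trans (hTp _)
    · exact (Polynomial.natDegree_C_mul_le _ _).trans (hT.trans (by omega))
  · exact (Polynomial.natDegree_C_mul_le _ _).trans ((hTp _).trans (by omega))

theorem FF_gg_deg (hN : 2 ≤ N) (hm : m ≠ 0) (e : ℂ) (i : Fin 2) :
    (FF (gg N m e i)).natDegree ≤ N + 1 := by
  fin_cases i
  · exact (FF_g1_deg hN e).le
  · change (FF (g2 N m e)).natDegree ≤ N + 1
    rw [FF_g2 (by omega) hm]
    exact F2_deg e N m (by omega)

theorem PP_pS (s : ℂ) (i : Fin 2) : PP (pS m v s) i =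
    Polynomial.aeval (MvPolynomial.X i) (FF (rr m v i)) +
      MvPolynomial.C s * MvPolynomial.X (i + 1) ^ 2 := by
  rw [← PP_pR, PP, PP, pS]
  ring

theorem dg_PP (s : ℂ) (i : Fin 2) : dg (PP (pS m v s) i) =
    FF (rr m v i) + Polynomial.C s * Polynomial.X ^ 2 := by
  rw [PP_pS, map_add, dg_aeval, dg_X, Polynomial.comp_X, map_mul, map_pow, dg_X, dg_C]

theorem UU_base_deg (hm : 3 ≤ m) (hN : 2 ≤ N) (hr : FF (poly2 v) = v) (hv : v.natDegree = m)
    (s e : ℂ) : m - 1 + (N + 1) * m ≤ (UU (pS m v s) (gg N m e)).totalDegree := by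
  refine le_trans ?_ (dg_le _)
  have hd1 : dg (MvPolynomial.pderiv 1 (PP (pS m v s) 1)) = (1 + Polynomial.X) ^ (m - 1) := by
    rw [PP_pS, map_add, pderiv_poly, if_pos rfl, MvPolynomial.pderiv_C_mul,
      Derivation.leibniz_pow, MvPolynomial.pderiv_X_of_ne (by decide), map_add, dg_aeval, dg_X,
      Polynomial.comp_X, FF_rr_one (by omega), R1_deriv (by omega)]
    simp
  have hd2 : dg (MvPolynomial.pderiv 1 (PP (pS m v s) 0)) =
      Polynomial.C (2 * s) * Polynomial.X := by
    rw [PP_pS, map_add, pderiv_poly, if_neg (by decide), MvPolynomial.pderiv_C_mul,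
      Derivation.leibniz_pow, zero_add]
    have h0 : (0 : Fin 2) + 1 = 1 := rfl
    rw [h0, MvPolynomial.pderiv_X_self, map_mul, dg_C]
    simp only [nsmul_eq_mul, smul_eq_mul, mul_one, map_mul, map_pow, dg_X]
    push_cast
    simp only [map_ofNat, pow_one]
    ring
  rw [UU, map_add, map_mul, map_mul, Fp, Fp, dg_aeval, dg_aeval, hd1, hd2, dg_PP, dg_PP]
  have hR : ∀ i : Fin 2, (FF (rr m v i) + Polynomial.C s * Polynomial.X ^ 2).natDegree ≤ m := by
    intro i
    refine (Polynomial.natDegree_add_le _ _).trans (max_le (FF_rr_deg (by omega) hr hv i) ?_)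
    exact (Polynomial.natDegree_C_mul_X_pow_le _ _).trans (by omega)
  have hR0 : (FF (rr m v 0) + Polynomial.C s * Polynomial.X ^ 2).natDegree = m := by
    rw [FF_rr_zero hr]
    rw [Polynomial.natDegree_add_eq_left_of_natDegree_lt]
    · exact hv
    · rw [hv]
      exact (Polynomial.natDegree_C_mul_X_pow_le _ _).trans_lt (by omega)
  have h1X : (1 + Polynomial.X : Polynomial ℂ) = Polynomial.X + Polynomial.C 1 := by
    rw [map_one]; ring
  have hA : ((1 + Polynomial.X : Polynomial ℂ) ^ (m - 1) * (FF (gg N m e 0)).comp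
      (FF (rr m v 0) + Polynomial.C s * Polynomial.X ^ 2)).natDegree = m - 1 + (N + 1) * m := by
    have hne1 : (1 + Polynomial.X : Polynomial ℂ) ^ (m - 1) ≠ 0 := by
      rw [h1X]
      exact pow_ne_zero _ (Polynomial.X_add_C_ne_zero 1)
    have hcd : ((FF (gg N m e 0)).comp
      (FF (rr m v 0) + Polynomial.C s * Polynomial.X ^ 2)).natDegree = (N + 1) * m := by
      rw [Polynomial.natDegree_comp, hR0, gg_zero, FF_g1_deg hN]
    have hne2 : (FF (gg N m e 0)).comp
      (FF (rr m v 0) + Polynomial.C s * Polynomial.X ^ 2) ≠ 0 := by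
      intro h
      rw [h, Polynomial.natDegree_zero] at hcd
      have : 0 < (N + 1) * m := Nat.mul_pos (by omega) (by omega)
      omega
    rw [Polynomial.natDegree_mul hne1 hne2, hcd, h1X, Polynomial.natDegree_pow,
      Polynomial.natDegree_X_add_C, mul_one]
  rw [Polynomial.natDegree_add_eq_left_of_natDegree_lt]
  · exact hA.ge
  · rw [hA]
    refine (Polynomial.natDegree_mul_le).trans_lt ?_
    have h2 : (Polynomial.C (2 * s) * Polynomial.X : Polynomial ℂ).natDegree ≤ 1 :=
      (Polynomial.natDegree_C_mul_le _ _).trans Polynomial.natDegree_X_le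
    have h3 := (Polynomial.natDegree_comp_le (p := FF (gg N m e 1))
      (q := FF (rr m v 1) + Polynomial.C s * Polynomial.X ^ 2)).trans
      (Nat.mul_le_mul (FF_gg_deg hN (by omega) e 1) (hR 1))
    omega

theorem td_PP_pS (hm : 2 ≤ m) (hr : FF (poly2 v) = v) (hv : v.natDegree = m) (s : ℂ)
    (i : Fin 2) : TD (PP (pS m v s) i) m := by
  rw [PP_pS]
  refine TD.add (td_poly i _ (FF_rr_deg (by omega) hr hv i)) ?_
  exact ((td_C _ 0).mul ((td_X (i + 1) le_rfl).pow 2)).mono (by omega)

end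

end Pool.Agent.helper59.LD
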