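import Pool.Agent.helper59.LD.Delta

/-!
# One variable solutions and product values
-/

open PowerSeries

set_option linter.unusedSectionVars false

namespace Pool.Agent.helper59.LD

open LC

noncomputable section

/-- remove the two lowest coefficients -/
def poly2 {A : Type*} [CommRing A] (p : Polynomial A) : Polynomial A := p.divX.divX

theorem FF_poly2 {A : Type*} [CommRing A] {p : Polynomial A} (h0 : p.coeff 0 = 0)
    (h1 : p.coeff 1 = 1) : FF (poly2 p) = p := by
  have e1 := p.divX_mul_X_add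
  have e2 := p.divX.divX_mul_X_add
  rw [Polynomial.coeff_divX, h1] at e2
  rw [h0, map_zero, add_zero] at e1
  rw [FF, poly2]
  rw [map_one] at e2
  linear_combination Polynomial.X * e2 + e1

theorem poly2_map {A B : Type*} [CommRing A] [CommRing B] (f : A →+* B) (p : Polynomial A) :
    (poly2 p).map f = poly2 (p.map f) := by
  rw [poly2, poly2]
  ext n
  simp [Polynomial.coeff_divX]

variable {A : Type*} [CommRing A] [Algebra ℚ A]

theorem aeval_pR (r : Fin 2 → Polynomial A) (x : Fin 2 → A⟦X⟧) (i : Fin 2) :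
    x i + MvPolynomial.aeval x (pR r i) = Polynomial.aeval (x i) (FF (r i)) := by
  have h : MvPolynomial.aeval x (Polynomial.aeval (MvPolynomial.X i : MvPolynomial (Fin 2) A)
      (r i)) = Polynomial.aeval (x i) (r i) := by
    rw [← Polynomial.aeval_algHom_apply, MvPolynomial.aeval_X]
  rw [pR, map_mul, map_pow, MvPolynomial.aeval_X, h, FF, map_add, map_mul, map_pow,
    Polynomial.aeval_X]
  ring

/-- existence of the one variable solutions -/
theorem exists_x1 (r g : Fin 2 → Polynomial A) : ∃ x, IsX1 r g x := by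
  have h := isSol_sol (low_pR r) (s := fun i => psi (g i)) (fun i => X_dvd_psi (g i))
  refine ⟨_, fun i => ⟨h.1 i, ?_⟩⟩
  rw [← aeval_pR]
  exact h.2 i

theorem IsX1.unique {r g : Fin 2 → Polynomial A} {x y : Fin 2 → A⟦X⟧} (hx : IsX1 r g x)
    (hy : IsX1 r g y) : x = y := by
  refine IsSol.unique (p := pR r) (s := fun i => psi (g i)) (low_pR r)
    ⟨fun i => (hx i).1, fun i => ?_⟩ ⟨fun i => (hy i).1, fun i => ?_⟩
  · rw [aeval_pR]; exact (hx i).2
  · rw [aeval_pR]; exact (hy i).2

theorem map_aeval1 {A' : Type*} [CommRing A'] (f : A →+* A') (x : A⟦X⟧) (P : Polynomial A) :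
    PowerSeries.map f (Polynomial.aeval x P) =
      Polynomial.aeval (PowerSeries.map f x) (P.map f) := by
  induction P using Polynomial.induction_on' with
  | add p q hp hq => rw [map_add, map_add, hp, hq, Polynomial.map_add, map_add]
  | monomial n a =>
    rw [Polynomial.aeval_monomial, Polynomial.map_monomial, Polynomial.aeval_monomial, map_mul,
      map_pow, PowerSeries.algebraMap_apply, PowerSeries.algebraMap_apply, PowerSeries.map_C]
    rfl

theorem FF_map {A' : Type*} [CommRing A'] (f : A →+* A') (g : Polynomial A) :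
    (FF g).map f = FF (g.map f) := by
  simp [FF]

theorem IsX1.map {A' : Type*} [CommRing A'] [Algebra ℚ A'] (f : A →+* A')
    {r g : Fin 2 → Polynomial A} {x : Fin 2 → A⟦X⟧} (hx : IsX1 r g x) :
    IsX1 (fun i => (r i).map f) (fun i => (g i).map f) (fun i => PowerSeries.map f (x i)) := by
  intro i
  refine ⟨?_, ?_⟩
  · obtain ⟨c, hc⟩ := (hx i).1
    exact ⟨PowerSeries.map f c, by simp only; rw [hc, map_mul, PowerSeries.map_X]⟩
  · rw [← FF_map, ← map_aeval1, (hx i).2, psi_map]

/-! ### values -/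

/-- first factor -/
def V1 (g : Polynomial A) (x : A⟦X⟧) (a : Polynomial A) (μ : ℕ) : A :=
  coeff (μ + 1) (Polynomial.aeval x a * rec' (psi g))

/-- second factor -/
def V2 (r : Polynomial A) (x : A⟦X⟧) (b : Polynomial A) (μ : ℕ) : A :=
  coeff μ (Polynomial.aeval x b * inv1 (Polynomial.aeval x (Polynomial.derivative (FF r))))

/-- first factor of the second kind -/
def V3 (r g : Polynomial A) (x : A⟦X⟧) (a : Polynomial A) (μ : ℕ) : A :=
  coeff (μ + 1) (Polynomial.aeval x a *
    inv1 (Polynomial.aeval x (Polynomial.derivative (FF r))) * rec' (psi g))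

/-- power -/
def V4 (x : A⟦X⟧) (e μ : ℕ) : A := coeff μ (x ^ e)

theorem MM_hP' {r g : Fin 2 → Polynomial A} {x : Fin 2 → A⟦X⟧} (hx : IsX1 r g x) (i : Fin 2)
    (a b : Polynomial A) (μ : ℕ) :
    MM (pR r) g 1 (hP i a b) μ = V1 (g i) (x i) a μ * V2 (r (i + 1)) (x (i + 1)) b μ :=
  MM_hP hx i a b μ

theorem delta_low' {k : Type*} [CommRing k] [Algebra ℚ k] {r g : Fin 2 → Polynomial k}
    {x : Fin 2 → k⟦X⟧} (hx : IsX1 r g x) (i : Fin 2) (F0 : Polynomial k) (n : ℕ)
    {μ : ℕ} (hμ : 1 ≤ μ) :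
    (∀ j, j < n + 1 → (cS r g i F0 n μ).coeff j = 0) ∧
      (cS r g i F0 n μ).coeff (n + 1) = -(algebraMap ℚ k (((n + 1).factorial : ℚ)⁻¹) *
        (V3 (r i) (g i) (x i) (Polynomial.derivative F0) μ * V4 (x (i + 1)) (2 * (n + 1)) μ)) :=
  delta_low r g hx i F0 n hμ

section nat
variable {A' : Type*} [CommRing A'] [Algebra ℚ A'] (f : A →+* A')

theorem V1_map (g : Polynomial A) (x : A⟦X⟧) (a : Polynomial A) (μ : ℕ) :
    f (V1 g x a μ) = V1 (g.map f) (PowerSeries.map f x) (a.map f) μ := by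
  rw [V1, V1, ← coeff_map, map_mul, map_aeval1, rec_map]

theorem V2_map {r g : Fin 2 → Polynomial A} {x : Fin 2 → A⟦X⟧} (hx : IsX1 r g x) (i : Fin 2)
    (b : Polynomial A) (μ : ℕ) :
    f (V2 (r i) (x i) b μ) = V2 ((r i).map f) (PowerSeries.map f (x i)) (b.map f) μ := by
  rw [V2, V2, ← coeff_map, map_mul, map_aeval1, inv1_map f (coeff_zero_R hx i), map_aeval1,
    ← FF_map, Polynomial.derivative_map]

theorem V3_map {r g : Fin 2 → Polynomial A} {x : Fin 2 → A⟦X⟧} (hx : IsX1 r g x) (i : Fin 2)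
    (a : Polynomial A) (μ : ℕ) :
    f (V3 (r i) (g i) (x i) a μ) =
      V3 ((r i).map f) ((g i).map f) (PowerSeries.map f (x i)) (a.map f) μ := by
  rw [V3, V3, ← coeff_map, map_mul (PowerSeries.map f), map_mul (PowerSeries.map f), map_aeval1, inv1_map f (coeff_zero_R hx i),
    map_aeval1, ← FF_map, Polynomial.derivative_map, rec_map]

theorem V4_map (x : A⟦X⟧) (e μ : ℕ) : f (V4 x e μ) = V4 (PowerSeries.map f x) e μ := by
  rw [V4, V4, ← coeff_map, map_pow]

end nat

end

end Pool.Agent.helper59.LD
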