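import Pool.Agent.helper59.LD.X1

/-!
# The second variable
-/

open PowerSeries

set_option linter.unusedSectionVars false

namespace Pool.Agent.helper59.LD

open LC

noncomputable section

section gen
variable {A : Type*} [CommRing A] [Algebra ℚ A]

/-- rational constants -/
def qc (A : Type*) [CommRing A] [Algebra ℚ A] (q : ℚ) : A := algebraMap ℚ A q

theorem qc_nat (n : ℕ) : qc A (n : ℚ) = n := by simp [qc]

theorem qc_mul (a b : ℚ) : qc A (a * b) = qc A a * qc A b := map_mul _ _ _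

theorem qc_add (a b : ℚ) : qc A (a + b) = qc A a + qc A b := map_add _ _ _

theorem qc_one : qc A 1 = 1 := map_one _

theorem qc_inv {n : ℕ} (hn : n ≠ 0) : (n : A) * qc A ((n : ℚ)⁻¹) = 1 := by
  rw [← qc_nat, ← qc_mul, mul_inv_cancel₀ (by exact_mod_cast hn), qc_one]

theorem map_qc {A' : Type*} [CommRing A'] [Algebra ℚ A'] (f : A →+* A') (q : ℚ) :
    f (qc A q) = qc A' q := by
  have : f.comp (algebraMap ℚ A) = algebraMap ℚ A' := Subsingleton.elim _ _
  exact congrArg (fun φ : ℚ →+* A' => φ q) this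

/-- `T = 1 + m X` -/
def Tm (A : Type*) [CommRing A] (m : ℕ) : Polynomial A := 1 + Polynomial.C (m : A) * Polynomial.X

/-- `G_ε(T)` as a polynomial in an arbitrary element -/
def Gp (N : ℕ) (e : A) (T : Polynomial A) : Polynomial A :=
  Polynomial.C ((1 - e) * qc A ((N : ℚ)⁻¹)) * T ^ (N + 1) -
    Polynomial.C ((1 + e * ((N : A) - 1)) * qc A ((N : ℚ)⁻¹)) * T + Polynomial.C e * T ^ 2

/-- the right hand side `G_ε(1 + m X)/m` -/
def F2 (N m : ℕ) (e : A) : Polynomial A := Polynomial.C (qc A ((m : ℚ)⁻¹)) * Gp N e (Tm A m)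

theorem F2_coeff_zero {N m : ℕ} (hN : N ≠ 0) (e : A) : (F2 N m e).coeff 0 = 0 := by
  rw [Polynomial.coeff_zero_eq_eval_zero, F2, Gp, Tm]
  simp only [Polynomial.eval_mul, Polynomial.eval_C, Polynomial.eval_add, Polynomial.eval_sub,
    Polynomial.eval_pow, Polynomial.eval_one, Polynomial.eval_X, mul_zero, add_zero, one_pow,
    mul_one]
  have := qc_inv (A := A) hN
  linear_combination (-(qc A (m : ℚ)⁻¹ * e)) * this

theorem F2_coeff_one {N m : ℕ} (hN : N ≠ 0) (hm : m ≠ 0) (e : A) : (F2 N m e).coeff 1 = 1 := by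
  have h : (F2 N m e).coeff 1 = (Polynomial.derivative (F2 N m e)).coeff 0 := by
    rw [Polynomial.coeff_derivative]; simp
  rw [h, Polynomial.coeff_zero_eq_eval_zero, F2, Gp, Tm]
  simp only [Polynomial.derivative_C_mul, map_add, map_sub, Polynomial.derivative_pow,
    Polynomial.derivative_one, Polynomial.derivative_X, Polynomial.eval_mul, Polynomial.eval_C,
    Polynomial.eval_add, Polynomial.eval_sub,
    Polynomial.eval_pow, Polynomial.eval_one, Polynomial.eval_X, mul_zero, add_zero, one_pow,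
    mul_one, zero_add, Nat.add_sub_cancel]
  push_cast
  have h1 := qc_inv (A := A) hN
  have h2 := qc_inv (A := A) hm
  linear_combination (1 - e) * h1 * (qc A (m : ℚ)⁻¹ * (m : A)) - e * h1 * (qc A (m : ℚ)⁻¹ * (m : A)) + h2

/-- the nonlinearity of the second equation -/
def g2 (N m : ℕ) (e : A) : Polynomial A := poly2 (F2 N m e)

theorem FF_g2 {N m : ℕ} (hN : N ≠ 0) (hm : m ≠ 0) (e : A) : FF (g2 N m e) = F2 N m e :=
  FF_poly2 (F2_coeff_zero hN e) (F2_coeff_one hN hm e)

theorem Tm_deriv (m : ℕ) : Polynomial.derivative (Tm A m) = Polynomial.C (m : A) := by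
  rw [Tm]; simp

theorem LL_Tm {N m : ℕ} (hN : N ≠ 0) (hm : m ≠ 0) (e : A) : LL (g2 N m e) (Tm A m) =
    -(Polynomial.C ((N : A) * (m : A)) * (FF (g2 N m e) * 1)) -
      Polynomial.C (1 + e * ((N : A) - 1)) * Tm A m +
        Polynomial.C (((N : A) - 1) * e) * Tm A m ^ 2 := by
  have h1 := congrArg (Polynomial.C (R := A)) (qc_inv (A := A) hN)
  have h2 := congrArg (Polynomial.C (R := A)) (qc_inv (A := A) hm)
  rw [LL, FF_g2 hN hm, F2, Gp]
  simp only [Polynomial.derivative_mul, Polynomial.derivative_C, map_add, map_sub,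
    Polynomial.derivative_pow, Tm_deriv, zero_mul, zero_add, Nat.add_sub_cancel, map_mul,
    map_one, map_natCast, Nat.cast_add, Nat.cast_one, Nat.cast_ofNat, Polynomial.derivative_one,
    Polynomial.derivative_natCast, map_ofNat] at h1 h2 ⊢
  linear_combination (Polynomial.C e * Tm A m * (1 - (N : Polynomial A)) - Tm A m) *
    ((m : Polynomial A) * Polynomial.C (qc A (m : ℚ)⁻¹) * h1 + h2) +
    Polynomial.C e * Tm A m ^ 2 * ((N : Polynomial A) - 1) * h2

/-- `(μ + 1 + ε (N - 1)) SS(T) = (N - 1) ε SS(T²)` -/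
theorem SS_Tm {N m : ℕ} (hN : N ≠ 0) (hm : m ≠ 0) (e : A) {μ : ℕ} (hμ : 1 ≤ μ) :
    ((μ : A) + 1 + e * ((N : A) - 1)) * SS (psi (g2 N m e)) (Tm A m) μ =
      ((N : A) - 1) * e * SS (psi (g2 N m e)) (Tm A m ^ 2) μ := by
  have hψ := isPsi_psi (g2 N m e)
  have h1 := SS_LL hψ (Tm A m) μ
  have e1 : LL (g2 N m e) (Tm A m) = Polynomial.C (((N : A) - 1) * e) * Tm A m ^ 2 -
      Polynomial.C (1 + e * ((N : A) - 1)) * Tm A m -
        Polynomial.C ((N : A) * (m : A)) * (FF (g2 N m e) * 1) := by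
    rw [LL_Tm hN hm]; ring
  rw [e1, SS_sub, SS_sub, SS_smul, SS_smul, SS_smul, SS_FF hψ, map_one, coeff_one,
    if_neg (by omega)] at h1
  linear_combination -h1

/-- the polynomial `((1 + X)^m - 1)/m` -/
def R1 (A : Type*) [CommRing A] [Algebra ℚ A] (m : ℕ) : Polynomial A :=
  Polynomial.C (qc A ((m : ℚ)⁻¹)) * ((1 + Polynomial.X) ^ m - 1)

/-- its nonlinearity -/
def r1 (A : Type*) [CommRing A] [Algebra ℚ A] (m : ℕ) : Polynomial A := poly2 (R1 A m)

theorem R1_deriv {m : ℕ} (hm : m ≠ 0) : Polynomial.derivative (R1 A m) =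
    (1 + Polynomial.X) ^ (m - 1) := by
  have h2 := congrArg (Polynomial.C (R := A)) (qc_inv (A := A) hm)
  rw [R1]
  simp only [Polynomial.derivative_mul, Polynomial.derivative_C, map_add, map_sub,
    Polynomial.derivative_pow, zero_mul, zero_add, map_mul,
    map_one, map_natCast, Polynomial.derivative_one, Polynomial.derivative_X] at h2 ⊢
  linear_combination (1 + Polynomial.X) ^ (m - 1) * h2

theorem FF_r1 {m : ℕ} (hm : m ≠ 0) : FF (r1 A m) = R1 A m := by
  apply FF_poly2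
  · rw [Polynomial.coeff_zero_eq_eval_zero, R1]; simp
  · have h : (R1 A m).coeff 1 = (Polynomial.derivative (R1 A m)).coeff 0 := by
      rw [Polynomial.coeff_derivative]; simp
    rw [h, R1_deriv hm, Polynomial.coeff_zero_eq_eval_zero]
    simp

theorem Tm_R1 {m : ℕ} (hm : m ≠ 0) {y φ : A⟦X⟧} (h : Polynomial.aeval y (R1 A m) = φ) :
    Polynomial.aeval y ((1 + Polynomial.X : Polynomial A) ^ m) = Polynomial.aeval φ (Tm A m) := by
  have h2 := congrArg (C (R := A)) (qc_inv (A := A) hm)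
  rw [← h, R1, Tm]
  simp only [map_mul, map_add, map_sub, map_one, map_pow, Polynomial.aeval_X, Polynomial.aeval_C,
    PowerSeries.algebraMap_apply, Algebra.algebraMap_self, RingHom.id_apply] at h2 ⊢
  linear_combination (-((1 + y) ^ m - 1)) * h2

/-- the first factor of the special perturbations -/
theorem V1_Tm {N m : ℕ} (hN : N ≠ 0) (hm : m ≠ 0) (e : A) {y : A⟦X⟧}
    (h : Polynomial.aeval y (R1 A m) = psi (g2 N m e)) {μ : ℕ} (hμ : 1 ≤ μ) :
    ((μ : A) + 1 + e * ((N : A) - 1)) * V1 (g2 N m e) y ((1 + Polynomial.X) ^ m) μ =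
      ((N : A) - 1) * e * V1 (g2 N m e) y ((1 + Polynomial.X) ^ (2 * m)) μ := by
  have h1 := Tm_R1 hm h
  have h2 := SS_Tm hN hm e hμ
  rw [V1, V1, h1, mul_comm 2 m, pow_mul, map_pow, h1, ← map_pow]
  exact h2

theorem R1_map {A' : Type*} [CommRing A'] [Algebra ℚ A'] (f : A →+* A') (m : ℕ) :
    (R1 A m).map f = R1 A' m := by
  rw [R1, R1, Polynomial.map_mul, Polynomial.map_C, map_qc]
  simp

theorem r1_map {A' : Type*} [CommRing A'] [Algebra ℚ A'] (f : A →+* A') (m : ℕ) :
    (r1 A m).map f = r1 A' m := by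
  rw [r1, r1, poly2_map, R1_map]

theorem g2_map {A' : Type*} [CommRing A'] [Algebra ℚ A'] (f : A →+* A') (N m : ℕ) (e : A) :
    (g2 N m e).map f = g2 N m (f e) := by
  rw [g2, g2, poly2_map]
  congr 1
  rw [F2, F2, Gp, Gp, Tm, Tm]
  simp only [Polynomial.map_mul, Polynomial.map_C, Polynomial.map_add, Polynomial.map_sub,
    Polynomial.map_pow, Polynomial.map_one, Polynomial.map_X, map_mul f, map_add f, map_sub f,
    map_one f, map_natCast f, map_qc f]

end gen

/-! ### explicit formula for `ε = 0` -/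

theorem coeff_of_ode {M : ℕ} (hM : M ≠ 0) {u : ℂ⟦X⟧} {e : ℚ} (h0 : coeff 0 u = 1)
    (h : (1 - C (M : ℂ) * X) * derivative ℂ u = C (e : ℂ) * u) (μ : ℕ) :
    coeff μ u = (M : ℂ) ^ μ * ((hyp (e / M) μ : ℚ) : ℂ) := by
  induction μ with
  | zero => rw [h0, hyp_zero]; simp
  | succ μ ih =>
    have h1 := congrArg (coeff μ) h
    rw [sub_mul, one_mul, map_sub, coeff_C_mul, mul_assoc, coeff_C_mul, coeff_derivative, ih] at h1
    have h2 : coeff μ (X * derivative ℂ u) = μ * ((M : ℂ) ^ μ * ((hyp (e / M) μ : ℚ) : ℂ)) := by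
      rcases μ with _ | μ
      · simp
      · rw [mul_comm X, coeff_succ_mul_X, coeff_derivative, ih]
        push_cast
        ring
    rw [h2] at h1
    have h4 : ((((μ : ℚ) + 1) * hyp (e / M) (μ + 1) : ℚ) : ℂ) =
      (((e / M + μ) * hyp (e / M) μ : ℚ) : ℂ) := by rw [hyp_rec]
    push_cast at h4
    have h5 : ((μ : ℂ) + 1) ≠ 0 := by exact_mod_cast Nat.succ_ne_zero μ
    have h6 : (M : ℂ) ≠ 0 := by exact_mod_cast hM
    apply mul_left_cancel₀ h5
    rw [pow_succ]
    field_simp at h4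
    linear_combination h1 - (M : ℂ) ^ μ * h4

end

end Pool.Agent.helper59.LD
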