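import Pool.Agent.helper59.LD.YS

/-!
# The second variable at `ε = 0`: explicit values
-/

open PowerSeries

set_option linter.unusedSectionVars false

namespace Pool.Agent.helper59.LD

open LC

noncomputable section

/-- `(1 - M X)^{-1/M}` -/
def yb (M : ℕ) : ℂ⟦X⟧ := PowerSeries.mk fun μ => (M : ℂ) ^ μ * ((hyp (1 / M) μ : ℚ) : ℂ)

/-- `1 - M X` -/
def om (M : ℕ) : ℂ⟦X⟧ := 1 - C (M : ℂ) * X

theorem yb_zero (M : ℕ) : coeff 0 (yb M) = 1 := by
  rw [yb, coeff_mk, hyp_zero]; simp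

theorem om_zero (M : ℕ) : coeff 0 (om M) = 1 := by
  rw [om]; simp

theorem yb_ode {M : ℕ} (hM : M ≠ 0) : om M * derivative ℂ (yb M) = yb M := by
  ext μ
  rw [om, sub_mul, one_mul, map_sub, mul_assoc, coeff_C_mul, coeff_derivative]
  have h2 : coeff μ (X * derivative ℂ (yb M)) = μ * coeff μ (yb M) := by
    rcases μ with _ | μ
    · simp
    · rw [mul_comm X, coeff_succ_mul_X, coeff_derivative]
      push_cast
      ring
  rw [h2, yb, coeff_mk, coeff_mk]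
  have h4 : ((((μ : ℚ) + 1) * hyp (1 / M) (μ + 1) : ℚ) : ℂ) =
      (((1 / M + μ) * hyp (1 / M) μ : ℚ) : ℂ) := by rw [hyp_rec]
  push_cast at h4
  have h6 : (M : ℂ) ≠ 0 := by exact_mod_cast hM
  have h7 : (M : ℂ) * (1 / (M : ℂ)) = 1 := by field_simp
  rw [pow_succ]
  linear_combination (M : ℂ) ^ μ * (M : ℂ) * h4 + (M : ℂ) ^ μ * ((hyp (1 / M) μ : ℚ) : ℂ) * h7

/-- the reciprocal -/
def yi (M : ℕ) : ℂ⟦X⟧ := inv1 (yb M)

theorem yb_yi (M : ℕ) : yb M * yi M = 1 := inv1_mul (yb_zero M)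

theorem yi_zero (M : ℕ) : coeff 0 (yi M) = 1 := by
  have h := congrArg (coeff 0) (yb_yi M)
  rw [coeff_mul, Finset.Nat.antidiagonal_zero, Finset.sum_singleton, yb_zero, one_mul,
    coeff_one, if_pos rfl] at h
  exact h

theorem yi_ode {M : ℕ} (hM : M ≠ 0) : om M * derivative ℂ (yi M) = -yi M := by
  have h := congrArg (derivative ℂ) (yb_yi M)
  rw [Derivation.leibniz, Derivation.map_one_eq_zero] at h
  simp only [smul_eq_mul] at h
  have h1 := yb_ode hM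
  have h2 := yb_yi M
  linear_combination yi M * om M * h - yi M * yi M * h1 +
    (-(om M * derivative ℂ (yi M)) - yi M) * h2

theorem coeff_zero_pow {A : Type*} [CommRing A] {s : A⟦X⟧} (h : coeff 0 s = 1) (n : ℕ) :
    coeff 0 (s ^ n) = 1 := by
  rw [coeff_zero_eq_constantCoeff_apply] at h ⊢
  rw [map_pow, h, one_pow]

theorem om_deriv_pow {M : ℕ} {s : ℂ⟦X⟧} {c : ℂ} (h : om M * derivative ℂ s = C c * s) (n : ℕ) :
    om M * derivative ℂ (s ^ n) = C ((n : ℂ) * c) * s ^ n := by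
  rcases n with _ | n
  · rw [pow_zero, Derivation.map_one_eq_zero]; simp
  · rw [Derivation.leibniz_pow]
    simp only [Nat.add_sub_cancel, smul_eq_mul, nsmul_eq_mul, map_mul, map_natCast]
    linear_combination ((n + 1 : ℕ) : ℂ⟦X⟧) * s ^ n * h

/-- coefficients of `ȳ^a ȳ^{-b}` -/
theorem coeff_yb_yi {M : ℕ} (hM : M ≠ 0) (a b μ : ℕ) :
    coeff μ (yb M ^ a * yi M ^ b) =
      (M : ℂ) ^ μ * ((hyp (((a : ℚ) - b) / M) μ : ℚ) : ℂ) := by
  apply coeff_of_ode hM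
  · rw [coeff_mul, Finset.Nat.antidiagonal_zero, Finset.sum_singleton,
      coeff_zero_pow (yb_zero M), coeff_zero_pow (yi_zero M), mul_one]
  · have h1 := om_deriv_pow (M := M) (s := yb M) (c := 1) (by rw [yb_ode hM]; simp) a
    have h2 := om_deriv_pow (M := M) (s := yi M) (c := -1) (by rw [yi_ode hM]; simp) b
    rw [Derivation.leibniz]
    simp only [smul_eq_mul]
    push_cast
    rw [map_sub]
    rw [mul_one] at h1
    rw [mul_neg, mul_one, map_neg] at h2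
    change om M * _ = _
    linear_combination yb M ^ a * h2 + yi M ^ b * h1

theorem om_yb {M : ℕ} (hM : M ≠ 0) : om M * yb M ^ M = 1 := by
  have hs : (M : ℂ⟦X⟧) * yb M ^ M = om M * derivative ℂ (yb M ^ M) := by
    have h1 := om_deriv_pow (M := M) (s := yb M) (c := 1) (by rw [yb_ode hM]; simp) M
    rw [h1]
    simp
  apply derivative.ext
  · rw [Derivation.leibniz, Derivation.map_one_eq_zero]
    simp only [smul_eq_mul]
    rw [← hs]
    have : derivative ℂ (om M) = -(M : ℂ⟦X⟧) := by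
      rw [om, map_sub, Derivation.map_one_eq_zero, Derivation.leibniz, derivative_X,
        derivative_C]
      simp
    rw [this]
    ring
  · rw [← coeff_zero_eq_constantCoeff_apply, ← coeff_zero_eq_constantCoeff_apply, coeff_mul,
      Finset.Nat.antidiagonal_zero, Finset.sum_singleton, coeff_zero_pow (yb_zero M), om_zero]
    simp

/-- the coefficient of `(1 - M X) ȳ^a ȳ^{-b}` -/
theorem coeff_om_mul {M : ℕ} (hM : M ≠ 0) (a b μ : ℕ) :
    coeff (μ + 1) (om M * (yb M ^ a * yi M ^ b)) = (M : ℂ) ^ (μ + 1) *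
      (((((a : ℚ) - b) / M - 1) / (μ + 1) * hyp (((a : ℚ) - b) / M) μ : ℚ) : ℂ) := by
  have e : om M * (yb M ^ a * yi M ^ b) = yb M ^ a * yi M ^ b -
      C (M : ℂ) * ((yb M ^ a * yi M ^ b) * X) := by rw [om]; ring
  rw [e, map_sub, coeff_C_mul, coeff_succ_mul_X, coeff_yb_yi hM, coeff_yb_yi hM,
    ← hyp_sub_one, ← hyp_diff]
  push_cast
  ring

section base
variable {N m : ℕ}

/-- the solution -/
def y0 (N m : ℕ) : ℂ⟦X⟧ := yb (m * N) - 1

theorem aeval_opX {A : Type*} [CommRing A] (y : A⟦X⟧) (n : ℕ) :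
    Polynomial.aeval (y - 1) ((1 + Polynomial.X : Polynomial A) ^ n) = y ^ n := by
  rw [map_pow, map_add, map_one, Polynomial.aeval_X]
  congr 1
  ring

theorem aeval_y0_R1 (N m : ℕ) : Polynomial.aeval (y0 N m) (R1 ℂ m) =
    C (qc ℂ ((m : ℚ)⁻¹)) * (yb (m * N) ^ m - 1) := by
  rw [R1, map_mul, Polynomial.aeval_C, PowerSeries.algebraMap_apply, Algebra.algebraMap_self,
    RingHom.id_apply, map_sub, map_one, y0, aeval_opX]

theorem deriv_y0_R1 (hm : m ≠ 0) : derivative ℂ (Polynomial.aeval (y0 N m) (R1 ℂ m)) =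
    yb (m * N) ^ (m - 1) * derivative ℂ (yb (m * N)) := by
  rw [deriv_aeval, R1_deriv hm, y0, aeval_opX, map_sub, Derivation.map_one_eq_zero, sub_zero]

theorem isPsi_y0 (hN : N ≠ 0) (hm : m ≠ 0) :
    IsPsi (g2 N m (0 : ℂ)) (Polynomial.aeval (y0 N m) (R1 ℂ m)) := by
  have hM : m * N ≠ 0 := Nat.mul_ne_zero hm hN
  have hode := yb_ode hM
  have hpow : yb (m * N) ^ (m - 1) * yb (m * N) = yb (m * N) ^ m := by
    rw [← pow_succ, Nat.sub_add_cancel (Nat.pos_of_ne_zero hm)]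
  refine ⟨?_, ?_, ?_⟩
  · rw [aeval_y0_R1, X_dvd_iff, ← coeff_zero_eq_constantCoeff_apply, coeff_C_mul, map_sub,
      coeff_zero_pow (yb_zero _)]
    simp
  · have h1 := coeff_derivative (R := ℂ) (Polynomial.aeval (y0 N m) (R1 ℂ m)) 0
    have h2 := congrArg (coeff 0) hode
    rw [coeff_mul, Finset.Nat.antidiagonal_zero, Finset.sum_singleton, om_zero, one_mul,
      yb_zero] at h2
    rw [deriv_y0_R1 hm, coeff_mul, Finset.Nat.antidiagonal_zero, Finset.sum_singleton, h2,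
      coeff_zero_pow (yb_zero _)] at h1
    simpa using h1.symm
  · have hT := Tm_R1 hm (rfl : Polynomial.aeval (y0 N m) (R1 ℂ m) = _)
    rw [y0, aeval_opX] at hT
    rw [FF_g2 hN hm, F2, Gp, deriv_y0_R1 hm]
    have hom := om_yb hM
    have hz : om (m * N) ≠ 0 := fun h => by
      have := om_zero (m * N)
      rw [h] at this
      simp at this
    apply mul_left_cancel₀ hz
    rw [y0]
    simp only [map_mul, map_add, map_sub, map_pow, ← hT]
    simp only [Polynomial.aeval_C, PowerSeries.algebraMap_apply, Algebra.algebraMap_self,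
      RingHom.id_apply]
    have h1 := congrArg (C (R := ℂ)) (qc_inv (A := ℂ) hN)
    have h2 := congrArg (C (R := ℂ)) (qc_inv (A := ℂ) hm)
    simp only [map_mul, map_one, map_natCast, sub_zero, one_mul, zero_mul, add_zero, map_zero]
      at h1 h2 ⊢
    have h3 : om (m * N) = 1 - (m : ℂ⟦X⟧) * (N : ℂ⟦X⟧) * X := by
      rw [om]; simp
    have h5 : yb (m * N) ^ m = yb (m * N) ^ m := rfl
    have h6 : (yb (m * N) ^ m) ^ (N + 1) = yb (m * N) ^ m * yb (m * N) ^ (m * N) := by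
      rw [← pow_mul, ← pow_add]; ring_nf
    rw [h6]
    set q := C (R := ℂ) (qc ℂ (m : ℚ)⁻¹) with hq
    set p := C (R := ℂ) (qc ℂ (N : ℚ)⁻¹) with hp
    set Y := yb (m * N) ^ m with hY
    have h7 : om (m * N) * (X * (yb (m * N) ^ (m - 1) * derivative ℂ (yb (m * N)))) = X * Y := by
      rw [← hpow]
      linear_combination X * yb (m * N) ^ (m - 1) * hode
    rw [h7]
    linear_combination (-(q * p * Y)) * hom + q * p * Y * h3 -
      X * Y * (p * (N : ℂ⟦X⟧) * h2 + h1)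

theorem psi_y0 (hN : N ≠ 0) (hm : m ≠ 0) :
    Polynomial.aeval (y0 N m) (R1 ℂ m) = psi (g2 N m (0 : ℂ)) :=
  (isPsi_y0 hN hm).unique (isPsi_psi _)

theorem rec_y0 (hN : N ≠ 0) (hm : m ≠ 0) :
    rec' (psi (g2 N m (0 : ℂ))) = om (m * N) * yi (m * N) ^ m := by
  have hM : m * N ≠ 0 := Nat.mul_ne_zero hm hN
  have h1 := (isPsi_psi (g2 N m (0 : ℂ))).mul_rec
  have h2 : derivative ℂ (psi (g2 N m (0 : ℂ))) =
      yb (m * N) ^ (m - 1) * derivative ℂ (yb (m * N)) := by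
    rw [← psi_y0 hN hm, deriv_y0_R1 hm]
  have hpow : yb (m * N) ^ (m - 1) * yb (m * N) = yb (m * N) ^ m := by
    rw [← pow_succ, Nat.sub_add_cancel (Nat.pos_of_ne_zero hm)]
  have h3 : yb (m * N) ^ m * yi (m * N) ^ m = 1 := by rw [← mul_pow, yb_yi, one_pow]
  have h4 : derivative ℂ (psi (g2 N m (0 : ℂ))) * (om (m * N) * yi (m * N) ^ m) = 1 := by
    rw [h2, ← h3, ← hpow]
    linear_combination yb (m * N) ^ (m - 1) * yi (m * N) ^ m * yb_ode hM
  calc rec' (psi (g2 N m (0 : ℂ))) = (derivative ℂ (psi (g2 N m (0 : ℂ))) *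
        (om (m * N) * yi (m * N) ^ m)) * rec' (psi (g2 N m (0 : ℂ))) := by rw [h4, one_mul]
    _ = (om (m * N) * yi (m * N) ^ m) * (derivative ℂ (psi (g2 N m (0 : ℂ))) *
        rec' (psi (g2 N m (0 : ℂ)))) := by ring
    _ = _ := by rw [h1, mul_one]

theorem inv_y0 (hm : m ≠ 0) :
    inv1 (Polynomial.aeval (y0 N m) (Polynomial.derivative (FF (r1 ℂ m)))) =
      yi (m * N) ^ (m - 1) := by
  symm
  apply inv1_unique
  · rw [FF_r1 hm, R1_deriv hm, y0, aeval_opX, coeff_zero_pow (yb_zero _)]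
  · rw [FF_r1 hm, R1_deriv hm, y0, aeval_opX, ← mul_pow, yb_yi, one_pow]

theorem V1_y0 (hN : N ≠ 0) (hm : m ≠ 0) (b μ : ℕ) :
    V1 (g2 N m (0 : ℂ)) (y0 N m) ((1 + Polynomial.X) ^ b) μ =
      ((m * N : ℕ) : ℂ) ^ (μ + 1) * (((((b : ℚ) - m) / ((m * N : ℕ) : ℚ) - 1) / (μ + 1) *
        hyp (((b : ℚ) - m) / ((m * N : ℕ) : ℚ)) μ : ℚ) : ℂ) := by
  rw [← coeff_om_mul (Nat.mul_ne_zero hm hN), V1, rec_y0 hN hm, y0, aeval_opX]
  congr 1
  ring

theorem V2_y0 (hN : N ≠ 0) (hm : m ≠ 0) (c μ : ℕ) :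
    V2 (r1 ℂ m) (y0 N m) ((1 + Polynomial.X) ^ c) μ =
      ((m * N : ℕ) : ℂ) ^ μ *
        ((hyp (((c : ℚ) - (m - 1 : ℕ)) / ((m * N : ℕ) : ℚ)) μ : ℚ) : ℂ) := by
  rw [← coeff_yb_yi (Nat.mul_ne_zero hm hN), V2, inv_y0 hm, y0, aeval_opX]

theorem V3_y0 (hN : N ≠ 0) (hm : m ≠ 0) (a μ : ℕ) :
    V3 (r1 ℂ m) (g2 N m (0 : ℂ)) (y0 N m) ((1 + Polynomial.X) ^ a) μ =
      ((m * N : ℕ) : ℂ) ^ (μ + 1) *
        (((((a : ℚ) - (m - 1 + m : ℕ)) / ((m * N : ℕ) : ℚ) - 1) / (μ + 1) *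
          hyp (((a : ℚ) - (m - 1 + m : ℕ)) / ((m * N : ℕ) : ℚ)) μ : ℚ) : ℂ) := by
  rw [← coeff_om_mul (Nat.mul_ne_zero hm hN), V3, inv_y0 hm, rec_y0 hN hm, y0, aeval_opX]
  congr 1
  rw [pow_add]
  ring

theorem V4_y0 (hN : N ≠ 0) (hm : m ≠ 0) (e μ : ℕ) :
    V4 (y0 N m) e μ = ((m * N : ℕ) : ℂ) ^ μ * ∑ l ∈ Finset.range (e + 1),
      ((-1) ^ (e - l) * (e.choose l : ℂ)) *
        ((hyp ((l : ℚ) / ((m * N : ℕ) : ℚ)) μ : ℚ) : ℂ) := by
  have e1 : y0 N m ^ e = ∑ l ∈ Finset.range (e + 1), C ((-1) ^ (e - l) * (e.choose l : ℂ)) *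
      (yb (m * N) ^ l * yi (m * N) ^ 0) := by
    rw [y0, sub_eq_add_neg, add_pow]
    refine Finset.sum_congr rfl fun l _ => ?_
    simp only [map_mul, map_pow, map_neg, map_one, map_natCast, pow_zero]
    ring
  rw [V4, e1, map_sum, Finset.mul_sum]
  refine Finset.sum_congr rfl fun l _ => ?_
  rw [coeff_C_mul, coeff_yb_yi (Nat.mul_ne_zero hm hN), Nat.cast_zero, sub_zero]
  ring

end base

end

end Pool.Agent.helper59.LD
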